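import Pool.Agent.Lib.MP_77d3c1_ag.Space

/-!
# Basic lemmas on projective sets
-/

set_option autoImplicit false

open MvPolynomial

namespace Pool.Agent.Lib.MP_77d3c1_ag

universe u

namespace Amb

/-- A family indexed by the coordinates of a product. -/
def elim {A B : Amb} {α : Type*} (u : A.Idx → α) (v : B.Idx → α) : (Amb.prod A B).Idx → α :=
  (Sum.elim u v : A.Idx ⊕ B.Idx → α)

@[simp] theorem elim_inl {A B : Amb} {α : Type*} (u : A.Idx → α) (v : B.Idx → α) (i : A.Idx) :
    elim u v (inl i) = u i := rfl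

@[simp] theorem elim_inr {A B : Amb} {α : Type*} (u : A.Idx → α) (v : B.Idx → α) (i : B.Idx) :
    elim u v (inr i) = v i := rfl

theorem ext_idx {A B : Amb} {α : Type*} {f g : (Amb.prod A B).Idx → α}
    (h1 : ∀ i : A.Idx, f (inl i) = g (inl i)) (h2 : ∀ i : B.Idx, f (inr i) = g (inr i)) :
    f = g := by
  funext i
  rcases (i : A.Idx ⊕ B.Idx) with j | j
  · exact h1 j
  · exact h2 j

@[simp] theorem elim_eta {A B : Amb} {α : Type*} (f : (Amb.prod A B).Idx → α) :
    elim (fun i => f (inl i)) (fun i => f (inr i)) = f :=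
  ext_idx (fun _ => rfl) (fun _ => rfl)

theorem finiteIdx_prod {A B : Amb} [Finite A.Idx] [Finite B.Idx] : Finite (Amb.prod A B).Idx :=
  inferInstanceAs (Finite (A.Idx ⊕ B.Idx))

instance finiteIdx : (A : Amb) → Finite A.Idx
  | proj _ h => h
  | prod A B => by
      have := finiteIdx A
      have := finiteIdx B
      exact finiteIdx_prod

end Amb

variable {k : Type u} [Field k]

attribute [simp] dd_C dd_X dd_add dd_mul

/-- The directions in which the vector `v` moves when its homogeneous coordinates are rescaled. -/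
def Vert : (A : Amb) → (A.Idx → k) → Submodule k (A.Idx → k)
  | .proj κ _, v => Submodule.span k {(v : κ → k)}
  | .prod A B, v =>
      (Vert A (fun i => v (Amb.inl i))).comap (LinearMap.funLeft k k Amb.inl) ⊓
      (Vert B (fun i => v (Amb.inr i))).comap (LinearMap.funLeft k k Amb.inr)

theorem mem_vert : (A : Amb) → (v w : A.Idx → k) → (w ∈ Vert A v ↔ Radial A v w)
  | .proj κ _, v, w => by
      constructor
      · intro h
        obtain ⟨c, hc⟩ := Submodule.mem_span_singleton.1 h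
        exact ⟨c, fun i => (congrFun hc i).symm⟩
      · rintro ⟨c, hc⟩
        exact Submodule.mem_span_singleton.2 ⟨c, funext fun i => (hc i).symm⟩
  | .prod A B, v, w => and_congr (mem_vert A _ _) (mem_vert B _ _)

section dd

variable {τ : Type}

@[simp] theorem dd_zero (v w : τ → k) : dd (0 : MvPolynomial τ k) v w = 0 := by simp [dd]

@[simp] theorem dd_one (v w : τ → k) : dd (1 : MvPolynomial τ k) v w = 0 := by simp [dd]

@[simp] theorem dd_neg (f : MvPolynomial τ k) (v w : τ → k) :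
    dd (-f) v w = -dd f v w := by simp [dd]

@[simp] theorem dd_sub (f g : MvPolynomial τ k) (v w : τ → k) :
    dd (f - g) v w = dd f v w - dd g v w := by simp [dd]

@[simp] theorem dd_pow (f : MvPolynomial τ k) (n : ℕ) (v w : τ → k) :
    dd (f ^ n) v w = n * eval v f ^ (n - 1) * dd f v w := by
  simp [dd, Derivation.leibniz_pow]
  ring

theorem dd_sum {α : Type} (s : Finset α) (f : α → MvPolynomial τ k) (v w : τ → k) :
    dd (∑ i ∈ s, f i) v w = ∑ i ∈ s, dd (f i) v w := by simp [dd, map_sum]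

@[simp] theorem dd_zero_right (f : MvPolynomial τ k) (v : τ → k) : dd f v 0 = 0 := by
  have := dd_smul_right f v 0 0
  simpa using this

theorem eval_bind {τ' : Type} (Φ : τ → MvPolynomial τ' k) (f : MvPolynomial τ k) (v : τ' → k) :
    eval v (bind₁ Φ f) = eval (fun s => eval v (Φ s)) f := by
  induction f using MvPolynomial.induction_on with
  | C a => simp
  | add p q hp hq => simp only [map_add, hp, hq]
  | mul_X p s hp => simp only [map_mul, bind₁_X_right, hp, eval_X]

/-- The chain rule. -/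
theorem dd_bind {τ' : Type} (Φ : τ → MvPolynomial τ' k) (f : MvPolynomial τ k) (v w : τ' → k) :
    dd (bind₁ Φ f) v w = dd f (fun s => eval v (Φ s)) (fun s => dd (Φ s) v w) := by
  induction f using MvPolynomial.induction_on with
  | C a => simp
  | add p q hp hq => simp only [map_add, dd_add, hp, hq]
  | mul_X p s hp =>
    simp only [map_mul, bind₁_X_right, dd_mul, hp, dd_X, eval_X]
    rw [eval_bind]

end dd

theorem mem_tang {A : Amb} {S : Set (Pt k A)} {v w : A.Idx → k} :
    w ∈ tang S v ↔ ∀ f : MvPolynomial A.Idx k, (∀ u ∈ cone S, eval u f = 0) → dd f v w = 0 :=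
  Iff.rfl

theorem exists_over : (A : Amb) → (p : Pt k A) → ∃ v, Over A v p
  | .proj κ _, p => by
      let p' : Projectivization k (κ → k) := p
      exact ⟨p'.rep, p'.rep_nonzero, p'.mk_rep⟩
  | .prod A B, p => by
      obtain ⟨u, hu⟩ := exists_over A p.1
      obtain ⟨v, hv⟩ := exists_over B p.2
      exact ⟨Amb.elim u v, hu, hv⟩

theorem over_unique : (A : Amb) → (v : A.Idx → k) → (p q : Pt k A) → Over A v p → Over A v q →
    p = q
  | .proj _ _, _, _, _, ⟨_, h1⟩, ⟨_, h2⟩ => h1.symm.trans h2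
  | .prod A B, _, _, _, h1, h2 =>
      Prod.ext (over_unique A _ _ _ h1.1 h2.1) (over_unique B _ _ _ h1.2 h2.2)

section prod

variable {A B : Amb}

/-- Substitution of the second block of coordinates. -/
noncomputable def subR (f : MvPolynomial (Amb.prod A B).Idx k) (v : B.Idx → k) :
    MvPolynomial A.Idx k :=
  bind₁ (Amb.elim X (fun i => C (v i))) f

/-- Substitution of the first block of coordinates. -/
noncomputable def subL (f : MvPolynomial (Amb.prod A B).Idx k) (u : A.Idx → k) :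
    MvPolynomial B.Idx k :=
  bind₁ (Amb.elim (fun i => C (u i)) X) f

/-- A polynomial in the first block of coordinates. -/
noncomputable def incL (f : MvPolynomial A.Idx k) : MvPolynomial (Amb.prod A B).Idx k :=
  bind₁ (fun i => X (Amb.inl i)) f

/-- A polynomial in the second block of coordinates. -/
noncomputable def incR (f : MvPolynomial B.Idx k) : MvPolynomial (Amb.prod A B).Idx k :=
  bind₁ (fun i => X (Amb.inr i)) f

theorem eval_subR (f : MvPolynomial (Amb.prod A B).Idx k) (u : A.Idx → k) (v : B.Idx → k) :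
    eval u (subR f v) = eval (Amb.elim u v) f := by
  unfold subR
  rw [eval_bind]
  congr 2
  exact Amb.ext_idx (fun i => by simp) (fun i => by simp)

theorem eval_subL (f : MvPolynomial (Amb.prod A B).Idx k) (u : A.Idx → k) (v : B.Idx → k) :
    eval v (subL f u) = eval (Amb.elim u v) f := by
  unfold subL
  rw [eval_bind]
  congr 2
  exact Amb.ext_idx (fun i => by simp) (fun i => by simp)

theorem eval_incL (f : MvPolynomial A.Idx k) (v : (Amb.prod A B).Idx → k) :
    eval v (incL f) = eval (fun i => v (Amb.inl i)) f := by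
  unfold incL
  rw [eval_bind]
  simp

theorem eval_incR (f : MvPolynomial B.Idx k) (v : (Amb.prod A B).Idx → k) :
    eval v (incR f) = eval (fun i => v (Amb.inr i)) f := by
  unfold incR
  rw [eval_bind]
  simp

theorem dd_subR (f : MvPolynomial (Amb.prod A B).Idx k) (u a : A.Idx → k) (v : B.Idx → k) :
    dd (subR f v) u a = dd f (Amb.elim u v) (Amb.elim a 0) := by
  unfold subR
  rw [dd_bind]
  congr 1
  · exact Amb.ext_idx (fun i => by simp) (fun i => by simp)
  · exact Amb.ext_idx (fun i => by simp) (fun i => by simp)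

theorem dd_subL (f : MvPolynomial (Amb.prod A B).Idx k) (u : A.Idx → k) (v b : B.Idx → k) :
    dd (subL f u) v b = dd f (Amb.elim u v) (Amb.elim 0 b) := by
  unfold subL
  rw [dd_bind]
  congr 1
  · exact Amb.ext_idx (fun i => by simp) (fun i => by simp)
  · exact Amb.ext_idx (fun i => by simp) (fun i => by simp)

theorem dd_incL (f : MvPolynomial A.Idx k) (v w : (Amb.prod A B).Idx → k) :
    dd (incL f) v w = dd f (fun i => v (Amb.inl i)) (fun i => w (Amb.inl i)) := by
  unfold incL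
  rw [dd_bind]
  simp

theorem dd_incR (f : MvPolynomial B.Idx k) (v w : (Amb.prod A B).Idx → k) :
    dd (incR f) v w = dd f (fun i => v (Amb.inr i)) (fun i => w (Amb.inr i)) := by
  unfold incR
  rw [dd_bind]
  simp

theorem IsCl.pset {S : Set (Pt k A)} {S' : Set (Pt k B)} (h : IsCl S) (h' : IsCl S') :
    IsCl (pset S S') := by
  obtain ⟨T, rfl⟩ := h
  obtain ⟨T', rfl⟩ := h'
  refine ⟨(incL '' T) ∪ (incR '' T'), ?_⟩
  ext p
  constructor
  · rintro ⟨h1, h2⟩ f (⟨g, hg, rfl⟩ | ⟨g, hg, rfl⟩) v hv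
    · rw [eval_incL]; exact h1 g hg _ hv.1
    · rw [eval_incR]; exact h2 g hg _ hv.2
  · intro h
    constructor
    · intro f hf v hv
      obtain ⟨w, hw⟩ := exists_over B p.2
      have := h (incL f) (Or.inl ⟨f, hf, rfl⟩) (Amb.elim v w) ⟨hv, hw⟩
      rw [eval_incL] at this
      exact this
    · intro f hf v hv
      obtain ⟨w, hw⟩ := exists_over A p.1
      have := h (incR f) (Or.inr ⟨f, hf, rfl⟩) (Amb.elim w v) ⟨hw, hv⟩
      rw [eval_incR] at this
      exact this

/-- The points `p` such that `(p, q) ∈ S` for all `q ∈ Q` form a closed set. -/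
theorem IsCl.sliceR {S : Set (Pt k (.prod A B))} (h : IsCl S) (Q : Set (Pt k B)) :
    IsCl {p : Pt k A | ∀ q ∈ Q, ((p, q) : Pt k (.prod A B)) ∈ S} := by
  obtain ⟨T, rfl⟩ := h
  refine ⟨{g | ∃ f ∈ T, ∃ v ∈ cone Q, g = subR f v}, ?_⟩
  ext p
  constructor
  · rintro h g ⟨f, hf, v, ⟨q, hq, hv⟩, rfl⟩ u hu
    rw [eval_subR]
    exact h q hq f hf _ ⟨hu, hv⟩
  · intro h q hq f hf w hw
    have := h (subR f (fun i => w (Amb.inr i))) ⟨f, hf, _, ⟨q, hq, hw.2⟩, rfl⟩
      (fun i => w (Amb.inl i)) hw.1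
    rw [eval_subR, Amb.elim_eta] at this
    exact this

theorem IsCl.sliceL {S : Set (Pt k (.prod A B))} (h : IsCl S) (P : Set (Pt k A)) :
    IsCl {q : Pt k B | ∀ p ∈ P, ((p, q) : Pt k (.prod A B)) ∈ S} := by
  obtain ⟨T, rfl⟩ := h
  refine ⟨{g | ∃ f ∈ T, ∃ v ∈ cone P, g = subL f v}, ?_⟩
  ext q
  constructor
  · rintro h g ⟨f, hf, v, ⟨p, hp, hv⟩, rfl⟩ u hu
    rw [eval_subL]
    exact h p hp f hf _ ⟨hv, hu⟩
  · intro h p hp f hf w hw
    have := h (subL f (fun i => w (Amb.inl i))) ⟨f, hf, _, ⟨p, hp, hw.1⟩, rfl⟩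
      (fun i => w (Amb.inr i)) hw.2
    rw [eval_subL, Amb.elim_eta] at this
    exact this

theorem IsIrr.pset {S : Set (Pt k A)} {S' : Set (Pt k B)} (h : IsIrr S) (h' : IsIrr S') :
    IsIrr (pset S S') := by
  refine ⟨?_, ?_⟩
  · obtain ⟨p, hp⟩ := h.1
    obtain ⟨q, hq⟩ := h'.1
    exact ⟨(p, q), hp, hq⟩
  · intro S₁ S₂ h1 h2 hc
    have key : ∀ q ∈ S', S ⊆ {p : Pt k A | ∀ q' ∈ ({q} : Set (Pt k B)),
        ((p, q') : Pt k (.prod A B)) ∈ S₁} ∨ S ⊆ {p : Pt k A | ∀ q' ∈ ({q} : Set (Pt k B)),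
        ((p, q') : Pt k (.prod A B)) ∈ S₂} := by
      intro q hq
      apply h.2 _ _ (h1.sliceR {q}) (h2.sliceR {q})
      intro p hp
      rcases hc (show ((p, q) : Pt k (.prod A B)) ∈ _ from ⟨hp, hq⟩) with h3 | h3
      · left
        rintro q' rfl
        exact h3
      · right
        rintro q' rfl
        exact h3
    have key2 := h'.2 _ _ (h1.sliceL S) (h2.sliceL S) (by
      intro q hq
      rcases key q hq with h3 | h3
      · left
        intro p hp
        exact h3 hp q rfl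
      · right
        intro p hp
        exact h3 hp q rfl)
    rcases key2 with h3 | h3
    · left
      rintro ⟨p, q⟩ ⟨hp, hq⟩
      exact h3 hq p hp
    · right
      rintro ⟨p, q⟩ ⟨hp, hq⟩
      exact h3 hq p hp

theorem tang_pset {S : Set (Pt k A)} {S' : Set (Pt k B)} {v : (Amb.prod A B).Idx → k}
    (hv : v ∈ cone (pset S S')) (w : (Amb.prod A B).Idx → k) :
    w ∈ tang (pset S S') v ↔ (fun i => w (Amb.inl i)) ∈ tang S (fun i => v (Amb.inl i)) ∧
      (fun i => w (Amb.inr i)) ∈ tang S' (fun i => v (Amb.inr i)) := by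
  obtain ⟨⟨p, q⟩, ⟨hp, hq⟩, hvl, hvr⟩ := hv
  constructor
  · intro hw
    constructor
    · intro f hf
      have := hw (incL f) (by
        rintro u ⟨r, hr, hu⟩
        rw [eval_incL]
        exact hf _ ⟨r.1, hr.1, hu.1⟩)
      rw [dd_incL] at this
      exact this
    · intro f hf
      have := hw (incR f) (by
        rintro u ⟨r, hr, hu⟩
        rw [eval_incR]
        exact hf _ ⟨r.2, hr.2, hu.2⟩)
      rw [dd_incR] at this
      exact this
  · rintro ⟨h1, h2⟩ f hf
    have e : w = Amb.elim (fun i => w (Amb.inl i)) 0 + Amb.elim 0 (fun i => w (Amb.inr i)) :=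
      Amb.ext_idx (fun i => by simp) (fun i => by simp)
    rw [e, dd_add_right]
    have e1 := h1 (subR f (fun i => v (Amb.inr i))) (by
      rintro u ⟨p', hp', hu⟩
      rw [eval_subR]
      exact hf _ ⟨(p', q), ⟨hp', hq⟩, hu, hvr⟩)
    have e2 := h2 (subL f (fun i => v (Amb.inl i))) (by
      rintro u ⟨q', hq', hu⟩
      rw [eval_subL]
      exact hf _ ⟨(p, q'), ⟨hp, hq'⟩, hvl, hu⟩)
    rw [dd_subR, Amb.elim_eta] at e1
    rw [dd_subL, Amb.elim_eta] at e2
    rw [e1, e2, add_zero]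

/-- The tangent space of a product is the product of the tangent spaces. -/
def tangPsetEquiv {S : Set (Pt k A)} {S' : Set (Pt k B)} {v : (Amb.prod A B).Idx → k}
    (hv : v ∈ cone (pset S S')) :
    tang (pset S S') v ≃ₗ[k]
      (tang S (fun i => v (Amb.inl i))) × (tang S' (fun i => v (Amb.inr i))) where
  toFun w := (⟨fun i => w.1 (Amb.inl i), ((tang_pset hv _).1 w.2).1⟩,
    ⟨fun i => w.1 (Amb.inr i), ((tang_pset hv _).1 w.2).2⟩)
  invFun p := ⟨Amb.elim p.1.1 p.2.1, (tang_pset hv _).2 ⟨p.1.2, p.2.2⟩⟩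
  map_add' _ _ := rfl
  map_smul' _ _ := rfl
  left_inv w := Subtype.ext (Amb.elim_eta w.1)
  right_inv _ := rfl

theorem finrank_tang_pset {S : Set (Pt k A)} {S' : Set (Pt k B)} {v : (Amb.prod A B).Idx → k}
    (hv : v ∈ cone (pset S S')) :
    Module.finrank k (tang (pset S S') v) =
      Module.finrank k (tang S (fun i => v (Amb.inl i))) +
      Module.finrank k (tang S' (fun i => v (Amb.inr i))) := by
  rw [LinearEquiv.finrank_eq (tangPsetEquiv hv), Module.finrank_prod]

end prod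

theorem isReg_id {A : Amb} (S : Set (Pt k A)) : IsReg S (fun p => p.1) :=
  fun p => ⟨1, X, fun v _ => by simp, fun q v hv _ => by
    have : (fun i => eval v (X i)) = v := by funext i; simp
    rw [this]
    exact hv⟩

theorem isReg_comp {V W U : SPV k} (φ : Mor V W) (ψ : Mor W U) :
    IsReg V.carrier (fun p => (ψ.fn (φ.fn p)).1) := by
  intro p
  obtain ⟨h, Ψ, h1, h2⟩ := φ.reg p
  obtain ⟨h', Ψ', h1', h2'⟩ := ψ.reg (φ.fn p)
  refine ⟨h * bind₁ Ψ h', fun i => bind₁ Ψ (Ψ' i), ?_, ?_⟩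
  · intro v hv
    rw [map_mul, eval_bind]
    exact mul_ne_zero (h1 v hv) (h1' _ (h2 p v hv (h1 v hv)))
  · intro q v hv hne
    rw [map_mul, eval_bind] at hne
    have hh : eval v h ≠ 0 := left_ne_zero_of_mul hne
    have hh' := right_ne_zero_of_mul hne
    have := h2' (φ.fn q) _ (h2 q v hv hh) hh'
    simp only [eval_bind]
    exact this

theorem cone_pset {A B : Amb} {S : Set (Pt k A)} {S' : Set (Pt k B)}
    {v : (Amb.prod A B).Idx → k} : v ∈ cone (pset S S') ↔
      (fun i => v (Amb.inl i)) ∈ cone S ∧ (fun i => v (Amb.inr i)) ∈ cone S' := by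
  constructor
  · rintro ⟨⟨p, q⟩, ⟨hp, hq⟩, h1, h2⟩
    exact ⟨⟨p, hp, h1⟩, ⟨q, hq, h2⟩⟩
  · rintro ⟨⟨p, hp, h1⟩, ⟨q, hq, h2⟩⟩
    exact ⟨(p, q), ⟨hp, hq⟩, h1, h2⟩

theorem smooth_prod (V W : SPV k) : ∀ v ∈ cone (pset V.carrier W.carrier),
    tdim (pset V.carrier W.carrier) v = V.dim + W.dim + (Amb.prod V.amb W.amb).rk := by
  intro v hv
  have h1 : tdim V.carrier _ = _ := V.smooth _ (cone_pset.1 hv).1
  have h2 : tdim W.carrier _ = _ := W.smooth _ (cone_pset.1 hv).2
  unfold tdim at h1 h2 ⊢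
  rw [finrank_tang_pset hv, h1, h2]
  show _ = V.dim + W.dim + (V.amb.rk + W.amb.rk)
  omega

theorem isReg_fst {A B : Amb} (S : Set (Pt k A)) (S' : Set (Pt k B)) :
    IsReg (pset S S') (fun p => p.1.1) :=
  fun p => ⟨1, fun i => X (Amb.inl i), fun v _ => by simp, fun q v hv _ => by
    have e : (fun i => eval v (X (Amb.inl i) : MvPolynomial (Amb.prod A B).Idx k)) =
        fun i => v (Amb.inl i) := funext fun i => eval_X _
    exact (congrArg (fun f => Over A f q.1.1) e).mpr hv.1⟩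

theorem isReg_snd {A B : Amb} (S : Set (Pt k A)) (S' : Set (Pt k B)) :
    IsReg (pset S S') (fun p => p.1.2) :=
  fun p => ⟨1, fun i => X (Amb.inr i), fun v _ => by simp, fun q v hv _ => by
    have e : (fun i => eval v (X (Amb.inr i) : MvPolynomial (Amb.prod A B).Idx k)) =
        fun i => v (Amb.inr i) := funext fun i => eval_X _
    exact (congrArg (fun f => Over B f q.1.2) e).mpr hv.2⟩

theorem isReg_pr {U V W : SPV k} (φ : Mor U V) (ψ : Mor U W) :
    IsReg (B := .prod V.amb W.amb) U.carrier (fun p => ((φ.fn p).1, (ψ.fn p).1)) := by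
  intro p
  obtain ⟨h, Ψ, h1, h2⟩ := φ.reg p
  obtain ⟨h', Ψ', h1', h2'⟩ := ψ.reg p
  refine ⟨h * h', Amb.elim Ψ Ψ', ?_, ?_⟩
  · intro v hv
    rw [map_mul]
    exact mul_ne_zero (h1 v hv) (h1' v hv)
  · intro q v hv hne
    rw [map_mul] at hne
    exact ⟨h2 q v hv (left_ne_zero_of_mul hne), h2' q v hv (right_ne_zero_of_mul hne)⟩

theorem pset_mono {A B : Amb} {S T : Set (Pt k A)} {S' T' : Set (Pt k B)} (h : S ⊆ T)
    (h' : S' ⊆ T') : pset S S' ⊆ pset T T' := fun _ hp => ⟨h hp.1, h' hp.2⟩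

theorem HasDim.pset {A B : Amb} {S : Set (Pt k A)} {S' : Set (Pt k B)} {d d' : ℕ}
    (h : HasDim S d) (h' : HasDim S' d') : HasDim (pset S S') (d + d') := by
  obtain ⟨h1, v, hv, h2⟩ := h
  obtain ⟨h1', v', hv', h2'⟩ := h'
  constructor
  · intro w hw
    unfold tdim at *
    rw [finrank_tang_pset hw]
    have a1 := h1 _ (cone_pset.1 hw).1
    have a2 := h1' _ (cone_pset.1 hw).2
    show d + d' + (A.rk + B.rk) ≤ _
    omega
  · have hw : Amb.elim v v' ∈ cone (MP_77d3c1_ag.pset S S') := cone_pset.2 ⟨hv, hv'⟩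
    refine ⟨_, hw, ?_⟩
    unfold tdim at *
    rw [finrank_tang_pset hw]
    show Module.finrank k (tang S v) + Module.finrank k (tang S' v') = d + d' + (A.rk + B.rk)
    omega

theorem hasDim_whole (V : SPV k) : HasDim V.carrier V.dim := by
  refine ⟨fun v hv => (V.smooth v hv).ge, ?_⟩
  obtain ⟨p, hp⟩ := V.irred.1
  obtain ⟨v, hv⟩ := exists_over V.amb p
  exact ⟨v, ⟨p, hp, hv⟩, V.smooth v ⟨p, hp, hv⟩⟩

theorem Mor.ext {V W : SPV k} {φ ψ : Mor V W} (h : ∀ p, φ.fn p = ψ.fn p) : φ = ψ := by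
  cases φ with
  | mk f hf =>
    cases ψ with
    | mk g hg =>
      have : f = g := funext h
      subst this
      rfl

theorem HasDim.unique {A : Amb} {S : Set (Pt k A)} {d d' : ℕ} (h : HasDim S d)
    (h' : HasDim S d') : d = d' := by
  obtain ⟨h1, v, hv, h2⟩ := h
  obtain ⟨h1', v', hv', h2'⟩ := h'
  have := h1 v' hv'
  have := h1' v hv
  omega

theorem Sub.ext {V : SPV k} {Z Z' : Sub V} (h : Z.carrier = Z'.carrier) : Z = Z' := by
  cases Z with
  | mk S h1 h2 h3 d h4 =>
    cases Z' with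
    | mk S' h1' h2' h3' d' h4' =>
      dsimp only at h
      subst h
      have := h4.unique h4'
      subst this
      rfl

end Pool.Agent.Lib.MP_77d3c1_ag
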