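import Pool.Agent.Lib.MP_77d3c1_ag.Variety

/-!
# Regular maps
-/

set_option autoImplicit false

open MvPolynomial

namespace Pool.Agent.Lib.MP_77d3c1_ag

universe u

variable {k : Type u} [Field k]

/-- Rescalings of the homogeneous coordinates. -/
def Scal : (B : Amb) → (B.Idx → k) → Prop
  | .proj _ _, c => ∃ t : k, t ≠ 0 ∧ c = fun _ => t
  | .prod A B, c => Scal A (fun i => c (Amb.inl i)) ∧ Scal B (fun i => c (Amb.inr i))

theorem Scal.over : (B : Amb) → (c u : B.Idx → k) → (q : Pt k B) → Scal B c → Over B u q →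
    Over B (fun i => c i * u i) q
  | .proj κ hκ, c, u, q, h, hu => by
      obtain ⟨t, ht, rfl⟩ := h
      obtain ⟨h0, hq⟩ := hu
      refine ⟨fun h => h0 ?_, ?_⟩
      · funext i
        have := congrFun h i
        exact (mul_eq_zero.1 this).resolve_left ht
      · rw [← hq]
        exact (Projectivization.mk_eq_mk_iff' k _ _ _ _).2 ⟨t, rfl⟩
  | .prod A B, c, u, q, h, hu =>
      ⟨Scal.over A _ _ _ h.1 hu.1, Scal.over B _ _ _ h.2 hu.2⟩

theorem exists_scal : (B : Amb) → (u w : B.Idx → k) → (q : Pt k B) → Over B u q → Over B w q →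
    ∃ c : B.Idx → k, Scal B c ∧ w = fun i => c i * u i
  | .proj κ hκ, u, w, q, hu, hw => by
      obtain ⟨h0, hq⟩ := hu
      obtain ⟨h0', hq'⟩ := hw
      rw [← hq] at hq'
      obtain ⟨t, ht⟩ := (Projectivization.mk_eq_mk_iff' k _ _ h0' h0).1 hq'
      refine ⟨fun _ => t, ⟨t, ?_, rfl⟩, ?_⟩
      · rintro rfl
        rw [zero_smul] at ht
        exact h0' ht.symm
      · exact ht.symm
  | .prod A B, u, w, q, hu, hw => by
      obtain ⟨c, hc, h1⟩ := exists_scal A _ _ _ hu.1 hw.1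
      obtain ⟨d, hd, h2⟩ := exists_scal B _ _ _ hu.2 hw.2
      exact ⟨Amb.elim c d, ⟨hc, hd⟩, Amb.ext_idx (fun i => congrFun h1 i) (fun i => congrFun h2 i)⟩

/-- A local representation may be chosen so as to take a prescribed value. -/
theorem LocRep.exists_value {A B : Amb} {S : Set (Pt k A)} {φ : S → Pt k B}
    {h : MvPolynomial A.Idx k} {Ψ : B.Idx → MvPolynomial A.Idx k} (H : LocRep S φ h Ψ)
    {p : S} {v : A.Idx → k} (hv : Over A v p.1) (h0 : eval v h ≠ 0) {w : B.Idx → k}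
    (hw : Over B w (φ p)) :
    ∃ Ψ' : B.Idx → MvPolynomial A.Idx k, LocRep S φ h Ψ' ∧ (fun i => eval v (Ψ' i)) = w := by
  obtain ⟨c, hc, rfl⟩ := exists_scal B _ w (φ p) (H p v hv h0) hw
  refine ⟨fun i => C (c i) * Ψ i, ?_, ?_⟩
  · intro q u hu hne
    have := hc.over B c _ _ (H q u hu hne)
    simpa only [map_mul, eval_C] using this
  · funext i
    simp

/-- The inverse image of a closed set by a regular map is closed. -/
theorem IsReg.isCl_preimage {A B : Amb} {S : Set (Pt k A)} (hS : IsCl S) {φ : S → Pt k B}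
    (hφ : IsReg S φ) {T : Set (Pt k B)} (hT : IsCl T) :
    IsCl {p : Pt k A | ∃ hp : p ∈ S, φ ⟨p, hp⟩ ∈ T} := by
  obtain ⟨F, rfl⟩ := hT
  obtain ⟨F', rfl⟩ := hS
  refine ⟨F' ∪ {g | ∃ h Ψ, LocRep (zset F') φ h Ψ ∧ ∃ f ∈ F, g = h * bind₁ Ψ f}, ?_⟩
  ext p
  constructor
  · rintro ⟨hp, hpF⟩ g (hg | ⟨h, Ψ, h2, f, hf, rfl⟩) v hv
    · exact hp g hg v hv
    · rw [map_mul, eval_bind]
      by_cases h0 : eval v h = 0
      · rw [h0, zero_mul]
      · rw [hpF f hf _ (h2 ⟨p, hp⟩ v hv h0), mul_zero]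
  · intro hp
    have hpS : p ∈ zset F' := fun f hf v hv => hp f (Or.inl hf) v hv
    refine ⟨hpS, ?_⟩
    intro f hf w hw
    obtain ⟨v, hv⟩ := exists_over A p
    obtain ⟨h, Ψ, h1, h2⟩ := hφ ⟨p, hpS⟩
    obtain ⟨Ψ', h2', h3⟩ := h2.exists_value (p := ⟨p, hpS⟩) hv (h1 v hv) hw
    have e := hp _ (Or.inr ⟨h, Ψ', h2', f, hf, rfl⟩) v hv
    rw [map_mul, eval_bind] at e
    have e1 := (mul_eq_zero.1 e).resolve_left (h1 v hv)
    rw [← h3]
    exact e1

/-- The image of an irreducible set by a regular map is irreducible. -/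
theorem IsIrr.image {A B : Amb} {S : Set (Pt k A)} (hS : IsCl S) (hS' : IsIrr S) {φ : S → Pt k B}
    (hφ : IsReg S φ) : IsIrr (Set.range φ) := by
  obtain ⟨p, hp⟩ := hS'.1
  refine ⟨⟨_, ⟨⟨p, hp⟩, rfl⟩⟩, ?_⟩
  intro S₁ S₂ h1 h2 hc
  rcases hS'.2 _ _ (hφ.isCl_preimage hS h1) (hφ.isCl_preimage hS h2) (by
    intro q hq
    rcases hc ⟨⟨q, hq⟩, rfl⟩ with h | h
    · exact Or.inl ⟨hq, h⟩
    · exact Or.inr ⟨hq, h⟩) with h | h
  · left
    rintro _ ⟨q, rfl⟩
    exact (h q.2).2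
  · right
    rintro _ ⟨q, rfl⟩
    exact (h q.2).2

end Pool.Agent.Lib.MP_77d3c1_ag
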