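import Pool.Agent.Lib.MP_77d3c1_ag.Problem
import Pool.Agent.Lib.MP_77d3c1_ag.Regular

/-!
# A bundled form of Weil cohomology theories, for the proofs
-/

set_option autoImplicit false

open MvPolynomial

namespace Pool.Agent.Lib.MP_77d3c1_ag

universe u v w

variable {k : Type u} [Field k] {K : Type v} [Field K]

/-- A Weil cohomology theory for smooth projective varieties over `k`, with coefficients
in `K`. -/
structure Weil (k : Type u) [Field k] (K : Type v) [Field K] extends CohData.{u, v, w} k K where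
  isWeil : toCohData.IsWeil

theorem CohData.IsNorm.nonneg {W : CohData.{u, v, w} k K} {V : SPV k} {d : ℕ} {N : W.Num V d → ℝ}
    (hN : W.IsNorm N) (x : W.Num V d) : 0 ≤ N x := by
  have h0 : N 0 = 0 := by
    have := hN.smul 0 0
    rwa [zero_smul, abs_zero, zero_mul] at this
  have h1 := hN.add_le x (-x)
  have h2 : N (-x) = N x := by
    have := hN.smul (-1) x
    rwa [neg_one_smul, abs_neg, abs_one, one_mul] at this
  rw [add_neg_cancel, h0, h2] at h1
  linarith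

namespace Weil

variable (W : Weil.{u, v, w} k K)

theorem mul_mem (V) (i j : ℕ) (x y : W.H V) (hx : x ∈ W.gr V i) (hy : y ∈ W.gr V j) :
    x * y ∈ W.gr V (i + j) := W.isWeil.isGraded.mul_mem i j x y hx hy

theorem mul_comm (V) (i j : ℕ) (x y : W.H V) (hx : x ∈ W.gr V i) (hy : y ∈ W.gr V j) :
    x * y = (-1 : K) ^ (i * j) • (y * x) := W.isWeil.isGraded.mul_comm i j x y hx hy

theorem vanish (V) (i : ℕ) (h : 2 * V.dim < i) : W.gr V i = ⊥ := W.isWeil.isGraded.vanish V i h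

theorem isInternal (V) : DirectSum.IsInternal (W.gr V) := W.isWeil.isGraded.isInternal V

theorem one_mem (V) : (1 : W.H V) ∈ W.gr V 0 := W.isWeil.isGraded.one_mem V

theorem finite (V) : Module.Finite K (W.H V) := W.isWeil.isGraded.finite V

theorem pull_gr {V U : SPV k} (φ : Mor V U) (i : ℕ) (x : W.H U) (hx : x ∈ W.gr U i) :
    W.pull φ x ∈ W.gr V i := W.isWeil.isFunctorial.pull_gr φ i x hx

theorem pull_id (V : SPV k) (x : W.H V) : W.pull (Mor.id V) x = x :=
  W.isWeil.isFunctorial.pull_id x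

theorem pull_comp {V U T : SPV k} (ψ : Mor U T) (φ : Mor V U) (x : W.H T) :
    W.pull (ψ.comp φ) x = W.pull φ (W.pull ψ x) := W.isWeil.isFunctorial.pull_comp ψ φ x

theorem tr_gr (V) (i : ℕ) (x : W.H V) (h : i ≠ 2 * V.dim) (hx : x ∈ W.gr V i) : W.tr V x = 0 :=
  W.isWeil.hasDuality.tr_gr i x h hx

theorem tr_inj (V) (x : W.H V) (hx : x ∈ W.gr V (2 * V.dim)) (h : W.tr V x = 0) : x = 0 :=
  W.isWeil.hasDuality.tr_inj x hx h

theorem duality (V) (x : W.H V) (h : ∀ y, W.tr V (x * y) = 0) : x = 0 :=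
  W.isWeil.hasDuality.duality x h

theorem span (V U : SPV k) (z : W.H (V.prod U)) : z ∈ Submodule.span K
    (Set.range fun p : W.H V × W.H U =>
      W.pull (Mor.fst V U) p.1 * W.pull (Mor.snd V U) p.2) :=
  W.isWeil.hasKunneth.span z

theorem finrank_prod (V U : SPV k) : Module.finrank K (W.H (V.prod U)) =
    Module.finrank K (W.H V) * Module.finrank K (W.H U) := W.isWeil.hasKunneth.rank V U

theorem tr_prod (V U : SPV k) (x : W.H V) (y : W.H U) :
    W.tr (V.prod U) (W.pull (Mor.fst V U) x * W.pull (Mor.snd V U) y) = W.tr V x * W.tr U y :=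
  W.isWeil.hasKunneth.tr_ext x y

theorem cl_gr {V : SPV k} (Z : Sub V) : W.cl Z ∈ W.gr V (2 * (V.dim - Z.dim)) :=
  W.isWeil.hasCycles.cl_gr Z

theorem cl_whole (V : SPV k) : W.cl (Sub.whole V) = 1 := W.isWeil.hasCycles.cl_whole V

theorem cl_point {V : SPV k} (Z : Sub V) (p : Pt k V.amb) (h : Z.carrier = {p}) :
    W.tr V (W.cl Z) = 1 := W.isWeil.hasCycles.cl_point Z p h

theorem cl_prod {V U : SPV k} (Z : Sub V) (Y : Sub U) :
    W.cl (Z.prod Y) = W.pull (Mor.fst V U) (W.cl Z) * W.pull (Mor.snd V U) (W.cl Y) :=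
  W.isWeil.hasCycles.cl_prod Z Y

theorem cl_image {V U : SPV k} (φ : Mor V U) (ρ : Mor U V) (h : ρ.comp φ = Mor.id V)
    (Z : Sub U) (hZ : Z.carrier = Set.range (fun p => ((φ.fn p : U.carrier) : Pt k U.amb)))
    (x : W.H U) : W.tr U (W.cl Z * x) = W.tr V (W.pull φ x) :=
  W.isWeil.hasCycles.cl_image φ ρ h Z hZ x

theorem cl_mul {V : SPV k} (Z Y : Sub V) :
    W.cl Z * W.cl Y ∈ AddSubgroup.closure (Set.range (W.cl (V := V))) :=
  W.isWeil.hasCycles.cl_mul Z Y

theorem cl_transversal {V : SPV k} (Z Y : Sub V) (h : Z.dim + Y.dim = V.dim)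
    (h1 : (Z.carrier ∩ Y.carrier).Finite)
    (h2 : ∀ v ∈ cone (Z.carrier ∩ Y.carrier),
      tang Z.carrier v ⊓ tang Y.carrier v ≤ Vert V.amb v) :
    W.tr V (W.cl Z * W.cl Y) = ((Z.carrier ∩ Y.carrier).ncard : K) :=
  W.isWeil.hasIntersections.cl_transversal Z Y h
    ⟨h1, fun v hv w hZ hY => (mem_vert _ _ _).1 (h2 v hv ⟨hZ, hY⟩)⟩

theorem cl_linearEquiv {V : SPV k} {κ : Type} {h : Finite κ} (φ : V.carrier → Pt k (.proj κ h))
    (hφ : IsReg V.carrier φ) (ℓ ℓ' : (κ → k) →ₗ[k] k) {ι ι' : Type} [Fintype ι] [Fintype ι']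
    (S : ι → Sub V) (S' : ι' → Sub V) (hS : IsSection V φ ℓ S) (hS' : IsSection V φ ℓ' S') :
    ∑ i, W.cl (S i) = ∑ i, W.cl (S' i) :=
  W.isWeil.hasIntersections.cl_linearEquiv φ hφ ℓ ℓ' S S' hS hS'

end Weil

end Pool.Agent.Lib.MP_77d3c1_ag
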