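import Pool.Agent.Lib.MP_77d3c1_ag.Bundle

/-!
# Computations in a Weil cohomology theory
-/

set_option autoImplicit false

open MvPolynomial

namespace Pool.Agent.Lib.MP_77d3c1_ag

universe u v w

variable {k : Type u} [Field k] {K : Type v} [Field K]

namespace Weil

variable (W : Weil.{u, v, w} k K)

theorem ext_tr {V : SPV k} {x x' : W.H V} (h : ∀ y, W.tr V (x * y) = W.tr V (x' * y)) : x = x' := by
  have : x - x' = 0 := by
    apply W.duality
    intro y
    rw [sub_mul, map_sub, h y, sub_self]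
  exact sub_eq_zero.1 this

theorem hom_induction {V : SPV k} {P : W.H V → Prop} (x : W.H V)
    (hom : ∀ i, ∀ x ∈ W.gr V i, P x) (zero : P 0) (add : ∀ x y, P x → P y → P (x + y)) : P x := by
  have h : x ∈ ⨆ i, W.gr V i := by
    rw [(W.isInternal V).submodule_iSup_eq_top]
    trivial
  exact Submodule.iSup_induction _ (motive := P) h hom zero add

theorem kunneth_induction {V U : SPV k} {P : W.H (V.prod U) → Prop} (x : W.H (V.prod U))
    (hom : ∀ i j, ∀ a ∈ W.gr V i, ∀ b ∈ W.gr U j,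
      P (W.pull (Mor.fst V U) a * W.pull (Mor.snd V U) b))
    (zero : P 0) (add : ∀ x y, P x → P y → P (x + y)) : P x := by
  have key : ∀ a b, P (W.pull (Mor.fst V U) a * W.pull (Mor.snd V U) b) := by
    intro a b
    refine W.hom_induction
      (P := fun a => P (W.pull (Mor.fst V U) a * W.pull (Mor.snd V U) b)) a ?_ ?_ ?_
    · intro i a ha
      refine W.hom_induction
        (P := fun b => P (W.pull (Mor.fst V U) a * W.pull (Mor.snd V U) b)) b ?_ ?_ ?_
      · intro j b hb
        exact hom i j a ha b hb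
      · rw [map_zero, mul_zero]; exact zero
      · intro x y hx hy
        rw [map_add, mul_add]
        exact add _ _ hx hy
    · rw [map_zero, zero_mul]; exact zero
    · intro x y hx hy
      rw [map_add, add_mul]
      exact add _ _ hx hy
  have main : ∀ c : K, P (c • x) := by
    refine Submodule.span_induction (p := fun x _ => ∀ c : K, P (c • x)) ?_ ?_ ?_ ?_
      (W.span V U x)
    · rintro _ ⟨⟨a, b⟩, rfl⟩ c
      have := key (c • a) b
      rw [map_smul, smul_mul_assoc] at this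
      exact this
    · intro c
      rw [smul_zero]
      exact zero
    · intro x y _ _ hx hy c
      rw [smul_add]
      exact add _ _ (hx c) (hy c)
    · intro c' x _ hx c
      rw [smul_smul]
      exact hx _
  have := main 1
  rwa [one_smul] at this

/-- Classes of even degree are central. -/
theorem even_comm {V : SPV k} {i : ℕ} (hi : Even i) {x : W.H V} (hx : x ∈ W.gr V i) (y : W.H V) :
    x * y = y * x := by
  refine W.hom_induction (P := fun y => x * y = y * x) y ?_ ?_ ?_
  · intro j y hy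
    rw [W.mul_comm V i j x y hx hy, (hi.mul_right j).neg_one_pow, one_smul]
  · rw [mul_zero, zero_mul]
  · intro a b ha hb
    rw [mul_add, add_mul, ha, hb]

theorem cl_comm {V : SPV k} (Z : Sub V) (y : W.H V) : W.cl Z * y = y * W.cl Z :=
  W.even_comm ⟨V.dim - Z.dim, by ring⟩ (W.cl_gr Z) y

variable {X : SPV k}

/-- The class of a point. -/
structure IsPointClass (V : SPV k) (π : W.H V) : Prop where
  mem : π ∈ W.gr V (2 * V.dim)
  tr : W.tr V π = 1

variable {W}

namespace IsPointClass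

variable {V : SPV k} {π : W.H V}

theorem comm (hπ : W.IsPointClass V π) (y : W.H V) : π * y = y * π :=
  W.even_comm ⟨V.dim, by ring⟩ hπ.mem y

theorem eq_smul (hπ : W.IsPointClass V π) {x : W.H V} (hx : x ∈ W.gr V (2 * V.dim)) :
    x = W.tr V x • π := by
  have h : x - W.tr V x • π = 0 := by
    apply W.tr_inj V
    · exact Submodule.sub_mem _ hx (Submodule.smul_mem _ _ hπ.mem)
    · rw [map_sub, map_smul, hπ.tr, smul_eq_mul, mul_one, sub_self]
  exact sub_eq_zero.1 h

theorem unique (hπ : W.IsPointClass V π) {π' : W.H V} (hπ' : W.IsPointClass V π') : π' = π := by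
  have := hπ.eq_smul hπ'.mem
  rwa [hπ'.tr, one_smul] at this

/-- `H^0` consists of the scalars. -/
theorem scalar (hπ : W.IsPointClass V π) {x : W.H V} (hx : x ∈ W.gr V 0) :
    ∃ c : K, x = c • (1 : W.H V) := by
  refine ⟨W.tr V (x * π), W.ext_tr ?_⟩
  intro y
  refine W.hom_induction (P := fun y => W.tr V (x * y) =
    W.tr V (W.tr V (x * π) • (1 : W.H V) * y)) y ?_ ?_ ?_
  · intro i y hy
    by_cases hi : i = 2 * V.dim
    · subst hi
      rw [hπ.eq_smul hy]
      simp only [mul_smul_comm, map_smul, smul_mul_assoc, one_mul, hπ.tr, smul_eq_mul, mul_one]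
    · rw [W.tr_gr V i (x * y) hi (by simpa using W.mul_mem V 0 i x y hx hy), smul_mul_assoc,
        one_mul, map_smul, W.tr_gr V i y hi hy, smul_zero]
  · simp
  · intro a b ha hb
    rw [mul_add, mul_add, map_add, map_add, ha, hb]

end IsPointClass

variable (W)

theorem isPointClass_cl {V : SPV k} (P : Sub V) (p : Pt k V.amb) (hP : P.carrier = {p}) (h0 : P.dim = 0) :
    W.IsPointClass V (W.cl P) :=
  ⟨by simpa [h0] using W.cl_gr P, W.cl_point P p hP⟩

end Weil

/-- The morphism `x ↦ (x, F x)`. -/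
noncomputable def graphMor {X Y : SPV k} (F : Mor X Y) : Mor X (X.prod Y) :=
  Mor.pair (Mor.id X) F

theorem fst_graphMor {X Y : SPV k} (F : Mor X Y) : (Mor.fst X Y).comp (graphMor F) = Mor.id X :=
  Mor.ext fun _ => rfl

theorem snd_graphMor {X Y : SPV k} (F : Mor X Y) : (Mor.snd X Y).comp (graphMor F) = F :=
  Mor.ext fun _ => rfl

/-- `Z` is the graph of `F`. -/
def IsGraph {X Y : SPV k} (F : Mor X Y) (Z : Sub (X.prod Y)) : Prop :=
  Z.carrier = Set.range (fun p => (((graphMor F).fn p : (X.prod Y).carrier) : Pt k (X.prod Y).amb))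

namespace Weil

variable (W : Weil.{u, v, w} k K)

theorem pull_graph_fst {X Y : SPV k} (F : Mor X Y) (a : W.H X) :
    W.pull (graphMor F) (W.pull (Mor.fst X Y) a) = a := by
  rw [← W.pull_comp, fst_graphMor, W.pull_id]

theorem pull_graph_snd {X Y : SPV k} (F : Mor X Y) (b : W.H Y) :
    W.pull (graphMor F) (W.pull (Mor.snd X Y) b) = W.pull F b := by
  rw [← W.pull_comp, snd_graphMor]

theorem tr_graph {X Y : SPV k} {F : Mor X Y} {Z : Sub (X.prod Y)} (hZ : IsGraph F Z)
    (x : W.H (X.prod Y)) : W.tr _ (W.cl Z * x) = W.tr X (W.pull (graphMor F) x) :=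
  W.cl_image (graphMor F) (Mor.fst X Y) (fst_graphMor F) Z hZ x

/-- On the diagonal the two pull-backs agree. -/
theorem diag_comm {X : SPV k} {Δ : Sub (X.prod X)} (hΔ : IsGraph (Mor.id X) Δ) (b : W.H X) :
    W.cl Δ * W.pull (Mor.snd X X) b = W.cl Δ * W.pull (Mor.fst X X) b := by
  apply W.ext_tr
  intro y
  rw [mul_assoc, mul_assoc, W.tr_graph hΔ, W.tr_graph hΔ, map_mul (W.pull _),
    map_mul (W.pull _), W.pull_graph_fst, W.pull_graph_snd, W.pull_id]

/-- The isomorphism between the two triple products. -/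
noncomputable def _root_.Pool.Agent.Lib.MP_77d3c1_ag.assoc (X : SPV k) :
    Mor (X.prod (X.prod X)) ((X.prod X).prod X) :=
  Mor.pair (p12 X) ((Mor.snd X X).comp (Mor.snd X (X.prod X)))

/-- The inverse isomorphism. -/
noncomputable def _root_.Pool.Agent.Lib.MP_77d3c1_ag.assocInv (X : SPV k) :
    Mor ((X.prod X).prod X) (X.prod (X.prod X)) :=
  Mor.pair ((Mor.fst X X).comp (Mor.fst (X.prod X) X))
    (Mor.pair ((Mor.snd X X).comp (Mor.fst (X.prod X) X)) (Mor.snd (X.prod X) X))

theorem tr_assoc {X : SPV k} (x : W.H ((X.prod X).prod X)) :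
    W.tr _ (W.pull (assoc X) x) = W.tr _ x := by
  have h := W.cl_image (assoc X) (assocInv X) (Mor.ext fun _ => rfl)
    (Sub.whole ((X.prod X).prod X)) (by
      ext p
      constructor
      · intro hp
        exact ⟨((assocInv X).fn ⟨p, hp⟩), rfl⟩
      · rintro ⟨q, rfl⟩
        exact ((assoc X).fn q).2) x
  rw [W.cl_whole, one_mul] at h
  exact h.symm

/-- The trace of `p₁₂^* w * p₃^* b`. -/
theorem tr_p12 {X : SPV k} (x : W.H (X.prod X)) (b : W.H X) :
    W.tr _ (W.pull (p12 X) x * W.pull ((Mor.snd X X).comp (Mor.snd X (X.prod X))) b) =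
      W.tr _ x * W.tr _ b := by
  rw [← W.tr_prod, ← W.tr_assoc, map_mul (W.pull _), ← W.pull_comp, ← W.pull_comp]
  rfl

/-- `p₁₂_* p₂₃^* [Δ] = 1`. -/
theorem tr_p12_diag {X : SPV k} {Δ : Sub (X.prod X)} (hΔ : IsGraph (Mor.id X) Δ)
    (x : W.H (X.prod X)) :
    W.tr _ (W.pull (p12 X) x * W.pull (p23 X) (W.cl Δ)) = W.tr _ x := by
  refine W.kunneth_induction (P := fun x =>
    W.tr _ (W.pull (p12 X) x * W.pull (p23 X) (W.cl Δ)) = W.tr _ x) x ?_ ?_ ?_
  · intro i j a _ b _
    rw [W.tr_prod, map_mul (W.pull _), ← W.pull_comp, ← W.pull_comp, mul_assoc]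
    have e1 : (Mor.fst X X).comp (p12 X) = Mor.fst X (X.prod X) := Mor.ext fun _ => rfl
    have e2 : (Mor.snd X X).comp (p12 X) = (Mor.fst X X).comp (Mor.snd X (X.prod X)) :=
      Mor.ext fun _ => rfl
    rw [e1, e2, W.pull_comp]
    unfold p23
    rw [← map_mul (W.pull (Mor.snd X (X.prod X))), W.tr_prod, ← W.cl_comm, W.tr_graph hΔ,
      W.pull_graph_fst]
  · simp
  · intro x y hx hy
    rw [map_add, add_mul, map_add, map_add, hx, hy]

/-- The trace of `p₂^* x * p₁^* y`. -/
theorem tr_prod' {V U : SPV k} (x : W.H U) (y : W.H V) :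
    W.tr (V.prod U) (W.pull (Mor.snd V U) x * W.pull (Mor.fst V U) y) = W.tr U x * W.tr V y := by
  refine W.hom_induction (P := fun x =>
    W.tr (V.prod U) (W.pull (Mor.snd V U) x * W.pull (Mor.fst V U) y) = W.tr U x * W.tr V y)
    x ?_ ?_ ?_
  · intro i x hx
    refine W.hom_induction (P := fun y =>
      W.tr (V.prod U) (W.pull (Mor.snd V U) x * W.pull (Mor.fst V U) y) = W.tr U x * W.tr V y)
      y ?_ ?_ ?_
    · intro j y hy
      rw [W.mul_comm _ i j _ _ (W.pull_gr _ _ _ hx) (W.pull_gr _ _ _ hy), map_smul, W.tr_prod]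
      by_cases hi : i = 2 * U.dim
      · subst hi
        rw [Even.neg_one_pow ⟨U.dim * j, by ring⟩, one_smul, _root_.mul_comm]
      · rw [W.tr_gr U i x hi hx]
        simp
    · simp
    · intro a b ha hb
      rw [map_add, mul_add, map_add, map_add, ha, hb, mul_add]
  · simp
  · intro a b ha hb
    rw [map_add, add_mul, map_add, map_add, ha, hb, add_mul]

variable {W}

section

variable {X : SPV k} {π : W.H X} {Δ : Sub (X.prod X)}

theorem core (hX : X.dim = 1) (hπ : W.IsPointClass X π) {i : ℕ} {x : W.H X} (hx : x ∈ W.gr X i)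
    (y : W.H X) :
    (i = 0 ∧ W.tr X (x * π) * W.tr X y = W.tr X (x * y) ∧ W.tr X x * W.tr X (π * y) = 0) ∨
    (i = 1 ∧ W.tr X (x * π) * W.tr X y = 0 ∧ W.tr X x * W.tr X (π * y) = 0) ∨
    (i = 2 ∧ W.tr X (x * π) * W.tr X y = 0 ∧ W.tr X x * W.tr X (π * y) = W.tr X (x * y)) ∨
    (x = 0) := by
  have hn : 2 * X.dim = 2 := by omega
  rcases i with _ | _ | _ | i
  · left
    obtain ⟨c, rfl⟩ := hπ.scalar hx
    refine ⟨rfl, ?_, ?_⟩
    · simp [hπ.tr]
    · rw [W.tr_gr X 0 _ (by omega) hx, zero_mul]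
  · right; left
    refine ⟨rfl, ?_, ?_⟩
    · rw [W.tr_gr X _ (x * π) _ (W.mul_mem X _ _ x π hx hπ.mem), zero_mul]
      omega
    · rw [W.tr_gr X _ x (by omega) hx, zero_mul]
  · right; right; left
    refine ⟨rfl, ?_, ?_⟩
    · rw [W.tr_gr X _ (x * π) _ (W.mul_mem X _ _ x π hx hπ.mem), zero_mul]
      omega
    · have hx' : x ∈ W.gr X (2 * X.dim) := by rw [hn]; exact hx
      conv_rhs => rw [hπ.eq_smul hx', smul_mul_assoc, map_smul, smul_eq_mul]
  · right; right; right
    have := W.vanish X (i + 1 + 1 + 1) (by omega)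
    rw [this] at hx
    exact (Submodule.mem_bot K).1 hx

theorem isGr_cov (hX : X.dim = 1) (hπ : W.IsPointClass X π) (hΔ : IsGraph (Mor.id X) Δ)
    (hd : Δ.dim = 1) (r : ℚ) :
    W.IsGr X true r ((r : K) • W.cl Δ + (1 - r : K) • W.pull (Mor.fst X X) π +
      (r ^ 2 - r : K) • W.pull (Mor.snd X X) π) := by
  have hn : 2 * X.dim = 2 := by omega
  have hd2 : (X.prod X).dim = 2 := by show X.dim + X.dim = 2; omega
  constructor
  · have h1 := W.cl_gr Δ
    rw [hd2, hd] at h1
    have h2 := hπ.mem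
    rw [hn] at h2 ⊢
    exact Submodule.add_mem _ (Submodule.add_mem _ (Submodule.smul_mem _ _ h1)
      (Submodule.smul_mem _ _ (W.pull_gr _ _ _ h2))) (Submodule.smul_mem _ _ (W.pull_gr _ _ _ h2))
  · intro i x hx
    show W.IsPush (Mor.snd X X) _ _
    intro y
    simp only [CohData.pair, CohData.trace, CohData.cup, CohData.pb, CohData.scale]
    have e1 : W.tr _ (W.pull (Mor.fst X X) x * W.cl Δ * W.pull (Mor.snd X X) y) =
        W.tr X (x * y) := by
      rw [← W.cl_comm, mul_assoc, W.tr_graph hΔ, map_mul (W.pull _), W.pull_graph_fst,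
        W.pull_graph_snd, W.pull_id]
    have e2 : W.tr _ (W.pull (Mor.fst X X) x * W.pull (Mor.fst X X) π *
        W.pull (Mor.snd X X) y) = W.tr X (x * π) * W.tr X y := by
      rw [← map_mul (W.pull _), W.tr_prod]
    have e3 : W.tr _ (W.pull (Mor.fst X X) x * W.pull (Mor.snd X X) π *
        W.pull (Mor.snd X X) y) = W.tr X x * W.tr X (π * y) := by
      rw [mul_assoc, ← map_mul (W.pull _), W.tr_prod]
    simp only [mul_add, add_mul, mul_smul_comm, smul_mul_assoc, map_add, map_smul, e1, e2, e3,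
      smul_eq_mul]
    rcases core hX hπ hx y with ⟨rfl, h1, h2⟩ | ⟨rfl, h1, h2⟩ | ⟨rfl, h1, h2⟩ | rfl
    · rw [h1, h2]; ring
    · rw [h1, h2]; ring
    · rw [h1, h2]; ring
    · simp

theorem isGr_con (hX : X.dim = 1) (hπ : W.IsPointClass X π) (hΔ : IsGraph (Mor.id X) Δ)
    (hd : Δ.dim = 1) (r : ℚ) :
    W.IsGr X false r ((r : K) • W.cl Δ + (r ^ 2 - r : K) • W.pull (Mor.fst X X) π +
      (1 - r : K) • W.pull (Mor.snd X X) π) := by
  have hn : 2 * X.dim = 2 := by omega
  have hd2 : (X.prod X).dim = 2 := by show X.dim + X.dim = 2; omega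
  constructor
  · have h1 := W.cl_gr Δ
    rw [hd2, hd] at h1
    have h2 := hπ.mem
    rw [hn] at h2 ⊢
    exact Submodule.add_mem _ (Submodule.add_mem _ (Submodule.smul_mem _ _ h1)
      (Submodule.smul_mem _ _ (W.pull_gr _ _ _ h2))) (Submodule.smul_mem _ _ (W.pull_gr _ _ _ h2))
  · intro i x hx
    show W.IsPush (Mor.fst X X) _ _
    intro y
    simp only [CohData.pair, CohData.trace, CohData.cup, CohData.pb, CohData.scale]
    have e1 : W.tr _ (W.pull (Mor.snd X X) x * W.cl Δ * W.pull (Mor.fst X X) y) =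
        W.tr X (x * y) := by
      rw [← W.cl_comm, mul_assoc, W.tr_graph hΔ, map_mul (W.pull _), W.pull_graph_fst,
        W.pull_graph_snd, W.pull_id]
    have e2 : W.tr _ (W.pull (Mor.snd X X) x * W.pull (Mor.fst X X) π *
        W.pull (Mor.fst X X) y) = W.tr X x * W.tr X (π * y) := by
      rw [mul_assoc, ← map_mul (W.pull _), W.tr_prod']
    have e3 : W.tr _ (W.pull (Mor.snd X X) x * W.pull (Mor.snd X X) π *
        W.pull (Mor.fst X X) y) = W.tr X (x * π) * W.tr X y := by
      rw [← map_mul (W.pull _), W.tr_prod']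
    simp only [mul_add, add_mul, mul_smul_comm, smul_mul_assoc, map_add, map_smul, e1, e2, e3,
      smul_eq_mul]
    rcases core hX hπ hx y with ⟨rfl, h1, h2⟩ | ⟨rfl, h1, h2⟩ | ⟨rfl, h1, h2⟩ | rfl
    · rw [h1, h2]; ring
    · rw [h1, h2]; ring
    · rw [h1, h2]; ring
    · simp

/-- The composition of the correspondence `r Δ + s p₁^*[pt] + t p₂^*[pt]` and the graph of a
morphism. -/
theorem isComp (hX : X.dim = 1) (hπ : W.IsPointClass X π) (hΔ : IsGraph (Mor.id X) Δ)
    {F : Mor X X} {Γ : Sub (X.prod X)} (hΓ : IsGraph F Γ) (hd : Γ.dim = 1) (r s t : K) :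
    W.IsComp X (r • W.cl Δ + s • W.pull (Mor.fst X X) π + t • W.pull (Mor.snd X X) π) (W.cl Γ)
      (r • W.cl Γ + (s * W.tr _ (W.cl Γ * W.pull (Mor.snd X X) π)) • W.pull (Mor.fst X X) π +
        t • W.pull (Mor.snd X X) π) := by
  have hn : 2 * X.dim = 2 := by omega
  have hd2 : (X.prod X).dim = 2 := by show X.dim + X.dim = 2; omega
  have hπ2 : π ∈ W.gr X 2 := by rw [← hn]; exact hπ.mem
  have hΓ2 : W.cl Γ ∈ W.gr _ 2 := by
    have := W.cl_gr Γ
    rwa [hd2, hd] at this
  intro y
  simp only [CohData.pair, CohData.trace, CohData.cup, CohData.pb, CohData.scale]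
  refine W.kunneth_induction (P := fun y => W.tr _ ((r • W.cl Γ +
    (s * W.tr _ (W.cl Γ * W.pull (Mor.snd X X) π)) • W.pull (Mor.fst X X) π +
      t • W.pull (Mor.snd X X) π) * y) = W.tr _ (W.pull (p12 X) (W.cl Γ) *
        W.pull (p23 X) (r • W.cl Δ + s • W.pull (Mor.fst X X) π + t • W.pull (Mor.snd X X) π) *
          W.pull (p13 X) y)) y ?_ ?_ ?_
  · intro i j a ha b _
    set f := W.cl Γ with hf
    set q1 := W.pull (Mor.fst X (X.prod X)) with hq1
    set q3 := W.pull ((Mor.snd X X).comp (Mor.snd X (X.prod X))) with hq3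
    have c1 : W.pull (p13 X) (W.pull (Mor.fst X X) a) = q1 a := by
      rw [← W.pull_comp]; rfl
    have c1' : W.pull (p12 X) (W.pull (Mor.fst X X) a) = q1 a := by
      rw [← W.pull_comp]; rfl
    have c2 : W.pull (p13 X) (W.pull (Mor.snd X X) b) = q3 b := by
      rw [← W.pull_comp]; rfl
    have c3 : ∀ x, W.pull (p23 X) (W.pull (Mor.snd X X) x) = q3 x := by
      intro x
      rw [← W.pull_comp]; rfl
    have c4 : ∀ x, W.pull (p23 X) (W.pull (Mor.fst X X) x) =
        W.pull (p12 X) (W.pull (Mor.snd X X) x) := by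
      intro x
      rw [← W.pull_comp, ← W.pull_comp]; rfl
    have T1 : W.tr _ (W.pull (p12 X) f * W.pull (p23 X) (W.cl Δ) * (q1 a * q3 b)) =
        W.tr _ (f * (W.pull (Mor.fst X X) a * W.pull (Mor.snd X X) b)) := by
      have hcen : ∀ z, W.pull (p23 X) (W.cl Δ) * z = z * W.pull (p23 X) (W.cl Δ) := fun z =>
        W.even_comm ⟨(X.prod X).dim - Δ.dim, by ring⟩ (W.pull_gr (p23 X) _ _ (W.cl_gr Δ)) z
      have e : W.pull (p12 X) f * W.pull (p23 X) (W.cl Δ) * (q1 a * q3 b) =
          W.pull (p12 X) (f * (W.pull (Mor.fst X X) a * W.pull (Mor.snd X X) b)) *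
            W.pull (p23 X) (W.cl Δ) := by
        rw [map_mul (W.pull _), map_mul (W.pull _), c1', ← c4]
        calc W.pull (p12 X) f * W.pull (p23 X) (W.cl Δ) * (q1 a * q3 b)
            = W.pull (p12 X) f * (W.pull (p23 X) (W.cl Δ) * q1 a) * q3 b := by
              simp only [mul_assoc]
          _ = W.pull (p12 X) f * q1 a * (W.pull (p23 X) (W.cl Δ) * q3 b) := by
              rw [hcen]; simp only [mul_assoc]
          _ = W.pull (p12 X) f * q1 a * (W.pull (p23 X) (W.cl Δ) *
                W.pull (p23 X) (W.pull (Mor.fst X X) b)) := by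
              rw [← c3, ← map_mul (W.pull _), W.diag_comm hΔ, map_mul (W.pull _)]
          _ = _ := by
              rw [hcen]; simp only [mul_assoc]
      rw [e, W.tr_p12_diag hΔ]
    have T2 : W.tr _ (W.pull (p12 X) f * W.pull (p23 X) (W.pull (Mor.fst X X) π) *
        (q1 a * q3 b)) = W.tr _ (f * W.pull (Mor.snd X X) π * W.pull (Mor.fst X X) a) *
          W.tr _ b := by
      rw [c4, ← c1', ← W.tr_p12, map_mul (W.pull _), map_mul (W.pull _)]
      simp only [mul_assoc]
      rfl
    have T3 : W.tr _ (W.pull (p12 X) f * W.pull (p23 X) (W.pull (Mor.snd X X) π) *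
        (q1 a * q3 b)) = W.tr _ a * W.tr _ (π * b) := by
      have hcen : ∀ z, q3 π * z = z * q3 π := fun z =>
        W.even_comm (i := 2) ⟨1, rfl⟩ (W.pull_gr _ _ _ hπ2) z
      have e : W.tr _ (f * W.pull (Mor.fst X X) a) = W.tr _ a := by
        rw [hf, W.tr_graph hΓ, W.pull_graph_fst]
      rw [c3, ← e, ← W.tr_p12, map_mul (W.pull _), c1']
      congr 1
      calc W.pull (p12 X) f * q3 π * (q1 a * q3 b)
          = W.pull (p12 X) f * (q3 π * q1 a) * q3 b := by simp only [mul_assoc]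
        _ = _ := by
          rw [hcen, map_mul]; simp only [mul_assoc]; rfl
    have U1 : W.tr _ (W.pull (Mor.fst X X) π *
        (W.pull (Mor.fst X X) a * W.pull (Mor.snd X X) b)) = W.tr _ (π * a) * W.tr _ b := by
      rw [← W.tr_prod, map_mul (W.pull _), mul_assoc]
    have U2 : W.tr _ (W.pull (Mor.snd X X) π *
        (W.pull (Mor.fst X X) a * W.pull (Mor.snd X X) b)) = W.tr _ a * W.tr _ (π * b) := by
      have hcen : ∀ z, W.pull (Mor.snd X X) π * z = z * W.pull (Mor.snd X X) π := fun z =>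
        W.even_comm (i := 2) ⟨1, rfl⟩ (W.pull_gr _ _ _ hπ2) z
      rw [← mul_assoc, hcen, mul_assoc, ← map_mul (W.pull _), W.tr_prod]
    have key : W.tr _ (f * W.pull (Mor.snd X X) π * W.pull (Mor.fst X X) a) =
        W.tr _ (f * W.pull (Mor.snd X X) π) * W.tr _ (π * a) := by
      by_cases hi : i = 0
      · subst hi
        obtain ⟨c, rfl⟩ := hπ.scalar ha
        simp only [map_smul, map_one, mul_smul_comm, mul_one, hπ.tr, smul_eq_mul]
        ring
      · rw [W.tr_gr _ (2 + 2 + i) _ (by omega) (W.mul_mem _ _ _ _ _ (W.mul_mem _ _ _ _ _ hΓ2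
          (W.pull_gr _ _ _ hπ2)) (W.pull_gr _ _ _ ha)),
          W.tr_gr _ (2 + i) (π * a) (by omega) (W.mul_mem _ _ _ _ _ hπ2 ha), mul_zero]
    rw [map_mul (W.pull _), c1, c2]
    simp only [mul_add, add_mul, mul_smul_comm, smul_mul_assoc, map_add, map_smul, T1, T2, T3,
      U1, U2, key, smul_eq_mul]
    ring
  · simp
  · intro x y hx hy
    rw [mul_add, map_add, hx, hy, map_add (W.pull (p13 X)) x y, mul_add _ (W.pull (p13 X) x),
      map_add (W.tr _) (_ * W.pull (p13 X) x)]

end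

end Weil

end Pool.Agent.Lib.MP_77d3c1_ag
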