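import Pool.Agent.Lib.MP_77d3c1_ag.Problem

/-!
# Positivity and Frobenius: further properties of Weil cohomology theories
-/

set_option autoImplicit false

namespace Pool.Agent.Lib.MP_77d3c1_ag

universe u v w

variable {k : Type u} [Field k] {K : Type v} [Field K]

/-- `F` is the Frobenius endomorphism of `V` relative to the field with `q` elements: it raises the
homogeneous coordinates of the points to the power `q`. -/
def IsFrob (q : ℕ) {V : SPV k} (F : Mor V V) : Prop :=
  ∀ (x : V.carrier) (v : V.amb.Idx → k), Over V.amb v x.1 →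
    Over V.amb (fun i => v i ^ q) (F.fn x).1

namespace CohData

variable (W : CohData.{u, v, w} k K)

/-- `x` is the class of an effective cycle of dimension `d`. -/
def Eff {V : SPV k} (d : ℕ) (x : W.H V) : Prop := ∃ f : PCyc V d →₀ ℕ, x = W.clN f

/-- The class `η` of a divisor on `V` is ample: a positive multiple is the class of a (reduced)
very ample divisor. -/
def Ample {V : SPV k} (η : W.H V) : Prop :=
  ∃ (m : ℕ) (ι : Type) (_ : Fintype ι) (S : ι → Sub V),
    0 < m ∧ VeryAmple S ∧ W.scale m η = W.clSum S

/-- The class `p₁^* x + p₂^* y` on `X × X`. -/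
noncomputable def boxSum {X : SPV k} (x y : W.H X) : W.H (X.prod X) :=
  W.pb (Mor.fst X X) x + W.pb (Mor.snd X X) y

/-- `H^i(V) = 0`. -/
def Vanishes (V : SPV k) (i : ℕ) : Prop := ∀ x : W.H V, W.Hom i x → x = 0

/-- The class `P(φ^*) x`, for a polynomial `P` with integral coefficients. -/
noncomputable def polyAct {V : SPV k} (φ : Mor V V) (P : Polynomial ℤ) (x : W.H V) : W.H V :=
  P.sum fun m c => W.scale c ((W.pb φ)^[m] x)

/-- Positivity properties of the cycle classes. -/
structure HasPositivity : Prop where
  /-- A prime cycle of dimension zero is a point, and has degree one. -/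
  degree_point : ∀ {V : SPV k} (Z : Sub V), Z.dim = 0 → W.trace (W.cl Z) = 1
  /-- The direct image of a prime cycle is an effective cycle of the same dimension. -/
  image : ∀ {V U : SPV k} (φ : Mor V U) (Z : Sub V), ∃ x : W.H U, W.Eff Z.dim x ∧
    W.IsPush φ (W.cl Z) x
  /-- The intersection of a prime cycle with the pull-back of a very ample divisor is
  effective. -/
  section_eff : ∀ {V U : SPV k} (φ : Mor V U) {ι : Type} [Fintype ι] (S : ι → Sub U),
    VeryAmple S → ∀ (Z : Sub V) (d : ℕ), Z.dim = d + 1 →
      W.Eff d (W.cup (W.cl Z) (W.pb φ (W.clSum S)))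
  /-- For a fixed `Y` the intersection numbers `Z · Y` are bounded by a multiple of the degree
  of `Z`. -/
  bounded : ∀ {V : SPV k} {ι : Type} [Fintype ι] (S : ι → Sub V), VeryAmple S →
    ∀ Y : Sub V, ∃ C : ℚ, ∀ Z : Sub V, Z.dim + Y.dim = V.dim →
      |W.inter Z Y| ≤ C * toRat (W.pair (W.cl Z) (W.power (W.clSum S) Z.dim))

/-- Properties of the Frobenius endomorphisms in characteristic `p`. -/
structure HasFrobenius (p : ℕ) : Prop where
  /-- The Frobenius endomorphism has degree `q ^ dim Z` on a subvariety `Z` which is defined over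
  the field with `q` elements. -/
  degree : ∀ {V : SPV k} (a : ℕ) (F : Mor V V), IsFrob (p ^ a) F → ∀ Z : Sub V,
    (∀ x : V.carrier, x.1 ∈ Z.carrier → (F.fn x).1 ∈ Z.carrier) →
      W.IsPush F (W.cl Z) (W.scale ((p ^ a) ^ Z.dim) (W.cl Z))
  /-- The Riemann hypothesis: the Frobenius endomorphism relative to the field with `q` elements
  is, on `H^i(V)`, a zero of a monic integral polynomial all of whose complex zeros have absolute
  value `q ^ (i / 2)`. -/
  weights : ∀ {V : SPV k} (a : ℕ) (F : Mor V V), IsFrob (p ^ a) F → ∀ i : ℕ,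
    ∃ P : Polynomial ℤ, P.Monic ∧
      (∀ z : ℂ, P.aeval z = 0 → ‖z‖ = Real.sqrt (p ^ a) ^ i) ∧
      ∀ x : W.H V, W.Hom i x → W.polyAct F P x = 0

end CohData

end Pool.Agent.Lib.MP_77d3c1_ag
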