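import Pool.Agent.Lib.MP_77d3c1_ag.Operators
import Pool.Agent.Lib.MP_77d3c1_ag.Frob

/-!
# The composition with `G_r`
-/

set_option autoImplicit false

open Polynomial

namespace Pool.Agent.Lib.MP_77d3c1_ag

universe u v w

variable {k : Type u} [Field k] {K : Type v} [Field K] {X : SPV k}

/-- The scalar by which `G_r ∘` acts on `H^* ⊗ H^j`. -/
def lam (n : ℕ) (cov : Bool) (r : ℚ) (j : ℕ) : ℚ := if cov then r ^ (2 * n - j) else r ^ j

namespace Weil

variable (W : Weil.{u, v, w} k K)

/-- The projection formula for the triple product. -/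
theorem tr_triple {v : W.H (X.prod X)} {v' : W.H X}
    (hv : ∀ c, W.tr _ (W.pull (Mor.fst X X) c * v) = W.tr X (c * v')) (u : W.H (X.prod X)) :
    W.tr _ (W.pull (p12 X) u * W.pull (p23 X) v) = W.tr _ (u * W.pull (Mor.snd X X) v') := by
  refine W.kunneth_induction (P := fun u =>
    W.tr _ (W.pull (p12 X) u * W.pull (p23 X) v) = W.tr _ (u * W.pull (Mor.snd X X) v')) u ?_ ?_ ?_
  · intro i j a _ b _
    rw [map_mul (W.pull (p12 X)), ← W.pull_comp, ← W.pull_comp, mul_assoc]
    have e1 : (Mor.fst X X).comp (p12 X) = Mor.fst X (X.prod X) := Mor.ext fun _ => rfl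
    have e2 : (Mor.snd X X).comp (p12 X) = (Mor.fst X X).comp (Mor.snd X (X.prod X)) :=
      Mor.ext fun _ => rfl
    rw [e1, e2, W.pull_comp]
    unfold p23
    rw [← map_mul (W.pull (Mor.snd X (X.prod X))), W.tr_prod, hv, mul_assoc,
      ← map_mul (W.pull (Mor.snd X X)), W.tr_prod]
  · simp
  · intro x y hx hy
    rw [map_add, add_mul, map_add, hx, hy, add_mul, map_add]

/-- The direct image of `g * p₂^* b` by the first projection. -/
theorem push_gr {cov : Bool} {r : ℚ} {g : W.H (X.prod X)} (hg : W.IsGr X cov r g) {j : ℕ}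
    {b : W.H X} (hb : b ∈ W.gr X j) (c : W.H X) :
    W.tr _ (W.pull (Mor.fst X X) c * (g * W.pull (Mor.snd X X) b)) =
      W.tr X (c * ((lam X.dim cov r j : K) • b)) := by
  have hev : Even (2 * X.dim) := ⟨X.dim, by ring⟩
  have hg2 : g ∈ W.gr _ (2 * X.dim) := hg.1
  have hcen : ∀ z, g * z = z * g := fun z => W.even_comm hev hg2 z
  refine W.hom_induction (P := fun c =>
    W.tr _ (W.pull (Mor.fst X X) c * (g * W.pull (Mor.snd X X) b)) =
      W.tr X (c * ((lam X.dim cov r j : K) • b))) c ?_ ?_ ?_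
  · intro s c hc
    cases cov
    · have h := hg.2 j b hb c
      have h' : W.tr X (((r : K) ^ j • b) * c) =
          W.tr _ (W.pull (Mor.snd X X) b * g * W.pull (Mor.fst X X) c) := h
      have e1 : W.pull (Mor.fst X X) c * W.pull (Mor.snd X X) b = (-1 : K) ^ (s * j) •
          (W.pull (Mor.snd X X) b * W.pull (Mor.fst X X) c) :=
        W.mul_comm _ s j _ _ (W.pull_gr _ _ _ hc) (W.pull_gr _ _ _ hb)
      have e2 : b * c = (-1 : K) ^ (j * s) • (c * b) := W.mul_comm X j s _ _ hb hc
      have e3 : W.pull (Mor.fst X X) c * (g * W.pull (Mor.snd X X) b) = (-1 : K) ^ (s * j) •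
          (W.pull (Mor.snd X X) b * g * W.pull (Mor.fst X X) c) := by
        rw [hcen, ← mul_assoc, e1, smul_mul_assoc, mul_assoc, ← hcen, ← mul_assoc]
      rw [e3, map_smul, ← h', smul_mul_assoc, map_smul, e2, map_smul, mul_smul_comm, map_smul]
      unfold lam
      simp only [smul_eq_mul, Bool.false_eq_true, if_false, Rat.cast_pow]
      have e4 : ((-1 : K) ^ (s * j)) * (-1) ^ (j * s) = 1 := by
        rw [Nat.mul_comm j s, ← pow_add, Even.neg_one_pow ⟨s * j, rfl⟩]
      linear_combination (r : K) ^ j * W.tr X (c * b) * e4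
    · have h := hg.2 s c hc b
      have h' : W.tr X (((r : K) ^ s • c) * b) =
          W.tr _ (W.pull (Mor.fst X X) c * g * W.pull (Mor.snd X X) b) := h
      rw [← mul_assoc, ← h', smul_mul_assoc, map_smul, mul_smul_comm, map_smul]
      unfold lam
      simp only [smul_eq_mul, if_true, Rat.cast_pow]
      by_cases hs : s + j = 2 * X.dim
      · rw [← hs, Nat.add_sub_cancel]
      · rw [W.tr_gr X _ _ hs (W.mul_mem X _ _ _ _ hc hb), mul_zero, mul_zero]
  · simp
  · intro x y hx hy
    rw [map_add, add_mul, map_add, hx, hy, add_mul, map_add]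

/-- The composition with `G_r`. -/
theorem tr_comp {cov : Bool} {r : ℚ} {g f z : W.H (X.prod X)} (hg : W.IsGr X cov r g)
    (hz : W.IsComp X g f z) (a : W.H X) {j : ℕ} {b : W.H X} (hb : b ∈ W.gr X j) :
    W.tr _ (z * (W.pull (Mor.fst X X) a * W.pull (Mor.snd X X) b)) = (lam X.dim cov r j : K) *
      W.tr _ (f * (W.pull (Mor.fst X X) a * W.pull (Mor.snd X X) b)) := by
  have hev : Even (2 * X.dim) := ⟨X.dim, by ring⟩
  have hg2 : g ∈ W.gr _ (2 * X.dim) := hg.1
  have h : W.tr _ (z * (W.pull (Mor.fst X X) a * W.pull (Mor.snd X X) b)) =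
      W.tr _ (W.pull (p12 X) f * W.pull (p23 X) g *
        W.pull (p13 X) (W.pull (Mor.fst X X) a * W.pull (Mor.snd X X) b)) := hz _
  have hcen : ∀ z, W.pull (p23 X) g * z = z * W.pull (p23 X) g := fun z =>
    W.even_comm hev (W.pull_gr (p23 X) _ _ hg2) z
  have c1 : W.pull (p13 X) (W.pull (Mor.fst X X) a) = W.pull (p12 X) (W.pull (Mor.fst X X) a) := by
    rw [← W.pull_comp, ← W.pull_comp]; rfl
  have c2 : W.pull (p13 X) (W.pull (Mor.snd X X) b) = W.pull (p23 X) (W.pull (Mor.snd X X) b) := by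
    rw [← W.pull_comp, ← W.pull_comp]; rfl
  have e : W.pull (p12 X) f * W.pull (p23 X) g *
        W.pull (p13 X) (W.pull (Mor.fst X X) a * W.pull (Mor.snd X X) b) =
      W.pull (p12 X) (f * W.pull (Mor.fst X X) a) *
        W.pull (p23 X) (g * W.pull (Mor.snd X X) b) := by
    rw [map_mul (W.pull (p13 X)), c1, c2, map_mul (W.pull (p12 X)), map_mul (W.pull (p23 X))]
    calc W.pull (p12 X) f * W.pull (p23 X) g *
          (W.pull (p12 X) (W.pull (Mor.fst X X) a) * W.pull (p23 X) (W.pull (Mor.snd X X) b))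
        = W.pull (p12 X) f * (W.pull (p23 X) g * W.pull (p12 X) (W.pull (Mor.fst X X) a)) *
            W.pull (p23 X) (W.pull (Mor.snd X X) b) := by simp only [mul_assoc]
      _ = _ := by rw [hcen]; simp only [mul_assoc]
  rw [h, e, W.tr_triple (W.push_gr hg hb), map_smul, mul_smul_comm, map_smul, smul_eq_mul,
    mul_assoc]

variable {W} in
theorem aeval_T (F : Mor X X) (g : K[X]) (a b : W.H X) :
    aeval (W.T F) g (W.pull (Mor.fst X X) a * W.pull (Mor.snd X X) b) =
      W.pull (Mor.fst X X) a * W.pull (Mor.snd X X) (aeval (W.FS F) g b) := by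
  induction g using Polynomial.induction_on' with
  | add p q hp hq =>
    rw [map_add, LinearMap.add_apply, hp, hq, ← mul_add, ← map_add, map_add (aeval _),
      LinearMap.add_apply]
  | monomial n c =>
    induction n generalizing b with
    | zero =>
      rw [monomial_zero_left, aeval_C, aeval_C, Algebra.algebraMap_eq_smul_one,
        Algebra.algebraMap_eq_smul_one, LinearMap.smul_apply, LinearMap.smul_apply, map_smul,
        mul_smul_comm]
      rfl
    | succ n ih =>
      have e : (monomial (n + 1) c : K[X]) = monomial n c * Polynomial.X := by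
        rw [monomial_mul_X]
      rw [e, map_mul (aeval (W.T F)), map_mul (aeval (W.FS F)), aeval_X, aeval_X]
      show aeval (W.T F) (monomial n c) (W.pull (phiR F) _) = _
      rw [map_mul (W.pull (phiR F)), W.phiR_fst, W.phiR_snd, ih]
      rfl

/-- Projectors for the action on the cohomology of `X`. -/
structure Proj (F : Mor X X) (π : ℕ → K[X]) : Prop where
  same : ∀ j ≤ 2 * X.dim, ∀ b ∈ W.gr X j, aeval (W.FS F) (π j) b = b
  diff : ∀ i ≤ 2 * X.dim, ∀ j ≤ 2 * X.dim, i ≠ j → ∀ b ∈ W.gr X j, aeval (W.FS F) (π i) b = 0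

variable {W} in
theorem tr_comp_proj {F : Mor X X} {π : ℕ → K[X]} (hπ : W.Proj F π) {cov : Bool} {r : ℚ}
    {g f z : W.H (X.prod X)} (hg : W.IsGr X cov r g) (hz : W.IsComp X g f z)
    (y : W.H (X.prod X)) :
    W.tr _ (z * y) = ∑ j ∈ Finset.range (2 * X.dim + 1), (lam X.dim cov r j : K) *
      W.tr _ (f * aeval (W.T F) (π j) y) := by
  refine W.kunneth_induction (P := fun y => W.tr _ (z * y) =
    ∑ j ∈ Finset.range (2 * X.dim + 1), (lam X.dim cov r j : K) *
      W.tr _ (f * aeval (W.T F) (π j) y)) y ?_ ?_ ?_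
  · intro i j a _ b hb
    rw [W.tr_comp hg hz a hb]
    by_cases hj : j ∈ Finset.range (2 * X.dim + 1)
    · rw [Finset.sum_eq_single j]
      · rw [aeval_T, hπ.same j (by have := Finset.mem_range.1 hj; omega) b hb]
      · intro i hi hij
        rw [aeval_T, hπ.diff i (by have := Finset.mem_range.1 hi; omega) j
          (by have := Finset.mem_range.1 hj; omega) hij b hb, map_zero, mul_zero, mul_zero,
          map_zero, mul_zero]
      · intro h; exact absurd hj h
    · have hb0 : b = 0 := by
        have := W.vanish X j (by have := Finset.mem_range.not.1 hj; omega)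
        rw [this] at hb
        exact (Submodule.mem_bot K).1 hb
      rw [hb0]
      simp
  · simp
  · intro x y hx hy
    simp only [map_add, mul_add, Finset.sum_add_distrib, hx, hy]

end Weil

end Pool.Agent.Lib.MP_77d3c1_ag
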