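import Pool.Agent.Lib.MP_77d3c1_ag.Maps

/-!
# The points of intersection of the graph of Frobenius and of the diagonal automorphisms
-/

set_option autoImplicit false
set_option linter.unusedSectionVars false

open MvPolynomial

namespace Pool.Agent.Lib.MP_77d3c1_ag

universe u v w

/-- Roots of unity of order five and three. -/
structure Roots (k : Type u) [Field k] where
  /-- a primitive fifth root of unity -/
  z : k
  hz : IsPrimitiveRoot z 5
  /-- a primitive cube root of unity -/
  ω : k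
  hω : ω ^ 2 + ω + 1 = 0

variable {k : Type u} [Field k] [CharP k 2] [IsAlgClosed k]

variable (k) in
theorem exists_roots : Nonempty (Roots k) := by
  have h5 : (5 : k) ≠ 0 := by rw [five_eq_one]; exact one_ne_zero
  have : NeZero ((5 : ℕ) : k) := ⟨by exact_mod_cast h5⟩
  obtain ⟨z, hz⟩ := IsAlgClosed.exists_root (Polynomial.cyclotomic 5 k) (by
    rw [Polynomial.degree_cyclotomic]
    decide)
  rw [Polynomial.isRoot_cyclotomic_iff] at hz
  obtain ⟨ω, hω⟩ := IsAlgClosed.exists_root
    (Polynomial.X ^ 2 + Polynomial.X + 1 : Polynomial k) (by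
    have : (Polynomial.X ^ 2 + Polynomial.X + 1 : Polynomial k) =
      Polynomial.C 1 * Polynomial.X ^ 2 + Polynomial.C 1 * Polynomial.X + Polynomial.C 1 := by
      simp
    rw [this, Polynomial.degree_quadratic one_ne_zero]
    decide)
  refine ⟨⟨z, hz, ω, ?_⟩⟩
  simpa [Polynomial.IsRoot] using hω

namespace Roots

variable (R : Roots k)

include R in
theorem two : (2 : k) = 0 := CharTwo.two_eq_zero

theorem z5 (i : ℕ) : (R.z ^ i) ^ 5 = 1 := by
  rw [← pow_mul, mul_comm, pow_mul, R.hz.pow_eq_one, one_pow]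

theorem z_ne (i : ℕ) : R.z ^ i ≠ 0 := by
  intro h
  have := R.z5 i
  rw [h] at this
  norm_num at this

theorem z_inj {i j : Fin 5} (h : R.z ^ (i : ℕ) = R.z ^ (j : ℕ)) : i = j :=
  Fin.ext (R.hz.pow_inj i.2 j.2 h)

theorem exists_z {η : k} (h : η ^ 5 = 1) : ∃ i : Fin 5, η = R.z ^ (i : ℕ) := by
  obtain ⟨i, hi, h⟩ := R.hz.eq_pow_of_pow_eq_one h
  exact ⟨⟨i, hi⟩, h.symm⟩

theorem ω_ne : R.ω ≠ 0 := by
  intro h
  have := R.hω
  rw [h] at this
  norm_num at this

theorem ω3 : R.ω ^ 3 = 1 := by
  linear_combination (R.ω - 1) * R.hω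

theorem root_ω {A : k} (h : A ^ 2 + A + 1 = 0) : A = R.ω ∨ A = R.ω ^ 2 := by
  have h1 : (A - R.ω) * (A - R.ω ^ 2) = 0 := by
    have h2 := R.hω
    have h3 := R.ω3
    linear_combination h - A * h2 + h3
  rcases mul_eq_zero.1 h1 with h | h
  · left; exact sub_eq_zero.1 h
  · right; exact sub_eq_zero.1 h

end Roots

/-- The morphism given by a diagonal automorphism. -/
noncomputable def dmor (R : Roots k) (c : Fin 3) (i : ℕ) : Mor (curve k) (curve k) :=
  (diagData c (R.z ^ i) (R.z5 i)).mor

/-- The Frobenius. -/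
noncomputable def fmor : Mor (curve k) (curve k) := (frobData (k := k)).mor

theorem fix_iff {c : Fin 3} {ζ : k} {hζ : ζ ^ 5 = 1} {p : (curve k).carrier} {v : Fin 3 → k}
    (hv : Over P2 v p.1) : (frobData (k := k)).mor.fn p = (diagData c ζ hζ).mor.fn p ↔
      ∀ i j : Fin 3, v i ^ 16 * (if j = c then ζ * v j else v j) =
        v j ^ 16 * (if i = c then ζ * v i else v i) := by
  have h1 := HomData.over_fn (frobData (k := k)) hv
  have h2 := HomData.over_fn (diagData c ζ hζ) hv
  constructor
  · intro h i j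
    rw [h] at h1
    exact par_of_over P2 _ _ _ h1 h2 i j trivial
  · intro h
    exact Subtype.ext (eq_of_par P2 _ _ _ _ h2 h1 (fun i j _ => h i j))

/-- The set of points where the two morphisms coincide. -/
def coin (φ ψ : Mor (curve k) (curve k)) : Set (curve k).carrier := {p | φ.fn p = ψ.fn p}

/-- A point of the curve with a vanishing coordinate. -/
def zvec (c : Fin 3) (η : k) : Fin 3 → k := fun i => if i = c then 0 else if i = c + 1 then 1 else η

theorem zvec_ne (c : Fin 3) (η : k) : zvec c η ≠ 0 := by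
  intro h
  have := congrFun h (c + 1)
  fin_cases c <;> simp [zvec] at this

omit [IsAlgClosed k] in
theorem zvec_eqn (c : Fin 3) {η : k} (h : η ^ 5 = 1) :
    zvec c η 0 ^ 5 + zvec c η 1 ^ 5 + zvec c η 2 ^ 5 = 0 := by
  have two : (2 : k) = 0 := CharTwo.two_eq_zero
  fin_cases c
  · simp [zvec, h]
    linear_combination two
  · simp [zvec, h]
    linear_combination two
  · simp [zvec, h]
    linear_combination two

/-- A point of the curve with a vanishing coordinate. -/
noncomputable def zpt (R : Roots k) (c : Fin 3) (i : Fin 5) : (curve k).carrier :=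
  mk3 (zvec c (R.z ^ (i : ℕ))) (zvec_ne _ _) (zvec_eqn c (R.z5 i))

theorem over_zpt (R : Roots k) (c : Fin 3) (i : Fin 5) :
    Over P2 (zvec c (R.z ^ (i : ℕ))) (zpt R c i).1 := over_mk3 _ _ _

theorem exists_zpt (R : Roots k) {p : (curve k).carrier} {v : Fin 3 → k} (hv : Over P2 v p.1)
    {c : Fin 3} (h : v c = 0) : ∃ i : Fin 5, p = zpt R c i := by
  have two : (2 : k) = 0 := CharTwo.two_eq_zero
  obtain ⟨h0, h1⟩ := ceq hv
  have h2 : v (c + 1) ^ 5 = v (c + 2) ^ 5 := by
    fin_cases c
    · have : v 0 = 0 := h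
      rw [this] at h1
      show v 1 ^ 5 = v 2 ^ 5
      linear_combination h1 - v 2 ^ 5 * two
    · have : v 1 = 0 := h
      rw [this] at h1
      show v 2 ^ 5 = v 0 ^ 5
      linear_combination h1 - v 0 ^ 5 * two
    · have : v 2 = 0 := h
      rw [this] at h1
      show v 0 ^ 5 = v 1 ^ 5
      linear_combination h1 - v 1 ^ 5 * two
  have h3 : v (c + 1) ≠ 0 := by
    intro h3
    rw [h3] at h2
    have h4 : v (c + 2) = 0 := by
      have : v (c + 2) ^ 5 = 0 := by rw [← h2]; norm_num
      exact (pow_eq_zero_iff (by norm_num)).1 this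
    apply h0
    funext i
    fin_cases c <;> fin_cases i <;> first | exact h | exact h3 | exact h4
  obtain ⟨i, hi⟩ := R.exists_z (η := v (c + 2) / v (c + 1)) (by
    rw [div_pow, h2, div_self]
    rw [← h2]
    exact pow_ne_zero _ h3)
  refine ⟨i, Subtype.ext ?_⟩
  have h5 : v (c + 2) = R.z ^ (i : ℕ) * v (c + 1) := by
    rw [← hi]
    field_simp
  have h6 : v = fun j => v (c + 1) * zvec c (R.z ^ (i : ℕ)) j := by
    funext j
    fin_cases c <;> fin_cases j <;> simp [zvec] <;> first | exact h | (rw [mul_comm]; exact h5)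
  have h7 := over_smul (over_zpt R c i) h3
  exact over_unique P2 v _ _ hv (by rw [h6]; exact h7)

theorem zpt_inj (R : Roots k) {c c' : Fin 3} {i i' : Fin 5} (h : zpt R c i = zpt R c' i') :
    c = c' ∧ i = i' := by
  have h1 := over_zpt R c i
  rw [h] at h1
  obtain ⟨t, ht, h2⟩ := exists_smul (over_zpt R c' i') h1
  have h3 : ∀ j : Fin 3, zvec c (R.z ^ (i : ℕ)) j = t * zvec c' (R.z ^ (i' : ℕ)) j :=
    fun j => congrFun h2 j
  have hne : ∀ (c : Fin 3) (i : Fin 5) (j : Fin 3), zvec c (R.z ^ (i : ℕ)) j = 0 ↔ j = c := by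
    intro c i j
    unfold zvec
    split_ifs with a b
    · simp [a]
    · simp [a]
    · simp [a, R.z_ne]
  have hc : c = c' := by
    have h4 := h3 c
    rw [(hne c i c).2 rfl] at h4
    have h5 := (mul_eq_zero.1 h4.symm).resolve_left ht
    exact (hne c' i' c).1 h5
  subst hc
  have e1 := h3 (c + 1)
  have e2 := h3 (c + 2)
  have a1 : ∀ η : k, zvec c η (c + 1) = 1 := by
    intro η
    fin_cases c <;> simp [zvec]
  have a2 : ∀ η : k, zvec c η (c + 2) = η := by
    intro η
    fin_cases c <;> simp [zvec]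
  rw [a1, a1, mul_one] at e1
  rw [a2, a2, ← e1, one_mul] at e2
  exact ⟨rfl, R.z_inj e2⟩

theorem alg_aux {A B C ζ : k} (h : C = A + B) (hC : C ≠ 0) (h1 : A = 0 ∨ C ^ 3 = ζ * A ^ 3)
    (h2 : B = 0 ∨ C ^ 3 = ζ * B ^ 3) : ζ = 1 := by
  have two : (2 : k) = 0 := CharTwo.two_eq_zero
  have hC3 : C ^ 3 ≠ 0 := pow_ne_zero _ hC
  rcases h1 with h1 | h1
  · rcases h2 with h2 | h2
    · exact absurd (by rw [h, h1, h2, add_zero]) hC
    · have : C = B := by rw [h, h1, zero_add]
      rw [← this] at h2
      exact (mul_right_cancel₀ hC3 (by rw [one_mul]; exact h2)).symm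
  · rcases h2 with h2 | h2
    · have : C = A := by rw [h, h2, add_zero]
      rw [← this] at h1
      exact (mul_right_cancel₀ hC3 (by rw [one_mul]; exact h1)).symm
    · have hζ : ζ ≠ 0 := by
        rintro rfl
        rw [zero_mul] at h1
        exact hC3 h1
      have h3 : ζ * (A ^ 3 - B ^ 3) = 0 := by linear_combination h2 - h1
      have h4 := (mul_eq_zero.1 h3).resolve_left hζ
      have h5 : C * (A ^ 2 + A * B + B ^ 2) = 0 := by
        rw [h]
        linear_combination h4 + (B ^ 3 + A ^ 2 * B + A * B ^ 2) * two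
      have h6 := (mul_eq_zero.1 h5).resolve_left hC
      have h7 : C ^ 3 = A ^ 3 := by
        rw [h]
        linear_combination (A + B) * h6 + (A ^ 2 * B + A * B ^ 2) * two - A * h6
      rw [← h7] at h1
      exact (mul_right_cancel₀ hC3 (by rw [one_mul]; exact h1)).symm

/-- The graph of Frobenius meets the graph of a non-trivial diagonal automorphism above the points
where a coordinate vanishes. -/
theorem coin_ne (R : Roots k) (c : Fin 3) {n : ℕ} (hn : R.z ^ n ≠ 1) :
    coin fmor (dmor R c n) = Set.range (zpt R c) := by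
  have two : (2 : k) = 0 := CharTwo.two_eq_zero
  ext p
  obtain ⟨v, hv⟩ := exists_over P2 p.1
  constructor
  · intro h
    have h1 := (fix_iff (v := v) hv).1 h
    have heq := (ceq hv).2
    by_cases hc : (show Fin 3 → k from v) c = 0
    · obtain ⟨i, hi⟩ := exists_zpt R hv hc
      exact ⟨i, hi.symm⟩
    · exfalso
      apply hn
      have hv3 : ∀ x : k, (x ^ 5) ^ 3 = x ^ 15 := fun x => by ring
      have key : ∀ a : Fin 3, a ≠ c → (show Fin 3 → k from v) a ^ 5 = 0 ∨
          ((show Fin 3 → k from v) c ^ 5) ^ 3 = R.z ^ n * ((show Fin 3 → k from v) a ^ 5) ^ 3 := by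
        intro a ha
        by_cases ha0 : (show Fin 3 → k from v) a = 0
        · left
          rw [ha0]
          norm_num
        · right
          have h2 := h1 c a
          rw [if_neg ha, if_pos rfl] at h2
          rw [hv3, hv3]
          apply mul_left_cancel₀ (mul_ne_zero hc ha0)
          linear_combination h2
      have hadd : (show Fin 3 → k from v) c ^ 5 = (show Fin 3 → k from v) (c + 1) ^ 5 +
          (show Fin 3 → k from v) (c + 2) ^ 5 := by
        fin_cases c
        · show (show Fin 3 → k from v) 0 ^ 5 = (show Fin 3 → k from v) 1 ^ 5 +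
            (show Fin 3 → k from v) 2 ^ 5
          linear_combination heq - ((show Fin 3 → k from v) 1 ^ 5 +
            (show Fin 3 → k from v) 2 ^ 5) * two
        · show (show Fin 3 → k from v) 1 ^ 5 = (show Fin 3 → k from v) 2 ^ 5 +
            (show Fin 3 → k from v) 0 ^ 5
          linear_combination heq - ((show Fin 3 → k from v) 2 ^ 5 +
            (show Fin 3 → k from v) 0 ^ 5) * two
        · show (show Fin 3 → k from v) 2 ^ 5 = (show Fin 3 → k from v) 0 ^ 5 +
            (show Fin 3 → k from v) 1 ^ 5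
          linear_combination heq - ((show Fin 3 → k from v) 0 ^ 5 +
            (show Fin 3 → k from v) 1 ^ 5) * two
      exact alg_aux hadd (pow_ne_zero _ hc) (key (c + 1) (by fin_cases c <;> decide))
        (key (c + 2) (by fin_cases c <;> decide))
  · rintro ⟨i, rfl⟩
    refine (fix_iff (over_zpt R c i)).2 ?_
    have h0 : zvec c (R.z ^ (i : ℕ)) c = 0 := by simp [zvec]
    have h16 : ∀ j, zvec c (R.z ^ (i : ℕ)) j ^ 16 = zvec c (R.z ^ (i : ℕ)) j := by
      intro j
      have := R.z5 (i : ℕ)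
      unfold zvec
      split_ifs
      · norm_num
      · norm_num
      · calc (R.z ^ (i : ℕ)) ^ 16 = ((R.z ^ (i : ℕ)) ^ 5) ^ 3 * R.z ^ (i : ℕ) := by ring
          _ = _ := by rw [this]; ring
    have hD : ∀ j, (if j = c then R.z ^ n * zvec c (R.z ^ (i : ℕ)) j
        else zvec c (R.z ^ (i : ℕ)) j) = zvec c (R.z ^ (i : ℕ)) j := by
      intro j
      split_ifs with h
      · rw [h, h0, mul_zero]
      · rfl
    intro a b
    rw [h16, h16, hD, hD]
    ring

/-- The first coordinate of the remaining points. -/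
def wx (R : Roots k) (b : Fin 2) : k := if b = 0 then R.ω ^ 2 else R.ω

/-- The second coordinate of the remaining points. -/
def wy (R : Roots k) (b : Fin 2) : k := if b = 0 then R.ω else R.ω ^ 2

/-- The points with nonvanishing coordinates. -/
def nvec (R : Roots k) (b : Fin 2) (i j : Fin 5) : Fin 3 → k :=
  ![wx R b * R.z ^ (i : ℕ), wy R b * R.z ^ (j : ℕ), 1]

theorem wx5 (R : Roots k) (b : Fin 2) : wx R b ^ 5 = wy R b := by
  have h := R.ω3
  unfold wx wy
  split_ifs
  · linear_combination (R.ω ^ 7 + R.ω ^ 4 + R.ω) * h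
  · linear_combination (R.ω ^ 2) * h

theorem wy5 (R : Roots k) (b : Fin 2) : wy R b ^ 5 = wx R b := by
  have h := R.ω3
  unfold wx wy
  split_ifs
  · linear_combination (R.ω ^ 2) * h
  · linear_combination (R.ω ^ 7 + R.ω ^ 4 + R.ω) * h

theorem wxy (R : Roots k) (b : Fin 2) : wx R b + wy R b + 1 = 0 := by
  have h := R.hω
  unfold wx wy
  split_ifs
  · exact h
  · linear_combination h

theorem w_ne (R : Roots k) (b : Fin 2) : wx R b ≠ 0 ∧ wy R b ≠ 0 := by
  have h := R.ω_ne
  unfold wx wy
  split_ifs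
  · exact ⟨pow_ne_zero _ h, h⟩
  · exact ⟨h, pow_ne_zero _ h⟩

theorem nvec_eqn (R : Roots k) (b : Fin 2) (i j : Fin 5) :
    nvec R b i j 0 ^ 5 + nvec R b i j 1 ^ 5 + nvec R b i j 2 ^ 5 = 0 := by
  show (wx R b * R.z ^ (i : ℕ)) ^ 5 + (wy R b * R.z ^ (j : ℕ)) ^ 5 + (1 : k) ^ 5 = 0
  rw [mul_pow, mul_pow, R.z5, R.z5, wx5, wy5]
  linear_combination wxy R b

theorem nvec_ne (R : Roots k) (b : Fin 2) (i j : Fin 5) : nvec R b i j ≠ 0 := by
  intro h
  have : (1 : k) = 0 := congrFun h 2
  exact one_ne_zero this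

/-- The points with nonvanishing coordinates. -/
noncomputable def npt (R : Roots k) (b : Fin 2) (i j : Fin 5) : (curve k).carrier :=
  mk3 (nvec R b i j) (nvec_ne _ _ _ _) (nvec_eqn _ _ _ _)

theorem over_npt (R : Roots k) (b : Fin 2) (i j : Fin 5) :
    Over P2 (nvec R b i j) (npt R b i j).1 := over_mk3 _ _ _

theorem wx_inj (R : Roots k) {b b' : Fin 2} (h : wx R b = wx R b') : b = b' := by
  have h1 := R.hω
  have h2 : R.ω ^ 2 ≠ R.ω := by
    intro h3
    have two : (2 : k) = 0 := CharTwo.two_eq_zero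
    rw [h3] at h1
    apply one_ne_zero (α := k)
    linear_combination h1 - R.ω * two
  fin_cases b <;> fin_cases b' <;> simp [wx] at h ⊢
  · exact h2 h
  · exact h2 h.symm

theorem npt_inj (R : Roots k) {b b' : Fin 2} {i i' j j' : Fin 5}
    (h : npt R b i j = npt R b' i' j') : b = b' ∧ i = i' ∧ j = j' := by
  have h1 := over_npt R b i j
  rw [h] at h1
  obtain ⟨t, ht, h2⟩ := exists_smul (over_npt R b' i' j') h1
  have e0 : wx R b * R.z ^ (i : ℕ) = t * (wx R b' * R.z ^ (i' : ℕ)) := congrFun h2 (0 : Fin 3)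
  have e1 : wy R b * R.z ^ (j : ℕ) = t * (wy R b' * R.z ^ (j' : ℕ)) := congrFun h2 (1 : Fin 3)
  have e2 : (1 : k) = t * 1 := congrFun h2 (2 : Fin 3)
  rw [mul_one] at e2
  rw [← e2, one_mul] at e0 e1
  have e3 : wy R b = wy R b' := by
    have := congrArg (fun x => x ^ 5) e0
    simpa only [mul_pow, R.z5, wx5, mul_one] using this
  have e4 : wx R b = wx R b' := by
    have := congrArg (fun x => x ^ 5) e1
    simpa only [mul_pow, R.z5, wy5, mul_one] using this
  have hb := wx_inj R e4
  subst hb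
  refine ⟨rfl, R.z_inj (mul_left_cancel₀ (w_ne R b).1 e0),
    R.z_inj (mul_left_cancel₀ (w_ne R b).2 e1)⟩

/-- All the points fixed by Frobenius. -/
noncomputable def fpt (R : Roots k) : (Fin 3 × Fin 5) ⊕ (Fin 2 × Fin 5 × Fin 5) →
    (curve k).carrier :=
  Sum.elim (fun x => zpt R x.1 x.2) (fun x => npt R x.1 x.2.1 x.2.2)

theorem zpt_ne_npt (R : Roots k) (c : Fin 3) (l : Fin 5) (b : Fin 2) (i j : Fin 5) :
    zpt R c l ≠ npt R b i j := by
  intro h
  have h1 := over_zpt R c l
  rw [h] at h1
  obtain ⟨t, ht, h2⟩ := exists_smul (over_npt R b i j) h1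
  have h3 : zvec c (R.z ^ (l : ℕ)) c = t * nvec R b i j c := congrFun h2 c
  have h4 : zvec c (R.z ^ (l : ℕ)) c = 0 := by simp [zvec]
  rw [h4] at h3
  have h5 := (mul_eq_zero.1 h3.symm).resolve_left ht
  have h6 := mul_ne_zero (w_ne R b).1 (R.z_ne i)
  have h7 := mul_ne_zero (w_ne R b).2 (R.z_ne j)
  fin_cases c
  · exact h6 h5
  · exact h7 h5
  · exact one_ne_zero (α := k) h5

theorem fpt_inj (R : Roots k) : Function.Injective (fpt R) := by
  rintro (⟨c, i⟩ | ⟨b, i, j⟩) (⟨c', i'⟩ | ⟨b', i', j'⟩) h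
  · obtain ⟨rfl, rfl⟩ := zpt_inj R h
    rfl
  · exact absurd h (zpt_ne_npt R _ _ _ _ _)
  · exact absurd h.symm (zpt_ne_npt R _ _ _ _ _)
  · obtain ⟨rfl, rfl, rfl⟩ := npt_inj R h
    rfl

theorem coin_one (R : Roots k) (c : Fin 3) : coin fmor (dmor R c 0) = Set.range (fpt R) := by
  have two : (2 : k) = 0 := CharTwo.two_eq_zero
  ext p
  constructor
  · obtain ⟨v', hv'⟩ := exists_over P2 p.1
    let v : Fin 3 → k := v'
    have hv : Over P2 v p.1 := hv'
    intro h
    have h1 := (fix_iff (v := v) hv).1 h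
    simp only [pow_zero, one_mul, ite_self] at h1
    have heq := (ceq hv).2
    by_cases hc : ∃ c, v c = 0
    · obtain ⟨c, hc⟩ := hc
      obtain ⟨i, hi⟩ := exists_zpt R hv hc
      exact ⟨Sum.inl (c, i), hi.symm⟩
    · push_neg at hc
      have h2 : v 2 ≠ 0 := hc 2
      have e0 : (v 0 / v 2) ^ 15 = 1 := by
        rw [div_pow, div_eq_one_iff_eq (pow_ne_zero _ h2)]
        apply mul_left_cancel₀ (mul_ne_zero h2 (hc 0))
        linear_combination h1 0 2
      have e1 : (v 1 / v 2) ^ 15 = 1 := by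
        rw [div_pow, div_eq_one_iff_eq (pow_ne_zero _ h2)]
        apply mul_left_cancel₀ (mul_ne_zero h2 (hc 1))
        linear_combination h1 1 2
      have e2 : (v 0 / v 2) ^ 5 + (v 1 / v 2) ^ 5 + 1 = 0 := by
        rw [div_pow, div_pow]
        field_simp
        linear_combination heq
      set x := v 0 / v 2 with hx
      set y := v 1 / v 2 with hy
      have e3 : (x ^ 5) ^ 3 = 1 := by rw [← e0]; ring
      have e4 : (x ^ 5 + 1) ^ 3 = 1 := by
        have : y ^ 5 = x ^ 5 + 1 := by linear_combination e2 - (x ^ 5 + 1) * two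
        rw [← this, ← e1]
        ring
      have e5 : (x ^ 5) ^ 2 + x ^ 5 + 1 = 0 := by
        linear_combination e4 - e3 - ((x ^ 5) ^ 2 + (x ^ 5)) * two
      obtain ⟨b, hb⟩ : ∃ b, x ^ 5 = wy R b := by
        rcases R.root_ω e5 with h | h
        · exact ⟨0, by rw [h]; simp [wy]⟩
        · exact ⟨1, by rw [h]; simp [wy]⟩
      have hb' : y ^ 5 = wx R b := by
        have := wxy R b
        linear_combination e2 - this - hb
      obtain ⟨i, hi⟩ := R.exists_z (η := x / wx R b) (by
        rw [div_pow, wx5, hb, div_self (w_ne R b).2])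
      obtain ⟨j, hj⟩ := R.exists_z (η := y / wy R b) (by
        rw [div_pow, wy5, hb', div_self (w_ne R b).1])
      refine ⟨Sum.inr (b, i, j), Subtype.ext ?_⟩
      have hxx : v 0 = v 2 * (wx R b * R.z ^ (i : ℕ)) := by
        rw [← hi, hx]
        have := (w_ne R b).1
        field_simp
      have hyy : v 1 = v 2 * (wy R b * R.z ^ (j : ℕ)) := by
        rw [← hj, hy]
        have := (w_ne R b).2
        field_simp
      have h6 : v = fun l => v 2 * nvec R b i j l := by
        funext l
        fin_cases l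
        · exact hxx
        · exact hyy
        · exact (mul_one _).symm
      have h7 := over_smul (over_npt R b i j) h2
      exact (over_unique P2 v _ _ hv (by rw [h6]; exact h7)).symm
  · rintro ⟨x, rfl⟩
    have key : ∀ (p : (curve k).carrier) (v : Fin 3 → k), Over P2 v p.1 →
        (∀ i, v i ^ 16 = v i) → p ∈ coin fmor (dmor R c 0) := by
      intro p v hv h
      refine (fix_iff hv).2 ?_
      intro i j
      rw [h, h]
      simp only [pow_zero, one_mul, ite_self]
      ring
    have hz : ∀ i : ℕ, (R.z ^ i) ^ 16 = R.z ^ i := by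
      intro i
      calc (R.z ^ (i : ℕ)) ^ 16 = ((R.z ^ (i : ℕ)) ^ 5) ^ 3 * R.z ^ (i : ℕ) := by ring
          _ = _ := by rw [R.z5]; ring
    rcases x with ⟨c', i⟩ | ⟨b, i, j⟩
    · refine key _ _ (over_zpt R c' i) ?_
      intro l
      unfold zvec
      split_ifs
      · norm_num
      · norm_num
      · exact hz i
    · refine key _ _ (over_npt R b i j) ?_
      intro l
      have hwx : wx R b ^ 16 = wx R b := by
        have h3 : wx R b ^ 25 = wx R b := by
          calc wx R b ^ 25 = (wx R b ^ 5) ^ 5 := by ring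
            _ = _ := by rw [wx5, wy5]
        have h4 : wx R b ^ 3 = 1 := by
          have := R.ω3
          unfold wx
          split_ifs
          · linear_combination (R.ω ^ 3 + 1) * this
          · exact this
        linear_combination (wx R b ^ 13 + wx R b ^ 10 + wx R b ^ 7 + wx R b ^ 4 + wx R b) * h4
      have hwy : wy R b ^ 16 = wy R b := by
        have h4 : wy R b ^ 3 = 1 := by
          have := R.ω3
          unfold wy
          split_ifs
          · exact this
          · linear_combination (R.ω ^ 3 + 1) * this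
        linear_combination (wy R b ^ 13 + wy R b ^ 10 + wy R b ^ 7 + wy R b ^ 4 + wy R b) * h4
      fin_cases l
      · show (wx R b * R.z ^ (i : ℕ)) ^ 16 = wx R b * R.z ^ (i : ℕ)
        rw [mul_pow, hwx, hz]
      · show (wy R b * R.z ^ (j : ℕ)) ^ 16 = wy R b * R.z ^ (j : ℕ)
        rw [mul_pow, hwy, hz]
      · show (1 : k) ^ 16 = 1
        norm_num

theorem ncard_range_eq {α β : Type*} [Finite α] {f : α → β} (hf : Function.Injective f) :
    (Set.range f).ncard = Nat.card α := by
  rw [← Set.image_univ, Set.ncard_image_of_injective _ hf, Set.ncard_univ]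

theorem ncard_coin_ne (R : Roots k) (c : Fin 3) {n : ℕ} (hn : R.z ^ n ≠ 1) :
    (coin fmor (dmor R c n)).ncard = 5 := by
  rw [coin_ne R c hn, ncard_range_eq (fun i j h => (zpt_inj R h).2)]
  simp

theorem ncard_coin_one (R : Roots k) (c : Fin 3) :
    (coin fmor (dmor R c 0)).ncard = 65 := by
  rw [coin_one R c, ncard_range_eq (fpt_inj R)]
  simp

/-- The intersection of two graphs. -/
theorem gset_inter (D E : HomData k) : D.gr ∩ E.gr =
    (fun p : (curve k).carrier => ((p.1, (D.mor.fn p).1) : Pt k P2 × Pt k P2)) ''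
      coin D.mor E.mor := by
  ext ⟨p, q⟩
  constructor
  · rintro ⟨⟨hp, h1⟩, ⟨hp', h2⟩⟩
    refine ⟨⟨p, hp⟩, ?_, ?_⟩
    · apply Subtype.ext
      exact h1.symm.trans h2
    · exact Prod.ext rfl h1.symm
  · rintro ⟨r, hr, h⟩
    have h1 : r.1 = p := congrArg Prod.fst h
    have h2 : (D.mor.fn r).1 = q := congrArg Prod.snd h
    subst h1
    refine ⟨⟨r.2, h2.symm⟩, ⟨r.2, ?_⟩⟩
    have h3 : D.mor.fn r = E.mor.fn r := hr
    exact h2.symm.trans (congrArg Subtype.val h3)

theorem ncard_inter (D E : HomData k) : (D.gr ∩ E.gr).ncard = (coin D.mor E.mor).ncard := by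
  rw [gset_inter]
  apply Set.ncard_image_of_injective
  intro p q h
  exact Subtype.ext (congrArg Prod.fst h)

end Pool.Agent.Lib.MP_77d3c1_ag
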