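import Pool.Agent.Lib.MP_77d3c1_ag.Sections

/-!
# The divisors on the square of the Fermat quintic
-/

set_option autoImplicit false
set_option linter.unusedSectionVars false

open MvPolynomial

namespace Pool.Agent.Lib.MP_77d3c1_ag

universe u v w

variable {k : Type u} [Field k] [CharP k 2] [IsAlgClosed k]

/-- `P × C`. -/
noncomputable def SP (R : Roots k) (i : Fin 5) : Sub (XX k) :=
  (Sub.point (zpt R 0 i)).prod (Sub.whole (curve k))

/-- `C × P`. -/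
noncomputable def SQ (R : Roots k) (i : Fin 5) : Sub (XX k) :=
  (Sub.whole (curve k)).prod (Sub.point (zpt R 0 i))

/-- The graph of a diagonal automorphism. -/
noncomputable def SG (R : Roots k) (c : Fin 3) (n : ℕ) : Sub (XX k) := Sub.graph (dmor R c n)

/-- The components of the divisor `H`. -/
noncomputable def SH (R : Roots k) : Fin 5 ⊕ Fin 5 ⊕ (Fin 3 × Fin 4) → Sub (XX k) :=
  Sum.elim (SP R) (Sum.elim (SQ R) (fun x => SG R x.1 ((x.2 : ℕ) + 1)))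

/-- The components of `x_0 y_0 = 0`. -/
noncomputable def SE (R : Roots k) : Fin 5 ⊕ Fin 5 → Sub (XX k) := Sum.elim (SP R) (SQ R)

/-- The components of `x_0 y_1 = x_1 y_0`. -/
noncomputable def SD (R : Roots k) : Fin 5 → Sub (XX k) := fun i => SG R 2 i

theorem mem_SP (R : Roots k) (i : Fin 5) (p : sq k) :
    p.1 ∈ (SP R i).carrier ↔ p.1.1 = (zpt R 0 i).1 :=
  ⟨fun h => h.1, fun h => ⟨h, p.2.2⟩⟩

theorem mem_SQ (R : Roots k) (i : Fin 5) (p : sq k) :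
    p.1 ∈ (SQ R i).carrier ↔ p.1.2 = (zpt R 0 i).1 :=
  ⟨fun h => h.2, fun h => ⟨p.2.1, h⟩⟩

theorem SG_carrier (R : Roots k) (c : Fin 3) (n : ℕ) :
    (SG R c n).carrier = (diagData c (R.z ^ n) (R.z5 n)).gr := rfl

/-- The point of the square with given coordinates. -/
def mkp (p q : (curve k).carrier) : sq k := ⟨(p.1, q.1), p.2, q.2⟩

/-- The point with coordinates `(ω^2, ω, 1)`. -/
noncomputable def gpt (R : Roots k) : (curve k).carrier := npt R 0 0 0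

/-- The coordinates `(ω^2, ω, 1)`. -/
def gv (R : Roots k) : Fin 3 → k := nvec R 0 0 0

theorem over_gpt (R : Roots k) : Over P2 (gv R) (gpt R).1 := over_npt R 0 0 0

theorem gv0 (R : Roots k) : gv R 0 = R.ω ^ 2 := by simp [gv, nvec, wx]
theorem gv1 (R : Roots k) : gv R 1 = R.ω := by simp [gv, nvec, wy]
theorem gv2 (R : Roots k) : gv R 2 = 1 := by simp [gv, nvec]

theorem gv_ne (R : Roots k) (i : Fin 3) : gv R i ≠ 0 := by
  have h := R.ω_ne
  fin_cases i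
  · show gv R 0 ≠ 0
    rw [gv0]; exact pow_ne_zero _ h
  · show gv R 1 ≠ 0
    rw [gv1]; exact h
  · show gv R 2 ≠ 0
    rw [gv2]; exact one_ne_zero

/-- The image of the point by a diagonal automorphism. -/
theorem over_dgpt (R : Roots k) (c : Fin 3) (n : ℕ) :
    Over P2 ((diagData c (R.z ^ n) (R.z5 n)).T (gv R)) ((dmor R c n).fn (gpt R)).1 :=
  HomData.over_fn _ (over_gpt R)

theorem dT_c (R : Roots k) (c : Fin 3) (n : ℕ) (x : Fin 3 → k) :
    (diagData c (R.z ^ n) (R.z5 n)).T x c = R.z ^ n * x c := if_pos rfl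

theorem dT_ne (R : Roots k) {c j : Fin 3} (h : j ≠ c) (n : ℕ) (x : Fin 3 → k) :
    (diagData c (R.z ^ n) (R.z5 n)).T x j = x j := if_neg h

theorem cr_dgv (R : Roots k) (c : Fin 3) {n : ℕ} (hn : R.z ^ n ≠ 1) :
    cr (gv R) ((diagData c (R.z ^ n) (R.z5 n)).T (gv R)) c = 0 ∧
    cr (gv R) ((diagData c (R.z ^ n) (R.z5 n)).T (gv R)) (c + 1) ≠ 0 ∧
    cr (gv R) ((diagData c (R.z ^ n) (R.z5 n)).T (gv R)) (c + 2) ≠ 0 := by
  refine ⟨?_, ?_, ?_⟩
  · unfold cr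
    rw [dT_ne R (fin3_ne1 c), dT_ne R (fin3_ne2 c)]
    ring
  · rw [cr_a, dT_c, dT_ne R (fin3_ne2 c)]
    have h : gv R (c + 2) * (R.z ^ n * gv R c) - gv R c * gv R (c + 2) =
        (gv R c * gv R (c + 2)) * (R.z ^ n - 1) := by ring
    rw [h]
    exact mul_ne_zero (mul_ne_zero (gv_ne R _) (gv_ne R _)) (sub_ne_zero.2 hn)
  · rw [cr_b, dT_c, dT_ne R (fin3_ne1 c)]
    have h : gv R c * gv R (c + 1) - gv R (c + 1) * (R.z ^ n * gv R c) =
        (gv R c * gv R (c + 1)) * (1 - R.z ^ n) := by ring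
    rw [h]
    exact mul_ne_zero (mul_ne_zero (gv_ne R _) (gv_ne R _)) (sub_ne_zero.2 (Ne.symm hn))

/-! ### Values at the good points -/

theorem nz_sec {p : sq k} {x y : Fin 3 → k} (hx : Over P2 x p.1.1) (hy : Over P2 y p.1.2)
    {c : Fin 3} (h : cr x y c ≠ 0) : NZ (A := .prod P2 P2) sec c p :=
  (nz_iff (A := .prod P2 P2) (φ := sec) (i := c) (p := p) (u := cr x y)
    (over_sec hx hy (fun h0 => h (congrFun h0 c)))).2 h

theorem nz_pr1 {p : sq k} {x : Fin 3 → k} (hx : Over P2 x p.1.1) {c : Fin 3} (h : x c ≠ 0) :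
    NZ (A := .prod P2 P2) pr1 c p :=
  (nz_iff (A := .prod P2 P2) (φ := pr1) (i := c) (p := p) (u := x) hx).2 h

theorem nz_pr2 {p : sq k} {x : Fin 3 → k} (hx : Over P2 x p.1.2) {c : Fin 3} (h : x c ≠ 0) :
    NZ (A := .prod P2 P2) pr2 c p :=
  (nz_iff (A := .prod P2 P2) (φ := pr2) (i := c) (p := p) (u := x) hx).2 h

/-- The coordinate of `phi` used for the hyperplane section. -/
abbrev κ0 : (((Fin 3 × Fin 3) × Fin 3) × Fin 3) × Fin 3 := ((((0, 0), 0), 1), 2)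

theorem vz_seg (p : sq k) : VZ (A := .prod P2 P2) seg ((0 : Fin 3), (0 : Fin 3)) p ↔
    VZ (A := .prod P2 P2) pr1 (0 : Fin 3) p ∨ VZ (A := .prod P2 P2) pr2 (0 : Fin 3) p :=
  vz_tens (A := .prod P2 P2)

theorem vz_phi (p : sq k) : VZ (A := .prod P2 P2) phi κ0 p ↔
    (((VZ (A := .prod P2 P2) seg ((0 : Fin 3), (0 : Fin 3)) p ∨
      VZ (A := .prod P2 P2) sec (0 : Fin 3) p) ∨ VZ (A := .prod P2 P2) sec (1 : Fin 3) p) ∨
        VZ (A := .prod P2 P2) sec (2 : Fin 3) p) :=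
  (vz_tens (A := .prod P2 P2) (φ := phi3) (ψ := sec)).trans (or_congr
    ((vz_tens (A := .prod P2 P2) (φ := phi2) (ψ := sec)).trans (or_congr
      (vz_tens (A := .prod P2 P2) (φ := seg) (ψ := sec)) Iff.rfl)) Iff.rfl)

theorem isReg_phi2 : IsReg (A := .prod P2 P2) (sq k) phi2 := IsReg.tens isReg_seg isReg_sec

theorem isReg_phi3 : IsReg (A := .prod P2 P2) (sq k) phi3 := IsReg.tens isReg_phi2 isReg_sec

/-- A simple zero of the first factor. -/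
theorem sz_phi_seg {p : sq k} (h : SZ (A := .prod P2 P2) seg ((0 : Fin 3), (0 : Fin 3)) p)
    (h0 : NZ (A := .prod P2 P2) sec (0 : Fin 3) p) (h1 : NZ (A := .prod P2 P2) sec (1 : Fin 3) p)
    (h2 : NZ (A := .prod P2 P2) sec (2 : Fin 3) p) : SZ (A := .prod P2 P2) phi κ0 p :=
  ((h.tens_left isReg_sec h0).tens_left isReg_sec h1).tens_left isReg_sec h2

theorem sz_phi_sec0 {p : sq k} (h : NZ (A := .prod P2 P2) seg ((0 : Fin 3), (0 : Fin 3)) p)
    (h0 : SZ (A := .prod P2 P2) sec (0 : Fin 3) p) (h1 : NZ (A := .prod P2 P2) sec (1 : Fin 3) p)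
    (h2 : NZ (A := .prod P2 P2) sec (2 : Fin 3) p) : SZ (A := .prod P2 P2) phi κ0 p :=
  ((h0.tens_right isReg_seg h).tens_left isReg_sec h1).tens_left isReg_sec h2

theorem sz_phi_sec1 {p : sq k} (h : NZ (A := .prod P2 P2) seg ((0 : Fin 3), (0 : Fin 3)) p)
    (h0 : NZ (A := .prod P2 P2) sec (0 : Fin 3) p) (h1 : SZ (A := .prod P2 P2) sec (1 : Fin 3) p)
    (h2 : NZ (A := .prod P2 P2) sec (2 : Fin 3) p) : SZ (A := .prod P2 P2) phi κ0 p :=
  (h1.tens_right isReg_phi2 (h.tens h0)).tens_left isReg_sec h2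

theorem sz_phi_sec2 {p : sq k} (h : NZ (A := .prod P2 P2) seg ((0 : Fin 3), (0 : Fin 3)) p)
    (h0 : NZ (A := .prod P2 P2) sec (0 : Fin 3) p) (h1 : NZ (A := .prod P2 P2) sec (1 : Fin 3) p)
    (h2 : SZ (A := .prod P2 P2) sec (2 : Fin 3) p) : SZ (A := .prod P2 P2) phi κ0 p :=
  h2.tens_right isReg_phi3 ((h.tens h0).tens h1)

/-- A point of `P × C` where `seg` has a simple zero. -/
theorem sz_seg_left (R : Roots k) (i : Fin 5) :
    SZ (A := .prod P2 P2) seg ((0 : Fin 3), (0 : Fin 3)) (mkp (zpt R 0 i) (gpt R)) :=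
  SZ.tens_left (A := .prod P2 P2)
    (sz_pr1 (p := mkp (zpt R 0 i) (gpt R)) (over_zpt R 0 i) (over_gpt R) (by simp [zvec]))
    isReg_pr2 (nz_pr2 (p := mkp (zpt R 0 i) (gpt R)) (over_gpt R) (gv_ne R 0))

theorem sz_seg_right (R : Roots k) (i : Fin 5) :
    SZ (A := .prod P2 P2) seg ((0 : Fin 3), (0 : Fin 3)) (mkp (gpt R) (zpt R 0 i)) :=
  SZ.tens_right (A := .prod P2 P2)
    (sz_pr2 (p := mkp (gpt R) (zpt R 0 i)) (over_gpt R) (over_zpt R 0 i) (by simp [zvec]))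
    isReg_pr1 (nz_pr1 (p := mkp (gpt R) (zpt R 0 i)) (over_gpt R) (gv_ne R 0))

theorem zω_ne (R : Roots k) (i : ℕ) : R.z ^ i * R.ω ≠ 1 := by
  intro h
  have h1 : (R.z ^ i * R.ω) ^ 5 = 1 := by rw [h, one_pow]
  rw [mul_pow, R.z5, one_mul] at h1
  have h2 : R.ω ^ 2 = 1 := by
    have := R.ω3
    linear_combination h1 - R.ω ^ 2 * this
  have h3 := R.hω
  rw [h2] at h3
  have two : (2 : k) = 0 := CharTwo.two_eq_zero
  apply R.ω_ne
  linear_combination h3 - two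

theorem cr_left (R : Roots k) (i : Fin 5) (c : Fin 3) :
    cr (zvec 0 (R.z ^ (i : ℕ))) (gv R) c ≠ 0 := by
  have h1 := zω_ne R i
  have h2 := R.z_ne i
  have h3 := R.ω_ne
  fin_cases c
  · show zvec 0 (R.z ^ (i : ℕ)) 1 * gv R 2 - zvec 0 (R.z ^ (i : ℕ)) 2 * gv R 1 ≠ 0
    rw [gv1, gv2]
    simp only [zvec]
    intro h
    apply h1
    simp at h
    linear_combination -h
  · show zvec 0 (R.z ^ (i : ℕ)) 2 * gv R 0 - zvec 0 (R.z ^ (i : ℕ)) 0 * gv R 2 ≠ 0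
    rw [gv0, gv2]
    simp [zvec, h2, h3]
  · show zvec 0 (R.z ^ (i : ℕ)) 0 * gv R 1 - zvec 0 (R.z ^ (i : ℕ)) 1 * gv R 0 ≠ 0
    rw [gv0, gv1]
    simp [zvec, h3]

theorem cr_swap (x y : Fin 3 → k) (c : Fin 3) : cr y x c = - cr x y c := by
  unfold cr
  ring

theorem sz_phi_left (R : Roots k) (i : Fin 5) :
    SZ (A := .prod P2 P2) phi κ0 (mkp (zpt R 0 i) (gpt R)) :=
  sz_phi_seg (sz_seg_left R i)
    (nz_sec (p := mkp (zpt R 0 i) (gpt R)) (over_zpt R 0 i) (over_gpt R) (cr_left R i 0))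
    (nz_sec (p := mkp (zpt R 0 i) (gpt R)) (over_zpt R 0 i) (over_gpt R) (cr_left R i 1))
    (nz_sec (p := mkp (zpt R 0 i) (gpt R)) (over_zpt R 0 i) (over_gpt R) (cr_left R i 2))

theorem sz_phi_right (R : Roots k) (i : Fin 5) :
    SZ (A := .prod P2 P2) phi κ0 (mkp (gpt R) (zpt R 0 i)) :=
  sz_phi_seg (sz_seg_right R i)
    (nz_sec (p := mkp (gpt R) (zpt R 0 i)) (over_gpt R) (over_zpt R 0 i)
      (by rw [cr_swap]; exact neg_ne_zero.2 (cr_left R i 0)))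
    (nz_sec (p := mkp (gpt R) (zpt R 0 i)) (over_gpt R) (over_zpt R 0 i)
      (by rw [cr_swap]; exact neg_ne_zero.2 (cr_left R i 1)))
    (nz_sec (p := mkp (gpt R) (zpt R 0 i)) (over_gpt R) (over_zpt R 0 i)
      (by rw [cr_swap]; exact neg_ne_zero.2 (cr_left R i 2)))

theorem sz_phi_graph (R : Roots k) (c : Fin 3) {n : ℕ} (hn : R.z ^ n ≠ 1) :
    SZ (A := .prod P2 P2) phi κ0 (mkp (gpt R) ((dmor R c n).fn (gpt R))) := by
  obtain ⟨h0, h1, h2⟩ := cr_dgv R c hn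
  have hx := over_gpt R
  have hy := over_dgpt R c n
  have hyne : ∀ j, (diagData c (R.z ^ n) (R.z5 n)).T (gv R) j ≠ 0 := by
    intro j
    by_cases hj : j = c
    · rw [hj, dT_c]
      exact mul_ne_zero (R.z_ne n) (gv_ne R c)
    · rw [dT_ne R hj]
      exact gv_ne R j
  have hs : SZ (A := .prod P2 P2) sec c (mkp (gpt R) ((dmor R c n).fn (gpt R))) :=
    sz_sec (p := mkp (gpt R) ((dmor R c n).fn (gpt R))) hx hy h0 h1 (gv_ne R c) (hyne _)
  have hseg : NZ (A := .prod P2 P2) seg ((0 : Fin 3), (0 : Fin 3))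
      (mkp (gpt R) ((dmor R c n).fn (gpt R))) :=
    NZ.tens (A := .prod P2 P2)
      (nz_pr1 (p := mkp (gpt R) ((dmor R c n).fn (gpt R))) hx (gv_ne R 0))
      (nz_pr2 (p := mkp (gpt R) ((dmor R c n).fn (gpt R))) hy (hyne 0))
  have n1 : NZ (A := .prod P2 P2) sec (c + 1) (mkp (gpt R) ((dmor R c n).fn (gpt R))) :=
    nz_sec (p := mkp (gpt R) ((dmor R c n).fn (gpt R))) hx hy h1
  have n2 : NZ (A := .prod P2 P2) sec (c + 2) (mkp (gpt R) ((dmor R c n).fn (gpt R))) :=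
    nz_sec (p := mkp (gpt R) ((dmor R c n).fn (gpt R))) hx hy h2
  fin_cases c
  · exact sz_phi_sec0 hseg hs n1 n2
  · exact sz_phi_sec1 hseg n2 hs n1
  · exact sz_phi_sec2 hseg n1 n2 hs

/-! ### The components are distinct -/

theorem gpt_ne_zpt (R : Roots k) (c : Fin 3) (i : Fin 5) : (gpt R).1 ≠ (zpt R c i).1 :=
  fun h => zpt_ne_npt R c i 0 0 0 (Subtype.ext h.symm)

theorem dgpt_ne_zpt (R : Roots k) (c : Fin 3) (n : ℕ) (i : Fin 5) :
    ((dmor R c n).fn (gpt R)).1 ≠ (zpt R 0 i).1 := by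
  intro h
  have h1 := over_dgpt R c n
  have h2 : Over P2 ((diagData c (R.z ^ n) (R.z5 n)).T (gv R)) (zpt R 0 i).1 :=
    (congrArg (Over P2 _) h).mp h1
  obtain ⟨t, ht, h3⟩ := exists_smul3 (over_zpt R 0 i) h2
  have h4 := congrFun h3 0
  have h5 : zvec 0 (R.z ^ (i : ℕ)) 0 = 0 := by simp [zvec]
  rw [h5, mul_zero] at h4
  by_cases hc : (0 : Fin 3) = c
  · subst hc
    rw [dT_c] at h4
    exact mul_ne_zero (R.z_ne n) (gv_ne R 0) h4
  · rw [dT_ne R hc] at h4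
    exact gv_ne R 0 h4

theorem mem_SP' (R : Roots k) (i : Fin 5) (q : (curve k).carrier) :
    (mkp (zpt R 0 i) q).1 ∈ (SP R i).carrier := (mem_SP R i _).2 rfl

theorem mem_SQ' (R : Roots k) (i : Fin 5) (q : (curve k).carrier) :
    (mkp q (zpt R 0 i)).1 ∈ (SQ R i).carrier := (mem_SQ R i _).2 rfl

theorem mem_SG' (R : Roots k) (c : Fin 3) (n : ℕ) (q : (curve k).carrier) :
    (mkp q ((dmor R c n).fn q)).1 ∈ (SG R c n).carrier := ⟨q.2, rfl⟩

theorem SP_inj (R : Roots k) {i j : Fin 5} (h : SP R i = SP R j) : i = j := by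
  have h1 := mem_SP' R i (gpt R)
  rw [h] at h1
  have h2 := (mem_SP R j _).1 h1
  exact (zpt_inj R (Subtype.ext h2)).2

theorem SQ_inj (R : Roots k) {i j : Fin 5} (h : SQ R i = SQ R j) : i = j := by
  have h1 := mem_SQ' R i (gpt R)
  rw [h] at h1
  have h2 := (mem_SQ R j _).1 h1
  exact (zpt_inj R (Subtype.ext h2)).2

theorem SP_ne_SQ (R : Roots k) (i j : Fin 5) : SP R i ≠ SQ R j := by
  intro h
  have h1 := mem_SP' R i (gpt R)
  rw [h] at h1
  exact gpt_ne_zpt R 0 j ((mem_SQ R j _).1 h1)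

theorem SP_ne_SG (R : Roots k) (i : Fin 5) (c : Fin 3) (n : ℕ) : SP R i ≠ SG R c n := by
  intro h
  have h1 := mem_SG' R c n (gpt R)
  rw [← h] at h1
  exact gpt_ne_zpt R 0 i ((mem_SP R i _).1 h1)

theorem SQ_ne_SG (R : Roots k) (i : Fin 5) (c : Fin 3) (n : ℕ) : SQ R i ≠ SG R c n := by
  intro h
  have h1 := mem_SG' R c n (gpt R)
  rw [← h] at h1
  exact dgpt_ne_zpt R c n i ((mem_SQ R i _).1 h1)

theorem SG_eq (R : Roots k) {c c' : Fin 3} {n n' : ℕ} (h : SG R c n = SG R c' n') :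
    ∃ t : k, ∀ j : Fin 3, (diagData c (R.z ^ n) (R.z5 n)).T (gv R) j =
      t * (diagData c' (R.z ^ n') (R.z5 n')).T (gv R) j := by
  have h1 := mem_SG' R c n (gpt R)
  rw [h] at h1
  obtain ⟨s, hs, h2⟩ := (mem_gr_iff (D := diagData c' (R.z ^ n') (R.z5 n'))
    (p := mkp (gpt R) ((dmor R c n).fn (gpt R))) (over_gpt R) (over_dgpt R c n)).1 h1
  exact ⟨s, fun j => congrFun h2 j⟩

theorem SG_inj (R : Roots k) {c : Fin 3} {n n' : ℕ} (h : SG R c n = SG R c n') :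
    R.z ^ n = R.z ^ n' := by
  obtain ⟨t, ht⟩ := SG_eq R h
  have h1 := ht (c + 1)
  rw [dT_ne R (fin3_ne1 c), dT_ne R (fin3_ne1 c)] at h1
  have h2 : t = 1 := by
    apply mul_right_cancel₀ (gv_ne R (c + 1))
    rw [one_mul]
    exact h1.symm
  have h3 := ht c
  rw [dT_c, dT_c, h2, one_mul] at h3
  exact mul_right_cancel₀ (gv_ne R c) h3

theorem SG_c (R : Roots k) {c c' : Fin 3} {n n' : ℕ} (hn : R.z ^ n ≠ 1)
    (h : SG R c n = SG R c' n') : c = c' := by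
  by_contra hc
  obtain ⟨t, ht⟩ := SG_eq R h
  obtain ⟨d, hd1, hd2⟩ : ∃ d : Fin 3, d ≠ c ∧ d ≠ c' := by
    fin_cases c <;> fin_cases c' <;> first | exact absurd rfl hc | decide
  have h1 := ht d
  rw [dT_ne R hd1, dT_ne R hd2] at h1
  have h2 : t = 1 := by
    apply mul_right_cancel₀ (gv_ne R d)
    rw [one_mul]
    exact h1.symm
  have h3 := ht c
  rw [dT_c, dT_ne R hc, h2, one_mul] at h3
  apply hn
  apply mul_right_cancel₀ (gv_ne R c)
  rw [one_mul]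
  exact h3

theorem SH_injective (R : Roots k) : Function.Injective (SH R) := by
  rintro (i | i | ⟨c, i⟩) (j | j | ⟨c', j⟩) h
  · rw [SP_inj R h]
  · exact absurd h (SP_ne_SQ R _ _)
  · exact absurd h (SP_ne_SG R _ _ _)
  · exact absurd h.symm (SP_ne_SQ R _ _)
  · rw [SQ_inj R h]
  · exact absurd h (SQ_ne_SG R _ _ _)
  · exact absurd h.symm (SP_ne_SG R _ _ _)
  · exact absurd h.symm (SQ_ne_SG R _ _ _)
  · have h' : SG R c ((i : ℕ) + 1) = SG R c' ((j : ℕ) + 1) := h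
    have hc := SG_c R (z_succ_ne R i) h'
    subst hc
    have h1 := SG_inj R h'
    have h2 : (⟨(i : ℕ) + 1, by omega⟩ : Fin 5) = ⟨(j : ℕ) + 1, by omega⟩ := R.z_inj h1
    have h3 : (i : ℕ) + 1 = (j : ℕ) + 1 := congrArg Fin.val h2
    have h4 : i = j := Fin.ext (by omega)
    rw [h4]

theorem SE_injective (R : Roots k) : Function.Injective (SE R) := by
  rintro (i | i) (j | j) h
  · rw [SP_inj R h]
  · exact absurd h (SP_ne_SQ R _ _)
  · exact absurd h.symm (SP_ne_SQ R _ _)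
  · rw [SQ_inj R h]

theorem SD_injective (R : Roots k) : Function.Injective (SD R) := fun _ _ h =>
  R.z_inj (SG_inj R h)

/-! ### The sections -/

theorem zero_SH (R : Roots k) (p : sq k) :
    (∃ i, p.1 ∈ (SH R i).carrier) ↔ VZ (A := .prod P2 P2) phi κ0 p := by
  rw [vz_phi, vz_seg, vz_pr1 R, vz_pr2 R, vz_sec R, vz_sec R, vz_sec R]
  constructor
  · rintro ⟨i | i | ⟨c, i⟩, hi⟩
    · exact Or.inl (Or.inl (Or.inl (Or.inl ⟨i, (mem_SP R i p).1 hi⟩)))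
    · exact Or.inl (Or.inl (Or.inl (Or.inr ⟨i, (mem_SQ R i p).1 hi⟩)))
    · fin_cases c
      · exact Or.inl (Or.inl (Or.inr ⟨i, hi⟩))
      · exact Or.inl (Or.inr ⟨i, hi⟩)
      · exact Or.inr ⟨i, hi⟩
  · rintro ((((⟨i, hi⟩ | ⟨i, hi⟩) | ⟨i, hi⟩) | ⟨i, hi⟩) | ⟨i, hi⟩)
    · exact ⟨Sum.inl i, (mem_SP R i p).2 hi⟩
    · exact ⟨Sum.inr (Sum.inl i), (mem_SQ R i p).2 hi⟩
    · exact ⟨Sum.inr (Sum.inr (0, i)), hi⟩
    · exact ⟨Sum.inr (Sum.inr (1, i)), hi⟩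
    · exact ⟨Sum.inr (Sum.inr (2, i)), hi⟩

theorem zero_SE (R : Roots k) (p : sq k) :
    (∃ i, p.1 ∈ (SE R i).carrier) ↔
      VZ (A := .prod P2 P2) seg ((0 : Fin 3), (0 : Fin 3)) p := by
  rw [vz_seg, vz_pr1 R, vz_pr2 R]
  constructor
  · rintro ⟨i | i, hi⟩
    · exact Or.inl ⟨i, (mem_SP R i p).1 hi⟩
    · exact Or.inr ⟨i, (mem_SQ R i p).1 hi⟩
  · rintro (⟨i, hi⟩ | ⟨i, hi⟩)
    · exact ⟨Sum.inl i, (mem_SP R i p).2 hi⟩
    · exact ⟨Sum.inr i, (mem_SQ R i p).2 hi⟩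

theorem zero_SD (R : Roots k) (p : sq k) {x y : Fin 3 → k} (hx : Over P2 x p.1.1)
    (hy : Over P2 y p.1.2) : (∃ i, p.1 ∈ (SD R i).carrier) ↔ cr x y 2 = 0 := by
  obtain ⟨⟨hx0, hx1⟩, ⟨hy0, hy1⟩⟩ := sq_eqn (p := p) hx hy
  rw [cr_zero_iff R hx0 hx1 hy0 hy1]
  constructor
  · rintro ⟨i, hi⟩
    exact ⟨i, (mem_gr_iff (p := p) hx hy).1 hi⟩
  · rintro ⟨i, hi⟩
    exact ⟨i, (mem_gr_iff (p := p) hx hy).2 hi⟩

/-- The divisor `H` is a hyperplane section of a closed embedding. -/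
theorem isSection_SH (R : Roots k) : IsSection (XX k)
    (h := inferInstance) (κ := (((Fin 3 × Fin 3) × Fin 3) × Fin 3) × Fin 3) phi
    (LinearMap.proj κ0) (SH R) where
  inj := SH_injective R
  codim := by rintro (i | i | ⟨c, i⟩) <;> rfl
  zero := fun p => zero_SH R p
  mult := by
    rintro (i | i | ⟨c, i⟩)
    · obtain ⟨h, Ψ, v, h1, h2, h3, _, w, h5, h6⟩ := sz_phi_left R i
      exact ⟨mkp (zpt R 0 i) (gpt R), mem_SP' R i (gpt R), h, Ψ, v, h1, h2, h3, w, h5, h6⟩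
    · obtain ⟨h, Ψ, v, h1, h2, h3, _, w, h5, h6⟩ := sz_phi_right R i
      exact ⟨mkp (gpt R) (zpt R 0 i), mem_SQ' R i (gpt R), h, Ψ, v, h1, h2, h3, w, h5, h6⟩
    · obtain ⟨h, Ψ, v, h1, h2, h3, _, w, h5, h6⟩ := sz_phi_graph R c (z_succ_ne R i)
      exact ⟨mkp (gpt R) ((dmor R c _).fn (gpt R)), mem_SG' R c _ (gpt R), h, Ψ, v, h1, h2, h3,
        w, h5, h6⟩

/-- The divisor `x_0 y_0 = 0`. -/
theorem isSection_SE (R : Roots k) : IsSection (XX k)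
    (h := inferInstance) (κ := Fin 3 × Fin 3) seg
    (LinearMap.proj ((0 : Fin 3), (0 : Fin 3))) (SE R) where
  inj := SE_injective R
  codim := by rintro (i | i) <;> rfl
  zero := fun p => zero_SE R p
  mult := by
    rintro (i | i)
    · obtain ⟨h, Ψ, v, h1, h2, h3, _, w, h5, h6⟩ := sz_seg_left R i
      exact ⟨mkp (zpt R 0 i) (gpt R), mem_SP' R i (gpt R), h, Ψ, v, h1, h2, h3, w, h5, h6⟩
    · obtain ⟨h, Ψ, v, h1, h2, h3, _, w, h5, h6⟩ := sz_seg_right R i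
      exact ⟨mkp (gpt R) (zpt R 0 i), mem_SQ' R i (gpt R), h, Ψ, v, h1, h2, h3, w, h5, h6⟩

variable (k) in
/-- The linear form `z_01 - z_10`. -/
noncomputable def ellD : (Fin 3 × Fin 3 → k) →ₗ[k] k :=
  (LinearMap.proj (R := k) (φ := fun _ : Fin 3 × Fin 3 => k) ((0 : Fin 3), (1 : Fin 3))) -
    (LinearMap.proj (R := k) (φ := fun _ : Fin 3 × Fin 3 => k) ((1 : Fin 3), (0 : Fin 3)))

theorem ellD_apply (f : Fin 3 × Fin 3 → k) : ellD k f = f (0, 1) - f (1, 0) := rfl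

theorem zero_ellD (p : sq k) {x y : Fin 3 → k} (hx : Over P2 x p.1.1)
    (hy : Over P2 y p.1.2) : cr x y 2 = 0 ↔ ∀ v : Fin 3 × Fin 3 → k,
      Over (.proj (Fin 3 × Fin 3) inferInstance) v (seg p) → ellD k v = 0 := by
  have h2 := over_tens (p := pr1 p) (q := pr2 p) hx hy
  constructor
  · intro h v hv
    obtain ⟨t, ht, h3⟩ := exists_smul h2 hv
    have h4 : x 0 * y 1 - x 1 * y 0 = 0 := h
    have e1 : v (0, 1) = t * (x 0 * y 1) := congrFun h3 ((0 : Fin 3), (1 : Fin 3))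
    have e2 : v (1, 0) = t * (x 1 * y 0) := congrFun h3 ((1 : Fin 3), (0 : Fin 3))
    rw [ellD_apply, e1, e2]
    linear_combination t * h4
  · intro h
    exact h _ h2

theorem ellD_dd {v w : (Amb.prod P2 P2).Idx → k} (h1 : bl w 1 = 0) (h2 : br w = 0) :
    ellD k (fun ij : Fin 3 × Fin 3 => dd (XI k ij.1 * YI k ij.2) v w) = br v 1 * bl w 0 := by
  rw [seg_e1, ellD_apply]
  simp [h1, h2]

theorem mult_ellD (R : Roots k) (i : Fin 5) :
    ellD k (fun ij : Fin 3 × Fin 3 => dd (XI k ij.1 * YI k ij.2)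
      (mkw (gv R) ((diagData 2 (R.z ^ (i : ℕ)) (R.z5 i)).T (gv R))) (mkw (tv 2 (gv R)) 0)) ≠ 0 := by
  rw [ellD_dd (w := mkw (tv 2 (gv R)) 0) (tv_b 2 (gv R)) rfl]
  refine mul_ne_zero ?_ ?_
  · show (diagData 2 (R.z ^ (i : ℕ)) (R.z5 i)).T (gv R) 1 ≠ 0
    rw [dT_ne R (by decide)]
    exact gv_ne R 1
  · show tv 2 (gv R) 0 ≠ 0
    exact ne_of_eq_of_ne (tv_a 2 (gv R)) (pow_ne_zero _ (gv_ne R 2))

/-- The divisor `x_0 y_1 = x_1 y_0`. -/
theorem isSection_SD (R : Roots k) : IsSection (XX k)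
    (h := inferInstance) (κ := Fin 3 × Fin 3) seg (ellD k) (SD R) where
  inj := SD_injective R
  codim := fun i => rfl
  zero := by
    intro p
    obtain ⟨x, hx⟩ := exists_over3 (k := k) (show Pt k P2 from p.1.1)
    obtain ⟨y, hy⟩ := exists_over3 (k := k) (show Pt k P2 from p.1.2)
    exact (zero_SD R p hx hy).trans (zero_ellD p hx hy)
  mult := fun i => ⟨mkp (gpt R) ((dmor R 2 i).fn (gpt R)), mem_SG' R 2 i (gpt R), 1 * 1,
      fun ij : Fin 3 × Fin 3 => XI k ij.1 * YI k ij.2,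
      mkw (gv R) ((diagData 2 (R.z ^ (i : ℕ)) (R.z5 i)).T (gv R)),
      ⟨over_gpt R, over_dgpt R 2 i⟩, by rw [mul_one, map_one]; exact one_ne_zero,
      LocRep.tens (A := .prod P2 P2) locRep_pr1 locRep_pr2,
      mkw (tv 2 (gv R)) 0, mem_tang_sq (p := mkp (gpt R) ((dmor R 2 i).fn (gpt R))) (over_gpt R)
        (over_dgpt R 2 i) (tv_eqn 2 (gv R)) (by simp), mult_ellD R i⟩

theorem veryAmple_SH (R : Roots k) : VeryAmple (SH R) :=
  ⟨_, _, _, _, isEmb_phi, isSection_SH R⟩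

end Pool.Agent.Lib.MP_77d3c1_ag
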