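import Pool.Agent.Lib.MP_77d3c1_ag.CompGr

/-!
# Effective classes
-/

set_option autoImplicit false

namespace Pool.Agent.Lib.MP_77d3c1_ag

universe u v w

variable {k : Type u} [Field k] {K : Type v} [Field K]

theorem Sub.dim_le {V : SPV k} (Z : Sub V) : Z.dim ≤ V.dim := by
  obtain ⟨_, v, hv, h2⟩ := Z.hasDim
  obtain ⟨p, hp, hpv⟩ := hv
  have h3 : tdim V.carrier v = V.dim + V.amb.rk := V.smooth v ⟨p, Z.le hp, hpv⟩
  have h4 : tdim Z.carrier v ≤ tdim V.carrier v := by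
    unfold tdim
    apply Submodule.finrank_mono
    intro w hw f hf
    apply hw f
    rintro u ⟨q, hq, hu⟩
    exact hf u ⟨q, Z.le hq, hu⟩
  omega

theorem toRat_cast' [CharZero K] (q : ℚ) : toRat ((q : ℚ) : K) = q := by
  have h : ∃ q' : ℚ, (q' : K) = (q : K) := ⟨q, rfl⟩
  unfold toRat
  rw [dif_pos h]
  exact_mod_cast h.choose_spec

theorem toRat_eq [CharZero K] {x : K} {q : ℚ} (h : (q : K) = x) : toRat x = q := by
  rw [← h, toRat_cast']

namespace Weil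

variable (W : Weil.{u, v, w} k K)

theorem clN_eq {V : SPV k} {d : ℕ} (f : PCyc V d →₀ ℕ) :
    W.clN f = f.sum fun Z c => (c : K) • W.cl Z.1 := rfl

theorem clN_zero {V : SPV k} (d : ℕ) : W.clN (0 : PCyc V d →₀ ℕ) = 0 := by
  rw [clN_eq, Finsupp.sum_zero_index]

theorem clN_add {V : SPV k} {d : ℕ} (f g : PCyc V d →₀ ℕ) :
    W.clN (f + g) = W.clN f + W.clN g := by
  rw [clN_eq, clN_eq, clN_eq, Finsupp.sum_add_index']
  · intro Z; rw [Nat.cast_zero, zero_smul]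
  · intro Z a b; rw [Nat.cast_add, add_smul]

theorem clN_single {V : SPV k} {d : ℕ} (Z : PCyc V d) (c : ℕ) :
    W.clN (Finsupp.single Z c) = (c : K) • W.cl Z.1 := by
  rw [clN_eq, Finsupp.sum_single_index]
  rw [Nat.cast_zero, zero_smul]

variable {W}

theorem eff_zero {V : SPV k} (d : ℕ) : W.Eff d (0 : W.H V) := ⟨0, (W.clN_zero d).symm⟩

theorem eff_add {V : SPV k} {d : ℕ} {x y : W.H V} (hx : W.Eff d x) (hy : W.Eff d y) :
    W.Eff d (x + y) := by
  obtain ⟨f, rfl⟩ := hx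
  obtain ⟨g, rfl⟩ := hy
  exact ⟨f + g, (W.clN_add f g).symm⟩

theorem eff_cl {V : SPV k} (Z : Sub V) : W.Eff Z.dim (W.cl Z) := by
  let Z' : PCyc V Z.dim := ⟨Z, rfl⟩
  refine ⟨Finsupp.single Z' 1, ?_⟩
  have h := W.clN_single Z' 1
  rw [Nat.cast_one, one_smul] at h
  exact h.symm

theorem eff_induction {V : SPV k} {d : ℕ} {P : W.H V → Prop} {x : W.H V} (hx : W.Eff d x)
    (zero : P 0) (add : ∀ x y, P x → P y → P (x + y)) (cl : ∀ Z : Sub V, Z.dim = d → P (W.cl Z)) :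
    P x := by
  obtain ⟨f, rfl⟩ := hx
  induction f using Finsupp.induction_linear with
  | zero => rw [clN_zero]; exact zero
  | add f g hf hg => rw [clN_add]; exact add _ _ hf hg
  | single Z c =>
    rw [clN_single]
    induction c with
    | zero => rw [Nat.cast_zero, zero_smul]; exact zero
    | succ c ih =>
      rw [Nat.cast_succ, add_smul, one_smul]
      exact add _ _ ih (cl Z.1 Z.2)

variable (hP : W.HasPositivity)

include hP

theorem eff_push {V U : SPV k} (φ : Mor V U) {d : ℕ} {x : W.H V} (hx : W.Eff d x) :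
    ∃ x' : W.H U, W.Eff d x' ∧ ∀ y, W.tr U (x' * y) = W.tr V (x * W.pull φ y) := by
  refine eff_induction (P := fun x => ∃ x' : W.H U, W.Eff d x' ∧
    ∀ y, W.tr U (x' * y) = W.tr V (x * W.pull φ y)) hx ?_ ?_ ?_
  · exact ⟨0, eff_zero d, fun y => by rw [zero_mul, zero_mul, map_zero, map_zero]⟩
  · rintro x y ⟨x', hx', h1⟩ ⟨y', hy', h2⟩
    exact ⟨x' + y', eff_add hx' hy', fun z => by rw [add_mul, add_mul, map_add, map_add, h1, h2]⟩
  · rintro Z rfl
    exact hP.image φ Z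

theorem eff_push_iter {V : SPV k} (φ : Mor V V) {d : ℕ} {x : W.H V} (hx : W.Eff d x) (t : ℕ) :
    ∃ x' : W.H V, W.Eff d x' ∧ ∀ y, W.tr V (x' * y) = W.tr V (x * (W.pull φ)^[t] y) := by
  induction t with
  | zero => exact ⟨x, hx, fun y => rfl⟩
  | succ t ih =>
    obtain ⟨x₁, hx₁, h1⟩ := ih
    obtain ⟨x₂, hx₂, h2⟩ := eff_push hP φ hx₁
    exact ⟨x₂, hx₂, fun y => by rw [h2, h1, Function.iterate_succ_apply]⟩

theorem eff_cut {V U : SPV k} (φ : Mor V U) {ι : Type} [Fintype ι] {S : ι → Sub U}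
    (hS : VeryAmple S) {d : ℕ} {x : W.H V} (hx : W.Eff (d + 1) x) :
    W.Eff d (x * W.pull φ (W.clSum S)) := by
  refine eff_induction (P := fun x => W.Eff d (x * W.pull φ (W.clSum S))) hx ?_ ?_ ?_
  · rw [zero_mul]; exact eff_zero d
  · intro x y hx hy
    rw [add_mul]
    exact eff_add hx hy
  · intro Z hZ
    exact hP.section_eff φ S hS Z d hZ

theorem eff_cut_pow {V U : SPV k} (φ : Mor V U) {ι : Type} [Fintype ι] {S : ι → Sub U}
    (hS : VeryAmple S) {d : ℕ} (j : ℕ) {x : W.H V} (hx : W.Eff (d + j) x) :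
    W.Eff d (x * W.pull φ (W.clSum S) ^ j) := by
  induction j generalizing x with
  | zero => rw [pow_zero, mul_one]; exact hx
  | succ j ih =>
    rw [pow_succ', ← mul_assoc]
    exact ih (eff_cut hP φ hS (by rwa [← add_assoc] at hx))

theorem eff_degree {V : SPV k} {x : W.H V} (hx : W.Eff 0 x) : ∃ m : ℕ, (m : K) = W.tr V x := by
  refine eff_induction (P := fun x => ∃ m : ℕ, (m : K) = W.tr V x) hx ?_ ?_ ?_
  · exact ⟨0, by rw [Nat.cast_zero, map_zero]⟩
  · rintro x y ⟨m, hm⟩ ⟨l, hl⟩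
    exact ⟨m + l, by rw [Nat.cast_add, map_add, hm, hl]⟩
  · intro Z hZ
    exact ⟨1, by rw [Nat.cast_one]; exact (hP.degree_point Z hZ).symm⟩

theorem tr_cl_int {V : SPV k} (Z : Sub V) : ∃ m : ℤ, (m : K) = W.tr V (W.cl Z) := by
  by_cases hZ : Z.dim = 0
  · exact ⟨1, by rw [Int.cast_one]; exact (hP.degree_point Z hZ).symm⟩
  · refine ⟨0, ?_⟩
    rw [Int.cast_zero]
    refine (W.tr_gr V _ _ ?_ (W.cl_gr Z)).symm
    have := Z.dim_le
    omega

theorem tr_integral {V : SPV k} {x : W.H V}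
    (hx : x ∈ AddSubgroup.closure (Set.range (W.cl (V := V)))) : ∃ m : ℤ, (m : K) = W.tr V x := by
  refine AddSubgroup.closure_induction (p := fun x _ => ∃ m : ℤ, (m : K) = W.tr V x)
    ?_ ?_ ?_ ?_ hx
  · rintro _ ⟨Z, rfl⟩
    exact tr_cl_int hP Z
  · exact ⟨0, by rw [Int.cast_zero, map_zero]⟩
  · rintro x y _ _ ⟨m, hm⟩ ⟨l, hl⟩
    exact ⟨m + l, by rw [Int.cast_add, map_add, hm, hl]⟩
  · rintro x _ ⟨m, hm⟩
    exact ⟨-m, by rw [Int.cast_neg, map_neg, hm]⟩

theorem inter_cast [CharZero K] {V : SPV k} (Z Y : Sub V) :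
    ((W.inter Z Y : ℚ) : K) = W.tr V (W.cl Z * W.cl Y) := by
  obtain ⟨m, hm⟩ := tr_integral hP (W.cl_mul Z Y)
  have h : W.inter Z Y = (m : ℚ) := by
    apply toRat_eq
    rw [Rat.cast_intCast]
    exact hm
  rw [h, Rat.cast_intCast, hm]

theorem eff_pow_nat {V : SPV k} {ι : Type} [Fintype ι] {S : ι → Sub V} (hS : VeryAmple S) {d : ℕ}
    {x : W.H V} (hx : W.Eff d x) : ∃ m : ℕ, (m : K) = W.tr V (x * W.clSum S ^ d) := by
  have h := eff_cut_pow hP (Mor.id V) hS (d := 0) d (by rwa [Nat.zero_add])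
  rw [W.pull_id] at h
  exact eff_degree hP h

/-- Intersection numbers of effective classes with a fixed cycle are bounded by the degree. -/
theorem eff_bounded [CharZero K] {V : SPV k} {ι : Type} [Fintype ι] {S : ι → Sub V}
    (hS : VeryAmple S) (Y : Sub V) : ∃ C : ℚ, 0 ≤ C ∧ ∀ (d : ℕ) (x : W.H V), d + Y.dim = V.dim →
      W.Eff d x → ∃ a b : ℚ, (a : K) = W.tr V (x * W.cl Y) ∧
        (b : K) = W.tr V (x * W.clSum S ^ d) ∧ |a| ≤ C * b := by
  obtain ⟨C, hC⟩ := hP.bounded S hS Y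
  refine ⟨|C|, abs_nonneg _, ?_⟩
  intro d x hd hx
  refine eff_induction (P := fun x => ∃ a b : ℚ, (a : K) = W.tr V (x * W.cl Y) ∧
        (b : K) = W.tr V (x * W.clSum S ^ d) ∧ |a| ≤ |C| * b) hx ?_ ?_ ?_
  · exact ⟨0, 0, by simp, by simp, by simp⟩
  · rintro x y ⟨a, b, h1, h2, h3⟩ ⟨a', b', h1', h2', h3'⟩
    refine ⟨a + a', b + b', by rw [Rat.cast_add, add_mul, map_add, h1, h1'],
      by rw [Rat.cast_add, add_mul, map_add, h2, h2'], ?_⟩
    refine (abs_add_le a a').trans ?_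
    rw [mul_add]
    exact add_le_add h3 h3'
  · rintro Z rfl
    obtain ⟨m, hm⟩ := eff_pow_nat hP hS (eff_cl (W := W) Z)
    have e : toRat (W.pair (W.cl Z) (W.power (W.clSum S) Z.dim)) = (m : ℚ) := by
      apply toRat_eq
      rw [Rat.cast_natCast]
      exact hm
    refine ⟨W.inter Z Y, m, inter_cast hP Z Y, by rw [Rat.cast_natCast]; exact hm, ?_⟩
    have h := hC Z hd
    rw [e] at h
    exact h.trans (mul_le_mul_of_nonneg_right (le_abs_self C) (Nat.cast_nonneg m))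

end Weil

end Pool.Agent.Lib.MP_77d3c1_ag
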