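import Pool.Agent.Lib.MP_77d3c1_ag.Coho

/-!
# Points and graphs as subvarieties
-/

set_option autoImplicit false

open MvPolynomial

namespace Pool.Agent.Lib.MP_77d3c1_ag

universe u v w

variable {k : Type u} [Field k]

/-- Two coordinates in the same block (coordinates of the same projective space). -/
def Blk : (B : Amb) → B.Idx → B.Idx → Prop
  | .proj _ _, _, _ => True
  | .prod A B, i, j =>
      (∃ i' j', i = Amb.inl i' ∧ j = Amb.inl j' ∧ Blk A i' j') ∨
      (∃ i' j', i = Amb.inr i' ∧ j = Amb.inr j' ∧ Blk B i' j')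

theorem par_of_over : (B : Amb) → (u w : B.Idx → k) → (p : Pt k B) → Over B u p → Over B w p →
    ∀ i j, Blk B i j → u i * w j = u j * w i
  | .proj κ hκ, u, w, p, hu, hw, i, j, _ => by
      obtain ⟨h0, hq⟩ := hu
      obtain ⟨h0', hq'⟩ := hw
      rw [← hq'] at hq
      obtain ⟨t, ht⟩ := (Projectivization.mk_eq_mk_iff' k _ _ h0 h0').1 hq
      rw [← ht]
      simp only [Pi.smul_apply, smul_eq_mul]
      ring
  | .prod A B, u, w, p, hu, hw, i, j, h => by
      rcases h with ⟨i', j', rfl, rfl, h⟩ | ⟨i', j', rfl, rfl, h⟩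
      · exact par_of_over A _ _ _ hu.1 hw.1 i' j' h
      · exact par_of_over B _ _ _ hu.2 hw.2 i' j' h

theorem eq_smul_of_par {κ : Type} {u w : κ → k} (hu : u ≠ 0)
    (h : ∀ i j, w i * u j = w j * u i) : ∃ t : k, w = t • u := by
  obtain ⟨i₀, hi₀⟩ := Function.ne_iff.1 hu
  rw [Pi.zero_apply] at hi₀
  refine ⟨w i₀ / u i₀, ?_⟩
  funext j
  rw [Pi.smul_apply, smul_eq_mul, div_mul_eq_mul_div, eq_div_iff hi₀]
  exact h j i₀

theorem eq_of_par : (B : Amb) → (u w : B.Idx → k) → (p q : Pt k B) → Over B u p → Over B w q →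
    (∀ i j, Blk B i j → w i * u j = w j * u i) → q = p
  | .proj κ hκ, u, w, p, q, hu, hw, h => by
      obtain ⟨h0, hq⟩ := hu
      obtain ⟨h0', hq'⟩ := hw
      obtain ⟨t, ht⟩ := eq_smul_of_par h0 (fun i j => h i j trivial)
      rw [← hq, ← hq']
      exact (Projectivization.mk_eq_mk_iff' k _ _ h0' h0).2 ⟨t, ht.symm⟩
  | .prod A B, u, w, p, q, hu, hw, h =>
      Prod.ext (eq_of_par A _ _ _ _ hu.1 hw.1 (fun i j hij => h _ _ (Or.inl ⟨i, j, rfl, rfl, hij⟩)))
        (eq_of_par B _ _ _ _ hu.2 hw.2 (fun i j hij => h _ _ (Or.inr ⟨i, j, rfl, rfl, hij⟩)))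

theorem vert_of_par : (B : Amb) → (u c : B.Idx → k) → (p : Pt k B) → Over B u p →
    (∀ i j, Blk B i j → c i * u j = c j * u i) → c ∈ Vert B u
  | .proj κ hκ, u, c, p, hu, h => by
      obtain ⟨t, ht⟩ := eq_smul_of_par hu.1 (fun i j => h i j trivial)
      exact Submodule.mem_span_singleton.2 ⟨t, ht.symm⟩
  | .prod A B, u, c, p, hu, h =>
      ⟨vert_of_par A _ _ _ hu.1 (fun i j hij => h _ _ (Or.inl ⟨i, j, rfl, rfl, hij⟩)),
        vert_of_par B _ _ _ hu.2 (fun i j hij => h _ _ (Or.inr ⟨i, j, rfl, rfl, hij⟩))⟩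

theorem dd_self_eq {τ : Type} (f : MvPolynomial τ k) (u : τ → k) :
    dd f u u = (Polynomial.derivative
      (aeval (fun i => Polynomial.C (u i) * Polynomial.X) f : Polynomial k)).eval 1 := by
  have he : ∀ f : MvPolynomial τ k, (aeval (fun i => Polynomial.C (u i) * Polynomial.X) f :
      Polynomial k).eval 1 = eval u f := by
    intro f
    induction f using MvPolynomial.induction_on with
    | C a => simp
    | add p q hp hq => simp only [map_add, Polynomial.eval_add, hp, hq]
    | mul_X p s hp => simp only [map_mul, aeval_X, Polynomial.eval_mul, hp, eval_X,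
        Polynomial.eval_C, Polynomial.eval_X, mul_one]
  induction f using MvPolynomial.induction_on with
  | C a => simp
  | add p q hp hq => simp only [map_add, dd_add, Polynomial.eval_add, hp, hq]
  | mul_X p s hp =>
    simp only [map_mul, aeval_X, dd_mul, dd_X, hp, eval_X, Polynomial.derivative_mul,
      Polynomial.derivative_C, Polynomial.derivative_X, Polynomial.eval_mul, Polynomial.eval_add,
      Polynomial.eval_C, Polynomial.eval_X, he, zero_mul, zero_add, mul_one]
    ring

theorem aeval_line {τ : Type} (f : MvPolynomial τ k) (u : τ → k) (s : k) :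
    (aeval (fun i => Polynomial.C (u i) * Polynomial.X) f : Polynomial k).eval s =
      eval (fun i => s * u i) f := by
  induction f using MvPolynomial.induction_on with
  | C a => simp
  | add p q hp hq => simp only [map_add, Polynomial.eval_add, hp, hq]
  | mul_X p i hp =>
    simp only [map_mul, aeval_X, Polynomial.eval_mul, hp, eval_X,
        Polynomial.eval_C, Polynomial.eval_X]
    ring

theorem pset_singleton {A B : Amb} (p : Pt k A) (q : Pt k B) :
    pset ({p} : Set (Pt k A)) {q} = {((p, q) : Pt k (.prod A B))} := by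
  ext x
  constructor
  · rintro ⟨h1, h2⟩
    exact Prod.ext h1 h2
  · rintro rfl
    exact ⟨rfl, rfl⟩

theorem vert_le_tang [Infinite k] : (B : Amb) → (u : B.Idx → k) → (q : Pt k B) → Over B u q →
    Vert B u ≤ tang {q} u
  | .proj κ hκ, u, q, hu => by
      intro c hc
      obtain ⟨t, rfl⟩ := Submodule.mem_span_singleton.1 hc
      intro f hf
      rw [dd_smul_right, dd_self_eq]
      have : (aeval (fun i => Polynomial.C (u i) * Polynomial.X) f : Polynomial k) = 0 := by
        have h1 : (aeval (fun i => Polynomial.C (u i) * Polynomial.X) f : Polynomial k) *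
            Polynomial.X = 0 := by
          apply Polynomial.funext
          intro s
          rw [Polynomial.eval_mul, Polynomial.eval_X, Polynomial.eval_zero]
          by_cases hs : s = 0
          · rw [hs, mul_zero]
          · rw [aeval_line, hf _ ⟨q, rfl, Scal.over (.proj κ hκ) _ _ _ ⟨s, hs, rfl⟩ hu⟩, zero_mul]
        exact (mul_eq_zero.1 h1).resolve_right Polynomial.X_ne_zero
      rw [this]
      simp
  | .prod A B, u, q, hu => by
      intro c hc
      have h : u ∈ cone (pset ({q.1} : Set (Pt k A)) ({q.2} : Set (Pt k B))) :=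
        ⟨q, ⟨rfl, rfl⟩, hu⟩
      have h2 := (tang_pset h c).2 ⟨vert_le_tang A _ _ hu.1 hc.1, vert_le_tang B _ _ hu.2 hc.2⟩
      rw [pset_singleton] at h2
      exact h2

theorem isCl_singleton {B : Amb} (q : Pt k B) : IsCl ({q} : Set (Pt k B)) := by
  obtain ⟨u, hu⟩ := exists_over B q
  refine ⟨{g | ∃ i j, Blk B i j ∧ g = X i * C (u j) - X j * C (u i)}, ?_⟩
  ext p
  constructor
  · rintro rfl g ⟨i, j, hij, rfl⟩ v hv
    simp only [map_sub, map_mul, eval_X, eval_C]
    rw [par_of_over B v u p hv hu i j hij, sub_self]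
  · intro hp
    obtain ⟨w, hw⟩ := exists_over B p
    refine eq_of_par B u w q p hu hw ?_
    intro i j hij
    have := hp _ ⟨i, j, hij, rfl⟩ w hw
    simp only [map_sub, map_mul, eval_X, eval_C] at this
    exact sub_eq_zero.1 this

theorem tang_singleton [Infinite k] {B : Amb} {u : B.Idx → k} {q : Pt k B} (hu : Over B u q) :
    tang {q} u = Vert B u := by
  apply le_antisymm _ (vert_le_tang B u q hu)
  intro c hc
  refine vert_of_par B u c q hu ?_
  intro i j hij
  have := hc (X i * C (u j) - X j * C (u i)) (by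
    rintro v ⟨p, rfl, hv⟩
    simp only [map_sub, map_mul, eval_X, eval_C]
    rw [par_of_over B v u p hv hu i j hij, sub_self])
  simp only [dd_sub, dd_mul, dd_C, dd_X, eval_X, eval_C, mul_zero, zero_add] at this
  have := sub_eq_zero.1 this
  rw [mul_comm (c i), mul_comm (c j)]
  exact this

theorem finrank_vert [Infinite k] : (B : Amb) → (u : B.Idx → k) → (q : Pt k B) → Over B u q →
    Module.finrank k (Vert B u) = B.rk
  | .proj κ hκ, u, q, hu => finrank_span_singleton hu.1
  | .prod A B, u, q, hu => by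
      have h : u ∈ cone (pset ({q.1} : Set (Pt k A)) ({q.2} : Set (Pt k B))) :=
        ⟨q, ⟨rfl, rfl⟩, hu⟩
      have h1 := finrank_tang_pset h
      have h2 : tang (pset ({q.1} : Set (Pt k A)) ({q.2} : Set (Pt k B))) u =
          Vert (.prod A B) u := by
        rw [pset_singleton]
        exact tang_singleton (B := .prod A B) (q := q) hu
      rw [h2, tang_singleton hu.1, tang_singleton hu.2, finrank_vert A _ _ hu.1,
        finrank_vert B _ _ hu.2] at h1
      exact h1

theorem hasDim_singleton [Infinite k] {B : Amb} (q : Pt k B) : HasDim ({q} : Set (Pt k B)) 0 := by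
  unfold HasDim tdim
  constructor
  · rintro v ⟨p, rfl, hv⟩
    rw [tang_singleton hv, finrank_vert B v p hv, zero_add]
  · obtain ⟨u, hu⟩ := exists_over B q
    refine ⟨u, ⟨q, rfl, hu⟩, ?_⟩
    rw [tang_singleton hu, finrank_vert B u q hu, zero_add]

/-- A point, as a subvariety. -/
def Sub.point [Infinite k] {V : SPV k} (p : V.carrier) : Sub V where
  carrier := {p.1}
  le := by rintro _ rfl; exact p.2
  closed := isCl_singleton _
  irred := by
    refine ⟨⟨p.1, rfl⟩, ?_⟩
    intro S₁ S₂ _ _ h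
    rcases h (Set.mem_singleton _) with h | h
    · left; rintro _ rfl; exact h
    · right; rintro _ rfl; exact h
  dim := 0
  hasDim := hasDim_singleton _

section graph

variable {A B : Amb} {S : Set (Pt k A)} {φ : S → Pt k B}

/-- The set of points of the graph. -/
def gset (φ : S → Pt k B) : Set (Pt k (.prod A B)) := {x | ∃ hp : x.1 ∈ S, x.2 = φ ⟨x.1, hp⟩}

theorem isCl_gset (hS : IsCl S) (hφ : IsReg S φ) : IsCl (gset φ) := by
  obtain ⟨T, hT⟩ := hS
  refine ⟨(incL '' T) ∪ {g | ∃ h Ψ, LocRep S φ h Ψ ∧ ∃ i j, Blk B i j ∧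
      g = incL h * (X (Amb.inr i) * incL (Ψ j) - X (Amb.inr j) * incL (Ψ i))}, ?_⟩
  ext x
  obtain ⟨p, q⟩ := x
  constructor
  · rintro ⟨hp, hq⟩
    dsimp only at hp hq
    rintro g (⟨f, hf, rfl⟩ | ⟨h, Ψ, hΨ, i, j, hij, rfl⟩) v hv
    · rw [eval_incL]
      have hp' := hp
      rw [hT] at hp'
      exact hp' f hf _ hv.1
    · simp only [map_mul, map_sub, eval_incL, eval_X]
      by_cases h0 : eval (fun i => v (Amb.inl i)) h = 0
      · rw [h0, zero_mul]
      · have h1 := hΨ ⟨p, hp⟩ _ hv.1 h0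
        have h2 : Over B (fun i => v (Amb.inr i)) (φ ⟨p, hp⟩) := by
          rw [← hq]
          exact hv.2
        have h3 := par_of_over B _ _ _ h2 h1 i j hij
        rw [sub_eq_zero.2 h3, mul_zero]
  · intro hx
    obtain ⟨w, hw⟩ := exists_over B q
    have hp : p ∈ S := by
      rw [hT]
      intro f hf v hv
      have := hx _ (Or.inl ⟨f, hf, rfl⟩) (Amb.elim v w) ⟨hv, hw⟩
      rw [eval_incL] at this
      exact this
    refine ⟨hp, ?_⟩
    obtain ⟨v, hv⟩ := exists_over A p
    obtain ⟨h, Ψ, h1, h2⟩ := hφ ⟨p, hp⟩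
    refine eq_of_par B _ w _ _ (h2 ⟨p, hp⟩ v hv (h1 v hv)) hw ?_
    intro i j hij
    have := hx _ (Or.inr ⟨h, Ψ, h2, i, j, hij, rfl⟩) (Amb.elim v w) ⟨hv, hw⟩
    simp only [map_mul, map_sub, eval_incL, eval_X, Amb.elim_inl, Amb.elim_inr] at this
    exact sub_eq_zero.1 ((mul_eq_zero.1 this).resolve_left (h1 v hv))

theorem isReg_pair (hφ : IsReg S φ) :
    IsReg (B := .prod A B) S (fun p => ((p.1, φ p) : Pt k A × Pt k B)) := by
  intro p
  obtain ⟨h, Ψ, h1, h2⟩ := hφ p
  refine ⟨h, Amb.elim X Ψ, h1, ?_⟩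
  intro q v hv h0
  refine ⟨?_, h2 q v hv h0⟩
  simpa using hv

theorem isIrr_gset (hS : IsCl S) (hS' : IsIrr S) (hφ : IsReg S φ) : IsIrr (gset φ) := by
  have h := hS'.image hS (isReg_pair hφ)
  have e : (Set.range (fun p : S => ((p.1, φ p) : Pt k A × Pt k B)) : Set (Pt k (.prod A B))) =
      gset φ := by
    ext ⟨p, q⟩
    constructor
    · rintro ⟨r, hr⟩
      have h1 : r.1 = p := congrArg Prod.fst hr
      have h2 : φ r = q := congrArg Prod.snd hr
      subst h1
      exact ⟨r.2, h2.symm⟩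
    · rintro ⟨hp, hq⟩
      exact ⟨⟨p, hp⟩, Prod.ext rfl hq.symm⟩
  rwa [e] at h

/-- The tangent space of a graph. -/
theorem mem_tang_gset [Infinite k] {p : S} {v : A.Idx → k} {u : B.Idx → k} (hv : Over A v p.1)
    {h : MvPolynomial A.Idx k} {Ψ : B.Idx → MvPolynomial A.Idx k} (hΨ : LocRep S φ h Ψ)
    (h0 : eval v h ≠ 0) (hu : (fun i => eval v (Ψ i)) = u) (a : A.Idx → k) (b : B.Idx → k) :
    Amb.elim a b ∈ tang (gset φ) (Amb.elim v u) ↔
      a ∈ tang S v ∧ (fun i => b i - dd (Ψ i) v a) ∈ Vert B u := by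
  have huo : Over B u (φ p) := by rw [← hu]; exact hΨ p v hv h0
  constructor
  · intro H
    constructor
    · intro f hf
      have := H (incL f) (by
        rintro w ⟨x, ⟨hx, _⟩, hw⟩
        rw [eval_incL]
        exact hf _ ⟨x.1, hx, hw.1⟩)
      rw [dd_incL] at this
      exact this
    · refine vert_of_par B u _ (φ p) huo ?_
      intro i j hij
      have := H (incL h * (X (Amb.inr i) * incL (Ψ j) - X (Amb.inr j) * incL (Ψ i))) (by
        rintro w ⟨x, ⟨hx, hx2⟩, hw⟩
        simp only [map_mul, map_sub, eval_incL, eval_X]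
        by_cases h0 : eval (fun i => w (Amb.inl i)) h = 0
        · rw [h0, zero_mul]
        · have h1 := hΨ ⟨x.1, hx⟩ _ hw.1 h0
          have h2 : Over B (fun i => w (Amb.inr i)) (φ ⟨x.1, hx⟩) := by
            rw [← hx2]
            exact hw.2
          rw [sub_eq_zero.2 (par_of_over B _ _ _ h2 h1 i j hij), mul_zero])
      simp only [dd_mul, dd_sub, dd_incL, dd_X, eval_incL, eval_X, map_sub, map_mul,
        Amb.elim_inl, Amb.elim_inr] at this
      have e1 : ∀ i, eval v (Ψ i) = u i := fun i => congrFun hu i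
      simp only [e1] at this
      have e2 : u i * u j - u j * u i = 0 := by ring
      rw [e2, zero_mul, add_zero] at this
      have e3 := (mul_eq_zero.1 this).resolve_left h0
      linear_combination e3
  · rintro ⟨ha, hb⟩ f hf
    have e : (Amb.elim a b : (Amb.prod A B).Idx → k) =
        Amb.elim a (fun i => dd (Ψ i) v a) + Amb.elim 0 (fun i => b i - dd (Ψ i) v a) :=
      Amb.ext_idx (fun i => by simp) (fun i => by simp)
    rw [e, dd_add_right]
    have e1 : dd f (Amb.elim v u) (Amb.elim a (fun i => dd (Ψ i) v a)) = 0 := by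
      have := ha (h * bind₁ (Amb.elim X Ψ) f) (by
        rintro w ⟨q, hq, hw⟩
        rw [map_mul, eval_bind]
        by_cases h0 : eval w h = 0
        · rw [h0, zero_mul]
        · rw [hf _ ⟨((q, φ ⟨q, hq⟩) : Pt k (.prod A B)), ⟨hq, rfl⟩, by simpa using hw,
            hΨ ⟨q, hq⟩ w hw h0⟩, mul_zero])
      rw [dd_mul, dd_bind, eval_bind] at this
      have e4 : (fun s => eval v ((Amb.elim X Ψ : (Amb.prod A B).Idx → _) s)) =
          Amb.elim v u := Amb.ext_idx (fun i => by simp) (fun i => by simp [← hu])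
      have e5 : (fun s => dd ((Amb.elim X Ψ : (Amb.prod A B).Idx → _) s) v a) =
          Amb.elim a (fun i => dd (Ψ i) v a) :=
        Amb.ext_idx (fun i => by simp) (fun i => by simp)
      rw [e4, e5, hf (Amb.elim v u) ⟨((p.1, φ p) : Pt k (.prod A B)), ⟨p.2, rfl⟩, hv, huo⟩,
        zero_mul, add_zero] at this
      exact (mul_eq_zero.1 this).resolve_left h0
    have e2 : dd f (Amb.elim v u) (Amb.elim 0 (fun i => b i - dd (Ψ i) v a)) = 0 := by
      rw [← dd_subL]
      apply vert_le_tang B u (φ p) huo hb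
      rintro w ⟨q, rfl, hw⟩
      rw [eval_subL]
      exact hf _ ⟨((p.1, φ p) : Pt k (.prod A B)), ⟨p.2, rfl⟩, hv, hw⟩
    rw [e1, e2, add_zero]

/-- The tangent space of the graph is isomorphic to the product of the tangent space of the source
and the space of rescalings of the target. -/
noncomputable def tangGsetEquiv [Infinite k] {p : S} {v : A.Idx → k} {u : B.Idx → k}
    (hv : Over A v p.1)
    {h : MvPolynomial A.Idx k} {Ψ : B.Idx → MvPolynomial A.Idx k} (hΨ : LocRep S φ h Ψ)
    (h0 : eval v h ≠ 0) (hu : (fun i => eval v (Ψ i)) = u) :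
    tang (gset φ) (Amb.elim v u) ≃ₗ[k] (tang S v) × (Vert B u) where
  toFun w := (⟨fun i => w.1 (Amb.inl i),
      ((mem_tang_gset hv hΨ h0 hu _ _).1 (by rw [Amb.elim_eta]; exact w.2)).1⟩,
    ⟨fun i => w.1 (Amb.inr i) - dd (Ψ i) v (fun i => w.1 (Amb.inl i)),
      ((mem_tang_gset hv hΨ h0 hu _ _).1 (by rw [Amb.elim_eta]; exact w.2)).2⟩)
  invFun x := ⟨Amb.elim x.1.1 (fun i => x.2.1 i + dd (Ψ i) v x.1.1),
    (mem_tang_gset hv hΨ h0 hu _ _).2 ⟨x.1.2, by simpa using x.2.2⟩⟩
  map_add' x y := by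
    refine Prod.ext (Subtype.ext rfl) (Subtype.ext ?_)
    funext i
    have : (fun i => (x + y).1 (Amb.inl i)) =
      (fun i => x.1 (Amb.inl i)) + (fun i => y.1 (Amb.inl i)) := rfl
    simp only [this, dd_add_right]
    show (x.1 (Amb.inr i) + y.1 (Amb.inr i)) - _ = (x.1 (Amb.inr i) - _) + (y.1 (Amb.inr i) - _)
    ring
  map_smul' c x := by
    refine Prod.ext (Subtype.ext rfl) (Subtype.ext ?_)
    funext i
    have : (fun i => (c • x).1 (Amb.inl i)) = c • (fun i => x.1 (Amb.inl i)) := rfl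
    simp only [this, dd_smul_right]
    show (c * x.1 (Amb.inr i)) - _ = c * (x.1 (Amb.inr i) - _)
    ring
  left_inv x := by
    apply Subtype.ext
    exact Amb.ext_idx (fun i => rfl) (fun i => sub_add_cancel _ _)
  right_inv x := by
    refine Prod.ext (Subtype.ext rfl) (Subtype.ext ?_)
    funext i
    exact add_sub_cancel_right _ _

theorem finrank_tang_gset [Infinite k] (hφ : IsReg S φ) {w : (Amb.prod A B).Idx → k}
    (hw : w ∈ cone (gset φ)) : Module.finrank k (tang (gset φ) w) =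
      Module.finrank k (tang S (fun i => w (Amb.inl i))) + B.rk := by
  obtain ⟨x, ⟨hx, hx2⟩, hw1, hw2⟩ := hw
  obtain ⟨h, Ψ, h1, h2⟩ := hφ ⟨x.1, hx⟩
  have h0 := h1 _ hw1
  have hw2' : Over B (fun i => w (Amb.inr i)) (φ ⟨x.1, hx⟩) := by rw [← hx2]; exact hw2
  obtain ⟨Ψ', h2', h3⟩ := h2.exists_value (p := ⟨x.1, hx⟩) hw1 h0 hw2'
  have e := LinearEquiv.finrank_eq (tangGsetEquiv (p := ⟨x.1, hx⟩) hw1 h2' h0 h3)
  rw [Amb.elim_eta, Module.finrank_prod, finrank_vert B _ _ hw2] at e
  exact e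

theorem hasDim_gset [Infinite k] {d : ℕ} (hS : HasDim S d) (hφ : IsReg S φ) :
    HasDim (gset φ) d := by
  unfold HasDim tdim at *
  obtain ⟨h1, v, ⟨p, hp, hv⟩, h2⟩ := hS
  constructor
  · intro w hw
    rw [finrank_tang_gset hφ hw]
    obtain ⟨x, ⟨hx, hx2⟩, hw1, hw2⟩ := hw
    have := h1 _ ⟨x.1, hx, hw1⟩
    show d + (A.rk + B.rk) ≤ _
    omega
  · obtain ⟨u, hu⟩ := exists_over B (φ ⟨p, hp⟩)
    have hw : (Amb.elim v u : (Amb.prod A B).Idx → k) ∈ cone (gset φ) :=
      ⟨((p, φ ⟨p, hp⟩) : Pt k (.prod A B)), ⟨hp, rfl⟩, hv, hu⟩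
    refine ⟨_, hw, ?_⟩
    rw [finrank_tang_gset hφ hw]
    show Module.finrank k (tang S v) + B.rk = d + (A.rk + B.rk)
    rw [h2]
    omega

end graph

/-- The graph of a morphism, as a subvariety of the product. -/
def Sub.graph [Infinite k] {V W : SPV k} (F : Mor V W) : Sub (V.prod W) where
  carrier := gset (fun p => ((F.fn p : W.carrier) : Pt k W.amb))
  le := by
    rintro ⟨p, q⟩ ⟨hp, hq⟩
    dsimp only at hp hq
    subst hq
    exact ⟨hp, (F.fn ⟨p, hp⟩).2⟩
  closed := isCl_gset V.closed F.reg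
  irred := isIrr_gset V.closed V.irred F.reg
  dim := V.dim
  hasDim := hasDim_gset (Sub.whole V).hasDim F.reg

theorem isGraph_graph [Infinite k] {V W : SPV k} (F : Mor V W) : IsGraph F (Sub.graph F) := by
  unfold IsGraph
  ext ⟨p, q⟩
  constructor
  · rintro ⟨hp, hq⟩
    exact ⟨⟨p, hp⟩, Prod.ext rfl hq.symm⟩
  · rintro ⟨r, hr⟩
    have h1 : r.1 = p := congrArg Prod.fst hr
    have h2 : (F.fn r).1 = q := congrArg Prod.snd hr
    subst h1
    exact ⟨r.2, h2.symm⟩

end Pool.Agent.Lib.MP_77d3c1_ag
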