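import Pool.Agent.Lib.MP_77d3c1_ag.Weights
import Pool.Agent.Lib.MP_77d3c1_ag.Effective
import Pool.Agent.Lib.MP_77d3c1_ag.Graph

/-!
# The correspondences `G_r ∘ f` are represented by rational cycles
-/

set_option autoImplicit false

open Polynomial

namespace Pool.Agent.Lib.MP_77d3c1_ag

universe u v w

variable {k : Type u} [Field k] {K : Type v} [Field K] {X : SPV k}

namespace Weil

variable (W : Weil.{u, v, w} k K)

theorem exists_functional (V : SPV k) (ℓ : W.H V →ₗ[K] K) :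
    ∃ z : W.H V, ∀ y, W.tr V (z * y) = ℓ y := by
  have := W.finite V
  let D : W.H V →ₗ[K] Module.Dual K (W.H V) := (LinearMap.mul K (W.H V)).compr₂ (W.tr V)
  have h1 : Function.Injective D := by
    rw [injective_iff_map_eq_zero]
    intro x hx
    exact W.duality V x fun y => LinearMap.congr_fun hx y
  obtain ⟨z, hz⟩ := (LinearMap.injective_iff_surjective_of_finrank_eq_finrank
    (Subspace.dual_finrank_eq).symm).1 h1 ℓ
  exact ⟨z, fun y => LinearMap.congr_fun hz y⟩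

variable {W}

theorem op_diag {Δ : Sub (X.prod X)} (hΔ : IsGraph (Mor.id X) Δ)
    (hgr : W.cl Δ ∈ W.gr _ (2 * X.dim)) : W.op X (W.cl Δ) = 1 := by
  apply LinearMap.ext
  intro w
  apply W.ext_tr
  intro u
  rw [tr_op W ⟨X.dim, by ring⟩ hgr, W.tr_graph hΔ, map_mul (W.pull _), W.pull_graph_fst,
    W.pull_graph_snd, W.pull_id]
  rfl

/-- The correspondence which acts as `μ_j` in degree `j`. -/
noncomputable def gmu (W : Weil.{u, v, w} k K) (F : Mor X X) (π : ℕ → K[X]) (δ : W.H (X.prod X))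
    (μ : ℕ → K) : W.H (X.prod X) :=
  ∑ j ∈ Finset.range (2 * X.dim + 1), μ j • aeval (W.T F) (π j) δ

theorem gmu_gr {F : Mor X X} {π : ℕ → K[X]} {δ : W.H (X.prod X)} {μ : ℕ → K}
    (hδ : δ ∈ W.gr _ (2 * X.dim)) : W.gmu F π δ μ ∈ W.gr _ (2 * X.dim) :=
  Submodule.sum_mem _ fun j _ => Submodule.smul_mem _ _ (aeval_gr hδ (π j))

theorem op_gmu {F : Mor X X} {π : ℕ → K[X]} (hπ : W.Proj F π) {δ : W.H (X.prod X)} {μ : ℕ → K}
    (hδ : W.op X δ = 1) {i : ℕ} {x : W.H X} (hx : x ∈ W.gr X i) :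
    W.op X (W.gmu F π δ μ) x = μ i • x := by
  unfold gmu
  rw [map_sum, LinearMap.sum_apply]
  have h1 : ∀ j, W.op X (μ j • aeval (W.T F) (π j) δ) x = μ j • aeval (W.FS F) (π j) x := by
    intro j
    rw [map_smul, op_aeval, hδ, mul_one, LinearMap.smul_apply]
  by_cases hi : i ∈ Finset.range (2 * X.dim + 1)
  · rw [Finset.sum_eq_single i]
    · rw [h1, hπ.same i (by have := Finset.mem_range.1 hi; omega) x hx]
    · intro j hj hji
      rw [h1, hπ.diff j (by have := Finset.mem_range.1 hj; omega) i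
        (by have := Finset.mem_range.1 hi; omega) hji x hx, smul_zero]
    · intro h; exact absurd hi h
  · have hx0 : x = 0 := by
      rw [W.vanish X i (by have := Finset.mem_range.not.1 hi; omega)] at hx
      exact (Submodule.mem_bot K).1 hx
    rw [hx0, smul_zero]
    exact Finset.sum_eq_zero fun j _ => map_zero _

variable [CharZero K]

/-- The correspondences `G_r` exist. -/
theorem exists_isGr {F : Mor X X} {π : ℕ → K[X]} (hπ : W.Proj F π) {Δ : Sub (X.prod X)}
    (hΔ : IsGraph (Mor.id X) Δ) (hgr : W.cl Δ ∈ W.gr _ (2 * X.dim)) (cov : Bool) (r : ℚ) :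
    ∃ g, W.IsGr X cov r g := by
  have hev : Even (2 * X.dim) := ⟨X.dim, by ring⟩
  have hδ := op_diag hΔ hgr
  cases cov
  · set g := W.gmu F π (W.cl Δ) (fun j => (r : K) ^ (2 * X.dim - j)) with hg
    have hggr : g ∈ W.gr _ (2 * X.dim) := gmu_gr hgr
    refine ⟨g, hggr, ?_⟩
    intro i x hx u
    have hx' : x ∈ W.gr X i := hx
    show W.tr X (((r : K) ^ i • x) * u) =
      W.tr _ (W.pull (Mor.snd X X) x * g * W.pull (Mor.fst X X) u)
    refine W.hom_induction (P := fun u => W.tr X (((r : K) ^ i • x) * u) =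
      W.tr _ (W.pull (Mor.snd X X) x * g * W.pull (Mor.fst X X) u)) u ?_ ?_ ?_
    · intro s u hu
      have e1 : W.pull (Mor.snd X X) x * W.pull (Mor.fst X X) u = (-1 : K) ^ (i * s) •
          (W.pull (Mor.fst X X) u * W.pull (Mor.snd X X) x) :=
        W.mul_comm _ i s _ _ (W.pull_gr _ _ _ hx') (W.pull_gr _ _ _ hu)
      have e2 : u * x = (-1 : K) ^ (s * i) • (x * u) := W.mul_comm X s i _ _ hu hx'
      rw [← W.even_comm hev hggr, mul_assoc, e1, mul_smul_comm, map_smul, ← tr_op W hev hggr,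
        op_gmu hπ hδ hu, smul_mul_assoc, smul_mul_assoc, map_smul, map_smul, e2, map_smul]
      simp only [smul_eq_mul]
      by_cases hs : i + s = 2 * X.dim
      · have e3 : 2 * X.dim - s = i := by omega
        rw [e3]
        have e4 : ((-1 : K) ^ (i * s)) * (-1) ^ (s * i) = 1 := by
          rw [Nat.mul_comm s i, ← pow_add, Even.neg_one_pow ⟨i * s, rfl⟩]
        linear_combination (-(r : K) ^ i * W.tr X (x * u)) * e4
      · rw [W.tr_gr X _ _ hs (W.mul_mem X _ _ _ _ hx' hu)]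
        ring
    · simp
    · intro a b ha hb
      rw [mul_add, map_add, ha, hb, map_add (W.pull _), mul_add, map_add]
  · set g := W.gmu F π (W.cl Δ) (fun j => (r : K) ^ j) with hg
    have hggr : g ∈ W.gr _ (2 * X.dim) := gmu_gr hgr
    refine ⟨g, hggr, ?_⟩
    intro i x hx u
    have hx' : x ∈ W.gr X i := hx
    show W.tr X (((r : K) ^ i • x) * u) =
      W.tr _ (W.pull (Mor.fst X X) x * g * W.pull (Mor.snd X X) u)
    rw [← W.even_comm hev hggr, mul_assoc, ← tr_op W hev hggr, op_gmu hπ hδ hx']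

/-! ### Rational classes -/

variable (W)

theorem clQ_zero {V : SPV k} (d : ℕ) : W.clQ (0 : PCyc V d →₀ ℚ) = 0 := by
  unfold CohData.clQ
  rw [Finsupp.sum_zero_index]

theorem clQ_add {V : SPV k} {d : ℕ} (D D' : PCyc V d →₀ ℚ) :
    W.clQ (D + D') = W.clQ D + W.clQ D' := by
  unfold CohData.clQ
  rw [Finsupp.sum_add_index']
  · intro Z
    show ((0 : ℚ) : K) • W.cl Z.1 = 0
    rw [Rat.cast_zero, zero_smul]
  · intro Z a b
    show ((a + b : ℚ) : K) • W.cl Z.1 = (a : K) • W.cl Z.1 + (b : K) • W.cl Z.1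
    rw [Rat.cast_add, add_smul]

theorem clQ_smul {V : SPV k} {d : ℕ} (a : ℚ) (D : PCyc V d →₀ ℚ) :
    W.clQ (a • D) = (a : K) • W.clQ D := by
  unfold CohData.clQ
  rw [Finsupp.sum_smul_index']
  · rw [Finsupp.smul_sum]
    refine Finset.sum_congr rfl fun Z _ => ?_
    show ((a * D Z : ℚ) : K) • W.cl Z.1 = (a : K) • (D Z : K) • W.cl Z.1
    rw [Rat.cast_mul, mul_smul]
  · intro Z
    show ((0 : ℚ) : K) • W.cl Z.1 = 0
    rw [Rat.cast_zero, zero_smul]

/-- Classes of rational cycles. -/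
def IsQ {V : SPV k} (d : ℕ) (x : W.H V) : Prop := ∃ D : PCyc V d →₀ ℚ, W.clQ D = x

variable {W}

theorem isQ_zero {V : SPV k} (d : ℕ) : W.IsQ d (0 : W.H V) := ⟨0, W.clQ_zero d⟩

theorem isQ_add {V : SPV k} {d : ℕ} {x y : W.H V} (hx : W.IsQ d x) (hy : W.IsQ d y) :
    W.IsQ d (x + y) := by
  obtain ⟨D, rfl⟩ := hx
  obtain ⟨D', rfl⟩ := hy
  exact ⟨D + D', W.clQ_add D D'⟩

theorem isQ_smul {V : SPV k} {d : ℕ} {x : W.H V} (a : ℚ) (hx : W.IsQ d x) :
    W.IsQ d ((a : K) • x) := by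
  obtain ⟨D, rfl⟩ := hx
  exact ⟨a • D, W.clQ_smul a D⟩

theorem isQ_sum {V : SPV k} {d : ℕ} {ι : Type*} (s : Finset ι) {x : ι → W.H V}
    (hx : ∀ i ∈ s, W.IsQ d (x i)) : W.IsQ d (∑ i ∈ s, x i) := by
  classical
  induction s using Finset.induction_on with
  | empty => rw [Finset.sum_empty]; exact isQ_zero d
  | insert i s hi ih =>
    rw [Finset.sum_insert hi]
    exact isQ_add (hx i (Finset.mem_insert_self i s))
      (ih fun j hj => hx j (Finset.mem_insert_of_mem hj))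

theorem isQ_eff {V : SPV k} {d : ℕ} {x : W.H V} (hx : W.Eff d x) : W.IsQ d x := by
  refine eff_induction (P := fun x => W.IsQ d x) hx (isQ_zero d) (fun x y hx hy => isQ_add hx hy) ?_
  rintro Z rfl
  let Z' : PCyc V Z.dim := ⟨Z, rfl⟩
  refine ⟨Finsupp.single Z' 1, ?_⟩
  unfold CohData.clQ
  rw [Finsupp.sum_single_index]
  · show ((1 : ℚ) : K) • W.cl Z = W.cl Z
    rw [Rat.cast_one, one_smul]
  · show ((0 : ℚ) : K) • W.cl Z = 0
    rw [Rat.cast_zero, zero_smul]

theorem aeval_T_sum (F : Mor X X) (g : ℚ[X]) (y : W.H (X.prod X)) :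
    aeval (W.T F) (g.map (Rat.castHom K)) y =
      g.sum fun s a => (a : K) • (W.pull (phiR F))^[s] y := by
  have h1 : ∀ (m : ℕ), (W.T F ^ m) y = (W.pull (phiR F))^[m] y := by
    intro m
    rw [Module.End.pow_apply]
    rfl
  rw [aeval_def, eval₂_map, eval₂_eq_sum, Polynomial.sum_def, LinearMap.sum_apply,
    Polynomial.sum_def]
  refine Finset.sum_congr rfl fun m _ => ?_
  rw [← h1, RingHom.comp_apply, Algebra.algebraMap_eq_smul_one, smul_mul_assoc, one_mul,
    LinearMap.smul_apply]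
  rfl

/-- `G_r ∘ f` is represented by a rational cycle. -/
theorem exists_represents (hP : W.HasPositivity) {F : Mor X X} {π : ℕ → ℚ[X]}
    (hπ : W.Proj F (fun j => (π j).map (Rat.castHom K))) {Δ : Sub (X.prod X)}
    (hΔ : IsGraph (Mor.id X) Δ) (hgr : W.cl Δ ∈ W.gr _ (2 * X.dim)) (cov : Bool) (r : ℚ)
    (f : PCyc (X.prod X) X.dim →₀ ℕ) :
    ∃ D : PCyc (X.prod X) X.dim →₀ ℚ, W.Represents X cov r f D := by
  obtain ⟨g, hg⟩ := exists_isGr hπ hΔ hgr cov r
  obtain ⟨z, hz⟩ := W.exists_functional (X.prod X)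
    ((W.tr _).comp ((LinearMap.mulLeft K (W.pull (p12 X) (W.clN f) * W.pull (p23 X) g)).comp
      (W.pull (p13 X)).toLinearMap))
  have hz' : W.IsComp X g (W.clN f) z := fun y => hz y
  choose φ hφ hφy using fun s => eff_push_iter hP (phiR F) (⟨f, rfl⟩ : W.Eff X.dim (W.clN f)) s
  have key : z = ∑ j ∈ Finset.range (2 * X.dim + 1), (lam X.dim cov r j : K) •
      ∑ s ∈ (π j).support, ((π j).coeff s : K) • φ s := by
    apply W.ext_tr
    intro y
    rw [tr_comp_proj hπ hg hz', Finset.sum_mul, map_sum]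
    refine Finset.sum_congr rfl fun j _ => ?_
    rw [aeval_T_sum, Polynomial.sum_def, smul_mul_assoc, map_smul, smul_eq_mul, Finset.mul_sum,
      Finset.sum_mul, map_sum, map_sum]
    congr 1
    refine Finset.sum_congr rfl fun s _ => ?_
    rw [mul_smul_comm, smul_mul_assoc, map_smul, map_smul, hφy]
  have hQ : W.IsQ X.dim z := by
    rw [key]
    refine isQ_sum _ fun j _ => isQ_smul _ (isQ_sum _ fun s _ => isQ_smul _ (isQ_eff (hφ s)))
  obtain ⟨D, rfl⟩ := hQ
  exact ⟨D, g, hg, hz'⟩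

end Weil

end Pool.Agent.Lib.MP_77d3c1_ag
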