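import Pool.Agent.Lib.MP_77d3c1_ag.Graph

/-!
# The Fermat quintic in characteristic two
-/

set_option autoImplicit false

open MvPolynomial

namespace Pool.Agent.Lib.MP_77d3c1_ag

universe u v w

/-- The projective plane. -/
abbrev P2 : Amb := .proj (Fin 3) inferInstance

section

variable (k : Type u) [Field k]

/-- The Fermat quintic polynomial. -/
noncomputable def fpoly : MvPolynomial (Fin 3) k := X 0 ^ 5 + X 1 ^ 5 + X 2 ^ 5

variable {k}

theorem eval_fpoly (v : Fin 3 → k) : eval v (fpoly k) = v 0 ^ 5 + v 1 ^ 5 + v 2 ^ 5 := by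
  simp [fpoly]

theorem five_eq_one [CharP k 2] : (5 : k) = 1 := by
  have : (2 : k) = 0 := CharTwo.two_eq_zero
  linear_combination 2 * this

theorem poly_two [CharP k 2] : (2 : Polynomial k) = 0 := by
  have h : (2 : k) = 0 := CharTwo.two_eq_zero
  have h := congrArg Polynomial.C h
  rwa [map_ofNat, map_zero] at h

/-- Both variables are sent to the variable. -/
noncomputable def collapse (k : Type u) [Field k] : MvPolynomial (Fin 2) k →ₐ[k] Polynomial k :=
  aeval (fun _ => Polynomial.X)

theorem collapse_X (i : Fin 2) : collapse k (X i) = Polynomial.X := aeval_X _ _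

/-- The kernel of the collapsing map. -/
noncomputable def colKer (k : Type u) [Field k] : Ideal (MvPolynomial (Fin 2) k) :=
  RingHom.ker (collapse k)

theorem mem_colKer {g : MvPolynomial (Fin 2) k} : g ∈ colKer k ↔ collapse k g = 0 :=
  RingHom.mem_ker

theorem colKer_prime : (colKer k).IsPrime := RingHom.ker_isPrime _

/-- The constant term. -/
noncomputable def cterm (k : Type u) [Field k] : MvPolynomial (Fin 2) k := X 0 ^ 5 + X 1 ^ 5

theorem cterm_mem [CharP k 2] : cterm k ∈ colKer k := by
  rw [mem_colKer, cterm, map_add, map_pow, map_pow, collapse_X, collapse_X]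
  linear_combination Polynomial.X ^ 5 * (poly_two (k := k))

theorem pderiv_mem {g : MvPolynomial (Fin 2) k} (hg : g ∈ colKer k ^ 2) :
    pderiv 0 g ∈ colKer k := by
  rw [pow_two] at hg
  refine Submodule.mul_induction_on hg ?_ ?_
  · intro x hx y hy
    rw [Derivation.leibniz, smul_eq_mul, smul_eq_mul]
    exact (colKer k).add_mem ((colKer k).mul_mem_right _ hx) ((colKer k).mul_mem_right _ hy)
  · intro x y hx hy
    rw [map_add]
    exact (colKer k).add_mem hx hy

theorem pderiv_cterm : pderiv 0 (cterm k) = 5 * X 0 ^ 4 := by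
  unfold cterm
  rw [map_add, Derivation.leibniz_pow, Derivation.leibniz_pow, pderiv_X_self,
    pderiv_X_of_ne (by decide)]
  simp

theorem cterm_notMem [CharP k 2] : cterm k ∉ colKer k ^ 2 := by
  intro h
  have h1 := pderiv_mem h
  rw [mem_colKer, pderiv_cterm, map_mul, map_pow, collapse_X, map_ofNat] at h1
  have h4 : (Polynomial.X ^ 4 : Polynomial k) = 0 := by
    linear_combination h1 - 2 * Polynomial.X ^ 4 * (poly_two (k := k))
  exact pow_ne_zero 4 Polynomial.X_ne_zero h4

theorem finSucc_fpoly : finSuccEquiv k 2 (fpoly k) =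
    Polynomial.X ^ 5 + Polynomial.C (cterm k) := by
  have h1 : finSuccEquiv k 2 (X 1) = Polynomial.C (X 0) :=
    finSuccEquiv_X_succ (R := k) (n := 2) (j := 0)
  have h2 : finSuccEquiv k 2 (X 2) = Polynomial.C (X 1) :=
    finSuccEquiv_X_succ (R := k) (n := 2) (j := 1)
  unfold fpoly cterm
  rw [map_add, map_add, map_pow, map_pow, map_pow, h1, h2, finSuccEquiv_X_zero, map_add, map_pow,
    map_pow, add_assoc]

theorem irreducible_fpoly [CharP k 2] : Irreducible (fpoly k) := by
  rw [← MulEquiv.irreducible_iff (finSuccEquiv k 2), finSucc_fpoly]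
  have hdeg : (Polynomial.X ^ 5 + Polynomial.C (cterm k)).degree = 5 :=
    Polynomial.degree_X_pow_add_C (by norm_num) _
  have hmonic : (Polynomial.X ^ 5 + Polynomial.C (cterm k)).Monic :=
    Polynomial.monic_X_pow_add_C _ (by norm_num)
  refine Polynomial.irreducible_of_eisenstein_criterion (P := colKer k) colKer_prime ?_ ?_ ?_ ?_
    hmonic.isPrimitive
  · rw [hmonic.leadingCoeff]
    exact fun h => colKer_prime.ne_top ((Ideal.eq_top_iff_one _).2 h)
  · intro n hn
    rw [hdeg] at hn
    have hn' : n < 5 := by exact_mod_cast hn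
    rw [Polynomial.coeff_add, Polynomial.coeff_X_pow, if_neg (by omega), zero_add,
      Polynomial.coeff_C]
    split_ifs
    · exact cterm_mem
    · exact (colKer k).zero_mem
  · rw [hdeg]; norm_num
  · rw [Polynomial.coeff_add, Polynomial.coeff_X_pow, if_neg (by omega), zero_add,
      Polynomial.coeff_C_zero]
    exact cterm_notMem

theorem prime_fpoly [CharP k 2] : Prime (fpoly k) := irreducible_fpoly.prime

/-- A polynomial vanishing at all the nonzero zeros of the Fermat polynomial is divisible by it. -/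
theorem fpoly_dvd [CharP k 2] [IsAlgClosed k] {f : MvPolynomial (Fin 3) k}
    (hf : ∀ v : Fin 3 → k, v ≠ 0 → eval v (fpoly k) = 0 → eval v f = 0) : fpoly k ∣ f := by
  have h1 : f * X 0 ∈ vanishingIdeal k (zeroLocus k (Ideal.span {fpoly k})) := by
    intro x hx
    have hx' : aeval x (fpoly k) = 0 := hx _ (Ideal.subset_span rfl)
    rw [map_mul, aeval_X]
    by_cases h0 : x = 0
    · subst h0
      simp
    · have e : ∀ g : MvPolynomial (Fin 3) k, aeval x g = eval x g := fun g => by
        rw [aeval_eq_eval]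
      rw [e] at hx' ⊢
      rw [hf x h0 hx', zero_mul]
  rw [vanishingIdeal_zeroLocus_eq_radical,
    ((Ideal.span_singleton_prime prime_fpoly.ne_zero).2 prime_fpoly).radical,
    Ideal.mem_span_singleton] at h1
  refine (prime_fpoly.dvd_or_dvd h1).resolve_right ?_
  rintro ⟨g, hg⟩
  have h2 := congrArg (eval (![1, 1, 0] : Fin 3 → k)) hg
  rw [map_mul, eval_fpoly, eval_X] at h2
  have h3 : (1 : k) + 1 = 0 := by
    have := CharTwo.two_eq_zero (R := k)
    linear_combination this
  simp [h3] at h2

variable (k) in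
/-- The set of points of the Fermat quintic. -/
noncomputable def fset : Set (Pt k P2) := zset ({fpoly k} : Set (MvPolynomial (Fin 3) k))

theorem mem_cone_fset {v : Fin 3 → k} :
    (show P2.Idx → k from v) ∈ cone (fset k) ↔ v ≠ 0 ∧ v 0 ^ 5 + v 1 ^ 5 + v 2 ^ 5 = 0 := by
  constructor
  · rintro ⟨p, hp, h0, h1⟩
    refine ⟨h0, ?_⟩
    have := hp (fpoly k) rfl v ⟨h0, h1⟩
    rw [← eval_fpoly]
    exact this
  · rintro ⟨h0, h1⟩
    refine ⟨Projectivization.mk k v h0, ?_, h0, rfl⟩
    rintro f hf w ⟨hw0, hw⟩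
    have hf' : f = fpoly k := hf
    subst hf'
    obtain ⟨t, ht⟩ := (Projectivization.mk_eq_mk_iff' k _ _ hw0 h0).1 hw
    have ht' : (fun i : Fin 3 => t * v i) = w := ht
    have e : eval (fun i : Fin 3 => t * v i) (fpoly k) = 0 := by
      rw [eval_fpoly]
      linear_combination t ^ 5 * h1
    rw [ht'] at e
    exact e

theorem isCl_fset : IsCl (fset k) := ⟨_, rfl⟩

theorem fpoly_dvd' [CharP k 2] [IsAlgClosed k] {f : MvPolynomial (Fin 3) k}
    (hf : ∀ v ∈ cone (fset k), eval v f = 0) : fpoly k ∣ f := by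
  apply fpoly_dvd
  intro v h0 hv
  rw [eval_fpoly] at hv
  exact hf v (mem_cone_fset.2 ⟨h0, hv⟩)

theorem eval_fpoly_cone {v : Fin 3 → k} (hv : (show P2.Idx → k from v) ∈ cone (fset k)) :
    eval v (fpoly k) = 0 := by
  rw [eval_fpoly]
  exact (mem_cone_fset.1 hv).2

theorem isIrr_fset [CharP k 2] [IsAlgClosed k] : IsIrr (fset k) := by
  constructor
  · have h : (show P2.Idx → k from (![1, 1, 0] : Fin 3 → k)) ∈ cone (fset k) := by
      rw [mem_cone_fset]
      constructor
      · intro h
        exact one_ne_zero (congrFun h 0)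
      · have := CharTwo.two_eq_zero (R := k)
        simp only [Matrix.cons_val_zero, Matrix.cons_val_one, Matrix.cons_val]
        linear_combination this
    obtain ⟨p, hp, _⟩ := h
    exact ⟨p, hp⟩
  · rintro S₁ S₂ ⟨T₁, rfl⟩ ⟨T₂, rfl⟩ hc
    by_contra hcon
    rw [not_or, Set.not_subset, Set.not_subset] at hcon
    obtain ⟨⟨p, hp, hp1⟩, ⟨q, hq, hq1⟩⟩ := hcon
    simp only [zset, Set.mem_ofPred_eq, not_forall] at hp1 hq1
    obtain ⟨f, hf, v, hv, hfv⟩ := hp1
    obtain ⟨g, hg, w, hw, hgw⟩ := hq1
    have key : ∀ f g : MvPolynomial (Fin 3) k, (∀ u ∈ cone (fset k), eval u (f * g) = 0) →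
        (∀ u : Fin 3 → k, (show P2.Idx → k from u) ∈ cone (fset k) → eval u f = 0) ∨
        (∀ u : Fin 3 → k, (show P2.Idx → k from u) ∈ cone (fset k) → eval u g = 0) := by
      intro f g hfg
      rcases prime_fpoly.dvd_or_dvd (fpoly_dvd' hfg) with ⟨f', rfl⟩ | ⟨g', rfl⟩
      · left
        intro u hu
        rw [map_mul, eval_fpoly_cone hu, zero_mul]
      · right
        intro u hu
        rw [map_mul, eval_fpoly_cone hu, zero_mul]
    rcases key f g (by
      rintro u ⟨r, hr, hu⟩
      rcases hc hr with h | h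
      · exact (map_mul (eval u) f g).trans (mul_eq_zero_of_left (h f hf u hu) _)
      · exact (map_mul (eval u) f g).trans (mul_eq_zero_of_right _ (h g hg u hu))) with h | h
    · exact hfv (h v ⟨p, hp, hv⟩)
    · exact hgw (h w ⟨q, hq, hw⟩)

theorem dd_fpoly [CharP k 2] (v w : Fin 3 → k) :
    dd (fpoly k) v w = v 0 ^ 4 * w 0 + v 1 ^ 4 * w 1 + v 2 ^ 4 * w 2 := by
  unfold fpoly
  simp only [dd_add, dd_pow, dd_X, eval_X, Nat.cast_ofNat, five_eq_one, one_mul]

theorem mem_tang_fset [CharP k 2] [IsAlgClosed k] {v : Fin 3 → k}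
    (hv : (show P2.Idx → k from v) ∈ cone (fset k)) (w : Fin 3 → k) :
    (show P2.Idx → k from w) ∈ tang (fset k) v ↔
      v 0 ^ 4 * w 0 + v 1 ^ 4 * w 1 + v 2 ^ 4 * w 2 = 0 := by
  constructor
  · intro h
    rw [← dd_fpoly]
    exact h (fpoly k) (fun u hu => eval_fpoly_cone hu)
  · intro h f hf
    obtain ⟨g, rfl⟩ := fpoly_dvd' hf
    rw [← dd_fpoly] at h
    have e1 := eval_fpoly_cone hv
    have e2 := dd_mul (fpoly k) g v w
    rw [e1, h, zero_mul, mul_zero, add_zero] at e2
    exact e2

/-- The equation of the tangent line. -/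
noncomputable def tanForm (v : Fin 3 → k) : (Fin 3 → k) →ₗ[k] k :=
  v 0 ^ 4 • LinearMap.proj 0 + v 1 ^ 4 • LinearMap.proj 1 + v 2 ^ 4 • LinearMap.proj 2

theorem tanForm_apply (v w : Fin 3 → k) :
    tanForm v w = v 0 ^ 4 * w 0 + v 1 ^ 4 * w 1 + v 2 ^ 4 * w 2 := by
  simp [tanForm]

theorem finrank_tang_fset [CharP k 2] [IsAlgClosed k] {v : Fin 3 → k}
    (hv : (show P2.Idx → k from v) ∈ cone (fset k)) :
    Module.finrank k (tang (fset k) v) = 2 := by
  have h0 : tang (fset k) v = (show Submodule k (P2.Idx → k) from LinearMap.ker (tanForm v)) := by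
    apply Submodule.ext
    intro w
    have e : ∀ w : Fin 3 → k, v 0 ^ 4 * w 0 + v 1 ^ 4 * w 1 + v 2 ^ 4 * w 2 = 0 ↔
        w ∈ LinearMap.ker (tanForm v) := by
      intro w
      rw [LinearMap.mem_ker, tanForm_apply]
    exact (mem_tang_fset hv w).trans (e w)
  rw [h0]
  show Module.finrank k (LinearMap.ker (tanForm v)) = 2
  have h1 := LinearMap.finrank_range_add_finrank_ker (tanForm v)
  have h2 : Module.finrank k (Fin 3 → k) = 3 := by simp
  have h3 : LinearMap.range (tanForm v) = ⊤ := by
    apply LinearMap.range_eq_top.2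
    apply LinearMap.surjective
    intro h0
    apply (mem_cone_fset.1 hv).1
    funext i
    have h4 := congrArg (fun L => L (Pi.single i 1)) h0
    simp only [tanForm_apply, LinearMap.zero_apply] at h4
    have h5 : v i ^ 4 = 0 := by
      fin_cases i <;> simpa using h4
    exact (pow_eq_zero_iff (by norm_num)).1 h5
  rw [h3, finrank_top, Module.finrank_self, h2] at h1
  omega

variable (k) in
/-- The Fermat quintic curve, as a smooth projective variety. -/
noncomputable def curve [CharP k 2] [IsAlgClosed k] : SPV k where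
  amb := P2
  carrier := fset k
  closed := isCl_fset
  irred := isIrr_fset
  dim := 1
  smooth := fun _ hv => finrank_tang_fset hv

end

end Pool.Agent.Lib.MP_77d3c1_ag
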