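import Pool.Agent.Lib.MP_77d3c1_ag.Divisors

/-!
# The computation of the degree
-/

set_option autoImplicit false
set_option linter.unusedSectionVars false

open MvPolynomial

namespace Pool.Agent.Lib.MP_77d3c1_ag

universe u v w

variable {k : Type u} [Field k] [CharP k 2] [IsAlgClosed k] {K : Type v} [Field K]

theorem diag_fn_eq {c : Fin 3} {ζ ζ' : k} (hζ : ζ ^ 5 = 1) (hζ' : ζ' ^ 5 = 1) (h : ζ' * ζ = 1)
    (p : (curve k).carrier) :
    (diagData c ζ' hζ').mor.fn ((diagData c ζ hζ).mor.fn p) = p := by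
  obtain ⟨v, hv⟩ := exists_over3 (k := k) (show Pt k P2 from p.1)
  have h1 := (diagData c ζ hζ).over_fn (p := p) hv
  have h2 := (diagData c ζ' hζ').over_fn h1
  have e : (diagData c ζ' hζ').T ((diagData c ζ hζ).T v) = v := by
    funext i
    show (if i = c then ζ' * (if i = c then ζ * v i else v i) else
      (if i = c then ζ * v i else v i)) = v i
    split_ifs
    · rw [← mul_assoc, h, one_mul]
    · rfl
  rw [e] at h2
  exact Subtype.ext (over_unique P2 v _ _ h2 hv)

theorem diag_one {c : Fin 3} {ζ : k} (hζ : ζ ^ 5 = 1) (h : ζ = 1) (p : (curve k).carrier) :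
    (diagData c ζ hζ).mor.fn p = p := by
  subst h
  obtain ⟨v, hv⟩ := exists_over3 (k := k) (show Pt k P2 from p.1)
  have h1 := (diagData c 1 hζ).over_fn (p := p) hv
  have e : (diagData c 1 hζ).T v = v := by
    funext i
    show (if i = c then 1 * v i else v i) = v i
    split_ifs
    · rw [one_mul]
    · rfl
  rw [e] at h1
  exact Subtype.ext (over_unique P2 v _ _ h1 hv)

theorem dmor_zero (R : Roots k) (c : Fin 3) : dmor R c 0 = Mor.id (curve k) :=
  Mor.ext fun p => diag_one _ (pow_zero _) p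

theorem fmor_surj (q : (curve k).carrier) : ∃ p : (curve k).carrier, fmor.fn p = q := by
  obtain ⟨y, hy⟩ := exists_over3 (k := k) (show Pt k P2 from q.1)
  have h := ceq (p := q) hy
  have hroot : ∀ i, ∃ z : k, z ^ 16 = y i := fun i => IsAlgClosed.exists_pow_nat_eq _ (by norm_num)
  choose x hx using hroot
  have hx0 : x ≠ 0 := by
    rintro rfl
    apply h.1
    funext i
    rw [← hx i]
    simp
  have hx1 : x 0 ^ 5 + x 1 ^ 5 + x 2 ^ 5 = 0 := by
    have e := add_pow_char_pow (p := 2) (n := 4) (x 0 ^ 5 + x 1 ^ 5) (x 2 ^ 5)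
    have e' := add_pow_char_pow (p := 2) (n := 4) (x 0 ^ 5) (x 1 ^ 5)
    norm_num at e e'
    have e2 : (x 0 ^ 5 + x 1 ^ 5 + x 2 ^ 5) ^ 16 = 0 := by
      rw [e, e']
      have h2 := h.2
      rw [← hx 0, ← hx 1, ← hx 2] at h2
      linear_combination h2
    exact (pow_eq_zero_iff (by norm_num)).1 e2
  refine ⟨mk3 x hx0 hx1, ?_⟩
  have h1 := (frobData (k := k)).over_fn (over_mk3 x hx0 hx1)
  have e : (frobData (k := k)).T x = y := by
    funext i
    exact hx i
  rw [e] at h1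
  exact Subtype.ext (over_unique P2 y _ _ h1 hy)

theorem toRat_cast [CharZero K] (q : ℚ) : toRat ((q : ℚ) : K) = q := by
  have h : ∃ q' : ℚ, (q' : K) = (q : K) := ⟨q, rfl⟩
  unfold toRat
  rw [dif_pos h]
  exact_mod_cast h.choose_spec

/-- The graph of Frobenius. -/
noncomputable def SF : Sub (XX k) := Sub.graph fmor

theorem SF_dim : (SF (k := k)).dim = (curve k).dim := rfl

theorem SP_dim (R : Roots k) (i : Fin 5) : (SP R i).dim = (curve k).dim := rfl

theorem SQ_dim (R : Roots k) (i : Fin 5) : (SQ R i).dim = (curve k).dim := rfl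

variable (k) in
/-- The graph of Frobenius, as a prime cycle. -/
noncomputable def zF : PCyc (XX k) (curve k).dim := ⟨SF, SF_dim⟩

/-- `P × C`, as a prime cycle. -/
noncomputable def zP (R : Roots k) : PCyc (XX k) (curve k).dim := ⟨SP R 0, SP_dim R 0⟩

/-- `C × P`, as a prime cycle. -/
noncomputable def zQ (R : Roots k) : PCyc (XX k) (curve k).dim := ⟨SQ R 0, SQ_dim R 0⟩

theorem dynamical_SF : Dynamical (X := curve k) (Finsupp.single (zF k) 1) := by
  intro Z hZ
  have hZ' : Z = zF k := by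
    have := Finsupp.support_single_subset hZ
    exact Finset.mem_singleton.1 this
  subst hZ'
  constructor
  · intro x hx
    exact ⟨(x, (fmor.fn ⟨x, hx⟩).1), ⟨hx, rfl⟩, rfl⟩
  · intro y hy
    obtain ⟨p, hp⟩ := fmor_surj ⟨y, hy⟩
    exact ⟨(p.1, y), ⟨p.2, (congrArg Subtype.val hp).symm⟩, rfl⟩

namespace Weil

variable (W : Weil.{u, v, w} k K) (R : Roots k)

/-- The class of a point. -/
noncomputable def ptc : W.H (curve k) := W.cl (Sub.point (zpt R 0 0))

theorem isPt : W.IsPointClass (curve k) (W.ptc R) :=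
  W.isPointClass_cl _ (zpt R 0 0).1 rfl rfl

theorem cl_point_eq (p : (curve k).carrier) : W.cl (Sub.point p) = W.ptc R :=
  (W.isPt R).unique (W.isPointClass_cl _ p.1 rfl rfl)

theorem cl_SP (i : Fin 5) : W.cl (SP R i) = W.pull (Mor.fst (curve k) (curve k)) (W.ptc R) := by
  unfold SP
  rw [W.cl_prod, W.cl_whole, map_one, mul_one, W.cl_point_eq R]

theorem cl_SQ (i : Fin 5) : W.cl (SQ R i) = W.pull (Mor.snd (curve k) (curve k)) (W.ptc R) := by
  unfold SQ
  rw [W.cl_prod, W.cl_whole, map_one, one_mul, W.cl_point_eq R]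

theorem isGraph_diag : IsGraph (Mor.id (curve k)) (SG R 2 0) := by
  have h := isGraph_graph (dmor R 2 0)
  rw [dmor_zero] at h
  unfold SG
  rw [dmor_zero]
  exact h

theorem tr_SF_SG (c : Fin 3) (n : ℕ) :
    W.tr _ (W.cl SF * W.cl (SG R c n)) = ((coin (k := k) fmor (dmor R c n)).ncard : K) := by
  have h := W.cl_transversal (SF (k := k)) (SG R c n) rfl (by
    have : ((frobData (k := k)).gr ∩ (diagData c (R.z ^ n) (R.z5 n)).gr).Finite := by
      rw [gset_inter]
      apply Set.Finite.image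
      by_cases hn : R.z ^ n = 1
      · have e : dmor R c n = dmor R c 0 := by
          rw [dmor_zero]
          exact Mor.ext fun p => diag_one _ hn p
        show (coin fmor (dmor R c n)).Finite
        rw [e, coin_one R c]
        exact Set.finite_range _
      · show (coin fmor (dmor R c n)).Finite
        rw [coin_ne R c hn]
        exact Set.finite_range _
    exact this) (transversal c (R.z ^ n) (R.z5 n))
  rw [h]
  have e : ((SF (k := k)).carrier ∩ (SG R c n).carrier).ncard =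
      (coin (k := k) fmor (dmor R c n)).ncard :=
    ncard_inter (frobData (k := k)) (diagData c (R.z ^ n) (R.z5 n))
  rw [e]

theorem tr_SF_SG_ne (c : Fin 3) {n : ℕ} (hn : R.z ^ n ≠ 1) :
    W.tr _ (W.cl SF * W.cl (SG R c n)) = 5 := by
  rw [W.tr_SF_SG, ncard_coin_ne R c hn]
  norm_num

theorem tr_SF_SG_one (c : Fin 3) : W.tr _ (W.cl SF * W.cl (SG R c 0)) = 65 := by
  rw [W.tr_SF_SG, ncard_coin_one R c]
  norm_num

theorem tr_SF_fst : W.tr _ (W.cl (SF (k := k)) *
    W.pull (Mor.fst (curve k) (curve k)) (W.ptc R)) = 1 := by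
  have h := W.tr_graph (isGraph_graph (fmor (k := k)))
    (W.pull (Mor.fst (curve k) (curve k)) (W.ptc R))
  rw [W.pull_graph_fst, (W.isPt R).tr] at h
  exact h

/-- The degree of Frobenius, computed with a linear equivalence. -/
theorem tr_SF_snd [CharZero K] : W.tr _ (W.cl (SF (k := k)) *
    W.pull (Mor.snd (curve k) (curve k)) (W.ptc R)) = 16 := by
  have h := W.cl_linearEquiv seg isEmb_seg.reg _ _ (SD R) (SE R) (isSection_SD R) (isSection_SE R)
  have e0 : ∀ i : Fin 5, W.tr _ (W.cl (SF (k := k)) * W.cl (SD R i)) = if i = 0 then 65 else 5 := by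
    intro i
    by_cases hi : i = 0
    · subst hi
      rw [if_pos rfl]
      exact W.tr_SF_SG_one R 2
    · rw [if_neg hi]
      apply W.tr_SF_SG_ne R 2
      intro h
      apply hi
      apply R.z_inj
      rw [h]
      simp
  have e1 : ∀ i : Fin 5, W.tr _ (W.cl (SF (k := k)) * W.cl (SE R (Sum.inl i))) = 1 := by
    intro i
    show W.tr _ (W.cl (SF (k := k)) * W.cl (SP R i)) = 1
    rw [W.cl_SP, W.tr_SF_fst]
  have e2 : ∀ i : Fin 5, W.tr _ (W.cl (SF (k := k)) * W.cl (SE R (Sum.inr i))) =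
      W.tr _ (W.cl (SF (k := k)) * W.pull (Mor.snd (curve k) (curve k)) (W.ptc R)) := by
    intro i
    show W.tr _ (W.cl (SF (k := k)) * W.cl (SQ R i)) = _
    rw [W.cl_SQ]
  have L : W.tr _ (W.cl (SF (k := k)) * ∑ i, W.cl (SD R i)) = 85 := by
    rw [Finset.mul_sum, map_sum, Finset.sum_congr rfl (fun i _ => e0 i), Fin.sum_univ_five]
    simp
    norm_num
  have L' : W.tr _ (W.cl (SF (k := k)) * ∑ i, W.cl (SE R i)) = 5 + 5 *
      W.tr _ (W.cl (SF (k := k)) * W.pull (Mor.snd (curve k) (curve k)) (W.ptc R)) := by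
    rw [Fintype.sum_sum_type, mul_add, map_add, Finset.mul_sum, Finset.mul_sum, map_sum, map_sum,
      Finset.sum_congr rfl (fun i _ => e1 i), Finset.sum_congr rfl (fun i _ => e2 i),
      Finset.sum_const, Finset.sum_const, Finset.card_univ, Fintype.card_fin, nsmul_eq_mul,
      nsmul_eq_mul]
    norm_num
  rw [h, L'] at L
  have h5 : (5 : K) ≠ 0 := by norm_num
  apply mul_left_cancel₀ h5
  linear_combination L

/-- The trace is invariant under the diagonal automorphisms. -/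
theorem tr_dmor (c : Fin 3) (n : ℕ) (x : W.H (curve k)) :
    W.tr _ (W.pull (dmor R c n) x) = W.tr _ x := by
  have h5 : R.z ^ (4 * n) * R.z ^ n = 1 := by
    have := R.z5 n
    calc R.z ^ (4 * n) * R.z ^ n = (R.z ^ n) ^ 5 := by ring
      _ = 1 := this
  have h5' : R.z ^ n * R.z ^ (4 * n) = 1 := by rw [_root_.mul_comm]; exact h5
  have h := W.cl_image (dmor R c n) (dmor R c (4 * n))
    (Mor.ext fun p => diag_fn_eq _ _ h5 p) (Sub.whole (curve k)) (by
      ext p
      constructor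
      · intro hp
        exact ⟨(dmor R c (4 * n)).fn ⟨p, hp⟩, congrArg Subtype.val (diag_fn_eq _ _ h5' _)⟩
      · rintro ⟨q, rfl⟩
        exact ((dmor R c n).fn q).2) x
  rw [W.cl_whole, one_mul] at h
  exact h.symm

theorem tr_fst_SG (c : Fin 3) (n : ℕ) : W.tr _ (W.pull (Mor.fst (curve k) (curve k)) (W.ptc R) *
    W.cl (SG R c n)) = 1 := by
  rw [← W.cl_comm]
  have h := W.tr_graph (isGraph_graph (dmor R c n))
    (W.pull (Mor.fst (curve k) (curve k)) (W.ptc R))
  rw [W.pull_graph_fst, (W.isPt R).tr] at h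
  exact h

theorem tr_snd_SG (c : Fin 3) (n : ℕ) : W.tr _ (W.pull (Mor.snd (curve k) (curve k)) (W.ptc R) *
    W.cl (SG R c n)) = 1 := by
  rw [← W.cl_comm]
  have h := W.tr_graph (isGraph_graph (dmor R c n))
    (W.pull (Mor.snd (curve k) (curve k)) (W.ptc R))
  rw [W.pull_graph_snd, W.tr_dmor, (W.isPt R).tr] at h
  exact h

theorem tr_ptc_sq : W.tr _ (W.ptc R * W.ptc R) = 0 := by
  have h := (W.isPt R).mem
  exact W.tr_gr _ _ _ (by show 2 * 1 + 2 * 1 ≠ 2 * 1; omega) (W.mul_mem _ _ _ _ _ h h)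

theorem tr_fst_fst : W.tr _ (W.pull (Mor.fst (curve k) (curve k)) (W.ptc R) *
    W.pull (Mor.fst (curve k) (curve k)) (W.ptc R)) = 0 := by
  have h := W.tr_prod (curve k) (curve k) (W.ptc R * W.ptc R) 1
  rw [map_one, mul_one, W.tr_ptc_sq, zero_mul, map_mul] at h
  exact h

theorem tr_snd_snd : W.tr _ (W.pull (Mor.snd (curve k) (curve k)) (W.ptc R) *
    W.pull (Mor.snd (curve k) (curve k)) (W.ptc R)) = 0 := by
  have h := W.tr_prod (curve k) (curve k) 1 (W.ptc R * W.ptc R)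
  rw [map_one, one_mul, W.tr_ptc_sq, mul_zero, map_mul] at h
  exact h

theorem tr_fst_snd : W.tr _ (W.pull (Mor.fst (curve k) (curve k)) (W.ptc R) *
    W.pull (Mor.snd (curve k) (curve k)) (W.ptc R)) = 1 := by
  rw [W.tr_prod, (W.isPt R).tr, one_mul]

theorem tr_snd_fst : W.tr _ (W.pull (Mor.snd (curve k) (curve k)) (W.ptc R) *
    W.pull (Mor.fst (curve k) (curve k)) (W.ptc R)) = 1 := by
  rw [W.tr_prod', (W.isPt R).tr, one_mul]

/-- The degree with respect to `H` of a class. -/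
theorem tr_eta (z : W.H (XX k)) {a b : K} {g : K}
    (h1 : W.tr _ (z * W.pull (Mor.fst (curve k) (curve k)) (W.ptc R)) = a)
    (h2 : W.tr _ (z * W.pull (Mor.snd (curve k) (curve k)) (W.ptc R)) = b)
    (h3 : ∀ (c : Fin 3) (i : Fin 4), W.tr _ (z * W.cl (SG R c ((i : ℕ) + 1))) = g) :
    W.tr _ (z * ∑ i, W.cl (SH R i)) = 5 * a + 5 * b + 12 * g := by
  have e1 : ∀ i : Fin 5, W.tr _ (z * W.cl (SH R (Sum.inl i))) = a := by
    intro i
    show W.tr _ (z * W.cl (SP R i)) = a
    rw [W.cl_SP, h1]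
  have e2 : ∀ i : Fin 5, W.tr _ (z * W.cl (SH R (Sum.inr (Sum.inl i)))) = b := by
    intro i
    show W.tr _ (z * W.cl (SQ R i)) = b
    rw [W.cl_SQ, h2]
  have e3 : ∀ x : Fin 3 × Fin 4, W.tr _ (z * W.cl (SH R (Sum.inr (Sum.inr x)))) = g := by
    intro x
    exact h3 x.1 x.2
  rw [Fintype.sum_sum_type, Fintype.sum_sum_type, mul_add, mul_add, map_add, map_add,
    Finset.mul_sum, Finset.mul_sum, Finset.mul_sum, map_sum, map_sum, map_sum,
    Finset.sum_congr rfl (fun i _ => e1 i), Finset.sum_congr rfl (fun i _ => e2 i),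
    Finset.sum_congr rfl (fun i _ => e3 i), Finset.sum_const, Finset.sum_const, Finset.sum_const,
    Finset.card_univ, Finset.card_univ, Fintype.card_prod, Fintype.card_fin, Fintype.card_fin,
    Fintype.card_fin, nsmul_eq_mul, nsmul_eq_mul, nsmul_eq_mul]
  push_cast
  ring

variable [CharZero K]

theorem deg_SF : W.tr _ (W.cl (SF (k := k)) * ∑ i, W.cl (SH R i)) = 145 := by
  rw [W.tr_eta R (W.cl SF) (W.tr_SF_fst R) (W.tr_SF_snd R)
    (fun c i => W.tr_SF_SG_ne R c (z_succ_ne R i))]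
  norm_num

theorem deg_SP : W.tr _ (W.cl (SP R 0) * ∑ i, W.cl (SH R i)) = 17 := by
  rw [W.cl_SP, W.tr_eta R _ (W.tr_fst_fst R) (W.tr_fst_snd R)
    (fun c i => W.tr_fst_SG R c _)]
  norm_num

theorem deg_SQ : W.tr _ (W.cl (SQ R 0) * ∑ i, W.cl (SH R i)) = 17 := by
  rw [W.cl_SQ, W.tr_eta R _ (W.tr_snd_fst R) (W.tr_snd_snd R)
    (fun c i => W.tr_snd_SG R c _)]
  norm_num

end Weil

/-- The cycle `x Γ_F + y [P × C] + w [C × P]`. -/
noncomputable def cyc3 (R : Roots k) (x y w : ℚ) : PCyc (XX k) (curve k).dim →₀ ℚ :=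
  Finsupp.single (zF k) x + Finsupp.single (zP R) y + Finsupp.single (zQ R) w

namespace Weil

variable (W : Weil.{u, v, w} k K) (R : Roots k)

theorem clQ_cyc3 [CharZero K] (x y w : ℚ) : W.clQ (cyc3 R x y w) = (x : K) • W.cl SF +
    (y : K) • W.pull (Mor.fst (curve k) (curve k)) (W.ptc R) +
      (w : K) • W.pull (Mor.snd (curve k) (curve k)) (W.ptc R) := by
  have h0 : ∀ Z : PCyc (XX k) (curve k).dim, ((0 : ℚ) : K) • W.cl Z.1 = 0 := by
    intro Z
    rw [Rat.cast_zero, zero_smul]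
  have h1 : ∀ (Z : PCyc (XX k) (curve k).dim) (a b : ℚ), ((a + b : ℚ) : K) • W.cl Z.1 =
      (a : K) • W.cl Z.1 + (b : K) • W.cl Z.1 := by
    intro Z a b
    rw [Rat.cast_add, add_smul]
  unfold CohData.clQ cyc3
  rw [Finsupp.sum_add_index' h0 h1, Finsupp.sum_add_index' h0 h1,
    Finsupp.sum_single_index (h0 _), Finsupp.sum_single_index (h0 _),
    Finsupp.sum_single_index (h0 _)]
  show (x : K) • W.cl SF + (y : K) • W.cl (SP R 0) + (w : K) • W.cl (SQ R 0) = _
  rw [W.cl_SP, W.cl_SQ]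

theorem deg_cyc3 [CharZero K] (x y w : ℚ) :
    W.deg (W.clSum (SH R)) (cyc3 R x y w) = 145 * x + 17 * y + 17 * w := by
  unfold CohData.deg cyc3
  rw [Finsupp.sum_add_index' (fun _ => zero_mul _) (fun _ _ _ => add_mul _ _ _),
    Finsupp.sum_add_index' (fun _ => zero_mul _) (fun _ _ _ => add_mul _ _ _),
    Finsupp.sum_single_index (zero_mul _), Finsupp.sum_single_index (zero_mul _),
    Finsupp.sum_single_index (zero_mul _)]
  have e1 : toRat (W.pair (W.cl (zF k).1) (W.power (W.clSum (SH R)) (curve k).dim)) = 145 := by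
    show toRat (W.tr (XX k) (W.cl SF * (∑ i, W.cl (SH R i)) ^ 1)) = 145
    rw [pow_one, W.deg_SF]
    have := toRat_cast (K := K) 145
    push_cast at this
    exact this
  have e2 : toRat (W.pair (W.cl (zP R).1) (W.power (W.clSum (SH R)) (curve k).dim)) = 17 := by
    show toRat (W.tr (XX k) (W.cl (SP R 0) * (∑ i, W.cl (SH R i)) ^ 1)) = 17
    rw [pow_one, W.deg_SP]
    have := toRat_cast (K := K) 17
    push_cast at this
    exact this
  have e3 : toRat (W.pair (W.cl (zQ R).1) (W.power (W.clSum (SH R)) (curve k).dim)) = 17 := by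
    show toRat (W.tr (XX k) (W.cl (SQ R 0) * (∑ i, W.cl (SH R i)) ^ 1)) = 17
    rw [pow_one, W.deg_SQ]
    have := toRat_cast (K := K) 17
    push_cast at this
    exact this
  rw [e1, e2, e3]
  ring

theorem clN_SF : W.clN (Finsupp.single (zF k) 1) = W.cl SF := by
  unfold CohData.clN CohData.scale
  rw [Finsupp.sum_single_index (by rw [Nat.cast_zero, zero_smul]), Nat.cast_one, one_smul]
  rfl

theorem represents_cov [CharZero K] : W.Represents (curve k) true 4
    (Finsupp.single (zF k) 1) (cyc3 R 4 (-48) 12) := by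
  refine ⟨_, isGr_cov rfl (W.isPt R) (isGraph_diag R) rfl 4, ?_⟩
  have h := isComp rfl (W.isPt R) (isGraph_diag R) (isGraph_graph (fmor (k := k))) rfl
    ((4 : ℚ) : K) (1 - ((4 : ℚ) : K)) (((4 : ℚ) : K) ^ 2 - ((4 : ℚ) : K))
  rw [W.clN_SF, W.clQ_cyc3]
  have e : W.tr (XX k) (W.cl (Sub.graph (fmor (k := k))) *
    W.pull (Mor.snd (curve k) (curve k)) (W.ptc R)) = 16 := W.tr_SF_snd R
  rw [e] at h
  have e1 : (1 - ((4 : ℚ) : K)) * 16 = ((-48 : ℚ) : K) := by push_cast; norm_num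
  have e2 : ((4 : ℚ) : K) ^ 2 - ((4 : ℚ) : K) = ((12 : ℚ) : K) := by push_cast; norm_num
  rw [e1, e2] at h
  rw [e2]
  exact h

theorem represents_con [CharZero K] : W.Represents (curve k) false (1 / 4)
    (Finsupp.single (zF k) 1) (cyc3 R (1 / 4) (-3) (3 / 4)) := by
  refine ⟨_, isGr_con rfl (W.isPt R) (isGraph_diag R) rfl (1 / 4), ?_⟩
  have h := isComp rfl (W.isPt R) (isGraph_diag R) (isGraph_graph (fmor (k := k))) rfl
    ((1 / 4 : ℚ) : K) (((1 / 4 : ℚ) : K) ^ 2 - ((1 / 4 : ℚ) : K)) (1 - ((1 / 4 : ℚ) : K))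
  rw [W.clN_SF, W.clQ_cyc3]
  have e : W.tr (XX k) (W.cl (Sub.graph (fmor (k := k))) *
    W.pull (Mor.snd (curve k) (curve k)) (W.ptc R)) = 16 := W.tr_SF_snd R
  rw [e] at h
  have e1 : (((1 / 4 : ℚ) : K) ^ 2 - ((1 / 4 : ℚ) : K)) * 16 = ((-3 : ℚ) : K) := by
    push_cast; norm_num
  have e2 : 1 - ((1 / 4 : ℚ) : K) = ((3 / 4 : ℚ) : K) := by push_cast; norm_num
  rw [e1, e2] at h
  rw [e2]
  exact h

end Weil

/-- The uniform norm-degree bound fails for the Fermat quintic in characteristic two. -/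
theorem main (k : Type u) [Field k] [CharP k 2] [IsAlgClosed k] :
    ∃ (X : SPV k) (ι : Type) (_ : Fintype ι) (S : ι → Sub (X.prod X)),
      X.dim = 1 ∧ VeryAmple S ∧
      ∀ (K : Type v) [Field K] [CharZero K] (W : CohData.{u, v, w} k K) (cov : Bool), W.IsWeil →
        (∃ r : ℚ, 0 < r ∧ ∃ f : PCyc (X.prod X) X.dim →₀ ℕ, Dynamical f ∧
          ∃ D : PCyc (X.prod X) X.dim →₀ ℚ, W.Represents X cov r f D ∧
            W.deg (W.clSum S) D < 0) ∧
        ∀ N : W.Num (X.prod X) X.dim → ℝ, W.IsNorm N → ¬ W.Bound X cov (W.clSum S) N := by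
  obtain ⟨R⟩ := exists_roots k
  refine ⟨curve k, Fin 5 ⊕ Fin 5 ⊕ (Fin 3 × Fin 4), inferInstance, SH R, rfl, veryAmple_SH R, ?_⟩
  intro K _ _ W₀ cov hW
  have key : ∃ r : ℚ, 0 < r ∧ ∃ f : PCyc (XX k) (curve k).dim →₀ ℕ, Dynamical f ∧
          ∃ D : PCyc (XX k) (curve k).dim →₀ ℚ, W₀.Represents (curve k) cov r f D ∧
            W₀.deg (W₀.clSum (SH R)) D < 0 := by
    let W : Weil.{u, v, w} k K := ⟨W₀, hW⟩
    cases cov
    · refine ⟨1 / 4, by norm_num, _, dynamical_SF, _, W.represents_con R, ?_⟩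
      have h := W.deg_cyc3 R (1 / 4) (-3) (3 / 4)
      refine lt_of_eq_of_lt h ?_
      norm_num
    · refine ⟨4, by norm_num, _, dynamical_SF, _, W.represents_cov R, ?_⟩
      have h := W.deg_cyc3 R 4 (-48) 12
      refine lt_of_eq_of_lt h ?_
      norm_num
  refine ⟨key, ?_⟩
  intro N hN
  rintro ⟨C, hC, hb⟩
  obtain ⟨r, hr, f, hf, D, hD, hlt⟩ := key
  have h1 := hb r hr f hf D hD
  have h2 : (0 : ℝ) ≤ N (W₀.numClass D) := hN.nonneg _
  have h3 : C * ((W₀.deg (W₀.clSum (SH R)) D : ℚ) : ℝ) < 0 :=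
    mul_neg_of_pos_of_neg hC (by exact_mod_cast hlt)
  linarith

end Pool.Agent.Lib.MP_77d3c1_ag
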