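import Pool.Agent.Lib.MP_77d3c1_ag.Frob
import Pool.Agent.Lib.MP_77d3c1_ag.Bundle

/-!
# Fields of definition and Frobenius endomorphisms
-/

set_option autoImplicit false

open MvPolynomial

namespace Pool.Agent.Lib.MP_77d3c1_ag

universe u

theorem exists_pow_eq_self (p : ℕ) [Fact p.Prime] (k : Type u) [Field k] [Algebra (ZMod p) k]
    [Algebra.IsAlgebraic (ZMod p) k] (c : k) : ∃ a : ℕ, 0 < a ∧ c ^ p ^ a = c := by
  have hc : IsIntegral (ZMod p) c := (Algebra.IsAlgebraic.isAlgebraic c).isIntegral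
  let L := IntermediateField.adjoin (ZMod p) {c}
  have : FiniteDimensional (ZMod p) L := IntermediateField.adjoin.finiteDimensional hc
  have : Finite L := Module.finite_of_finite (ZMod p)
  have : Fintype L := Fintype.ofFinite L
  have : CharP L p := charP_of_injective_algebraMap (algebraMap (ZMod p) L).injective p
  obtain ⟨a, -, ha⟩ := FiniteField.card L p
  refine ⟨a, a.2, ?_⟩
  have h := FiniteField.pow_card (⟨c, IntermediateField.mem_adjoin_simple_self (ZMod p) c⟩ : L)
  rw [ha] at h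
  exact congrArg Subtype.val h

/-- All the coefficients lie in finite fields. -/
def FinFields (p : ℕ) (k : Type u) [Field k] : Prop := ∀ c : k, ∃ a : ℕ, 0 < a ∧ c ^ p ^ a = c

variable {p : ℕ} [hp : Fact p.Prime] {k : Type u} [Field k] [CharP k p]

omit hp [CharP k p] in
theorem pow_eq_self_mul {c : k} {a : ℕ} (h : c ^ p ^ a = c) (b : ℕ) : c ^ p ^ (a * b) = c := by
  induction b with
  | zero => rw [Nat.mul_zero, pow_zero, pow_one]
  | succ b ih => rw [Nat.mul_succ, pow_add, pow_mul, ih, h]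

/-- The Frobenius power on polynomials whose coefficients are fixed by it. -/
theorem eval_pow_of_fixed {τ : Type} {f : MvPolynomial τ k} {a : ℕ}
    (h : ∀ m, f.coeff m ^ p ^ a = f.coeff m) (v : τ → k) :
    eval (fun i => v i ^ p ^ a) f = (eval v f) ^ p ^ a := by
  have h1 : MvPolynomial.map (iterateFrobenius k p a) f = f := by
    ext m
    rw [coeff_map, iterateFrobenius_def, h m]
  have h2 : (iterateFrobenius k p a) (eval v f) =
      eval (fun i => (iterateFrobenius k p a) (v i))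
        (MvPolynomial.map (iterateFrobenius k p a) f) := by
    clear h h1
    induction f using MvPolynomial.induction_on with
    | C a => simp only [eval_C, MvPolynomial.map_C]
    | add p q hp hq => simp only [map_add, hp, hq]
    | mul_X p s hp => simp only [map_mul, hp, eval_X, MvPolynomial.map_X]
  rw [h1] at h2
  simp only [iterateFrobenius_def] at h2
  exact h2.symm

/-- `S` is stable under the `q`-power map. -/
def Stab (q : ℕ) {A : Amb} (S : Set (Pt k A)) : Prop :=
  ∀ v ∈ cone S, (fun i => v i ^ q) ∈ cone S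

omit hp [CharP k p] in
theorem over_pow {q : ℕ} : (A : Amb) → (v : A.Idx → k) → (x : Pt k A) → Over A v x →
    ∃ y : Pt k A, Over A (fun i => v i ^ q) y
  | .proj κ _, v, x, h => by
      obtain ⟨h0, _⟩ := h
      have h1 : (fun i : κ => (v : κ → k) i ^ q) ≠ 0 := by
        intro h
        apply h0
        obtain ⟨i, hi⟩ := Function.ne_iff.1 h0
        have := congrFun h i
        exact absurd (eq_zero_of_pow_eq_zero this) hi
      exact ⟨_, h1, rfl⟩
  | .prod A B, v, x, h => by
      obtain ⟨y, hy⟩ := over_pow A _ _ h.1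
      obtain ⟨z, hz⟩ := over_pow B _ _ h.2
      exact ⟨(y, z), hy, hz⟩

omit hp [CharP k p] in
theorem Scal.pow {q : ℕ} : (A : Amb) → (c : A.Idx → k) → Scal A c → Scal A (fun i => c i ^ q)
  | .proj _ _, _, ⟨t, ht, h⟩ => ⟨t ^ q, pow_ne_zero _ ht, by rw [h]⟩
  | .prod A B, _, h => ⟨Scal.pow A _ h.1, Scal.pow B _ h.2⟩

omit hp [CharP k p] in
theorem Scal.root [IsAlgClosed k] {q : ℕ} (hq : 0 < q) : (A : Amb) → (c : A.Idx → k) →
    Scal A c → ∃ d : A.Idx → k, Scal A d ∧ ∀ i, c i = d i ^ q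
  | .proj _ _, c, ⟨t, ht, h⟩ => by
      obtain ⟨s, hs⟩ := IsAlgClosed.exists_pow_nat_eq t hq
      refine ⟨fun _ => s, ⟨s, ?_, rfl⟩, fun i => ?_⟩
      · rintro rfl
        rw [zero_pow hq.ne'] at hs
        exact ht hs.symm
      · rw [h, hs]
  | .prod A B, c, h => by
      obtain ⟨d, hd, h1⟩ := Scal.root hq A _ h.1
      obtain ⟨e, he, h2⟩ := Scal.root hq B _ h.2
      refine ⟨Amb.elim d e, ⟨hd, he⟩, ?_⟩
      have := Amb.ext_idx (f := c) (g := fun i => Amb.elim d e i ^ q) h1 h2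
      exact fun i => congrFun this i

omit hp [CharP k p] in
theorem zset_span {A : Amb} (T : Set (MvPolynomial A.Idx k)) :
    zset (Ideal.span T : Set (MvPolynomial A.Idx k)) = (zset T : Set (Pt k A)) := by
  ext x
  constructor
  · intro h f hf v hv
    exact h f (Ideal.subset_span hf) v hv
  · intro h f hf v hv
    refine Submodule.span_induction (p := fun f _ => eval v f = 0) ?_ ?_ ?_ ?_ hf
    · intro f hf; exact h f hf v hv
    · exact map_zero _
    · intro f g _ _ h1 h2; rw [map_add, h1, h2, add_zero]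
    · intro a f _ h1; rw [smul_eq_mul, map_mul, h1, mul_zero]

omit hp [CharP k p] in
theorem exists_finite_zset {A : Amb} {S : Set (Pt k A)} (hS : IsCl S) :
    ∃ T : Finset (MvPolynomial A.Idx k), S = zset (T : Set (MvPolynomial A.Idx k)) := by
  obtain ⟨T, rfl⟩ := hS
  obtain ⟨T', hT'⟩ := (isNoetherianRing_iff_ideal_fg _).1
    (inferInstance : IsNoetherianRing (MvPolynomial A.Idx k)) (Ideal.span T)
  refine ⟨T', ?_⟩
  rw [← zset_span T, ← hT', ← zset_span (T' : Set (MvPolynomial A.Idx k))]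

omit hp [CharP k p] in
theorem exists_common {α : Type*} (T : Finset α) (P : α → ℕ → Prop)
    (h : ∀ x ∈ T, ∃ a, 0 < a ∧ ∀ b, P x (a * b)) : ∃ a, 0 < a ∧ ∀ x ∈ T, ∀ b, P x (a * b) := by
  classical
  induction T using Finset.induction_on with
  | empty => exact ⟨1, one_pos, fun x hx => absurd hx (Finset.notMem_empty x)⟩
  | insert x T hx ih =>
    obtain ⟨a, ha, h1⟩ := ih (fun y hy => h y (Finset.mem_insert_of_mem hy))
    obtain ⟨b, hb, h2⟩ := h x (Finset.mem_insert_self _ _)
    refine ⟨a * b, Nat.mul_pos ha hb, ?_⟩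
    intro y hy c
    rcases Finset.mem_insert.1 hy with rfl | hy
    · rw [Nat.mul_comm a b, Nat.mul_assoc]
      exact h2 _
    · rw [Nat.mul_assoc]
      exact h1 y hy _

omit [CharP k p] in
theorem exists_fixed (hk : FinFields p k) {τ : Type} (f : MvPolynomial τ k) :
    ∃ a, 0 < a ∧ ∀ b m, f.coeff m ^ p ^ (a * b) = f.coeff m := by
  obtain ⟨a, ha, h⟩ := exists_common f.support (fun m a => f.coeff m ^ p ^ a = f.coeff m) (by
    intro m _
    obtain ⟨a, ha, h⟩ := hk (f.coeff m)
    exact ⟨a, ha, pow_eq_self_mul h⟩)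
  refine ⟨a, ha, fun b m => ?_⟩
  by_cases hm : m ∈ f.support
  · exact h m hm b
  · rw [notMem_support_iff.1 hm, zero_pow (pow_pos hp.out.pos _).ne']

/-- Every closed set is stable under the `q`-power map for a suitable power `q` of `p`. -/
theorem exists_stab [IsAlgClosed k] (hk : FinFields p k) {A : Amb} {S : Set (Pt k A)}
    (hS : IsCl S) : ∃ a, 0 < a ∧ ∀ b, Stab (p ^ (a * b)) S := by
  obtain ⟨T, rfl⟩ := exists_finite_zset hS
  obtain ⟨a, ha, h⟩ := exists_common T
    (fun f a => ∀ m, f.coeff m ^ p ^ a = f.coeff m) (fun f _ => exists_fixed hk f)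
  refine ⟨a, ha, fun b v hv => ?_⟩
  obtain ⟨x, hx, hv⟩ := hv
  obtain ⟨y, hy⟩ := over_pow (q := p ^ (a * b)) A v x hv
  refine ⟨y, ?_, hy⟩
  intro f hf w hw
  obtain ⟨c, hc, rfl⟩ := exists_scal A _ w y hy hw
  obtain ⟨d, hd, hcd⟩ := hc.root (pow_pos hp.out.pos (a * b))
  have e : (fun i => c i * v i ^ p ^ (a * b)) = fun i => (d i * v i) ^ p ^ (a * b) := by
    funext i
    rw [hcd i, mul_pow]
  rw [e, eval_pow_of_fixed (h f hf b), hx f hf _ (hd.over A d v x hv), zero_pow]
  exact (pow_pos hp.out.pos _).ne'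

omit hp [CharP k p] in
theorem Stab.pset {q : ℕ} {A B : Amb} {S : Set (Pt k A)} {S' : Set (Pt k B)} (h : Stab q S)
    (h' : Stab q S') : Stab q (pset S S') := by
  intro v hv
  obtain ⟨h1, h2⟩ := cone_pset.1 hv
  exact cone_pset.2 ⟨h _ h1, h' _ h2⟩

omit hp [CharP k p] in
/-- The Frobenius endomorphism of a variety which is stable under the `q`-power map. -/
theorem exists_frob {q : ℕ} {V : SPV k} (h : Stab q V.carrier) :
    ∃ F : Mor V V, IsFrob q F := by
  have key : ∀ x : V.carrier, ∃ y : V.carrier, ∀ v, Over V.amb v x.1 →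
      Over V.amb (fun i => v i ^ q) y.1 := by
    intro x
    obtain ⟨v, hv⟩ := exists_over V.amb x.1
    obtain ⟨y, hy, hyv⟩ := h v ⟨x.1, x.2, hv⟩
    refine ⟨⟨y, hy⟩, fun w hw => ?_⟩
    obtain ⟨c, hc, rfl⟩ := exists_scal V.amb v w x.1 hv hw
    have e : (fun i => (c i * v i) ^ q) = fun i => c i ^ q * v i ^ q := by
      funext i
      rw [mul_pow]
    rw [e]
    exact (hc.pow (q := q)).over V.amb _ _ _ hyv
  choose fn hfn using key
  refine ⟨⟨fn, fun x => ⟨1, fun i => X i ^ q, fun v _ => by simp, fun y v hv _ => ?_⟩⟩, hfn⟩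
  have e : (fun i => eval v (X i ^ q : MvPolynomial V.amb.Idx k)) = fun i => v i ^ q := by
    funext i
    simp
  rw [e]
  exact hfn y v hv

omit hp [CharP k p] in
theorem IsFrob.unique {q : ℕ} {V : SPV k} {F G : Mor V V} (hF : IsFrob q F) (hG : IsFrob q G) :
    F = G := by
  apply Mor.ext
  intro x
  obtain ⟨v, hv⟩ := exists_over V.amb x.1
  exact Subtype.ext (over_unique V.amb _ _ _ (hF x v hv) (hG x v hv))

omit hp [CharP k p] in
theorem IsFrob.prod {q : ℕ} {V U : SPV k} {F : Mor V V} {G : Mor U U} (hF : IsFrob q F)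
    (hG : IsFrob q G) :
    IsFrob q (Mor.pair (F.comp (Mor.fst V U)) (G.comp (Mor.snd V U))) :=
  fun x v hv => ⟨hF _ _ hv.1, hG _ _ hv.2⟩

omit hp [CharP k p] in
theorem IsFrob.stab {q : ℕ} {V : SPV k} {F : Mor V V} (hF : IsFrob q F) {Z : Sub V}
    (h : Stab q Z.carrier) (x : V.carrier) (hx : x.1 ∈ Z.carrier) : (F.fn x).1 ∈ Z.carrier := by
  obtain ⟨v, hv⟩ := exists_over V.amb x.1
  obtain ⟨y, hy, hyv⟩ := h v ⟨x.1, hx, hv⟩
  rwa [over_unique V.amb _ _ _ (hF x v hv) hyv]

end Pool.Agent.Lib.MP_77d3c1_ag
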