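import Pool.Agent.Lib.MP_77d3c1_ag.Effective

/-!
# Numerical classes and norms
-/

set_option autoImplicit false

namespace Pool.Agent.Lib.MP_77d3c1_ag

universe u v w

variable {k : Type u} [Field k] {K : Type v} [Field K]

namespace Weil

variable (W : Weil.{u, v, w} k K)

/-- The intersection number of real cycles with the prime cycle `Y`. -/
noncomputable def ev {V : SPV k} (d : ℕ) (Y : Sub V) : (PCyc V d →₀ ℝ) →ₗ[ℝ] ℝ :=
  Finsupp.linearCombination ℝ (fun Z : PCyc V d => (W.inter Z.1 Y : ℝ))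

theorem ev_single {V : SPV k} {d : ℕ} (Y : Sub V) (Z : PCyc V d) (r : ℝ) :
    W.ev d Y (Finsupp.single Z r) = r * W.inter Z.1 Y := by
  unfold ev
  rw [Finsupp.linearCombination_single, smul_eq_mul]

theorem mem_numTriv {V : SPV k} {d : ℕ} {x : PCyc V d →₀ ℝ} :
    x ∈ W.numTriv V d ↔ ∀ Y : Sub V, Y.dim = V.dim - d → W.ev d Y x = 0 := by
  unfold CohData.numTriv
  rw [Submodule.mem_iInf]
  constructor
  · intro h Y hY
    exact LinearMap.mem_ker.1 (h ⟨Y, hY⟩)
  · intro h Y
    exact LinearMap.mem_ker.2 (h Y.1 Y.2)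

/-- The classes of finitely many prime cycles of dimension `d` span those of all of them. -/
theorem exists_spanning (V : SPV k) (d : ℕ) : ∃ J : Finset (Sub V), (∀ E ∈ J, E.dim = d) ∧
    ∀ Y : Sub V, Y.dim = d → ∃ c : Sub V → K, ∑ E ∈ J, c E • W.cl E = W.cl Y := by
  classical
  have := W.finite V
  obtain ⟨s', hs', h⟩ := (Submodule.fg_span_iff_fg_span_finset_subset
    (R := K) (W.cl '' {Y : Sub V | Y.dim = d})).1 (IsNoetherian.noetherian _)
  obtain ⟨J, hJ, rfl⟩ := Finset.subset_set_image_iff.1 hs'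
  refine ⟨J, fun E hE => hJ hE, ?_⟩
  intro Y hY
  have h1 : W.cl Y ∈ Submodule.span K (W.cl '' (J : Set (Sub V))) := by
    rw [← Finset.coe_image, ← h]
    exact Submodule.subset_span ⟨Y, hY, rfl⟩
  exact (Submodule.mem_span_image_finset_iff_exists_fun' (R := K)).1 h1

variable {W} [CharZero K]

theorem exists_rational {V : SPV k} (hP : W.HasPositivity) {J : Finset (Sub V)} {Y : Sub V}
    (h : ∃ c : Sub V → K, ∑ E ∈ J, c E • W.cl E = W.cl Y) :
    ∃ c : Sub V → ℚ, ∀ Z : Sub V, W.inter Z Y = ∑ E ∈ J, c E * W.inter Z E := by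
  obtain ⟨c, hc⟩ := h
  obtain ⟨ρ, hρ⟩ := LinearMap.exists_leftInverse_of_injective (Algebra.linearMap ℚ K)
    (LinearMap.ker_eq_bot.2 (algebraMap ℚ K).injective)
  have hρ1 : ∀ q : ℚ, ρ (q : K) = q := by
    intro q
    have := LinearMap.congr_fun hρ q
    exact this
  refine ⟨fun E => ρ (c E), ?_⟩
  intro Z
  have h1 : ((W.inter Z Y : ℚ) : K) = ∑ E ∈ J, (W.inter Z E : ℚ) • c E := by
    rw [inter_cast hP, ← hc, Finset.mul_sum, map_sum]
    refine Finset.sum_congr rfl fun E _ => ?_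
    rw [mul_smul_comm, map_smul, smul_eq_mul, ← inter_cast hP, Rat.smul_def, _root_.mul_comm]
  have h2 := congrArg ρ h1
  rw [hρ1, map_sum] at h2
  rw [h2]
  refine Finset.sum_congr rfl fun E _ => ?_
  rw [map_smul, smul_eq_mul, _root_.mul_comm]

omit [CharZero K] in
theorem norm_sum_le' {V : SPV k} {d : ℕ} {N : W.Num V d → ℝ} (hN : W.IsNorm N) {ι : Type*}
    (s : Finset ι) (f : ι → W.Num V d) : N (∑ i ∈ s, f i) ≤ ∑ i ∈ s, N (f i) := by
  classical
  induction s using Finset.induction_on with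
  | empty =>
    rw [Finset.sum_empty, Finset.sum_empty]
    have := hN.smul 0 0
    rw [zero_smul, abs_zero, zero_mul] at this
    exact this.le
  | insert i s hi ih =>
    rw [Finset.sum_insert hi, Finset.sum_insert hi]
    exact (hN.add_le _ _).trans (add_le_add le_rfl ih)

/-- Norms are bounded by finitely many intersection numbers. -/
theorem norm_bound {V : SPV k} {d : ℕ} (hP : W.HasPositivity) {J : Finset (Sub V)}
    (hJ : ∀ E ∈ J, E.dim = V.dim - d)
    (hJ' : ∀ Y : Sub V, Y.dim = V.dim - d → ∃ c : Sub V → K, ∑ E ∈ J, c E • W.cl E = W.cl Y)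
    {N : W.Num V d → ℝ} (hN : W.IsNorm N) :
    ∃ C : ℝ, 0 ≤ C ∧ ∀ x : PCyc V d →₀ ℝ,
      N (Submodule.Quotient.mk x) ≤ C * ∑ E ∈ J, |W.ev d E x| := by
  classical
  let e : (PCyc V d →₀ ℝ) →ₗ[ℝ] (J → ℝ) := LinearMap.pi fun E : J => W.ev d E.1
  have h1 : W.numTriv V d ≤ LinearMap.ker e := by
    intro x hx
    rw [LinearMap.mem_ker]
    funext E
    exact (W.mem_numTriv.1 hx) E.1 (hJ E.1 E.2)
  have h2 : LinearMap.ker e ≤ W.numTriv V d := by
    intro x hx
    rw [mem_numTriv]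
    intro Y hY
    obtain ⟨c, hc⟩ := exists_rational hP (hJ' Y hY)
    have h3 : W.ev d Y = ∑ E ∈ J, (c E : ℝ) • W.ev d E := by
      apply Finsupp.lhom_ext
      intro Z r
      rw [ev_single, hc, LinearMap.sum_apply]
      push_cast
      rw [Finset.mul_sum]
      refine Finset.sum_congr rfl fun E _ => ?_
      rw [LinearMap.smul_apply, ev_single, smul_eq_mul]
      ring
    rw [h3, LinearMap.sum_apply]
    apply Finset.sum_eq_zero
    intro E hE
    have := congrFun (LinearMap.mem_ker.1 hx) ⟨E, hE⟩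
    have h4 : W.ev d E x = 0 := this
    rw [LinearMap.smul_apply, h4, smul_zero]
  let f : W.Num V d →ₗ[ℝ] (J → ℝ) := Submodule.liftQ (W.numTriv V d) e h1
  have hf : LinearMap.ker f = ⊥ := by
    refine Submodule.ker_liftQ_eq_bot _ _ _ h2
  obtain ⟨g, hg⟩ := LinearMap.exists_leftInverse_of_injective f hf
  refine ⟨∑ E : J, N (g (Pi.single E 1)), Finset.sum_nonneg fun E _ => hN.nonneg _, ?_⟩
  intro x
  have h5 : (Submodule.Quotient.mk x : W.Num V d) = ∑ E : J, W.ev d E.1 x • g (Pi.single E 1) := by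
    have h6 : g (f (Submodule.Quotient.mk x : W.Num V d)) = (Submodule.Quotient.mk x : W.Num V d) :=
      LinearMap.congr_fun hg _
    have h7 : f (Submodule.Quotient.mk x : W.Num V d) =
        ∑ E : J, W.ev d E.1 x • Pi.single E (1 : ℝ) := by
      funext E
      rw [Finset.sum_apply, Finset.sum_eq_single E]
      · rw [Pi.smul_apply, Pi.single_eq_same, smul_eq_mul, mul_one]
        rfl
      · intro E' _ hne
        rw [Pi.smul_apply, Pi.single_eq_of_ne hne.symm, smul_zero]
      · intro h; exact absurd (Finset.mem_univ E) h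
    rw [h7, map_sum] at h6
    rw [← h6]
    exact Finset.sum_congr rfl fun E _ => by rw [map_smul]
  rw [h5]
  refine (norm_sum_le' hN _ _).trans ?_
  have h8 : ∑ E ∈ J, |W.ev d E x| = ∑ E : J, |W.ev d E.1 x| :=
    (Finset.sum_coe_sort J fun E => |W.ev d E x|).symm
  rw [h8, Finset.sum_mul]
  refine Finset.sum_le_sum fun E _ => ?_
  rw [hN.smul, _root_.mul_comm]
  refine mul_le_mul_of_nonneg_left ?_ (hN.nonneg _)
  exact Finset.single_le_sum (f := fun E : J => |W.ev d E.1 x|) (fun E _ => abs_nonneg _)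
    (Finset.mem_univ E)

end Weil

end Pool.Agent.Lib.MP_77d3c1_ag
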