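import Pool.Agent.Lib.MP_77d3c1_ag.Weights
import Pool.Agent.Lib.MP_77d3c1_ag.Numeric

/-!
# The growth of intersection numbers
-/

set_option autoImplicit false

namespace Pool.Agent.Lib.MP_77d3c1_ag

universe u v w

variable {k : Type u} [Field k] {K : Type v} [Field K] {X : SPV k}

/-- The polynomial `∑ binom(n, i) d_i x^i`. -/
noncomputable def dpoly (n : ℕ) (d : ℕ → ℕ) (x : ℝ) : ℝ :=
  ∑ i ∈ Finset.range (n + 1), ((n.choose i : ℝ) * d i) * x ^ i

theorem dpoly_nonneg (n : ℕ) (d : ℕ → ℕ) {x : ℝ} (hx : 0 ≤ x) : 0 ≤ dpoly n d x :=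
  Finset.sum_nonneg fun i _ => by positivity

theorem tame_dpoly (n : ℕ) (d : ℕ → ℕ) {C : ℝ} (hC : 0 ≤ C) :
    Tame n (fun x => C * dpoly n d x) := by
  intro x l hx hl
  have hl0 : 0 < l := by linarith
  refine ⟨mul_nonneg hC (dpoly_nonneg n d hx.le), ?_, ?_⟩
  · refine mul_le_mul_of_nonneg_left ?_ hC
    unfold dpoly
    refine Finset.sum_le_sum fun i _ => ?_
    refine mul_le_mul_of_nonneg_left ?_ (by positivity)
    exact pow_le_pow_left₀ hx.le (by nlinarith) i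
  · show C * dpoly n d (l * x) ≤ l ^ n * (C * dpoly n d x)
    rw [← mul_assoc, mul_comm (l ^ n) C, mul_assoc]
    refine mul_le_mul_of_nonneg_left ?_ hC
    unfold dpoly
    rw [Finset.mul_sum]
    refine Finset.sum_le_sum fun i hi => ?_
    rw [mul_pow]
    have h1 : l ^ i ≤ l ^ n := pow_le_pow_right₀ hl (by have := Finset.mem_range.1 hi; omega)
    have h2 : 0 ≤ ((n.choose i : ℝ) * d i) * x ^ i := by positivity
    nlinarith [mul_le_mul_of_nonneg_right h1 h2]

namespace Weil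

variable (W : Weil.{u, v, w} k K)

theorem tr_add_pow {V : SPV k} {x y : W.H V} (h : Commute x y) (φ : W.H V) (α β : K) (n : ℕ) :
    W.tr V (φ * (α • x + β • y) ^ n) = ∑ i ∈ Finset.range (n + 1),
      ((n.choose i : K) * α ^ (n - i) * β ^ i) * W.tr V (φ * (x ^ (n - i) * y ^ i)) := by
  have hc : Commute (β • y) (α • x) := (h.symm.smul_left β).smul_right α
  rw [add_comm, hc.add_pow, Finset.mul_sum, map_sum]
  refine Finset.sum_congr rfl fun i _ => ?_
  have e : (β • y) ^ i * (α • x) ^ (n - i) * (n.choose i : W.H V) =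
      ((n.choose i : K) * α ^ (n - i) * β ^ i) • (x ^ (n - i) * y ^ i) := by
    rw [smul_pow, smul_pow, smul_mul_smul_comm, (h.symm.pow_pow i (n - i)).eq]
    rw [← nsmul_eq_mul', ← Nat.cast_smul_eq_nsmul K, smul_smul]
    congr 1
    ring
  rw [e, mul_smul_comm, map_smul, smul_eq_mul]

/-- The pull-back of a class by the first projection. -/
noncomputable def dL (ξ : W.H X) : W.H (X.prod X) := W.pull (Mor.fst X X) ξ

/-- The pull-back of a class by the second projection. -/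
noncomputable def dR (ξ : W.H X) : W.H (X.prod X) := W.pull (Mor.snd X X) ξ

theorem dL_comm {ξ : W.H X} (hξ : ξ ∈ W.gr X 2) (y : W.H (X.prod X)) : Commute (W.dL ξ) y :=
  W.even_comm even_two (W.pull_gr _ _ _ hξ) y

/-- Positivity properties of `ξ` and `ξ'`: the classes `p₁^* ξ` and `p₂^* ξ'` preserve effective
classes, and their sum behaves like an ample class. -/
structure SplitPos (ξ ξ' : W.H X) : Prop where
  gr : ξ ∈ W.gr X 2
  gr' : ξ' ∈ W.gr X 2
  effL : ∀ (d : ℕ) (x : W.H (X.prod X)), W.Eff (d + 1) x → W.Eff d (x * W.dL ξ)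
  effR : ∀ (d : ℕ) (x : W.H (X.prod X)), W.Eff (d + 1) x → W.Eff d (x * W.dR ξ')
  bounded : ∀ E : Sub (X.prod X), E.dim = X.dim → ∃ C : ℚ, 0 ≤ C ∧ ∀ x : W.H (X.prod X),
    W.Eff X.dim x → ∃ a b : ℚ, (a : K) = W.tr _ (x * W.cl E) ∧
      (b : K) = W.tr _ (x * (W.dL ξ + W.dR ξ') ^ X.dim) ∧ |a| ≤ C * b

/-- The natural numbers `d i` are the mixed degrees of `φ`. -/
def Degs (ξ ξ' : W.H X) (φ : W.H (X.prod X)) (d : ℕ → ℕ) : Prop :=
  ∀ i ≤ X.dim, (d i : K) = W.tr _ (φ * (W.dL ξ ^ (X.dim - i) * W.dR ξ' ^ i))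

variable {W} {ξ ξ' : W.H X}

theorem SplitPos.powL (H : W.SplitPos ξ ξ') {d : ℕ} (j : ℕ) {x : W.H (X.prod X)}
    (hx : W.Eff (d + j) x) : W.Eff d (x * W.dL ξ ^ j) := by
  induction j generalizing x with
  | zero => rw [pow_zero, mul_one]; exact hx
  | succ j ih =>
    rw [pow_succ', ← mul_assoc]
    exact ih (H.effL _ _ (by rwa [← add_assoc] at hx))

theorem SplitPos.powR (H : W.SplitPos ξ ξ') {d : ℕ} (j : ℕ) {x : W.H (X.prod X)}
    (hx : W.Eff (d + j) x) : W.Eff d (x * W.dR ξ' ^ j) := by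
  induction j generalizing x with
  | zero => rw [pow_zero, mul_one]; exact hx
  | succ j ih =>
    rw [pow_succ', ← mul_assoc]
    exact ih (H.effR _ _ (by rwa [← add_assoc] at hx))

theorem exists_degs (hP : W.HasPositivity) (H : W.SplitPos ξ ξ')
    {φ : W.H (X.prod X)} (hφ : W.Eff X.dim φ) : ∃ d : ℕ → ℕ, W.Degs ξ ξ' φ d := by
  have key : ∀ i, ∃ m : ℕ, i ≤ X.dim →
      (m : K) = W.tr _ (φ * (W.dL ξ ^ (X.dim - i) * W.dR ξ' ^ i)) := by
    intro i
    by_cases hi : i ≤ X.dim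
    · have h0 : W.Eff (i + (X.dim - i)) φ := by rwa [Nat.add_sub_cancel' hi]
      have h1 := H.powL (X.dim - i) h0
      have h2 := H.powR (d := 0) i (by rwa [Nat.zero_add])
      obtain ⟨m, hm⟩ := eff_degree hP h2
      exact ⟨m, fun _ => by rw [hm, mul_assoc]⟩
    · exact ⟨0, fun h => absurd h hi⟩
  choose d hd using key
  exact ⟨d, hd⟩

section

variable {F : Mor X X} {q : K}

theorem phiR_pow (hη' : W.pull F ξ' = q • ξ') (t n : ℕ) :
    (W.pull (phiR F))^[t] ((W.dL ξ + W.dR ξ') ^ n) =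
      ((1 : K) • W.dL ξ + q ^ t • W.dR ξ') ^ n := by
  induction t with
  | zero => rw [pow_zero, one_smul, one_smul]; rfl
  | succ t ih =>
    rw [Function.iterate_succ_apply', ih, map_pow, map_add, map_smul, map_smul]
    unfold dL dR
    rw [W.phiR_fst, W.phiR_snd, hη', map_smul, smul_smul, ← pow_succ]

theorem phiL_pow (hη : W.pull F ξ = q • ξ) (t n : ℕ) :
    (W.pull (phiL F))^[t] ((W.dL ξ + W.dR ξ') ^ n) =
      (q ^ t • W.dL ξ + (1 : K) • W.dR ξ') ^ n := by
  induction t with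
  | zero => rw [pow_zero, one_smul, one_smul]; rfl
  | succ t ih =>
    rw [Function.iterate_succ_apply', ih, map_pow, map_add, map_smul, map_smul]
    unfold dL dR
    rw [W.phiL_fst, W.phiL_snd, hη, map_smul, smul_smul, ← pow_succ]

end

variable [CharZero K]

/-- The growth of the intersection numbers of an effective class with the transforms of a fixed
prime cycle by the powers of Frobenius. -/
theorem em_bound (hP : W.HasPositivity) (H : W.SplitPos ξ ξ') {q : ℕ} (hq : q ≠ 0) {F : Mor X X}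
    (hF : W.Deg F ((q : K) ^ X.dim)) (hη : W.pull F ξ = (q : K) • ξ)
    (hη' : W.pull F ξ' = (q : K) • ξ') {E : Sub (X.prod X)}
    (hE : E.dim = X.dim) (hs : W.Stable F ((q : K) ^ X.dim) (W.cl E)) :
    ∃ C : ℚ, 0 ≤ C ∧ ∀ φ : W.H (X.prod X), W.Eff X.dim φ → ∀ d, W.Degs ξ ξ' φ d → ∀ m : ℤ,
      ∃ c : ℚ, (c : K) = W.tr _ (φ * em hF (W.cl E) m) ∧
        |(c : ℝ)| ≤ C * dpoly X.dim d ((q : ℝ) ^ m) := by
  obtain ⟨C, hC, h⟩ := H.bounded E hE
  refine ⟨C, hC, ?_⟩
  intro φ hφ d hd m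
  have hq0 : (q : ℝ) ≠ 0 := Nat.cast_ne_zero.2 hq
  have hqK : (q : K) ≠ 0 := Nat.cast_ne_zero.2 hq
  obtain ⟨t, rfl | rfl⟩ := m.eq_nat_or_neg
  · obtain ⟨φ', hφ', h1⟩ := eff_push_iter hP (phiR F) hφ t
    obtain ⟨a, b, ha, hb, hab⟩ := h φ' hφ'
    refine ⟨a, by rw [ha, h1, phiR_iter hF], ?_⟩
    have hb' : b = ∑ i ∈ Finset.range (X.dim + 1),
        ((X.dim.choose i : ℚ) * d i) * ((q : ℚ) ^ t) ^ i := by
      have h2 : (b : K) = ∑ i ∈ Finset.range (X.dim + 1),
          ((X.dim.choose i : K) * d i) * ((q : K) ^ t) ^ i := by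
        rw [hb, h1, phiR_pow hη', W.tr_add_pow (W.dL_comm H.gr _)]
        refine Finset.sum_congr rfl fun i hi => ?_
        rw [hd i (by have := Finset.mem_range.1 hi; omega), one_pow]
        ring
      exact_mod_cast h2
    have h3 : |(a : ℝ)| ≤ C * b := by exact_mod_cast hab
    refine h3.trans (le_of_eq ?_)
    rw [hb', dpoly]
    push_cast
    rfl
  · obtain ⟨φ', hφ', h1⟩ := eff_push_iter hP (phiL F) hφ t
    obtain ⟨a, b, ha, hb, hab⟩ := h φ' hφ'
    have hqt : ((q : ℚ) ^ X.dim) ^ t ≠ 0 := pow_ne_zero _ (pow_ne_zero _ (Nat.cast_ne_zero.2 hq))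
    refine ⟨a / ((q : ℚ) ^ X.dim) ^ t, ?_, ?_⟩
    · have h2 := ha
      rw [h1, phiL_iter hF hs, mul_smul_comm, map_smul, smul_eq_mul] at h2
      push_cast
      rw [h2, mul_div_cancel_left₀ _ (pow_ne_zero _ (pow_ne_zero _ hqK))]
    have hb' : b = ((q : ℚ) ^ X.dim) ^ t * ∑ i ∈ Finset.range (X.dim + 1),
        ((X.dim.choose i : ℚ) * d i) * (((q : ℚ) ^ t)⁻¹) ^ i := by
      have h2 : (b : K) = ((q : K) ^ X.dim) ^ t * ∑ i ∈ Finset.range (X.dim + 1),
          ((X.dim.choose i : K) * d i) * (((q : K) ^ t)⁻¹) ^ i := by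
        rw [hb, h1, phiL_pow hη, W.tr_add_pow (W.dL_comm H.gr _), Finset.mul_sum]
        refine Finset.sum_congr rfl fun i hi => ?_
        have hi' : i ≤ X.dim := by have := Finset.mem_range.1 hi; omega
        rw [hd i hi', one_pow]
        have e : ((q : K) ^ X.dim) ^ t * (((q : K) ^ t)⁻¹) ^ i = ((q : K) ^ t) ^ (X.dim - i) := by
          rw [inv_pow, ← div_eq_mul_inv, div_eq_iff (pow_ne_zero _ (pow_ne_zero _ hqK)), ← pow_add,
            Nat.sub_add_cancel hi', ← pow_mul, ← pow_mul, Nat.mul_comm]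
        linear_combination (-(X.dim.choose i : K) *
          W.tr _ (φ * (W.dL ξ ^ (X.dim - i) * W.dR ξ' ^ i))) * e
      refine Rat.cast_injective (α := K) ?_
      rw [h2]
      push_cast
      rfl
    have h3 : |(a : ℝ)| ≤ C * b := by exact_mod_cast hab
    have hqr : (0 : ℝ) < ((q : ℝ) ^ X.dim) ^ t := by positivity
    push_cast
    rw [abs_div, abs_of_pos hqr, div_le_iff₀ hqr]
    refine h3.trans (le_of_eq ?_)
    rw [hb', dpoly, zpow_neg, zpow_natCast]
    push_cast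
    ring

end Weil

end Pool.Agent.Lib.MP_77d3c1_ag
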