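import Pool.Agent.Lib.MP_77d3c1_ag.Graph

/-!
# Products of maps to projective spaces (Segre maps)
-/

set_option autoImplicit false

open MvPolynomial

namespace Pool.Agent.Lib.MP_77d3c1_ag

universe u v w

variable {k : Type u} [Field k]

section

variable {κ σ : Type} {hκ : Finite κ} {hσ : Finite σ}

theorem over_of_par {u w : κ → k} {p : Pt k (.proj κ hκ)} (hu : Over (.proj κ hκ) u p)
    (hw : w ≠ 0) (h : ∀ i j, w i * u j = w j * u i) : Over (.proj κ hκ) w p := by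
  obtain ⟨h0, rfl⟩ := hu
  obtain ⟨t, ht⟩ := eq_smul_of_par h0 h
  exact ⟨hw, (Projectivization.mk_eq_mk_iff' k _ _ hw h0).2 ⟨t, ht.symm⟩⟩

theorem over_smul {u : κ → k} {p : Pt k (.proj κ hκ)} (hu : Over (.proj κ hκ) u p) {t : k}
    (ht : t ≠ 0) : Over (.proj κ hκ) (fun i => t * u i) p :=
  Scal.over (.proj κ hκ) _ _ _ ⟨t, ht, rfl⟩ hu

theorem exists_smul {u w : κ → k} {p : Pt k (.proj κ hκ)} (hu : Over (.proj κ hκ) u p)
    (hw : Over (.proj κ hκ) w p) : ∃ t : k, t ≠ 0 ∧ w = fun i => t * u i := by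
  obtain ⟨c, ⟨t, ht, rfl⟩, h⟩ := exists_scal (.proj κ hκ) u w p hu hw
  exact ⟨t, ht, h⟩

theorem tens_ne_zero {u : κ → k} {w : σ → k} (hu : u ≠ 0) (hw : w ≠ 0) :
    (fun ij : κ × σ => u ij.1 * w ij.2) ≠ 0 := by
  obtain ⟨i, hi⟩ := Function.ne_iff.1 hu
  obtain ⟨j, hj⟩ := Function.ne_iff.1 hw
  intro h
  exact mul_ne_zero hi hj (congrFun h (i, j))

theorem exists_tens (p : Pt k (.proj κ hκ)) (q : Pt k (.proj σ hσ)) :
    ∃ r : Pt k (.proj (κ × σ) inferInstance), ∀ (u : κ → k) (w : σ → k),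
      Over (.proj κ hκ) u p → Over (.proj σ hσ) w q →
        Over (.proj (κ × σ) inferInstance) (fun ij => u ij.1 * w ij.2) r := by
  obtain ⟨u₀, hu₀⟩ := exists_over (.proj κ hκ) p
  obtain ⟨w₀, hw₀⟩ := exists_over (.proj σ hσ) q
  have h0 := tens_ne_zero hu₀.1 hw₀.1
  refine ⟨Projectivization.mk k _ h0, ?_⟩
  intro u w hu hw
  obtain ⟨s, hs, rfl⟩ := exists_smul hu₀ hu
  obtain ⟨t, ht, rfl⟩ := exists_smul hw₀ hw
  refine ⟨tens_ne_zero hu.1 hw.1, ?_⟩
  refine (Projectivization.mk_eq_mk_iff' k _ _ _ _).2 ⟨s * t, ?_⟩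
  funext ij
  show s * t * (u₀ ij.1 * w₀ ij.2) = s * u₀ ij.1 * (t * w₀ ij.2)
  ring

/-- The Segre product of two points. -/
noncomputable def tens (p : Pt k (.proj κ hκ)) (q : Pt k (.proj σ hσ)) :
    Pt k (.proj (κ × σ) inferInstance) := (exists_tens p q).choose

theorem over_tens {p : Pt k (.proj κ hκ)} {q : Pt k (.proj σ hσ)} {u : κ → k} {w : σ → k}
    (hu : Over (.proj κ hκ) u p) (hw : Over (.proj σ hσ) w q) :
    Over (.proj (κ × σ) inferInstance) (fun ij => u ij.1 * w ij.2) (tens p q) :=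
  (exists_tens p q).choose_spec u w hu hw

theorem tens_inj {p p' : Pt k (.proj κ hκ)} {q q' : Pt k (.proj σ hσ)}
    (h : tens p q = tens p' q') : p = p' ∧ q = q' := by
  obtain ⟨u, hu⟩ := exists_over (.proj κ hκ) p
  obtain ⟨w, hw⟩ := exists_over (.proj σ hσ) q
  obtain ⟨u', hu'⟩ := exists_over (.proj κ hκ) p'
  obtain ⟨w', hw'⟩ := exists_over (.proj σ hσ) q'
  have h1 := over_tens hu hw
  have h2 := over_tens hu' hw'
  rw [← h] at h2
  obtain ⟨t, ht, h3⟩ := exists_smul h1 h2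
  have h4 : ∀ i j, u' i * w' j = t * (u i * w j) := fun i j => congrFun h3 (i, j)
  obtain ⟨i₀, hi₀⟩ := Function.ne_iff.1 hu'.1
  obtain ⟨j₀, hj₀⟩ := Function.ne_iff.1 hw'.1
  rw [Pi.zero_apply] at hi₀ hj₀
  constructor
  · refine (eq_of_par (.proj κ hκ) u' u p' p hu' hu ?_)
    intro i j _
    have e1 := h4 i j₀
    have e2 := h4 j j₀
    have h5 : t * w j₀ ≠ 0 := by
      intro h5
      have := h4 i₀ j₀
      rw [show t * (u i₀ * w j₀) = t * w j₀ * u i₀ by ring, h5, zero_mul] at this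
      exact mul_ne_zero hi₀ hj₀ this
    apply mul_left_cancel₀ (mul_ne_zero h5 hj₀)
    linear_combination (u' j * w' j₀) * (-e1) + (u' i * w' j₀) * e2
  · refine (eq_of_par (.proj σ hσ) w' w q' q hw' hw ?_)
    intro i j _
    have e1 := h4 i₀ i
    have e2 := h4 i₀ j
    have h5 : t * u i₀ ≠ 0 := by
      intro h5
      have := h4 i₀ j₀
      rw [show t * (u i₀ * w j₀) = t * u i₀ * w j₀ by ring, h5, zero_mul] at this
      exact mul_ne_zero hi₀ hj₀ this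
    apply mul_left_cancel₀ (mul_ne_zero h5 hi₀)
    linear_combination (u' i₀ * w' j) * (-e1) + (u' i₀ * w' i) * e2

theorem vert_tens {u a : κ → k} {w b : σ → k} (hu : u ≠ 0) (hw : w ≠ 0)
    (h : (fun ij : κ × σ => u ij.1 * b ij.2 + w ij.2 * a ij.1) ∈
      Submodule.span k {(fun ij : κ × σ => u ij.1 * w ij.2)}) :
    a ∈ Submodule.span k {u} ∧ b ∈ Submodule.span k {w} := by
  obtain ⟨t, ht⟩ := Submodule.mem_span_singleton.1 h
  have h4 : ∀ i j, t * (u i * w j) = u i * b j + w j * a i := fun i j => congrFun ht (i, j)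
  obtain ⟨i₀, hi₀⟩ := Function.ne_iff.1 hu
  obtain ⟨j₀, hj₀⟩ := Function.ne_iff.1 hw
  rw [Pi.zero_apply] at hi₀ hj₀
  constructor
  · obtain ⟨s, hs⟩ := eq_smul_of_par hu (w := a) (fun i j => by
      apply mul_left_cancel₀ hj₀
      linear_combination u i * h4 j j₀ - u j * h4 i j₀)
    exact Submodule.mem_span_singleton.2 ⟨s, hs.symm⟩
  · obtain ⟨s, hs⟩ := eq_smul_of_par hw (w := b) (fun i j => by
      apply mul_left_cancel₀ hi₀
      linear_combination w i * h4 i₀ j - w j * h4 i₀ i)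
    exact Submodule.mem_span_singleton.2 ⟨s, hs.symm⟩

variable {A : Amb} {S : Set (Pt k A)} {φ : S → Pt k (.proj κ hκ)} {ψ : S → Pt k (.proj σ hσ)}

theorem LocRep.tens {h h' : MvPolynomial A.Idx k} {Φ : κ → MvPolynomial A.Idx k}
    {Ψ : σ → MvPolynomial A.Idx k} (H : LocRep (B := .proj κ hκ) S φ h Φ)
    (H' : LocRep (B := .proj σ hσ) S ψ h' Ψ) :
    LocRep (B := .proj (κ × σ) inferInstance) S (fun p => MP_77d3c1_ag.tens (φ p) (ψ p)) (h * h')
      (fun ij : κ × σ => Φ ij.1 * Ψ ij.2) := by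
  intro q v hv hne
  rw [map_mul] at hne
  have h1 := H q v hv (left_ne_zero_of_mul hne)
  have h2 := H' q v hv (right_ne_zero_of_mul hne)
  have h3 := over_tens h1 h2
  have e : (fun ij : κ × σ => eval v (Φ ij.1 * Ψ ij.2)) =
      fun ij : κ × σ => eval v (Φ ij.1) * eval v (Ψ ij.2) := by
    funext ij
    rw [map_mul]
  exact (congrArg (fun f => Over (.proj (κ × σ) inferInstance) f _) e).mpr h3

theorem IsReg.tens (H : IsReg S φ) (H' : IsReg S ψ) :
    IsReg (B := .proj (κ × σ) inferInstance) S (fun p => MP_77d3c1_ag.tens (φ p) (ψ p)) := by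
  intro p
  obtain ⟨h, Φ, h1, h2⟩ := H p
  obtain ⟨h', Ψ, h1', h2'⟩ := H' p
  refine ⟨h * h', fun ij : κ × σ => Φ ij.1 * Ψ ij.2, ?_, h2.tens h2'⟩
  intro v hv
  rw [map_mul]
  exact mul_ne_zero (h1 v hv) (h1' v hv)

/-- The coordinate `i` does not vanish at `φ p`. -/
def NZ (φ : S → Pt k (.proj κ hκ)) (i : κ) (p : S) : Prop :=
  ∀ u : κ → k, Over (.proj κ hκ) u (φ p) → u i ≠ 0

theorem NZ.tens {i : κ} {j : σ} {p : S} (h : NZ φ i p) (h' : NZ ψ j p) :
    NZ (fun p => MP_77d3c1_ag.tens (φ p) (ψ p)) (i, j) p := by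
  intro w hw
  obtain ⟨u, hu⟩ := exists_over (.proj κ hκ) (φ p)
  obtain ⟨u', hu'⟩ := exists_over (.proj σ hσ) (ψ p)
  obtain ⟨t, ht, rfl⟩ := exists_smul (over_tens hu hu') hw
  exact mul_ne_zero ht (mul_ne_zero (h u hu) (h' u' hu'))

/-- The coordinate `i` vanishes at `φ p`. -/
def VZ (φ : S → Pt k (.proj κ hκ)) (i : κ) (p : S) : Prop :=
  ∀ u : κ → k, Over (.proj κ hκ) u (φ p) → u i = 0

theorem vz_iff {i : κ} {p : S} {u : κ → k} (hu : Over (.proj κ hκ) u (φ p)) :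
    VZ φ i p ↔ u i = 0 := by
  constructor
  · intro h
    exact h u hu
  · intro h w hw
    obtain ⟨t, ht, rfl⟩ := exists_smul hu hw
    show t * u i = 0
    rw [h, mul_zero]

theorem nz_iff {i : κ} {p : S} {u : κ → k} (hu : Over (.proj κ hκ) u (φ p)) :
    NZ φ i p ↔ u i ≠ 0 := by
  constructor
  · intro h
    exact h u hu
  · intro h w hw
    obtain ⟨t, ht, rfl⟩ := exists_smul hu hw
    exact mul_ne_zero ht h

theorem vz_tens {i : κ} {j : σ} {p : S} :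
    VZ (fun p => MP_77d3c1_ag.tens (φ p) (ψ p)) (i, j) p ↔ VZ φ i p ∨ VZ ψ j p := by
  obtain ⟨u, hu⟩ := exists_over (.proj κ hκ) (φ p)
  obtain ⟨u', hu'⟩ := exists_over (.proj σ hσ) (ψ p)
  rw [vz_iff (φ := fun p => MP_77d3c1_ag.tens (φ p) (ψ p)) (over_tens hu hu'), vz_iff hu,
    vz_iff hu']
  exact mul_eq_zero

/-- The coordinate `i` vanishes at `φ p`, and its differential does not vanish on the tangent
space of `S`. -/
def SZ (φ : S → Pt k (.proj κ hκ)) (i : κ) (p : S) : Prop :=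
  ∃ (h : MvPolynomial A.Idx k) (Ψ : κ → MvPolynomial A.Idx k) (v : A.Idx → k),
    Over A v p.1 ∧ eval v h ≠ 0 ∧ LocRep (B := .proj κ hκ) S φ h Ψ ∧ eval v (Ψ i) = 0 ∧
      ∃ w ∈ tang S v, dd (Ψ i) v w ≠ 0

theorem SZ.tens_left {i : κ} {j : σ} {p : S} (h : SZ φ i p) (hψ : IsReg S ψ) (h' : NZ ψ j p) :
    SZ (fun p => MP_77d3c1_ag.tens (φ p) (ψ p)) (i, j) p := by
  obtain ⟨h, Φ, v, hv, h0, h1, h2, w, hw, h3⟩ := h
  obtain ⟨g, Ψ, g1, g2⟩ := hψ p
  refine ⟨h * g, fun ij : κ × σ => Φ ij.1 * Ψ ij.2, v, hv, ?_, h1.tens g2, ?_, w, hw, ?_⟩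
  · rw [map_mul]
    exact mul_ne_zero h0 (g1 v hv)
  · rw [map_mul, h2, zero_mul]
  · rw [dd_mul, h2, zero_mul, zero_add]
    exact mul_ne_zero (h' _ (g2 p v hv (g1 v hv))) h3

theorem SZ.tens_right {i : κ} {j : σ} {p : S} (h : SZ ψ j p) (hφ : IsReg S φ) (h' : NZ φ i p) :
    SZ (fun p => MP_77d3c1_ag.tens (φ p) (ψ p)) (i, j) p := by
  obtain ⟨h, Ψ, v, hv, h0, h1, h2, w, hw, h3⟩ := h
  obtain ⟨g, Φ, g1, g2⟩ := hφ p
  refine ⟨g * h, fun ij : κ × σ => Φ ij.1 * Ψ ij.2, v, hv, ?_, g2.tens h1, ?_, w, hw, ?_⟩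
  · rw [map_mul]
    exact mul_ne_zero (g1 v hv) h0
  · rw [map_mul, h2, mul_zero]
  · rw [dd_mul, h2, zero_mul, add_zero]
    exact mul_ne_zero (h' _ (g2 p v hv (g1 v hv))) h3

end

/-- The Segre product of a closed embedding and a regular map is a closed embedding. -/
theorem IsEmb.tens {V : SPV k} {κ σ : Type} {hκ : Finite κ} {hσ : Finite σ}
    {φ : V.carrier → Pt k (.proj κ hκ)} {ψ : V.carrier → Pt k (.proj σ hσ)}
    (H : IsEmb V φ) (H' : IsReg V.carrier ψ) :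
    IsEmb V (B := .proj (κ × σ) inferInstance) (fun p => MP_77d3c1_ag.tens (φ p) (ψ p)) where
  inj := fun p q h => H.inj (tens_inj h).1
  imm := by
    intro p
    obtain ⟨h, Φ, h1, h2, h3⟩ := H.imm p
    obtain ⟨g, Ψ, g1, g2⟩ := H' p
    refine ⟨h * g, fun ij : κ × σ => Φ ij.1 * Ψ ij.2, ?_, h2.tens g2, ?_⟩
    · intro v hv
      rw [map_mul]
      exact mul_ne_zero (h1 v hv) (g1 v hv)
    · intro v hv w hw hmem
      apply h3 v hv w hw
      have e1 : (fun ij : κ × σ => dd (Φ ij.1 * Ψ ij.2) v w) = fun ij : κ × σ =>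
          (fun i => eval v (Φ i)) ij.1 * (fun j => dd (Ψ j) v w) ij.2 +
            (fun j => eval v (Ψ j)) ij.2 * (fun i => dd (Φ i) v w) ij.1 := by
        funext ij
        rw [dd_mul]
      have e2 : (fun ij : κ × σ => eval v (Φ ij.1 * Ψ ij.2)) = fun ij : κ × σ =>
          (fun i => eval v (Φ i)) ij.1 * (fun j => eval v (Ψ j)) ij.2 := by
        funext ij
        rw [map_mul]
      have hmem' : (fun ij : κ × σ => dd (Φ ij.1 * Ψ ij.2) v w) ∈
          Submodule.span k {(fun ij : κ × σ => eval v (Φ ij.1 * Ψ ij.2))} :=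
        (mem_vert (.proj (κ × σ) inferInstance) _ _).2 hmem
      rw [e1, e2] at hmem'
      refine (mem_vert (.proj κ hκ) _ _).1 ?_
      exact (vert_tens (u := fun i => eval v (Φ i)) (a := fun i => dd (Φ i) v w)
        (w := fun j => eval v (Ψ j)) (b := fun j => dd (Ψ j) v w)
        (h2 p v hv (h1 v hv)).1 (g2 p v hv (g1 v hv)).1 hmem').1

theorem IsEmb.reg {V : SPV k} {B : Amb} {φ : V.carrier → Pt k B} (H : IsEmb V φ) :
    IsReg V.carrier φ := by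
  intro p
  obtain ⟨h, Φ, h1, h2, _⟩ := H.imm p
  exact ⟨h, Φ, h1, h2⟩

end Pool.Agent.Lib.MP_77d3c1_ag
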