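import Pool.Agent.Lib.MP_77d3c1_ag.Fermat
import Pool.Agent.Lib.MP_77d3c1_ag.Tensor

/-!
# Maps between Fermat quintics, and the secant map
-/

set_option autoImplicit false

open MvPolynomial

namespace Pool.Agent.Lib.MP_77d3c1_ag

universe u v w

variable {k : Type u} [Field k] [CharP k 2] [IsAlgClosed k]

theorem ceq {v : Fin 3 → k} {p : (curve k).carrier} (hv : Over P2 v p.1) :
    v ≠ 0 ∧ v 0 ^ 5 + v 1 ^ 5 + v 2 ^ 5 = 0 := mem_cone_fset.1 ⟨p.1, p.2, hv⟩

/-- A point of the curve. -/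
noncomputable def mk3 (v : Fin 3 → k) (h0 : v ≠ 0) (h : v 0 ^ 5 + v 1 ^ 5 + v 2 ^ 5 = 0) :
    (curve k).carrier :=
  ⟨Projectivization.mk k v h0, by
    obtain ⟨q, hq, h1⟩ := mem_cone_fset.2 ⟨h0, h⟩
    have : q = Projectivization.mk k v h0 := over_unique P2 v q _ h1 ⟨h0, rfl⟩
    rw [← this]
    exact hq⟩

theorem over_mk3 (v : Fin 3 → k) (h0 : v ≠ 0) (h : v 0 ^ 5 + v 1 ^ 5 + v 2 ^ 5 = 0) :
    Over P2 v (mk3 v h0 h).1 := ⟨h0, rfl⟩

/-- Data of a morphism of the Fermat quintic given by polynomials. -/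
structure HomData (k : Type u) [Field k] where
  /-- the map on vectors -/
  T : (Fin 3 → k) → Fin 3 → k
  /-- the polynomials -/
  Φ : Fin 3 → MvPolynomial (Fin 3) k
  eval_Φ : ∀ v i, eval v (Φ i) = T v i
  /-- the degree -/
  m : ℕ
  hom : ∀ (t : k) (v : Fin 3 → k), T (fun i => t * v i) = fun i => t ^ m * T v i
  ne : ∀ v : Fin 3 → k, v ≠ 0 → T v ≠ 0
  eqn : ∀ v : Fin 3 → k, v 0 ^ 5 + v 1 ^ 5 + v 2 ^ 5 = 0 →
    T v 0 ^ 5 + T v 1 ^ 5 + T v 2 ^ 5 = 0

namespace HomData

theorem exists_image (D : HomData k) (p : (curve k).carrier) :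
    ∃ q : (curve k).carrier, ∀ v : Fin 3 → k, Over P2 v p.1 → Over P2 (D.T v) q.1 := by
  obtain ⟨v₀, hv₀⟩ := exists_over P2 p.1
  have h := ceq hv₀
  refine ⟨mk3 (D.T v₀) (D.ne _ h.1) (D.eqn _ h.2), ?_⟩
  intro v hv
  obtain ⟨t, ht, rfl⟩ := exists_smul hv₀ hv
  exact (congrArg (fun f => Over P2 f (mk3 (D.T v₀) (D.ne _ h.1) (D.eqn _ h.2)).1)
    (D.hom t v₀)).mpr (over_smul (over_mk3 _ _ _) (pow_ne_zero _ ht))

/-- The morphism. -/
noncomputable def mor (D : HomData k) : Mor (curve k) (curve k) where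
  fn p := (D.exists_image p).choose
  reg p := by
    refine ⟨1, D.Φ, fun v _ => by simp, ?_⟩
    intro q v hv _
    have := (D.exists_image q).choose_spec v hv
    have e : (fun i => eval v (D.Φ i)) = D.T v := by
      funext i
      exact D.eval_Φ v i
    exact (congrArg (fun f => Over P2 f _) e).mpr this

theorem over_fn (D : HomData k) {p : (curve k).carrier} {v : Fin 3 → k} (hv : Over P2 v p.1) :
    Over P2 (D.T v) (D.mor.fn p).1 := (D.exists_image p).choose_spec v hv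

omit [CharP k 2] [IsAlgClosed k] in
theorem eval_CΦ (D : HomData k) (t : k) (v : Fin 3 → k) :
    (fun i => eval v (C t * D.Φ i)) = fun i => t * D.T v i := by
  funext i
  rw [map_mul, eval_C, D.eval_Φ]

theorem locRep (D : HomData k) (t : k) (ht : t ≠ 0) :
    LocRep (A := P2) (B := P2) (curve k).carrier
      (fun p => ((D.mor.fn p : (curve k).carrier) : Pt k (curve k).amb)) 1
      (fun i => C t * D.Φ i) := by
  intro q v hv _
  exact (congrArg (fun f => Over P2 f (D.mor.fn q).1) (D.eval_CΦ t v)).mpr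
    (over_smul (D.over_fn hv) ht)

end HomData

/-- Multiplication of the coordinate `c` by a fifth root of unity. -/
noncomputable def diagData (c : Fin 3) (ζ : k) (hζ : ζ ^ 5 = 1) : HomData k where
  T v := fun i => if i = c then ζ * v i else v i
  Φ := fun i => if i = c then C ζ * X i else X i
  eval_Φ v i := by
    split_ifs <;> simp
  m := 1
  hom t v := by
    funext i
    split_ifs <;> ring
  ne v hv := by
    obtain ⟨i, hi⟩ := Function.ne_iff.1 hv
    refine Function.ne_iff.2 ⟨i, ?_⟩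
    have hζ0 : ζ ≠ 0 := by
      rintro rfl
      norm_num at hζ
    split_ifs
    · exact mul_ne_zero hζ0 hi
    · exact hi
  eqn v hv := by
    fin_cases c <;> simp [mul_pow, hζ, hv]

/-- The Frobenius morphism of degree sixteen. -/
noncomputable def frobData : HomData k where
  T v := fun i => v i ^ 16
  Φ := fun i => X i ^ 16
  eval_Φ v i := by simp
  m := 16
  hom t v := by
    funext i
    ring
  ne v hv := by
    obtain ⟨i, hi⟩ := Function.ne_iff.1 hv
    exact Function.ne_iff.2 ⟨i, pow_ne_zero _ hi⟩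
  eqn v hv := by
    have h : (v 0 ^ 5 + v 1 ^ 5 + v 2 ^ 5) ^ 16 =
        (v 0 ^ 16) ^ 5 + (v 1 ^ 16) ^ 5 + (v 2 ^ 16) ^ 5 := by
      have e := add_pow_char_pow (p := 2) (n := 4) (v 0 ^ 5 + v 1 ^ 5) (v 2 ^ 5)
      have e' := add_pow_char_pow (p := 2) (n := 4) (v 0 ^ 5) (v 1 ^ 5)
      norm_num at e e'
      rw [e, e']
      ring
    rw [← h, hv]
    norm_num

/-- The set of points of the graph of a polynomial morphism. -/
noncomputable def HomData.gr (D : HomData k) : Set (Pt k (.prod P2 P2)) :=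
  gset (A := P2) (B := P2) (S := fset k)
    (fun p => ((D.mor.fn p : (curve k).carrier) : Pt k (curve k).amb))

/-- The tangent space of the graph of a polynomial morphism. -/
theorem HomData.tang_gr (D : HomData k) {w : (Amb.prod P2 P2).Idx → k}
    (hw : w ∈ cone D.gr) : ∃ (t : k), t ≠ 0 ∧
      (fun i : Fin 3 => w (Amb.inr i)) = (fun i => t * D.T (fun j : Fin 3 => w (Amb.inl j)) i) ∧
      ∀ x ∈ tang D.gr w, ∃ s : k, (fun i : Fin 3 => x (Amb.inr i)) =
        fun i : Fin 3 => t * dd (D.Φ i) (fun j : Fin 3 => w (Amb.inl j))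
          (fun j : Fin 3 => x (Amb.inl j)) + s * w (Amb.inr i) := by
  obtain ⟨q, ⟨hq, hq2⟩, hw1, hw2⟩ := hw
  rw [hq2] at hw2
  obtain ⟨t, ht, h⟩ := exists_smul (D.over_fn (p := ⟨q.1, hq⟩) hw1) hw2
  refine ⟨t, ht, h, ?_⟩
  intro x hx
  have h1 := (mem_tang_gset (A := P2) (B := P2) (S := fset k) (p := ⟨q.1, hq⟩)
    (v := fun j => w (Amb.inl j)) (u := fun j => w (Amb.inr j)) hw1 (D.locRep t ht) (by simp)
    (by rw [h]; exact D.eval_CΦ t _) (fun j => x (Amb.inl j)) (fun j => x (Amb.inr j))).1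
    (by rw [Amb.elim_eta, Amb.elim_eta]; exact hx)
  obtain ⟨s, hs⟩ := Submodule.mem_span_singleton.1 h1.2
  refine ⟨s, ?_⟩
  funext i
  have h2 : s * w (Amb.inr i) = x (Amb.inr i) - dd (C t * D.Φ i)
      (fun j : Fin 3 => w (Amb.inl j)) (fun j : Fin 3 => x (Amb.inl j)) := congrFun hs i
  rw [dd_mul, dd_C, mul_zero, add_zero, eval_C] at h2
  rw [h2]
  ring

omit [IsAlgClosed k] in
theorem dd_frob (v a : Fin 3 → k) (i : Fin 3) : dd ((frobData (k := k)).Φ i) v a = 0 := by
  show dd (X i ^ 16) v a = 0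
  rw [dd_pow]
  have h : ((16 : ℕ) : k) = 0 := by
    have : (2 : k) = 0 := CharTwo.two_eq_zero
    push_cast
    linear_combination 8 * this
  rw [h, zero_mul, zero_mul]

omit [CharP k 2] [IsAlgClosed k] in
theorem dd_diag (c : Fin 3) (ζ : k) (hζ : ζ ^ 5 = 1) (v a : Fin 3 → k) (i : Fin 3) :
    dd ((diagData c ζ hζ).Φ i) v a = if i = c then ζ * a i else a i := by
  show dd (if i = c then C ζ * X i else X i) v a = _
  split_ifs <;> simp

/-- The graph of the Frobenius and the graphs of the diagonal automorphisms are transversal. -/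
theorem transversal (c : Fin 3) (ζ : k) (hζ : ζ ^ 5 = 1) :
    ∀ w ∈ cone ((frobData (k := k)).gr ∩ (diagData c ζ hζ).gr),
      tang (frobData (k := k)).gr w ⊓ tang (diagData c ζ hζ).gr w ≤ Vert (.prod P2 P2) w := by
  rintro w ⟨q, ⟨hq1, hq2⟩, hw⟩ x ⟨hx1, hx2⟩
  obtain ⟨t, ht, e1, h1⟩ := HomData.tang_gr _ ⟨q, hq1, hw⟩
  obtain ⟨t', ht', e2, h2⟩ := HomData.tang_gr _ ⟨q, hq2, hw⟩
  obtain ⟨s, hs⟩ := h1 x hx1
  obtain ⟨s', hs'⟩ := h2 x hx2
  have hζ0 : ζ ≠ 0 := by
    rintro rfl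
    norm_num at hζ
  simp only [dd_frob, mul_zero, zero_add] at hs
  constructor
  · refine Submodule.mem_span_singleton.2 ⟨s - s', ?_⟩
    have key : ∀ i : Fin 3, (s - s') * w (Amb.inl i) = x (Amb.inl i) := ?_
    · exact funext key
    intro i
    have a1 := congrFun hs i
    have a2 := congrFun hs' i
    have a3 := congrFun e2 i
    rw [dd_diag] at a2
    have a4 : (diagData c ζ hζ).T (fun j : Fin 3 => w (Amb.inl j)) i =
      if i = c then ζ * w (Amb.inl i) else w (Amb.inl i) := rfl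
    rw [a4] at a3
    split_ifs at a2 a3 with hc
    · apply mul_left_cancel₀ (mul_ne_zero ht' hζ0)
      linear_combination a2 - a1 - (s - s') * a3
    · apply mul_left_cancel₀ ht'
      linear_combination a2 - a1 - (s - s') * a3
  · refine Submodule.mem_span_singleton.2 ⟨s, ?_⟩
    exact hs.symm

end Pool.Agent.Lib.MP_77d3c1_ag
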