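import Pool.Agent.Lib.MP_77d3c1_ag.TraceF

/-!
# Frobenius acting on correspondences
-/

set_option autoImplicit false

open Polynomial

namespace Pool.Agent.Lib.MP_77d3c1_ag

universe u v w

variable {k : Type u} [Field k] {K : Type v} [Field K] {X : SPV k}

theorem commute_aeval {A : Type*} [Ring A] [Algebra K A] {a b : A} (h : Commute a b) (g : K[X]) :
    Commute (aeval a g) b := by
  induction g using Polynomial.induction_on' with
  | add p q hp hq => rw [map_add]; exact hp.add_left hq
  | monomial n c =>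
    rw [aeval_monomial]
    exact Commute.mul_left (Algebra.commutes c b) (h.pow_left n)

/-- `F × id` -/
noncomputable def phiL (F : Mor X X) : Mor (X.prod X) (X.prod X) :=
  Mor.pair (F.comp (Mor.fst X X)) (Mor.snd X X)

/-- `id × F` -/
noncomputable def phiR (F : Mor X X) : Mor (X.prod X) (X.prod X) :=
  Mor.pair (Mor.fst X X) (F.comp (Mor.snd X X))

/-- `F × F` -/
noncomputable def phiLR (F : Mor X X) : Mor (X.prod X) (X.prod X) :=
  Mor.pair (F.comp (Mor.fst X X)) (F.comp (Mor.snd X X))

namespace Weil

variable (W : Weil.{u, v, w} k K) (F : Mor X X)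

theorem phiL_fst (a : W.H X) : W.pull (phiL F) (W.pull (Mor.fst X X) a) =
    W.pull (Mor.fst X X) (W.pull F a) := by
  rw [← W.pull_comp, ← W.pull_comp]; rfl

theorem phiL_snd (a : W.H X) : W.pull (phiL F) (W.pull (Mor.snd X X) a) =
    W.pull (Mor.snd X X) a := by
  rw [← W.pull_comp]; rfl

theorem phiR_fst (a : W.H X) : W.pull (phiR F) (W.pull (Mor.fst X X) a) =
    W.pull (Mor.fst X X) a := by
  rw [← W.pull_comp]; rfl

theorem phiR_snd (a : W.H X) : W.pull (phiR F) (W.pull (Mor.snd X X) a) =
    W.pull (Mor.snd X X) (W.pull F a) := by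
  rw [← W.pull_comp, ← W.pull_comp]; rfl

theorem phiLR_fst (a : W.H X) : W.pull (phiLR F) (W.pull (Mor.fst X X) a) =
    W.pull (Mor.fst X X) (W.pull F a) := by
  rw [← W.pull_comp, ← W.pull_comp]; rfl

theorem phiLR_snd (a : W.H X) : W.pull (phiLR F) (W.pull (Mor.snd X X) a) =
    W.pull (Mor.snd X X) (W.pull F a) := by
  rw [← W.pull_comp, ← W.pull_comp]; rfl

theorem phiLR_eq (z : W.H (X.prod X)) :
    W.pull (phiLR F) z = W.pull (phiL F) (W.pull (phiR F) z) := by
  rw [← W.pull_comp]; rfl

theorem phiLR_eq' (z : W.H (X.prod X)) :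
    W.pull (phiLR F) z = W.pull (phiR F) (W.pull (phiL F) z) := by
  rw [← W.pull_comp]; rfl

/-- `F` multiplies the traces by the non-zero scalar `Q`. -/
structure Deg (Q : K) : Prop where
  ne : Q ≠ 0
  tr : ∀ x : W.H X, W.tr X (W.pull F x) = Q * W.tr X x

/-- The direct image of `z` by `F × F` is `Q z`. -/
def Stable (Q : K) (z : W.H (X.prod X)) : Prop :=
  ∀ y, W.tr _ (z * W.pull (phiLR F) y) = Q * W.tr _ (z * y)

variable {W F} {Q : K} (hF : W.Deg F Q)

include hF in
theorem tr_phiL (z : W.H (X.prod X)) : W.tr _ (W.pull (phiL F) z) = Q * W.tr _ z := by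
  refine W.kunneth_induction (P := fun z => W.tr _ (W.pull (phiL F) z) = Q * W.tr _ z) z ?_ ?_ ?_
  · intro i j a _ b _
    rw [map_mul, W.phiL_fst, W.phiL_snd, W.tr_prod, W.tr_prod, hF.tr, mul_assoc]
  · simp
  · intro x y hx hy
    rw [map_add, map_add, hx, hy, map_add, mul_add]

include hF in
theorem tr_phiR (z : W.H (X.prod X)) : W.tr _ (W.pull (phiR F) z) = Q * W.tr _ z := by
  refine W.kunneth_induction (P := fun z => W.tr _ (W.pull (phiR F) z) = Q * W.tr _ z) z ?_ ?_ ?_
  · intro i j a _ b _
    rw [map_mul, W.phiR_fst, W.phiR_snd, W.tr_prod, W.tr_prod, hF.tr]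
    ring
  · simp
  · intro x y hx hy
    rw [map_add, map_add, hx, hy, map_add, mul_add]

theorem injective_of_tr {V : SPV k} {G : Mor V V} (hQ : Q ≠ 0)
    (h : ∀ x, W.tr V (W.pull G x) = Q * W.tr V x) : Function.Injective (W.pull G) := by
  rw [injective_iff_map_eq_zero]
  intro x hx
  apply W.duality
  intro y
  have := h (x * y)
  rw [map_mul, hx, zero_mul, map_zero] at this
  exact (mul_eq_zero.1 this.symm).resolve_left hQ

theorem bijective_of_tr {V : SPV k} {G : Mor V V} (hQ : Q ≠ 0)
    (h : ∀ x, W.tr V (W.pull G x) = Q * W.tr V x) : Function.Bijective (W.pull G) := by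
  have := W.finite V
  have h1 := injective_of_tr hQ h
  exact ⟨h1, (LinearMap.injective_iff_surjective (f := (W.pull G).toLinearMap)).1 h1⟩

include hF in
theorem bij_F : Function.Bijective (W.pull F) := bijective_of_tr hF.ne hF.tr

include hF in
theorem bij_R : Function.Bijective (W.pull (phiR F)) := bijective_of_tr hF.ne (tr_phiR hF)

include hF in
theorem bij_L : Function.Bijective (W.pull (phiL F)) := bijective_of_tr hF.ne (tr_phiL hF)

include hF in
theorem commute_bop {e : ℕ} (he : Even e) {z : W.H (X.prod X)} (hz : z ∈ W.gr _ e)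
    (hs : W.Stable F Q z) : Commute ((W.pull F).toLinearMap : Module.End K (W.H X)) (W.bop X z) := by
  apply LinearMap.ext
  intro w
  show W.pull F (W.bop X z w) = W.bop X z (W.pull F w)
  apply W.ext_tr
  intro u
  obtain ⟨u, rfl⟩ := (bij_F hF).2 u
  rw [← map_mul, hF.tr, tr_bop W he hz, tr_bop W he hz, ← hs, map_mul (W.pull (phiLR F)),
    W.phiLR_fst, W.phiLR_snd]

include hF in
theorem commute_op {e : ℕ} (he : Even e) {z : W.H (X.prod X)} (hz : z ∈ W.gr _ e)
    (hs : W.Stable F Q z) : Commute ((W.pull F).toLinearMap : Module.End K (W.H X)) (W.op X z) := by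
  apply LinearMap.ext
  intro w
  show W.pull F (W.op X z w) = W.op X z (W.pull F w)
  apply W.ext_tr
  intro u
  obtain ⟨u, rfl⟩ := (bij_F hF).2 u
  rw [← map_mul, hF.tr, tr_op W he hz, tr_op W he hz, ← hs, map_mul (W.pull (phiLR F)),
    W.phiLR_fst, W.phiLR_snd]

variable (W F) in
theorem op_phiR (y : W.H (X.prod X)) :
    W.op X (W.pull (phiR F) y) = (W.pull F).toLinearMap * W.op X y := by
  refine W.kunneth_induction (P := fun y => W.op X (W.pull (phiR F) y) =
    (W.pull F).toLinearMap * W.op X y) y ?_ ?_ ?_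
  · intro i j a _ b _
    apply LinearMap.ext
    intro w
    rw [map_mul, W.phiR_fst, W.phiR_snd, W.op_apply]
    show _ = W.pull F (W.op X _ w)
    rw [W.op_apply, map_smul]
  · simp
  · intro x y hx hy
    rw [map_add, map_add, hx, hy, map_add, mul_add]

variable (W F) in
/-- The operator `(id × F)^*`. -/
noncomputable def T : Module.End K (W.H (X.prod X)) := (W.pull (phiR F)).toLinearMap

variable (W F) in
/-- The operator `F^*`. -/
noncomputable def FS : Module.End K (W.H X) := (W.pull F).toLinearMap

variable (W F) in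
theorem op_aeval (g : K[X]) (y : W.H (X.prod X)) :
    W.op X (aeval (W.T F) g y) = aeval (W.FS F) g * W.op X y := by
  induction g using Polynomial.induction_on' with
  | add p q hp hq =>
    rw [map_add, LinearMap.add_apply, map_add, hp, hq, map_add, add_mul]
  | monomial n a =>
    induction n generalizing y with
    | zero =>
      rw [monomial_zero_left, aeval_C, aeval_C, Algebra.algebraMap_eq_smul_one,
        Algebra.algebraMap_eq_smul_one, LinearMap.smul_apply, map_smul, smul_mul_assoc, one_mul]
      rfl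
    | succ n ih =>
      have e : (monomial (n + 1) a : K[X]) = monomial n a * Polynomial.X := by
        rw [monomial_mul_X]
      rw [e, map_mul, map_mul, aeval_X, aeval_X]
      show W.op X (aeval (W.T F) (monomial n a) (W.T F y)) = _
      rw [ih]
      have e2 : W.op X (W.T F y) = W.FS F * W.op X y := op_phiR W F y
      rw [e2, mul_assoc]

theorem phiR_gr {e : ℕ} {y : W.H (X.prod X)} (hy : y ∈ W.gr _ e) : W.T F y ∈ W.gr _ e :=
  W.pull_gr _ _ _ hy

theorem aeval_gr {e : ℕ} {y : W.H (X.prod X)} (hy : y ∈ W.gr _ e) (g : K[X]) :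
    aeval (W.T F) g y ∈ W.gr _ e := by
  induction g using Polynomial.induction_on' with
  | add p q hp hq =>
    rw [map_add, LinearMap.add_apply]
    exact Submodule.add_mem _ hp hq
  | monomial n a =>
    induction n generalizing y with
    | zero =>
      rw [monomial_zero_left, aeval_C, Algebra.algebraMap_eq_smul_one, LinearMap.smul_apply]
      exact Submodule.smul_mem _ _ hy
    | succ n ih =>
      have e : (monomial (n + 1) a : K[X]) = monomial n a * Polynomial.X := by
        rw [monomial_mul_X]
      rw [e, map_mul, aeval_X]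
      exact ih (phiR_gr hy)

include hF in
/-- The key vanishing statement (an argument of Jannsen). -/
theorem tr_vanish {e e' : ℕ} (he : Even e) (he' : Even e') {z y : W.H (X.prod X)}
    (hz : z ∈ W.gr _ e') (hs : W.Stable F Q z) (hy : y ∈ W.gr _ e)
    (hc : Commute (W.FS F) (W.op X y)) {g : K[X]} (hg : IsNilpotent (aeval (W.FS F) g)) :
    W.tr _ (z * aeval (W.T F) g y) = 0 := by
  have := W.finite X
  rw [trace_formula W he z (aeval_gr hy g), op_aeval, ← mul_assoc]
  have h1 : Commute (aeval (W.FS F) g) (W.bop X z) := by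
    have h := commute_bop hF he' hz hs
    exact (commute_aeval h g)
  have h2 : Commute (aeval (W.FS F) g) (W.op X y) := commute_aeval hc g
  rw [← h1.eq, mul_assoc]
  have h3 : Commute (aeval (W.FS F) g) (W.bop X z * W.op X y) := h1.mul_right h2
  exact (LinearMap.isNilpotent_trace_of_isNilpotent (h3.isNilpotent_mul_right hg)).eq_zero

end Weil

end Pool.Agent.Lib.MP_77d3c1_ag
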