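import Pool.Agent.Lib.MP_77d3c1_ag.Tensor

/-!
# Products of very ample divisors
-/

set_option autoImplicit false

open MvPolynomial

namespace Pool.Agent.Lib.MP_77d3c1_ag

universe u v w

variable {k : Type u} [Field k]

section closed

variable {A : Amb}

theorem IsCl.union {S S' : Set (Pt k A)} (h : IsCl S) (h' : IsCl S') : IsCl (S ∪ S') := by
  obtain ⟨T, rfl⟩ := h
  obtain ⟨T', rfl⟩ := h'
  refine ⟨{f | ∃ g ∈ T, ∃ g' ∈ T', ∃ c c', Scal A c ∧ Scal A c' ∧
    f = bind₁ (fun i => C (c i) * X i) g * bind₁ (fun i => C (c' i) * X i) g'}, ?_⟩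
  have hb : ∀ (g : MvPolynomial A.Idx k) (c v : A.Idx → k),
      eval v (bind₁ (fun i => C (c i) * X i) g) = eval (fun i => c i * v i) g := by
    intro g c v
    rw [eval_bind]
    simp
  ext x
  constructor
  · rintro (hx | hx) f ⟨g, hg, g', hg', c, c', hc, hc', rfl⟩ v hv
    · rw [map_mul, hb, hx g hg _ (hc.over A c v x hv), zero_mul]
    · rw [map_mul, hb, hb, hx g' hg' _ (hc'.over A c' v x hv), mul_zero]
  · intro hx
    by_contra hcon
    rw [Set.mem_union, not_or] at hcon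
    obtain ⟨h1, h2⟩ := hcon
    obtain ⟨v, hv⟩ := exists_over A x
    have h1' : ∃ g ∈ T, ∃ c, Scal A c ∧ eval (fun i => c i * v i) g ≠ 0 := by
      by_contra h
      push Not at h
      apply h1
      intro g hg w hw
      obtain ⟨c, hc, rfl⟩ := exists_scal A v w x hv hw
      exact h g hg c hc
    have h2' : ∃ g ∈ T', ∃ c, Scal A c ∧ eval (fun i => c i * v i) g ≠ 0 := by
      by_contra h
      push Not at h
      apply h2
      intro g hg w hw
      obtain ⟨c, hc, rfl⟩ := exists_scal A v w x hv hw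
      exact h g hg c hc
    obtain ⟨g, hg, c, hc, h3⟩ := h1'
    obtain ⟨g', hg', c', hc', h4⟩ := h2'
    have := hx _ ⟨g, hg, g', hg', c, c', hc, hc', rfl⟩ v hv
    rw [map_mul, hb, hb] at this
    exact mul_ne_zero h3 h4 this

theorem isCl_empty : IsCl (∅ : Set (Pt k A)) := by
  refine ⟨{1}, ?_⟩
  ext x
  constructor
  · intro hx; exact absurd hx (Set.notMem_empty x)
  · intro hx
    obtain ⟨v, hv⟩ := exists_over A x
    have := hx 1 rfl v hv
    rw [map_one] at this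
    exact absurd this one_ne_zero

theorem isCl_biUnion {ι : Type} (s : Finset ι) {S : ι → Set (Pt k A)}
    (h : ∀ i, IsCl (S i)) : IsCl (⋃ i ∈ s, S i) := by
  classical
  induction s using Finset.induction_on with
  | empty => simpa using isCl_empty
  | insert i s _ ih =>
    rw [Finset.set_biUnion_insert]
    exact (h i).union ih

theorem IsIrr.mem_of_biUnion {ι : Type} (s : Finset ι) {S : ι → Set (Pt k A)} {Z : Set (Pt k A)}
    (hZ : IsIrr Z) (h : ∀ i, IsCl (S i)) (hs : Z ⊆ ⋃ i ∈ s, S i) : ∃ i ∈ s, Z ⊆ S i := by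
  classical
  induction s using Finset.induction_on with
  | empty =>
    obtain ⟨z, hz⟩ := hZ.1
    have := hs hz
    simp at this
  | insert i s _ ih =>
    rw [Finset.set_biUnion_insert] at hs
    rcases hZ.2 _ _ (h i) (isCl_biUnion s h) hs with h1 | h1
    · exact ⟨i, Finset.mem_insert_self _ _, h1⟩
    · obtain ⟨j, hj, h2⟩ := ih h1
      exact ⟨j, Finset.mem_insert_of_mem hj, h2⟩

end closed

section

variable {A B : Amb} {S : Set (Pt k A)} {S' : Set (Pt k B)} {κ σ : Type} {hκ : Finite κ}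
  {hσ : Finite σ} {φ : S → Pt k (.proj κ hκ)} {ψ : S' → Pt k (.proj σ hσ)}

/-- The composition with the first projection. -/
def viaL (S' : Set (Pt k B)) (φ : S → Pt k (.proj κ hκ)) (p : pset S S') : Pt k (.proj κ hκ) :=
  φ ⟨p.1.1, p.2.1⟩

/-- The composition with the second projection. -/
def viaR (S : Set (Pt k A)) (ψ : S' → Pt k (.proj σ hσ)) (p : pset S S') : Pt k (.proj σ hσ) :=
  ψ ⟨p.1.2, p.2.2⟩

theorem LocRep.viaL {h : MvPolynomial A.Idx k} {Φ : κ → MvPolynomial A.Idx k}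
    (H : LocRep (B := .proj κ hκ) S φ h Φ) :
    LocRep (A := .prod A B) (B := .proj κ hκ) (pset S S') (MP_77d3c1_ag.viaL S' φ) (incL h)
      (fun i => incL (Φ i)) := by
  intro q v hv hne
  rw [eval_incL] at hne
  have h1 := H ⟨q.1.1, q.2.1⟩ _ hv.1 hne
  have e : (fun i => eval v (incL (Φ i) : MvPolynomial (Amb.prod A B).Idx k)) =
      fun i => eval (fun i => v (Amb.inl i)) (Φ i) := by
    funext i
    exact eval_incL _ _
  exact (congrArg (fun f => Over (.proj κ hκ) f _) e).mpr h1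

theorem LocRep.viaR {h : MvPolynomial B.Idx k} {Ψ : σ → MvPolynomial B.Idx k}
    (H : LocRep (B := .proj σ hσ) S' ψ h Ψ) :
    LocRep (A := .prod A B) (B := .proj σ hσ) (pset S S') (MP_77d3c1_ag.viaR S ψ) (incR h)
      (fun i => incR (Ψ i)) := by
  intro q v hv hne
  rw [eval_incR] at hne
  have h1 := H ⟨q.1.2, q.2.2⟩ _ hv.2 hne
  have e : (fun i => eval v (incR (Ψ i) : MvPolynomial (Amb.prod A B).Idx k)) =
      fun i => eval (fun i => v (Amb.inr i)) (Ψ i) := by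
    funext i
    exact eval_incR _ _
  exact (congrArg (fun f => Over (.proj σ hσ) f _) e).mpr h1

/-- The Segre product of two maps. -/
noncomputable def box (φ : S → Pt k (.proj κ hκ)) (ψ : S' → Pt k (.proj σ hσ))
    (p : pset S S') : Pt k (.proj (κ × σ) inferInstance) :=
  tens (viaL S' φ p) (viaR S ψ p)

theorem LocRep.box {h : MvPolynomial A.Idx k} {Φ : κ → MvPolynomial A.Idx k}
    (H : LocRep (B := .proj κ hκ) S φ h Φ) {g : MvPolynomial B.Idx k}
    {Ψ : σ → MvPolynomial B.Idx k} (H' : LocRep (B := .proj σ hσ) S' ψ g Ψ) :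
    LocRep (A := .prod A B) (B := .proj (κ × σ) inferInstance) (pset S S')
      (MP_77d3c1_ag.box φ ψ) (incL h * incR g) (fun ij : κ × σ => incL (Φ ij.1) * incR (Ψ ij.2)) :=
  LocRep.tens (A := .prod A B) (S := pset S S') (φ := MP_77d3c1_ag.viaL S' φ)
    (ψ := MP_77d3c1_ag.viaR S ψ) (h := incL h) (h' := incR g) (Φ := fun i => incL (Φ i))
    (Ψ := fun i => incR (Ψ i)) H.viaL H'.viaR

theorem box_e1 (Φ : κ → MvPolynomial A.Idx k) (Ψ : σ → MvPolynomial B.Idx k)
    (v w : (Amb.prod A B).Idx → k) :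
    (fun ij : κ × σ => dd (incL (Φ ij.1) * incR (Ψ ij.2) :
        MvPolynomial (Amb.prod A B).Idx k) v w) = fun ij : κ × σ =>
      (fun i => eval (fun i => v (Amb.inl i)) (Φ i)) ij.1 *
        (fun j => dd (Ψ j) (fun i => v (Amb.inr i)) (fun i => w (Amb.inr i))) ij.2 +
      (fun j => eval (fun i => v (Amb.inr i)) (Ψ j)) ij.2 *
        (fun i => dd (Φ i) (fun i => v (Amb.inl i)) (fun i => w (Amb.inl i))) ij.1 := by
  funext ij
  rw [dd_mul, eval_incL, eval_incR, dd_incL, dd_incR]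

theorem box_e2 (Φ : κ → MvPolynomial A.Idx k) (Ψ : σ → MvPolynomial B.Idx k)
    (v : (Amb.prod A B).Idx → k) :
    (fun ij : κ × σ => eval v (incL (Φ ij.1) * incR (Ψ ij.2) :
        MvPolynomial (Amb.prod A B).Idx k)) = fun ij : κ × σ =>
      (fun i => eval (fun i => v (Amb.inl i)) (Φ i)) ij.1 *
        (fun j => eval (fun i => v (Amb.inr i)) (Ψ j)) ij.2 := by
  funext ij
  rw [map_mul, eval_incL, eval_incR]

theorem box_imm (p : pset S S')
    (H : ∃ (h : MvPolynomial A.Idx k) (Φ : κ → MvPolynomial A.Idx k),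
      (∀ v, Over A v p.1.1 → eval v h ≠ 0) ∧ LocRep (B := .proj κ hκ) S φ h Φ ∧
        ∀ v, Over A v p.1.1 → ∀ w, IsTang S v w →
          Radial (.proj κ hκ) (fun i => eval v (Φ i)) (fun i => dd (Φ i) v w) → Radial A v w)
    (H' : ∃ (h : MvPolynomial B.Idx k) (Ψ : σ → MvPolynomial B.Idx k),
      (∀ v, Over B v p.1.2 → eval v h ≠ 0) ∧ LocRep (B := .proj σ hσ) S' ψ h Ψ ∧
        ∀ v, Over B v p.1.2 → ∀ w, IsTang S' v w →
          Radial (.proj σ hσ) (fun i => eval v (Ψ i)) (fun i => dd (Ψ i) v w) → Radial B v w) :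
    ∃ (h : MvPolynomial (Amb.prod A B).Idx k) (Ψ : κ × σ → MvPolynomial (Amb.prod A B).Idx k),
      (∀ v, Over (.prod A B) v p.1 → eval v h ≠ 0) ∧
      LocRep (A := .prod A B) (B := .proj (κ × σ) inferInstance) (pset S S')
        (MP_77d3c1_ag.box φ ψ) h Ψ ∧
        ∀ v, Over (.prod A B) v p.1 → ∀ w, IsTang (A := .prod A B) (pset S S') v w →
          Radial (.proj (κ × σ) inferInstance) (fun i => eval v (Ψ i)) (fun i => dd (Ψ i) v w) →
            Radial (.prod A B) v w := by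
  obtain ⟨h, Φ, h1, h2, h3⟩ := H
  obtain ⟨g, Ψ, g1, g2, g3⟩ := H'
  refine ⟨incL h * incR g, fun ij : κ × σ => incL (Φ ij.1) * incR (Ψ ij.2), ?_,
    h2.box g2, ?_⟩
  · intro v hv
    rw [map_mul, eval_incL, eval_incR]
    exact mul_ne_zero (h1 _ hv.1) (g1 _ hv.2)
  · intro v hv w hw hmem
    have hw' := (tang_pset (S := S) (S' := S') (v := v) ⟨p.1, p.2, hv⟩ w).1 hw
    have hmem' : (fun ij : κ × σ => dd (incL (Φ ij.1) * incR (Ψ ij.2) :
          MvPolynomial (Amb.prod A B).Idx k) v w) ∈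
        Submodule.span k {(fun ij : κ × σ => eval v (incL (Φ ij.1) * incR (Ψ ij.2) :
          MvPolynomial (Amb.prod A B).Idx k))} :=
      (mem_vert (.proj (κ × σ) inferInstance) _ _).2 hmem
    rw [box_e1, box_e2] at hmem'
    have key := vert_tens (u := fun i => eval (fun i => v (Amb.inl i)) (Φ i))
      (a := fun i => dd (Φ i) (fun i => v (Amb.inl i)) (fun i => w (Amb.inl i)))
      (w := fun j => eval (fun i => v (Amb.inr i)) (Ψ j))
      (b := fun j => dd (Ψ j) (fun i => v (Amb.inr i)) (fun i => w (Amb.inr i)))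
      (h2 ⟨p.1.1, p.2.1⟩ _ hv.1 (h1 _ hv.1)).1
      (g2 ⟨p.1.2, p.2.2⟩ _ hv.2 (g1 _ hv.2)).1 hmem'
    exact ⟨h3 _ hv.1 _ hw'.1 ((mem_vert (.proj κ hκ) _ _).1 key.1),
      g3 _ hv.2 _ hw'.2 ((mem_vert (.proj σ hσ) _ _).1 key.2)⟩

omit hκ in
theorem ell_smul (ℓ : (κ → k) →ₗ[k] k) (t : k) (u : κ → k) :
    ℓ (fun i => t * u i) = t * ℓ u := by
  have : (fun i => t * u i) = t • u := rfl
  rw [this, map_smul, smul_eq_mul]

/-- The product of two linear forms. -/
noncomputable def lprod (ℓ : (κ → k) →ₗ[k] k) (ℓ' : (σ → k) →ₗ[k] k) : (κ × σ → k) →ₗ[k] k :=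
  ℓ ∘ₗ LinearMap.pi (fun i => ℓ' ∘ₗ LinearMap.funLeft k k (fun j => (i, j)))

theorem lprod_apply (ℓ : (κ → k) →ₗ[k] k) (ℓ' : (σ → k) →ₗ[k] k) (u : κ → k) (w : σ → k) :
    lprod ℓ ℓ' (fun ij => u ij.1 * w ij.2) = ℓ u * ℓ' w := by
  show ℓ (fun i => ℓ' (fun j => u i * w j)) = _
  have e : (fun i => ℓ' (fun j => u i * w j)) = ℓ' w • u := by
    funext i
    have : (fun j => u i * w j) = u i • w := rfl
    rw [this, map_smul, smul_eq_mul, Pi.smul_apply, smul_eq_mul, mul_comm]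
  rw [e, map_smul, smul_eq_mul, mul_comm]

/-- The zeros of a product of linear forms. -/
theorem box_zero (ℓ : (κ → k) →ₗ[k] k) (ℓ' : (σ → k) →ₗ[k] k) (p : pset S S') :
    (∀ z : κ × σ → k, Over (.proj (κ × σ) inferInstance) z (box φ ψ p) → lprod ℓ ℓ' z = 0) ↔
      (∀ u : κ → k, Over (.proj κ hκ) u (φ ⟨p.1.1, p.2.1⟩) → ℓ u = 0) ∨
      (∀ u : σ → k, Over (.proj σ hσ) u (ψ ⟨p.1.2, p.2.2⟩) → ℓ' u = 0) := by
  obtain ⟨u, hu⟩ := exists_over (.proj κ hκ) (φ ⟨p.1.1, p.2.1⟩)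
  obtain ⟨w, hw⟩ := exists_over (.proj σ hσ) (ψ ⟨p.1.2, p.2.2⟩)
  have hz : Over (.proj (κ × σ) inferInstance) (fun ij : κ × σ => u ij.1 * w ij.2) (box φ ψ p) :=
    over_tens hu hw
  constructor
  · intro h
    have h1 : ℓ u * ℓ' w = 0 := (lprod_apply ℓ ℓ' u w).symm.trans (h _ hz)
    rcases mul_eq_zero.1 h1 with h2 | h2
    · left
      intro u' hu'
      obtain ⟨t, _, rfl⟩ := exists_smul hu hu'
      exact (ell_smul ℓ t u).trans (by rw [h2, mul_zero])
    · right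
      intro w' hw'
      obtain ⟨t, _, rfl⟩ := exists_smul hw hw'
      exact (ell_smul ℓ' t w).trans (by rw [h2, mul_zero])
  · intro h z hz'
    obtain ⟨t, _, rfl⟩ := exists_smul hz hz'
    have e : lprod ℓ ℓ' (t • (fun ij : κ × σ => u ij.1 * w ij.2)) = t * (ℓ u * ℓ' w) := by
      rw [map_smul, smul_eq_mul]
      exact congrArg (t * ·) (lprod_apply ℓ ℓ' u w)
    refine Eq.trans e ?_
    rcases h with h | h
    · rw [h u hu, zero_mul, mul_zero]
    · rw [h w hw, mul_zero, mul_zero]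

end

variable {V U : SPV k}

/-- The components of the divisor `S × U + V × S'`. -/
def boxSub {ι ι' : Type} (S : ι → Sub V) (S' : ι' → Sub U) : ι ⊕ ι' → Sub (V.prod U) :=
  Sum.elim (fun i => (S i).prod (Sub.whole U)) (fun j => (Sub.whole V).prod (S' j))

theorem sub_ne_whole {S : Sub V} (h : S.dim + 1 = V.dim) : ¬ V.carrier ⊆ S.carrier := by
  intro h1
  have e : S.carrier = V.carrier := Set.Subset.antisymm S.le h1
  have h2 := S.hasDim
  rw [e] at h2
  have := h2.unique (hasDim_whole V)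
  omega

theorem exists_not_mem {ι : Type} [Fintype ι] {S : ι → Sub V} (h : ∀ i, (S i).dim + 1 = V.dim) :
    ∃ p : V.carrier, ∀ i, p.1 ∉ (S i).carrier := by
  by_contra hcon
  push Not at hcon
  obtain ⟨i, _, hi⟩ := V.irred.mem_of_biUnion (Finset.univ : Finset ι)
    (S := fun i => (S i).carrier) (fun i => (S i).closed) (by
      intro x hx
      obtain ⟨i, hi⟩ := hcon ⟨x, hx⟩
      simp only [Finset.mem_univ, Set.iUnion_true, Set.mem_iUnion]
      exact ⟨i, hi⟩)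
  exact sub_ne_whole (h i) hi

section

variable {κ σ : Type} {hκ : Finite κ} {hσ : Finite σ} {φ : V.carrier → Pt k (.proj κ hκ)}
  {ψ : U.carrier → Pt k (.proj σ hσ)} {ℓ : (κ → k) →ₗ[k] k} {ℓ' : (σ → k) →ₗ[k] k}
  {ι ι' : Type} {S : ι → Sub V} {S' : ι' → Sub U}

theorem box_mult_left {A B : Amb} {T : Set (Pt k A)} {T' : Set (Pt k B)}
    {φ : T → Pt k (.proj κ hκ)} {ψ : T' → Pt k (.proj σ hσ)} (hψ : IsReg T' ψ) {p : T} {q : T'}
    {h : MvPolynomial A.Idx k} {Φ : κ → MvPolynomial A.Idx k} {v : A.Idx → k}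
    (hv : Over A v p.1) (h0 : eval v h ≠ 0) (hΦ : LocRep (B := .proj κ hκ) T φ h Φ)
    {w : A.Idx → k} (hw : IsTang T v w) (hne : ℓ (fun i => dd (Φ i) v w) ≠ 0)
    (hq : ¬ ∀ u : σ → k, Over (.proj σ hσ) u (ψ q) → ℓ' u = 0) :
    ∃ (h : MvPolynomial (Amb.prod A B).Idx k) (Ψ : κ × σ → MvPolynomial (Amb.prod A B).Idx k)
      (v : (Amb.prod A B).Idx → k), Over (.prod A B) v (p.1, q.1) ∧ eval v h ≠ 0 ∧
        LocRep (A := .prod A B) (B := .proj (κ × σ) inferInstance) (pset T T') (box φ ψ) h Ψ ∧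
        ∃ w, IsTang (A := .prod A B) (pset T T') v w ∧
          lprod ℓ ℓ' (fun i => dd (Ψ i) v w) ≠ 0 := by
  obtain ⟨g, Ψ, g1, g2⟩ := hψ q
  obtain ⟨v', hv'⟩ := exists_over B q.1
  refine ⟨incL h * incR g, fun ij : κ × σ => incL (Φ ij.1) * incR (Ψ ij.2), Amb.elim v v',
    ⟨hv, hv'⟩, ?_, hΦ.box g2, Amb.elim w 0, ?_, ?_⟩
  · rw [map_mul, eval_incL, eval_incR]
    exact mul_ne_zero h0 (g1 _ hv')
  · refine (tang_pset (S := T) (S' := T') (v := Amb.elim v v')
      ⟨(p.1, q.1), ⟨p.2, q.2⟩, hv, hv'⟩ _).2 ⟨hw, ?_⟩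
    exact Submodule.zero_mem _
  · have hu := g2 q v' hv' (g1 v' hv')
    have hl : ℓ' (fun i => eval v' (Ψ i)) ≠ 0 := by
      intro h
      apply hq
      intro u hu'
      obtain ⟨t, _, rfl⟩ := exists_smul hu hu'
      exact (ell_smul ℓ' t _).trans (by rw [h, mul_zero])
    have e : (fun ij : κ × σ => dd (incL (Φ ij.1) * incR (Ψ ij.2) :
        MvPolynomial (Amb.prod A B).Idx k) (Amb.elim v v') (Amb.elim w 0)) =
        fun ij : κ × σ => (fun i => dd (Φ i) v w) ij.1 * (fun j => eval v' (Ψ j)) ij.2 := by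
      refine (box_e1 Φ Ψ _ _).trans ?_
      funext ij
      show eval v (Φ ij.1) * dd (Ψ ij.2) v' 0 + eval v' (Ψ ij.2) * dd (Φ ij.1) v w =
        dd (Φ ij.1) v w * eval v' (Ψ ij.2)
      rw [dd_zero_right]
      ring
    refine fun hcon => mul_ne_zero hne hl ?_
    rw [← lprod_apply]
    exact (congrArg (lprod ℓ ℓ') e).symm.trans hcon

theorem box_mult_right {A B : Amb} {T : Set (Pt k A)} {T' : Set (Pt k B)}
    {φ : T → Pt k (.proj κ hκ)} {ψ : T' → Pt k (.proj σ hσ)} (hφ : IsReg T φ) {p : T} {q : T'}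
    {h : MvPolynomial B.Idx k} {Ψ : σ → MvPolynomial B.Idx k} {v : B.Idx → k}
    (hv : Over B v q.1) (h0 : eval v h ≠ 0) (hΨ : LocRep (B := .proj σ hσ) T' ψ h Ψ)
    {w : B.Idx → k} (hw : IsTang T' v w) (hne : ℓ' (fun i => dd (Ψ i) v w) ≠ 0)
    (hp : ¬ ∀ u : κ → k, Over (.proj κ hκ) u (φ p) → ℓ u = 0) :
    ∃ (h : MvPolynomial (Amb.prod A B).Idx k) (Ψ : κ × σ → MvPolynomial (Amb.prod A B).Idx k)
      (v : (Amb.prod A B).Idx → k), Over (.prod A B) v (p.1, q.1) ∧ eval v h ≠ 0 ∧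
        LocRep (A := .prod A B) (B := .proj (κ × σ) inferInstance) (pset T T') (box φ ψ) h Ψ ∧
        ∃ w, IsTang (A := .prod A B) (pset T T') v w ∧
          lprod ℓ ℓ' (fun i => dd (Ψ i) v w) ≠ 0 := by
  obtain ⟨g, Φ, g1, g2⟩ := hφ p
  obtain ⟨v', hv'⟩ := exists_over A p.1
  refine ⟨incL g * incR h, fun ij : κ × σ => incL (Φ ij.1) * incR (Ψ ij.2), Amb.elim v' v,
    ⟨hv', hv⟩, ?_, g2.box hΨ, Amb.elim 0 w, ?_, ?_⟩
  · rw [map_mul, eval_incL, eval_incR]
    exact mul_ne_zero (g1 _ hv') h0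
  · refine (tang_pset (S := T) (S' := T') (v := Amb.elim v' v)
      ⟨(p.1, q.1), ⟨p.2, q.2⟩, hv', hv⟩ _).2 ⟨?_, hw⟩
    exact Submodule.zero_mem _
  · have hu := g2 p v' hv' (g1 v' hv')
    have hl : ℓ (fun i => eval v' (Φ i)) ≠ 0 := by
      intro h
      apply hp
      intro u hu'
      obtain ⟨t, _, rfl⟩ := exists_smul hu hu'
      exact (ell_smul ℓ t _).trans (by rw [h, mul_zero])
    have e : (fun ij : κ × σ => dd (incL (Φ ij.1) * incR (Ψ ij.2) :
        MvPolynomial (Amb.prod A B).Idx k) (Amb.elim v' v) (Amb.elim 0 w)) =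
        fun ij : κ × σ => (fun i => eval v' (Φ i)) ij.1 * (fun j => dd (Ψ j) v w) ij.2 := by
      refine (box_e1 Φ Ψ _ _).trans ?_
      funext ij
      show eval v' (Φ ij.1) * dd (Ψ ij.2) v w + eval v (Ψ ij.2) * dd (Φ ij.1) v' 0 =
        eval v' (Φ ij.1) * dd (Ψ ij.2) v w
      rw [dd_zero_right]
      ring
    refine fun hcon => mul_ne_zero hl hne ?_
    rw [← lprod_apply]
    exact (congrArg (lprod ℓ ℓ') e).symm.trans hcon

theorem prod_mem_left {S : Sub V} {p : V.carrier} {q : U.carrier} :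
    ((p.1, q.1) : Pt k (V.prod U).amb) ∈ (S.prod (Sub.whole U)).carrier ↔ p.1 ∈ S.carrier :=
  ⟨fun h => h.1, fun h => ⟨h, q.2⟩⟩

theorem prod_mem_right {S : Sub U} {p : V.carrier} {q : U.carrier} :
    ((p.1, q.1) : Pt k (V.prod U).amb) ∈ ((Sub.whole V).prod S).carrier ↔ q.1 ∈ S.carrier :=
  ⟨fun h => h.2, fun h => ⟨p.2, h⟩⟩

theorem IsSection.box [Fintype ι] [Fintype ι'] (hφ : IsReg V.carrier φ) (hψ : IsReg U.carrier ψ)
    (H : IsSection V φ ℓ S) (H' : IsSection U ψ ℓ' S') :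
    IsSection (V.prod U) (MP_77d3c1_ag.box φ ψ) (lprod ℓ ℓ') (boxSub S S') where
  inj := by
    obtain ⟨p₀, hp₀⟩ := exists_not_mem H.codim
    obtain ⟨q₀, hq₀⟩ := exists_not_mem H'.codim
    have key : ∀ i j, (S i).prod (Sub.whole U) ≠ (Sub.whole V).prod (S' j) := by
      intro i j h
      obtain ⟨q, hq⟩ := (S' j).irred.1
      have h1 : ((p₀.1, q) : Pt k (V.prod U).amb) ∈ ((Sub.whole V).prod (S' j)).carrier :=
        ⟨p₀.2, hq⟩
      rw [← h] at h1
      exact hp₀ i h1.1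
    rintro (i | i) (j | j) h
    · have h' : (S i).prod (Sub.whole U) = (S j).prod (Sub.whole U) := h
      congr 1
      apply H.inj
      apply Sub.ext
      ext x
      constructor
      · intro hx
        have := (prod_mem_left (U := U) (S := S i) (p := ⟨x, (S i).le hx⟩) (q := q₀)).2 hx
        rw [h'] at this
        exact this.1
      · intro hx
        have := (prod_mem_left (U := U) (S := S j) (p := ⟨x, (S j).le hx⟩) (q := q₀)).2 hx
        rw [← h'] at this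
        exact this.1
    · exact absurd h (key i j)
    · exact absurd h.symm (key j i)
    · have h' : (Sub.whole V).prod (S' i) = (Sub.whole V).prod (S' j) := h
      congr 1
      apply H'.inj
      apply Sub.ext
      ext x
      constructor
      · intro hx
        have := (prod_mem_right (V := V) (S := S' i) (p := p₀) (q := ⟨x, (S' i).le hx⟩)).2 hx
        rw [h'] at this
        exact this.2
      · intro hx
        have := (prod_mem_right (V := V) (S := S' j) (p := p₀) (q := ⟨x, (S' j).le hx⟩)).2 hx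
        rw [← h'] at this
        exact this.2
  codim := by
    rintro (i | i)
    · show (S i).dim + U.dim + 1 = V.dim + U.dim
      have := H.codim i
      omega
    · show V.dim + (S' i).dim + 1 = V.dim + U.dim
      have := H'.codim i
      omega
  zero := by
    intro p
    have h1 := H.zero ((Mor.fst V U).fn p)
    have h2 := H'.zero ((Mor.snd V U).fn p)
    have h3 := box_zero (φ := φ) (ψ := ψ) ℓ ℓ' p
    refine Iff.trans ?_ h3.symm
    refine Iff.trans ?_ (or_congr h1 h2)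
    constructor
    · rintro ⟨i | i, hi⟩
      · exact Or.inl ⟨i, hi.1⟩
      · exact Or.inr ⟨i, hi.2⟩
    · rintro (⟨i, hi⟩ | ⟨i, hi⟩)
      · exact ⟨Sum.inl i, hi, p.2.2⟩
      · exact ⟨Sum.inr i, p.2.1, hi⟩
  mult := by
    obtain ⟨p₀, hp₀⟩ := exists_not_mem H.codim
    obtain ⟨q₀, hq₀⟩ := exists_not_mem H'.codim
    rintro (i | i)
    · obtain ⟨p, hp, h, Φ, v, hv, h0, hΦ, w, hw, hne⟩ := H.mult i
      refine ⟨⟨(p.1, q₀.1), p.2, q₀.2⟩, ⟨hp, q₀.2⟩, ?_⟩
      refine box_mult_left hψ (p := p) (q := q₀) hv h0 hΦ hw hne ?_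
      intro hcon
      obtain ⟨j, hj⟩ := (H'.zero q₀).2 hcon
      exact hq₀ j hj
    · obtain ⟨q, hq, h, Ψ, v, hv, h0, hΨ, w, hw, hne⟩ := H'.mult i
      refine ⟨⟨(p₀.1, q.1), p₀.2, q.2⟩, ⟨p₀.2, hq⟩, ?_⟩
      refine box_mult_right hφ (p := p₀) (q := q) hv h0 hΨ hw hne ?_
      intro hcon
      obtain ⟨j, hj⟩ := (H.zero p₀).2 hcon
      exact hp₀ j hj

theorem IsEmb.box (H : IsEmb V φ) (H' : IsEmb U ψ) :
    IsEmb (V.prod U) (B := .proj (κ × σ) inferInstance) (MP_77d3c1_ag.box φ ψ) where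
  inj := by
    intro p q h
    have h1 := tens_inj h
    have h2 := H.inj h1.1
    have h3 := H'.inj h1.2
    exact Subtype.ext (Prod.ext (congrArg Subtype.val h2) (congrArg Subtype.val h3))
  imm := fun p => box_imm p (H.imm ((Mor.fst V U).fn p)) (H'.imm ((Mor.snd V U).fn p))

/-- The product of two very ample divisors is very ample. -/
theorem VeryAmple.box [Fintype ι] [Fintype ι'] (H : VeryAmple S) (H' : VeryAmple S') :
    VeryAmple (boxSub S S') := by
  obtain ⟨κ, hκ, φ, ℓ, h1, h2⟩ := H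
  obtain ⟨σ, hσ, ψ, ℓ', h1', h2'⟩ := H'
  exact ⟨κ × σ, inferInstance, MP_77d3c1_ag.box φ ψ, lprod ℓ ℓ', h1.box h1',
    h2.box h1.reg h1'.reg h2'⟩

end

end Pool.Agent.Lib.MP_77d3c1_ag
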