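import Pool.Agent.Lib.MP_77d3c1_ag.Split
import Pool.Agent.Lib.MP_77d3c1_ag.Segre
import Pool.Agent.Lib.MP_77d3c1_ag.Exist

/-!
# Split polarizations, and varieties without odd cohomology in degree one
-/

set_option autoImplicit false

open MvPolynomial

namespace Pool.Agent.Lib.MP_77d3c1_ag

universe u v w

variable {k : Type u} [Field k] {K : Type v} [Field K]

section point

variable [Infinite k] {V : SPV k}

/-- A point, as a variety. -/
def ptV (P : V.carrier) : SPV k where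
  amb := V.amb
  carrier := {P.1}
  closed := isCl_singleton _
  irred := (Sub.point P).irred
  dim := 0
  smooth := by
    rintro v ⟨p, rfl, hv⟩
    unfold tdim
    rw [tang_singleton hv, finrank_vert _ v _ hv, zero_add]

/-- The inclusion of a point. -/
def inPt (P : V.carrier) : Mor (ptV P) V where
  fn := fun p => ⟨p.1, by obtain ⟨p, rfl⟩ := p; exact P.2⟩
  reg := isReg_id _

/-- The constant morphism. -/
noncomputable def toPt (U : SPV k) (P : V.carrier) : Mor U (ptV P) where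
  fn := fun _ => ⟨P.1, rfl⟩
  reg := fun _ => by
    obtain ⟨v, hv⟩ := exists_over V.amb P.1
    refine ⟨1, fun i => C (v i), fun _ _ => by simp, fun _ u _ _ => ?_⟩
    simp only [eval_C]
    exact hv

/-- The constant endomorphism. -/
noncomputable def cst (P : V.carrier) : Mor V V := (inPt P).comp (toPt V P)

end point

namespace Weil

variable {W : Weil.{u, v, w} k K} {X : SPV k}

theorem pull_cst [Infinite k] (P : X.carrier) {x : W.H X} {i : ℕ} (hi : 0 < i)
    (hx : x ∈ W.gr X i) : W.pull (cst P) x = 0 := by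
  unfold cst
  rw [W.pull_comp]
  have h : W.pull (inPt P) x ∈ W.gr (ptV P) i := W.pull_gr _ _ _ hx
  rw [W.vanish (ptV P) i (by show 2 * 0 < i; omega)] at h
  rw [(Submodule.mem_bot K).1 h, map_zero]

section

variable [Infinite k]

/-- The morphism `x ↦ (x, P)`. -/
noncomputable def _root_.Pool.Agent.Lib.MP_77d3c1_ag.iL (P : X.carrier) : Mor X (X.prod X) :=
  Mor.pair (Mor.id X) (cst P)

/-- The morphism `x ↦ (P, x)`. -/
noncomputable def _root_.Pool.Agent.Lib.MP_77d3c1_ag.iR (P : X.carrier) : Mor X (X.prod X) :=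
  Mor.pair (cst P) (Mor.id X)

theorem iL_add (P : X.carrier) {a b : W.H X} (hb : b ∈ W.gr X 2) :
    W.pull (iL P) (W.pull (Mor.fst X X) a + W.pull (Mor.snd X X) b) = a := by
  have e1 : (Mor.fst X X).comp (iL P) = Mor.id X := Mor.ext fun _ => rfl
  have e2 : (Mor.snd X X).comp (iL P) = cst P := Mor.ext fun _ => rfl
  rw [map_add, ← W.pull_comp, ← W.pull_comp, e1, e2, W.pull_id, pull_cst P two_pos hb, add_zero]

theorem iR_add (P : X.carrier) {a b : W.H X} (ha : a ∈ W.gr X 2) :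
    W.pull (iR P) (W.pull (Mor.fst X X) a + W.pull (Mor.snd X X) b) = b := by
  have e1 : (Mor.fst X X).comp (iR P) = cst P := Mor.ext fun _ => rfl
  have e2 : (Mor.snd X X).comp (iR P) = Mor.id X := Mor.ext fun _ => rfl
  rw [map_add, ← W.pull_comp, ← W.pull_comp, e1, e2, W.pull_id, pull_cst P two_pos ha, zero_add]

end

theorem clSum_gr {V : SPV k} {ι : Type} [Fintype ι] {S : ι → Sub V}
    (hS : ∀ i, (S i).dim + 1 = V.dim) : W.clSum S ∈ W.gr V 2 := by
  unfold CohData.clSum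
  refine Submodule.sum_mem _ fun i _ => ?_
  have h := W.cl_gr (S i)
  have e : 2 * (V.dim - (S i).dim) = 2 := by
    have := hS i
    omega
  rwa [e] at h

theorem _root_.Pool.Agent.Lib.MP_77d3c1_ag.VeryAmple.codim {V : SPV k} {ι : Type} {S : ι → Sub V}
    (hS : VeryAmple S) : ∀ i, (S i).dim + 1 = V.dim := by
  obtain ⟨_, _, _, _, _, h⟩ := hS
  exact h.codim

theorem clSum_box {ι ι' : Type} [Fintype ι] [Fintype ι'] (S : ι → Sub X) (S' : ι' → Sub X) :
    W.clSum (boxSub S S') = W.dL (W.clSum S) + W.dR (W.clSum S') := by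
  unfold CohData.clSum dL dR
  rw [Fintype.sum_sum_type, map_sum, map_sum]
  congr 1
  · refine Finset.sum_congr rfl fun i _ => ?_
    show W.cl ((S i).prod (Sub.whole X)) = _
    rw [W.cl_prod, W.cl_whole, map_one, mul_one]
  · refine Finset.sum_congr rfl fun i _ => ?_
    show W.cl ((Sub.whole X).prod (S' i)) = _
    rw [W.cl_prod, W.cl_whole, map_one, one_mul]

/-- Frobenius multiplies the class of a divisor by `q`. -/
theorem exists_pull_clSum {p : ℕ} [hp : Fact p.Prime] [CharP k p] [IsAlgClosed k] [CharZero K]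
    (hk : FinFields p k) (hF : W.HasFrobenius p) {V : SPV k} {ι : Type} [Fintype ι]
    {S : ι → Sub V} (hS : ∀ i, (S i).dim + 1 = V.dim) : ∃ a, 0 < a ∧ ∀ (b : ℕ) (F : Mor V V),
      IsFrob (p ^ (a * b)) F → W.pull F (W.clSum S) = ((p ^ (a * b) : ℕ) : K) • W.clSum S := by
  obtain ⟨a, ha, hs⟩ := exists_common Finset.univ (fun i a => Stab (p ^ a) (S i).carrier)
    (fun i _ => exists_stab hk (S i).closed)
  refine ⟨a, ha, fun b F hfrob => ?_⟩
  have hqK : ((p ^ (a * b) : ℕ) : K) ≠ 0 := Nat.cast_ne_zero.2 (pow_pos hp.out.pos _).ne'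
  unfold CohData.clSum
  rw [map_sum, Finset.smul_sum]
  refine Finset.sum_congr rfl fun i _ => ?_
  exact pull_divisor hF hqK hfrob (hS i) (hs i (Finset.mem_univ i) b)

variable [CharZero K]

/-- Products of ample classes. -/
theorem splitPos_of_veryAmple (hP : W.HasPositivity) {ι ι' : Type} [Fintype ι] [Fintype ι']
    {S : ι → Sub X} {S' : ι' → Sub X} (hS : VeryAmple S) (hS' : VeryAmple S') :
    W.SplitPos (W.clSum S) (W.clSum S') where
  gr := clSum_gr hS.codim
  gr' := clSum_gr hS'.codim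
  effL := fun _ _ hx => eff_cut hP (Mor.fst X X) hS hx
  effR := fun _ _ hx => eff_cut hP (Mor.snd X X) hS' hx
  bounded := by
    intro E hE
    obtain ⟨C, hC, h⟩ := eff_bounded hP (hS.box hS') E
    refine ⟨C, hC, fun x hx => ?_⟩
    obtain ⟨a, b, ha, hb, hab⟩ := h X.dim x (by rw [hE]; rfl) hx
    exact ⟨a, b, ha, by rw [hb, clSum_box], hab⟩

theorem fixed_of_divisors {p : ℕ} [hp : Fact p.Prime] [CharP k p] [IsAlgClosed k]
    (hk : FinFields p k) (hF : W.HasFrobenius p) {ι ι' : Type} [Fintype ι] [Fintype ι']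
    {S : ι → Sub X} {S' : ι' → Sub X} (hS : VeryAmple S) (hS' : VeryAmple S') :
    Fixed p (W.clSum S) (W.clSum S') := by
  obtain ⟨a, ha, h1⟩ := exists_pull_clSum hk hF hS.codim
  obtain ⟨a', ha', h2⟩ := exists_pull_clSum hk hF hS'.codim
  refine ⟨a * a', Nat.mul_pos ha ha', fun b F hfrob => ⟨?_, ?_⟩⟩
  · have e : a * a' * b = a * (a' * b) := by ring
    rw [e] at hfrob ⊢
    exact h1 _ F hfrob
  · have e : a * a' * b = a' * (a * b) := by ring
    rw [e] at hfrob ⊢
    exact h2 _ F hfrob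

/-- Ample classes on `X × X` which are sums of pull-backs. -/
theorem splitPos_of_sum [Infinite k] (hP : W.HasPositivity) {ι : Type} [Fintype ι]
    {T : ι → Sub (X.prod X)} (hT : VeryAmple T) {ξ ξ' : W.H X} (hξ : ξ ∈ W.gr X 2)
    (hξ' : ξ' ∈ W.gr X 2) (h : W.clSum T = W.dL ξ + W.dR ξ') : W.SplitPos ξ ξ' := by
  obtain ⟨P⟩ : Nonempty X.carrier := X.irred.1.to_subtype
  have e1 : ξ = W.pull (iL P) (W.clSum T) := by
    rw [h]
    exact (iL_add P hξ').symm
  have e2 : ξ' = W.pull (iR P) (W.clSum T) := by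
    rw [h]
    exact (iR_add P hξ).symm
  refine ⟨hξ, hξ', ?_, ?_, ?_⟩
  · intro d x hx
    have h1 := eff_cut hP ((iL P).comp (Mor.fst X X)) hT hx
    rw [W.pull_comp, ← e1] at h1
    exact h1
  · intro d x hx
    have h1 := eff_cut hP ((iR P).comp (Mor.snd X X)) hT hx
    rw [W.pull_comp, ← e2] at h1
    exact h1
  · intro E hE
    obtain ⟨C, hC, hb⟩ := eff_bounded hP hT E
    refine ⟨C, hC, fun x hx => ?_⟩
    obtain ⟨a, b, ha, hb, hab⟩ := hb X.dim x (by rw [hE]; rfl) hx
    exact ⟨a, b, ha, by rw [hb, h], hab⟩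

theorem fixed_of_sum {p : ℕ} [hp : Fact p.Prime] [CharP k p] [IsAlgClosed k]
    (hk : FinFields p k) (hF : W.HasFrobenius p) {ι : Type} [Fintype ι]
    {T : ι → Sub (X.prod X)} (hT : VeryAmple T) {ξ ξ' : W.H X} (hξ : ξ ∈ W.gr X 2)
    (hξ' : ξ' ∈ W.gr X 2) (h : W.clSum T = W.dL ξ + W.dR ξ') : Fixed p ξ ξ' := by
  obtain ⟨P⟩ : Nonempty X.carrier := X.irred.1.to_subtype
  obtain ⟨a, ha, h1⟩ := exists_pull_clSum hk hF hT.codim
  refine ⟨a, ha, fun b F hfrob => ?_⟩
  have h2 := h1 b (phiLR F) (hfrob.prod hfrob)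
  rw [h] at h2
  unfold dL dR at h2
  rw [map_add, W.phiLR_fst, W.phiLR_snd, smul_add, ← map_smul, ← map_smul] at h2
  have hsm : ∀ {x : W.H X}, x ∈ W.gr X 2 → ((p ^ (a * b) : ℕ) : K) • x ∈ W.gr X 2 :=
    fun hx => Submodule.smul_mem _ _ hx
  constructor
  · have h3 := congrArg (W.pull (iL P)) h2
    rwa [iL_add P (W.pull_gr _ _ _ hξ'), iL_add P (hsm hξ')] at h3
  · have h3 := congrArg (W.pull (iR P)) h2
    rwa [iR_add P (W.pull_gr _ _ _ hξ), iR_add P (hsm hξ)] at h3

omit [CharZero K] in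
/-- If `H^1(X) = 0`, then `H^2(X × X)` is the sum of the pull-backs of `H^2(X)`. -/
theorem exists_sum [Infinite k] (h1 : W.gr X 1 = ⊥) {y : W.H (X.prod X)}
    (hy : y ∈ W.gr _ 2) : ∃ a ∈ W.gr X 2, ∃ b ∈ W.gr X 2,
      y = W.pull (Mor.fst X X) a + W.pull (Mor.snd X X) b := by
  obtain ⟨P⟩ : Nonempty X.carrier := X.irred.1.to_subtype
  have hπ : W.IsPointClass X (W.cl (Sub.point P)) := W.isPointClass_cl (Sub.point P) P.1 rfl rfl
  refine W.kunneth_induction_deg (P := fun y => ∃ a ∈ W.gr X 2, ∃ b ∈ W.gr X 2,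
      y = W.pull (Mor.fst X X) a + W.pull (Mor.snd X X) b) y hy ?_ ?_ ?_
  · intro i j hij a ha b hb
    obtain rfl | rfl | rfl : i = 0 ∨ i = 1 ∨ i = 2 := by omega
    · obtain rfl : j = 2 := by omega
      obtain ⟨c, rfl⟩ := hπ.scalar ha
      refine ⟨0, Submodule.zero_mem _, c • b, Submodule.smul_mem _ _ hb, ?_⟩
      rw [map_smul, map_one, smul_mul_assoc, one_mul, map_zero, zero_add, map_smul]
    · rw [h1] at ha
      refine ⟨0, Submodule.zero_mem _, 0, Submodule.zero_mem _, ?_⟩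
      rw [(Submodule.mem_bot K).1 ha, map_zero, zero_mul, map_zero, add_zero]
    · obtain rfl : j = 0 := by omega
      obtain ⟨c, rfl⟩ := hπ.scalar hb
      refine ⟨c • a, Submodule.smul_mem _ _ ha, 0, Submodule.zero_mem _, ?_⟩
      rw [map_smul (W.pull (Mor.snd X X)), map_one, mul_smul_comm, mul_one, map_zero, add_zero,
        map_smul]
  · exact ⟨0, Submodule.zero_mem _, 0, Submodule.zero_mem _, by rw [map_zero, map_zero, add_zero]⟩
  · rintro x y ⟨a, ha, b, hb, rfl⟩ ⟨a', ha', b', hb', rfl⟩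
    refine ⟨a + a', Submodule.add_mem _ ha ha', b + b', Submodule.add_mem _ hb hb', ?_⟩
    rw [map_add, map_add]
    abel

end Weil

end Pool.Agent.Lib.MP_77d3c1_ag
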