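import Mathlib

/-!
# Interpolation polynomials for polynomials with roots of different sizes
-/

set_option autoImplicit false

open Polynomial

namespace Pool.Agent.Lib.MP_77d3c1_ag

/-- Every non-zero polynomial divides a power of a separable divisor. -/
theorem exists_radical (P : ℚ[X]) (hP : P ≠ 0) : ∃ R : ℚ[X], R.Separable ∧ R ∣ P ∧
    ∃ e : ℕ, P ∣ R ^ e := by
  set I : Ideal ℚ[X] := Ideal.span {P} with hI
  obtain ⟨R, hR⟩ := (IsPrincipalIdealRing.principal I.radical).principal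
  have hR' : I.radical = Ideal.span {R} := hR
  obtain ⟨e, he⟩ := I.exists_radical_pow_le_of_fg (IsNoetherian.noetherian _)
  have hPR : R ∣ P := by
    rw [← Ideal.mem_span_singleton, ← hR']
    exact Ideal.le_radical (Ideal.mem_span_singleton_self P)
  have hR0 : R ≠ 0 := by
    rintro rfl
    exact hP (zero_dvd_iff.1 hPR)
  have hrad : IsRadical R := by
    intro m y h
    rw [← Ideal.mem_span_singleton, ← hR'] at h ⊢
    exact (Ideal.radical_isRadical I) ⟨m, h⟩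
  refine ⟨R, PerfectField.separable_iff_squarefree.2 (hrad.squarefree hR0), hPR, e, ?_⟩
  rw [← Ideal.mem_span_singleton, ← hI]
  apply he
  rw [hR']
  exact Ideal.pow_mem_pow (Ideal.mem_span_singleton_self R) e

theorem sqrt_pow_inj {q : ℕ} (hq : 1 < q) {i j : ℕ} (h : Real.sqrt q ^ i = Real.sqrt q ^ j) :
    i = j := by
  have h1 : (1 : ℝ) < Real.sqrt q := by
    rw [Real.lt_sqrt (by norm_num)]
    have : (1 : ℝ) < q := by exact_mod_cast hq
    linarith
  exact (pow_right_injective₀ (by linarith) h1.ne') h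

theorem exists_polys {q : ℕ} (hq : 1 < q) (n : ℕ) (P : ℕ → ℤ[X]) (hmon : ∀ j, (P j).Monic)
    (hroot : ∀ j, ∀ z : ℂ, aeval z (P j) = 0 → ‖z‖ = Real.sqrt q ^ j) :
    ∃ (R : ℚ[X]) (wt : ℂ → ℕ) (π : ℕ → ℚ[X]), R.Separable ∧
      (∀ α : ℂ, aeval α R = 0 → ‖α‖ = Real.sqrt q ^ wt α ∧ wt α ≤ 2 * n) ∧
      (∀ α : ℂ, aeval α R = 0 → ∀ j ≤ 2 * n, aeval α (π j) = if j = wt α then 1 else 0) ∧
      (∃ e : ℕ, ∀ j ≤ 2 * n, (P j).map (Int.castRingHom ℚ) ∣ R ^ e) ∧
      (∀ j ≤ 2 * n, (P j).map (Int.castRingHom ℚ) ∣ π j - 1) ∧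
      (∀ i ≤ 2 * n, ∀ j ≤ 2 * n, i ≠ j → (P i).map (Int.castRingHom ℚ) ∣ π j) := by
  classical
  set P' : ℕ → ℚ[X] := fun j => (P j).map (Int.castRingHom ℚ) with hP'
  have hP0 : ∀ j, P' j ≠ 0 := fun j => ((hmon j).map _).ne_zero
  have hroot' : ∀ j, ∀ z : ℂ, aeval z (P' j) = 0 → ‖z‖ = Real.sqrt q ^ j := by
    intro j z hz
    apply hroot j z
    rw [← hz, hP']
    simp only [aeval_def, eval₂_map]
    congr 1
  have hcop : ∀ i j, i ≠ j → IsCoprime (P' i) (P' j) := by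
    intro i j hij
    refine (Polynomial.isCoprime_iff_aeval_ne_zero_of_isAlgClosed (k := ℚ) ℂ _ _).2 ?_
    intro a
    by_contra h
    push Not at h
    exact hij (sqrt_pow_inj hq ((hroot' i a h.1).symm.trans (hroot' j a h.2)))
  set T := Finset.range (2 * n + 1) with hT
  have hmem : ∀ j, j ∈ T ↔ j ≤ 2 * n := fun j => by rw [hT, Finset.mem_range]; omega
  have hπ : ∀ j, ∃ f : ℚ[X], P' j ∣ f - 1 ∧ (∀ i ∈ T, i ≠ j → P' i ∣ f) := by
    intro j
    have h : IsCoprime (P' j) (∏ i ∈ T.erase j, P' i) := by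
      apply IsCoprime.prod_right
      intro i hi
      exact hcop _ _ (Finset.ne_of_mem_erase hi).symm
    obtain ⟨a, b, hab⟩ := h
    refine ⟨b * ∏ i ∈ T.erase j, P' i, ⟨-a, ?_⟩, ?_⟩
    · linear_combination hab
    · intro i hi hij
      exact (Finset.dvd_prod_of_mem _ (Finset.mem_erase.2 ⟨hij, hi⟩)).mul_left _
  choose π hπ1 hπ2 using hπ
  have hprod : ∏ j ∈ T, P' j ≠ 0 := Finset.prod_ne_zero_iff.2 fun j _ => hP0 j
  obtain ⟨R, hsep, hdvd, e, he⟩ := exists_radical _ hprod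
  have hex : ∀ α : ℂ, aeval α R = 0 → ∃ j ∈ T, aeval α (P' j) = 0 := by
    intro α hα
    obtain ⟨g, hg⟩ := hdvd
    have : aeval α (∏ j ∈ T, P' j) = 0 := by rw [hg, map_mul, hα, zero_mul]
    rw [map_prod, Finset.prod_eq_zero_iff] at this
    exact this
  let wt : ℂ → ℕ := fun α => if h : ∃ j ∈ T, aeval α (P' j) = 0 then h.choose else 0
  have hwt : ∀ α : ℂ, aeval α R = 0 → wt α ∈ T ∧ aeval α (P' (wt α)) = 0 := by
    intro α hα
    have h := hex α hα
    have e1 : wt α = h.choose := dif_pos h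
    rw [e1]
    exact h.choose_spec
  refine ⟨R, wt, π, hsep, ?_, ?_, ⟨e, ?_⟩, ?_, ?_⟩
  · intro α hα
    obtain ⟨h1, h2⟩ := hwt α hα
    exact ⟨hroot' _ _ h2, (hmem _).1 h1⟩
  · intro α hα j hj
    obtain ⟨h1, h2⟩ := hwt α hα
    split_ifs with hjw
    · obtain ⟨g, hg⟩ := hπ1 j
      have : aeval α (π j - 1) = 0 := by rw [hg, map_mul, hjw, h2, zero_mul]
      rw [map_sub, map_one] at this
      exact sub_eq_zero.1 this
    · obtain ⟨g, hg⟩ := hπ2 j (wt α) h1 (Ne.symm hjw)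
      rw [hg, map_mul, h2, zero_mul]
  · intro j hj
    exact (Finset.dvd_prod_of_mem _ ((hmem j).2 hj)).trans he
  · intro j _
    exact hπ1 j
  · intro i hi j _ hij
    exact hπ2 j i ((hmem i).2 hi) hij

end Pool.Agent.Lib.MP_77d3c1_ag
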