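import Pool.Agent.Lib.MP_77d3c1_ag.Weil

/-!
# Numerical equivalence, the correspondences `G_r`, and the inequality
-/

set_option autoImplicit false

namespace Pool.Agent.Lib.MP_77d3c1_ag

universe u v w

variable {k : Type u} [Field k] {K : Type v} [Field K]

/-- Prime cycles of dimension `d` on `V`. -/
def PCyc (V : SPV k) (d : ℕ) := {Z : Sub V // Z.dim = d}

open Classical in
/-- The rational number equal to `x`, if there is one (and `0` otherwise). -/
noncomputable def toRat (x : K) : ℚ := if h : ∃ q : ℚ, (q : K) = x then h.choose else 0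

namespace CohData

variable (W : CohData.{u, v, w} k K)

/-- The intersection number of two cycles of complementary dimensions. (It is an integer, by
`cl_mul`.) -/
noncomputable def inter {V : SPV k} (Z Y : Sub V) : ℚ := toRat (W.pair (W.cl Z) (W.cl Y))

/-- The real cycles of dimension `d` on `V` that are numerically equivalent to zero. -/
noncomputable def numTriv (V : SPV k) (d : ℕ) : Submodule ℝ (PCyc V d →₀ ℝ) :=
  ⨅ Y : PCyc V (V.dim - d),
    LinearMap.ker (Finsupp.linearCombination ℝ (fun Z : PCyc V d => (W.inter Z.1 Y.1 : ℝ)))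

/-- The real vector space of cycles of dimension `d` on `V` modulo numerical equivalence. -/
def Num (V : SPV k) (d : ℕ) : Type u := (PCyc V d →₀ ℝ) ⧸ W.numTriv V d

noncomputable instance instGroup (V : SPV k) (d : ℕ) : AddCommGroup (W.Num V d) :=
  Submodule.Quotient.addCommGroup _

noncomputable instance instModule (V : SPV k) (d : ℕ) : Module ℝ (W.Num V d) :=
  Submodule.Quotient.module _

/-- `N` is a norm on the space of numerical classes. -/
structure IsNorm {V : SPV k} {d : ℕ} (N : W.Num V d → ℝ) : Prop where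
  add_le : ∀ x y, N (x + y) ≤ N x + N y
  smul : ∀ (c : ℝ) (x), N (c • x) = |c| * N x
  eq_zero : ∀ x, N x = 0 → x = 0

/-- The numerical class of a rational cycle. -/
noncomputable def numClass {V : SPV k} {d : ℕ} (D : PCyc V d →₀ ℚ) : W.Num V d :=
  Submodule.Quotient.mk (D.mapRange (fun q : ℚ => (q : ℝ)) Rat.cast_zero)

/-- The cohomology class of a rational cycle. -/
noncomputable def clQ {V : SPV k} {d : ℕ} (D : PCyc V d →₀ ℚ) : W.H V :=
  D.sum fun Z c => W.scale c (W.cl Z.1)

/-- The cohomology class of an effective cycle. -/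
noncomputable def clN {V : SPV k} {d : ℕ} (f : PCyc V d →₀ ℕ) : W.H V :=
  f.sum fun Z c => W.scale c (W.cl Z.1)

/-- The degree `D · η ^ d` of a rational cycle of dimension `d`, where `η` is the cohomology class
of a divisor. -/
noncomputable def deg {V : SPV k} (η : W.H V) {d : ℕ} (D : PCyc V d →₀ ℚ) : ℚ :=
  D.sum fun Z c => c * toRat (W.pair (W.cl Z.1) (W.power η d))

/-- `x` is the image `φ_* z` of `z` by the Gysin map, the transpose of `φ^*` for Poincaré
duality. -/
def IsPush {V U : SPV k} (φ : Mor V U) (z : W.H V) (x : W.H U) : Prop :=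
  ∀ y : W.H U, W.pair x y = W.pair z (W.pb φ y)

/-- The correspondence `g` sends `x` to `y`.  A class `g` acts on the cohomology of `X` either by
`x ↦ p₂_* (p₁^* x * g)` (this is the convention chosen when `cov = true`) or by
`x ↦ p₁_* (p₂^* x * g)` (when `cov = false`). -/
def Sends (X : SPV k) (cov : Bool) (g : W.H (X.prod X)) (x y : W.H X) : Prop :=
  if cov then W.IsPush (Mor.snd X X) (W.cup (W.pb (Mor.fst X X) x) g) y
  else W.IsPush (Mor.fst X X) (W.cup (W.pb (Mor.snd X X) x) g) y

/-- `g` is the class of the correspondence `G_r`, which acts on `H^i(X)` as multiplication by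
`r ^ i`. -/
def IsGr (X : SPV k) (cov : Bool) (r : ℚ) (g : W.H (X.prod X)) : Prop :=
  W.Hom (2 * X.dim) g ∧
    ∀ (i : ℕ) (x : W.H X), W.Hom i x → W.Sends X cov g x (W.scale ((r : K) ^ i) x)

end CohData

/-- The projection of `X × (X × X)` to the first two factors. -/
noncomputable def p12 (X : SPV k) : Mor (X.prod (X.prod X)) (X.prod X) :=
  Mor.pair (Mor.fst X (X.prod X)) ((Mor.fst X X).comp (Mor.snd X (X.prod X)))

/-- The projection of `X × (X × X)` to the last two factors. -/
noncomputable def p23 (X : SPV k) : Mor (X.prod (X.prod X)) (X.prod X) :=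
  Mor.snd X (X.prod X)

/-- The projection of `X × (X × X)` to the first and the last factors. -/
noncomputable def p13 (X : SPV k) : Mor (X.prod (X.prod X)) (X.prod X) :=
  Mor.pair (Mor.fst X (X.prod X)) ((Mor.snd X X).comp (Mor.snd X (X.prod X)))

/-- Dynamical correspondences: effective cycles of codimension `n = dim X` on `X × X` such that
both projections of every component to `X` are surjective. -/
def Dynamical {X : SPV k} (f : PCyc (X.prod X) X.dim →₀ ℕ) : Prop :=
  ∀ Z ∈ f.support, (∀ x ∈ X.carrier, ∃ p : Pt k X.amb × Pt k X.amb, p ∈ Z.1.carrier ∧ p.1 = x) ∧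
    ∀ y ∈ X.carrier, ∃ p : Pt k X.amb × Pt k X.amb, p ∈ Z.1.carrier ∧ p.2 = y

namespace CohData

variable (W : CohData.{u, v, w} k K)

/-- `z` is the composition `g ∘ f = p₁₃_* (p₁₂^* f * p₂₃^* g)` of correspondences. -/
def IsComp (X : SPV k) (g f z : W.H (X.prod X)) : Prop :=
  W.IsPush (p13 X) (W.cup (W.pb (p12 X) f) (W.pb (p23 X) g)) z

/-- The rational cycle `D` of codimension `dim X` on `X × X` represents `G_r ∘ f`. -/
def Represents (X : SPV k) (cov : Bool) (r : ℚ) (f : PCyc (X.prod X) X.dim →₀ ℕ)
    (D : PCyc (X.prod X) X.dim →₀ ℚ) : Prop :=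
  ∃ g : W.H (X.prod X), W.IsGr X cov r g ∧ W.IsComp X g (W.clN f) (W.clQ D)

/-- The uniform norm-degree bound for the correspondences `G_r ∘ f`: there is a constant `C > 0`
such that `‖G_r ∘ f‖ ≤ C deg (G_r ∘ f)` for all rational `r > 0` and all dynamical correspondences
`f` of `X`.  Here `N` is a norm on the numerical classes, and `η` is the class of an ample
divisor on `X × X`. -/
def Bound (X : SPV k) (cov : Bool) (η : W.H (X.prod X)) (N : W.Num (X.prod X) X.dim → ℝ) : Prop :=
  ∃ C : ℝ, 0 < C ∧ ∀ r : ℚ, 0 < r → ∀ f : PCyc (X.prod X) X.dim →₀ ℕ, Dynamical f →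
    ∀ D : PCyc (X.prod X) X.dim →₀ ℚ, W.Represents X cov r f D →
      N (W.numClass D) ≤ C * W.deg η D

end CohData

end Pool.Agent.Lib.MP_77d3c1_ag
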