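import Mathlib

/-!
# Linear recurrences with simple characteristic roots
-/

set_option autoImplicit false

open Polynomial

namespace Pool.Agent.Lib.MP_77d3c1_ag

/-- The linear functional `∑ g_s x^s ↦ ∑ g_s c (m + s)`. -/
noncomputable def psi (c : ℤ → ℚ) (m : ℤ) : ℂ[X] →ₗ[ℂ] ℂ :=
  (Polynomial.basisMonomials ℂ).constr ℂ (fun s => ((c (m + s) : ℚ) : ℂ))

theorem psi_monomial (c : ℤ → ℚ) (m : ℤ) (s : ℕ) (a : ℂ) :
    psi c m (monomial s a) = a * ((c (m + s) : ℚ) : ℂ) := by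
  have h1 : psi c m (monomial s 1) = ((c (m + s) : ℚ) : ℂ) := by
    unfold psi
    have := (Polynomial.basisMonomials ℂ).constr_basis ℂ (fun s => ((c (m + s) : ℚ) : ℂ)) s
    rwa [Polynomial.coe_basisMonomials] at this
  have h2 : (monomial s a : ℂ[X]) = a • monomial s 1 := by
    rw [smul_monomial, smul_eq_mul, mul_one]
  rw [h2, map_smul, h1, smul_eq_mul]

theorem psi_eq_sum (c : ℤ → ℚ) (m : ℤ) (g : ℂ[X]) :
    psi c m g = g.sum fun s a => a * ((c (m + s) : ℚ) : ℂ) := by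
  conv_lhs => rw [← g.sum_monomial_eq]
  unfold Polynomial.sum
  rw [map_sum]
  exact Finset.sum_congr rfl fun s _ => psi_monomial c m s _

theorem psi_X_mul (c : ℤ → ℚ) (m : ℤ) (g : ℂ[X]) : psi c m (X * g) = psi c (m + 1) g := by
  induction g using Polynomial.induction_on' with
  | add p q hp hq => rw [mul_add, map_add, map_add, hp, hq]
  | monomial s a =>
    rw [X_mul_monomial, psi_monomial, psi_monomial]
    congr 3
    push_cast
    ring

theorem psi_map (c : ℤ → ℚ) (m : ℤ) (g : ℚ[X]) :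
    psi c m (g.map (algebraMap ℚ ℂ)) = ((g.sum fun s a => a * c (m + s) : ℚ) : ℂ) := by
  induction g using Polynomial.induction_on' with
  | add p q hp hq =>
    rw [Polynomial.map_add, map_add, hp, hq, ← Rat.cast_add, Polynomial.sum_add_index]
    · intro i; rw [zero_mul]
    · intro i a b; rw [add_mul]
  | monomial s a =>
    rw [Polynomial.map_monomial, psi_monomial,
      Polynomial.sum_monomial_index a (fun s a => a * c (m + s)) (zero_mul _), Rat.cast_mul]
    rfl

theorem psi_mul_eq_zero {c : ℤ → ℚ} {R : ℂ[X]} (h : ∀ m, psi c m R = 0) (g : ℂ[X]) :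
    ∀ m, psi c m (R * g) = 0 := by
  induction g using Polynomial.induction_on' with
  | add p q hp hq =>
    intro m
    rw [mul_add, map_add, hp m, hq m, add_zero]
  | monomial s a =>
    induction s with
    | zero =>
      intro m
      rw [monomial_zero_left, mul_comm, ← smul_eq_C_mul, map_smul, h m, smul_zero]
    | succ s ih =>
      intro m
      have e : R * monomial (s + 1) a = X * (R * monomial s a) := by
        rw [← X_mul_monomial]
        ring
      rw [e, psi_X_mul]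
      exact ih _

theorem psi_norm_le (c : ℤ → ℚ) (m : ℤ) (g : ℂ[X]) :
    ‖psi c m g‖ ≤ ∑ s ∈ g.support, ‖g.coeff s‖ * |(c (m + s) : ℝ)| := by
  rw [psi_eq_sum]
  unfold Polynomial.sum
  refine (norm_sum_le _ _).trans (Finset.sum_le_sum fun s _ => ?_)
  rw [norm_mul]
  apply le_of_eq
  congr 1
  rw [← Complex.ofReal_ratCast, Complex.norm_real, Real.norm_eq_abs]

section

variable {R : ℂ[X]} (hR : R.Separable) (hs : R.Splits)

include hR hs in
/-- Interpolation modulo a polynomial with simple roots. -/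
theorem psi_interp {c : ℤ → ℚ} (h : ∀ m, psi c m R = 0) (m : ℤ) (g : ℂ[X]) :
    psi c m g = ∑ α ∈ R.roots.toFinset, g.eval α *
      psi c m (Lagrange.basis R.roots.toFinset id α) := by
  classical
  have hR0 : R ≠ 0 := hR.ne_zero
  set d : ℂ[X] := g - ∑ α ∈ R.roots.toFinset, C (g.eval α) * Lagrange.basis R.roots.toFinset id α
    with hd
  have hroot : ∀ β ∈ R.roots.toFinset, d.eval β = 0 := by
    intro β hβ
    rw [hd, eval_sub, eval_finsetSum, Finset.sum_eq_single β]
    · rw [eval_mul, eval_C]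
      have := Lagrange.eval_basis_self (s := R.roots.toFinset) (v := (id : ℂ → ℂ))
        (Set.injOn_id _) hβ
      simp only [id] at this
      rw [this, mul_one, sub_self]
    · intro α hα hne
      have := Lagrange.eval_basis_of_ne (s := R.roots.toFinset) (v := (id : ℂ → ℂ)) hne hβ
      simp only [id] at this
      rw [eval_mul, this, mul_zero]
    · intro h; exact absurd hβ h
  have hdvd : R ∣ d := by
    by_cases hd0 : d = 0
    · rw [hd0]; exact dvd_zero _
    apply (Polynomial.Splits.dvd_iff_roots_le_roots hs hR0 hd0).2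
    rw [Multiset.le_iff_subset (Polynomial.nodup_roots hR)]
    intro β hβ
    exact (mem_roots hd0).2 (hroot β (Multiset.mem_toFinset.2 hβ))
  obtain ⟨e, he⟩ := hdvd
  have h0 : psi c m d = 0 := by rw [he]; exact psi_mul_eq_zero h e m
  rw [hd, map_sub, map_sum, sub_eq_zero] at h0
  rw [h0]
  refine Finset.sum_congr rfl fun α _ => ?_
  rw [← smul_eq_C_mul, map_smul, smul_eq_mul]

include hR hs in
theorem psi_basis_succ {c : ℤ → ℚ} (h : ∀ m, psi c m R = 0) (m : ℤ) {α : ℂ}
    (hα : α ∈ R.roots.toFinset) :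
    psi c (m + 1) (Lagrange.basis R.roots.toFinset id α) =
      α * psi c m (Lagrange.basis R.roots.toFinset id α) := by
  classical
  rw [← psi_X_mul, psi_interp hR hs h m, Finset.sum_eq_single α]
  · rw [eval_mul, eval_X]
    have := Lagrange.eval_basis_self (s := R.roots.toFinset) (v := (id : ℂ → ℂ))
      (Set.injOn_id _) hα
    simp only [id] at this
    rw [this, mul_one]
  · intro β hβ hne
    have := Lagrange.eval_basis_of_ne (s := R.roots.toFinset) (v := (id : ℂ → ℂ)) hne.symm hβ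
    simp only [id] at this
    rw [eval_mul, this, mul_zero, zero_mul]
  · intro h; exact absurd hα h

include hR hs in
theorem psi_basis_zpow {c : ℤ → ℚ} (h : ∀ m, psi c m R = 0) (m : ℤ) {α : ℂ}
    (hα : α ∈ R.roots.toFinset) (h0 : α ≠ 0) :
    psi c m (Lagrange.basis R.roots.toFinset id α) =
      α ^ m * psi c 0 (Lagrange.basis R.roots.toFinset id α) := by
  induction m using Int.induction_on with
  | zero => rw [zpow_zero, one_mul]
  | succ i ih => rw [psi_basis_succ hR hs h _ hα, ih, zpow_add_one₀ h0]; ring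
  | pred i ih =>
    have := psi_basis_succ hR hs h (-(i : ℤ) - 1) hα
    rw [sub_add_cancel, ih] at this
    apply mul_left_cancel₀ h0
    rw [← this, zpow_sub_one₀ h0]
    field_simp

end

/-- The functions that occur as degrees: positive, increasing, and growing at most like the
`n`-th power. -/
def Tame (n : ℕ) (Q : ℝ → ℝ) : Prop :=
  ∀ x l : ℝ, 0 < x → 1 ≤ l → 0 ≤ Q x ∧ Q x ≤ Q (l * x) ∧ Q (l * x) ≤ l ^ n * Q x

theorem recur_bound {q : ℕ} (hq : 1 < q) (n : ℕ) {R : ℚ[X]} (hR : R.Separable) (wt : ℂ → ℕ)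
    (hwt : ∀ α : ℂ, aeval α R = 0 → ‖α‖ = Real.sqrt q ^ wt α ∧ wt α ≤ 2 * n) (π : ℕ → ℚ[X])
    (hπ : ∀ α : ℂ, aeval α R = 0 → ∀ j ≤ 2 * n, aeval α (π j) = if j = wt α then 1 else 0) :
    ∃ C : ℝ, 0 < C ∧ ∀ (c : ℤ → ℚ) (Q : ℝ → ℝ),
      (∀ m : ℤ, (R.sum fun s a => a * c (m + s)) = 0) → Tame n Q →
      (∀ m : ℤ, |(c m : ℝ)| ≤ Q ((q : ℝ) ^ m)) → ∀ ρ : ℝ, 0 < ρ →
        |∑ j ∈ Finset.range (2 * n + 1), ρ ^ j * (((π j).sum fun s a => a * c s : ℚ) : ℝ)| ≤
          C * Q (ρ ^ 2) := by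
  classical
  set R' : ℂ[X] := R.map (algebraMap ℚ ℂ) with hR'
  have hsep : R'.Separable := hR.map
  have hspl : R'.Splits := IsAlgClosed.splits _
  set A := R'.roots.toFinset with hA
  have hmem : ∀ α, α ∈ A ↔ aeval α R = 0 := by
    intro α
    rw [hA, Multiset.mem_toFinset, mem_roots hsep.ne_zero, IsRoot.def, hR', eval_map_algebraMap]
  have hq0 : (0 : ℝ) < q := by exact_mod_cast (by omega : 0 < q)
  have hq1 : (1 : ℝ) ≤ q := by exact_mod_cast hq.le
  set K : ℂ → ℝ := fun α => ∑ s ∈ (Lagrange.basis A id α).support,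
    ‖(Lagrange.basis A id α).coeff s‖ * (q : ℝ) ^ (s * n) with hK
  have hK0 : ∀ α, 0 ≤ K α := fun α => Finset.sum_nonneg fun s _ => by positivity
  refine ⟨(q : ℝ) ^ n * (∑ α ∈ A, K α) + 1, by
    have : 0 ≤ (q : ℝ) ^ n * ∑ α ∈ A, K α :=
      mul_nonneg (by positivity) (Finset.sum_nonneg fun α _ => hK0 α)
    linarith, ?_⟩
  intro c Q hrec hQ hc ρ hρ
  have hpsi : ∀ m, psi c m R' = 0 := by
    intro m
    rw [hR', psi_map, hrec m, Rat.cast_zero]
  -- choose m
  obtain ⟨m, hm1, hm2⟩ := exists_mem_Ico_zpow (pow_pos hρ 2) (by exact_mod_cast hq : (1 : ℝ) < q)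
  have hqm : (0 : ℝ) < (q : ℝ) ^ m := zpow_pos hq0 m
  -- the value as a complex number
  have key : ((∑ j ∈ Finset.range (2 * n + 1),
      ρ ^ j * (((π j).sum fun s a => a * c s : ℚ) : ℝ) : ℝ) : ℂ) =
      ∑ α ∈ A, (ρ : ℂ) ^ wt α * psi c 0 (Lagrange.basis A id α) := by
    have e1 : ∀ j, ((((π j).sum fun s a => a * c s : ℚ) : ℝ) : ℂ) =
        ∑ α ∈ A, aeval α (π j) * psi c 0 (Lagrange.basis A id α) := by
      intro j
      have h1 := psi_interp hsep hspl hpsi 0 ((π j).map (algebraMap ℚ ℂ))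
      rw [psi_map] at h1
      simp only [zero_add] at h1
      rw [Complex.ofReal_ratCast, h1]
      exact Finset.sum_congr rfl fun α _ => by rw [eval_map_algebraMap]
    push_cast
    have e2 : ∀ j, ((((π j).sum fun s a => a * c s : ℚ)) : ℂ) =
        ∑ α ∈ A, aeval α (π j) * psi c 0 (Lagrange.basis A id α) := by
      intro j
      rw [← e1 j, Complex.ofReal_ratCast]
    simp only [e2]
    simp only [Finset.mul_sum]
    rw [Finset.sum_comm]
    refine Finset.sum_congr rfl fun α hα => ?_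
    have hα' := (hmem α).1 hα
    rw [Finset.sum_eq_single (wt α)]
    · rw [hπ α hα' _ (hwt α hα').2, if_pos rfl, one_mul]
    · intro j hj hne
      rw [hπ α hα' j (by have := Finset.mem_range.1 hj; omega), if_neg hne, zero_mul, mul_zero]
    · intro h
      exact absurd (Finset.mem_range.2 (by have := (hwt α hα').2; omega)) h
  have hterm : ∀ α ∈ A, ‖(ρ : ℂ) ^ wt α * psi c 0 (Lagrange.basis A id α)‖ ≤
      (q : ℝ) ^ n * K α * Q (ρ ^ 2) := by
    intro α hα
    obtain ⟨hw1, hw2⟩ := hwt α ((hmem α).1 hα)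
    have hsq : 0 < Real.sqrt q := Real.sqrt_pos.2 hq0
    have hα0 : α ≠ 0 := by
      intro h0
      rw [h0, norm_zero] at hw1
      exact absurd hw1.symm (pow_pos hsq _).ne'
    have h1 := psi_basis_zpow hsep hspl hpsi m hα hα0
    rw [← hA] at h1
    have h2 : ‖psi c m (Lagrange.basis A id α)‖ ≤ K α * Q ((q : ℝ) ^ m) := by
      refine (psi_norm_le _ _ _).trans ?_
      rw [hK, Finset.sum_mul]
      refine Finset.sum_le_sum fun s _ => ?_
      rw [mul_assoc]
      refine mul_le_mul_of_nonneg_left ?_ (norm_nonneg _)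
      refine (hc _).trans ?_
      have e : (q : ℝ) ^ (m + s) = (q : ℝ) ^ s * (q : ℝ) ^ m := by
        rw [zpow_add₀ hq0.ne', zpow_natCast, mul_comm]
      rw [e, pow_mul]
      exact (hQ _ _ hqm (one_le_pow₀ hq1)).2.2
    have h3 : ‖psi c 0 (Lagrange.basis A id α)‖ =
        ‖psi c m (Lagrange.basis A id α)‖ / ‖α‖ ^ m := by
      rw [h1, norm_mul, norm_zpow, mul_comm, mul_div_assoc,
        div_self (zpow_ne_zero _ (norm_ne_zero_iff.2 hα0)), mul_one]
    have hαm : ‖α‖ ^ m = Real.sqrt ((q : ℝ) ^ m) ^ wt α := by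
      have e1 : (Real.sqrt q ^ m) ^ 2 = (q : ℝ) ^ m := by
        rw [← zpow_natCast, ← zpow_mul, mul_comm, zpow_mul, zpow_natCast, Real.sq_sqrt hq0.le]
      rw [hw1, ← e1, Real.sqrt_sq (zpow_nonneg hsq.le m), ← zpow_natCast, ← zpow_natCast,
        ← zpow_mul, ← zpow_mul, mul_comm]
    have h5 : Q ((q : ℝ) ^ m) ≤ Q (ρ ^ 2) := by
      have hl : 1 ≤ ρ ^ 2 / (q : ℝ) ^ m := (one_le_div hqm).2 hm1
      have := (hQ _ _ hqm hl).2.1
      rwa [div_mul_cancel₀ _ hqm.ne'] at this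
    have hQ0 : 0 ≤ Q (ρ ^ 2) := (hQ _ 1 (pow_pos hρ 2) le_rfl).1
    have h6 : ρ ^ wt α / ‖α‖ ^ m ≤ (q : ℝ) ^ n := by
      rw [hαm, ← div_pow]
      have hs0 : 0 < Real.sqrt ((q : ℝ) ^ m) := Real.sqrt_pos.2 hqm
      have h7 : ρ / Real.sqrt ((q : ℝ) ^ m) ≤ Real.sqrt q := by
        rw [div_le_iff₀ hs0, ← Real.sqrt_mul hq0.le]
        apply Real.le_sqrt_of_sq_le
        rw [← zpow_one_add₀ hq0.ne', add_comm]
        exact hm2.le
      calc (ρ / Real.sqrt ((q : ℝ) ^ m)) ^ wt α ≤ Real.sqrt q ^ wt α :=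
            pow_le_pow_left₀ (by positivity) h7 _
        _ ≤ Real.sqrt q ^ (2 * n) :=
            pow_le_pow_right₀ (by rw [Real.one_le_sqrt]; exact hq1) hw2
        _ = (q : ℝ) ^ n := by rw [pow_mul, Real.sq_sqrt hq0.le]
    rw [norm_mul, h3, norm_pow, Complex.norm_real, Real.norm_eq_abs, abs_of_pos hρ]
    calc ρ ^ wt α * (‖psi c m (Lagrange.basis A id α)‖ / ‖α‖ ^ m)
        = (ρ ^ wt α / ‖α‖ ^ m) * ‖psi c m (Lagrange.basis A id α)‖ := by ring
      _ ≤ (q : ℝ) ^ n * (K α * Q ((q : ℝ) ^ m)) := by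
          apply mul_le_mul h6 h2 (norm_nonneg _) (by positivity)
      _ ≤ (q : ℝ) ^ n * (K α * Q (ρ ^ 2)) := by
          apply mul_le_mul_of_nonneg_left _ (by positivity)
          exact mul_le_mul_of_nonneg_left h5 (hK0 α)
      _ = _ := by ring
  have hQ0 : 0 ≤ Q (ρ ^ 2) := (hQ _ 1 (pow_pos hρ 2) le_rfl).1
  rw [← Real.norm_eq_abs, ← Complex.norm_real, key]
  refine (norm_sum_le _ _).trans ((Finset.sum_le_sum hterm).trans ?_)
  rw [← Finset.sum_mul, ← Finset.mul_sum]
  nlinarith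

end Pool.Agent.Lib.MP_77d3c1_ag
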