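import Pool.Agent.Lib.MP_77d3c1_ag.Count

/-!
# The secant map of the Fermat quintic
-/

set_option autoImplicit false
set_option linter.unusedSectionVars false

open MvPolynomial

namespace Pool.Agent.Lib.MP_77d3c1_ag

universe u v w

variable {k : Type u} [Field k] [CharP k 2] [IsAlgClosed k]

section algebra

theorem fin3_11 (c : Fin 3) : c + 1 + 1 = c + 2 := by fin_cases c <;> rfl
theorem fin3_12 (c : Fin 3) : c + 1 + 2 = c := by fin_cases c <;> rfl
theorem fin3_21 (c : Fin 3) : c + 2 + 1 = c := by fin_cases c <;> rfl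
theorem fin3_22 (c : Fin 3) : c + 2 + 2 = c + 1 := by fin_cases c <;> rfl
theorem fin3_ne1 (c : Fin 3) : c + 1 ≠ c := by fin_cases c <;> decide
theorem fin3_ne2 (c : Fin 3) : c + 2 ≠ c := by fin_cases c <;> decide
theorem fin3_ne12 (c : Fin 3) : c + 2 ≠ c + 1 := by fin_cases c <;> decide

theorem forall_fin3 {P : Fin 3 → Prop} (c : Fin 3) (h0 : P c) (h1 : P (c + 1)) (h2 : P (c + 2)) :
    ∀ i, P i := by
  intro i
  fin_cases c <;> fin_cases i <;> first | exact h0 | exact h1 | exact h2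

/-- The equation of the curve, for cyclically permuted coordinates. -/
theorem cyc {x : Fin 3 → k} (h : x 0 ^ 5 + x 1 ^ 5 + x 2 ^ 5 = 0) (c : Fin 3) :
    x c ^ 5 + x (c + 1) ^ 5 + x (c + 2) ^ 5 = 0 := by
  fin_cases c
  · exact h
  · show x 1 ^ 5 + x 2 ^ 5 + x 0 ^ 5 = 0
    linear_combination h
  · show x 2 ^ 5 + x 0 ^ 5 + x 1 ^ 5 = 0
    linear_combination h

/-- The cross product of two vectors. -/
def cr (x y : Fin 3 → k) : Fin 3 → k := fun c => x (c + 1) * y (c + 2) - x (c + 2) * y (c + 1)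

/-- The polynomial `(s^5 - t^5) / (s - t)`. -/
def ph (s t : k) : k := s ^ 4 + s ^ 3 * t + s ^ 2 * t ^ 2 + s * t ^ 3 + t ^ 4

/-- The auxiliary quantity `Φ_c`. -/
def Ph (x y : Fin 3 → k) (c : Fin 3) : k :=
  ph (x (c + 1) * y (c + 2)) (x (c + 2) * y (c + 1))

/-- The line through two points of the curve, in a form valid near the diagonal. -/
def Ml (c : Fin 3) (x y : Fin 3 → k) : Fin 3 → k := fun i =>
  if i = c then x (c + 1) * Ph x y (c + 2) + x (c + 2) * Ph x y (c + 1)
  else if i = c + 1 then x c * Ph x y (c + 2) else x c * Ph x y (c + 1)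

theorem cr_a (x y : Fin 3 → k) (c : Fin 3) :
    cr x y (c + 1) = x (c + 2) * y c - x c * y (c + 2) := by
  unfold cr
  rw [fin3_11, fin3_12]

theorem cr_b (x y : Fin 3 → k) (c : Fin 3) :
    cr x y (c + 2) = x c * y (c + 1) - x (c + 1) * y c := by
  unfold cr
  rw [fin3_21, fin3_22]

theorem Ph_a (x y : Fin 3 → k) (c : Fin 3) :
    Ph x y (c + 1) = ph (x (c + 2) * y c) (x c * y (c + 2)) := by
  unfold Ph
  rw [fin3_11, fin3_12]

theorem Ph_b (x y : Fin 3 → k) (c : Fin 3) :
    Ph x y (c + 2) = ph (x c * y (c + 1)) (x (c + 1) * y c) := by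
  unfold Ph
  rw [fin3_21, fin3_22]

theorem Ml_c (c : Fin 3) (x y : Fin 3 → k) : Ml c x y c =
    x (c + 1) * Ph x y (c + 2) + x (c + 2) * Ph x y (c + 1) := if_pos rfl

theorem Ml_a (c : Fin 3) (x y : Fin 3 → k) : Ml c x y (c + 1) = x c * Ph x y (c + 2) := by
  unfold Ml
  rw [if_neg (fin3_ne1 c), if_pos rfl]

theorem Ml_b (c : Fin 3) (x y : Fin 3 → k) : Ml c x y (c + 2) = x c * Ph x y (c + 1) := by
  unfold Ml
  rw [if_neg (fin3_ne2 c), if_neg (fin3_ne12 c)]

variable {x y : Fin 3 → k}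

theorem cr_ph (hx : x 0 ^ 5 + x 1 ^ 5 + x 2 ^ 5 = 0) (hy : y 0 ^ 5 + y 1 ^ 5 + y 2 ^ 5 = 0)
    (c : Fin 3) : cr x y (c + 1) * Ph x y (c + 1) = cr x y (c + 2) * Ph x y (c + 2) := by
  have h1 := cyc hx c
  have h2 := cyc hy c
  rw [cr_a, cr_b, Ph_a, Ph_b]
  unfold ph
  linear_combination y c ^ 5 * h1 - x c ^ 5 * h2

theorem cr_inc (x y : Fin 3 → k) (c : Fin 3) :
    x c * cr x y c + x (c + 1) * cr x y (c + 1) + x (c + 2) * cr x y (c + 2) = 0 := by
  rw [cr_a, cr_b]
  unfold cr
  ring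

/-- The two expressions for the line through two points are proportional. -/
theorem Ml_par (hx : x 0 ^ 5 + x 1 ^ 5 + x 2 ^ 5 = 0) (hy : y 0 ^ 5 + y 1 ^ 5 + y 2 ^ 5 = 0)
    (c : Fin 3) : ∀ i j, Ml c x y i * cr x y j = Ml c x y j * cr x y i := by
  have two : (2 : k) = 0 := CharTwo.two_eq_zero
  have h1 := cr_ph hx hy c
  have h2 := cr_inc x y c
  have hab : Ml c x y (c + 1) * cr x y (c + 2) = Ml c x y (c + 2) * cr x y (c + 1) := by
    rw [Ml_a, Ml_b]
    linear_combination -x c * h1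
  have hca : Ml c x y c * cr x y (c + 1) = Ml c x y (c + 1) * cr x y c := by
    rw [Ml_a, Ml_c]
    linear_combination x (c + 2) * h1 - Ph x y (c + 2) * h2 + (x (c + 1) * Ph x y (c + 2) *
      cr x y (c + 1) + x (c + 2) * cr x y (c + 2) * Ph x y (c + 2)) * two
  have hcb : Ml c x y c * cr x y (c + 2) = Ml c x y (c + 2) * cr x y c := by
    rw [Ml_b, Ml_c]
    linear_combination -x (c + 1) * h1 - Ph x y (c + 1) * h2 + (x (c + 2) * Ph x y (c + 1) *
      cr x y (c + 2) + x (c + 1) * cr x y (c + 1) * Ph x y (c + 1)) * two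
  refine forall_fin3 c ?_ ?_ ?_
  · refine forall_fin3 c ?_ ?_ ?_
    · rfl
    · exact hca
    · exact hcb
  · refine forall_fin3 c ?_ ?_ ?_
    · exact hca.symm
    · rfl
    · exact hab
  · refine forall_fin3 c ?_ ?_ ?_
    · exact hcb.symm
    · exact hab.symm
    · rfl

theorem ph_diag (s : k) : ph s s = s ^ 4 := by
  have two : (2 : k) = 0 := CharTwo.two_eq_zero
  unfold ph
  linear_combination 2 * s ^ 4 * two

/-- On the diagonal the line is the tangent line. -/
theorem Ml_diag (hx : x 0 ^ 5 + x 1 ^ 5 + x 2 ^ 5 = 0) (t : k) (c : Fin 3) :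
    Ml c x (fun i => t * x i) = fun i => (t ^ 4 * x c ^ 5) * x i ^ 4 := by
  have two : (2 : k) = 0 := CharTwo.two_eq_zero
  have h1 := cyc hx c
  have e1 : x (c + 2) * (t * x c) = x c * (t * x (c + 2)) := by ring
  have e2 : x c * (t * x (c + 1)) = x (c + 1) * (t * x c) := by ring
  apply _root_.funext
  refine forall_fin3 c ?_ ?_ ?_
  · rw [Ml_c, Ph_a, Ph_b, e1, e2, ph_diag, ph_diag]
    linear_combination (t ^ 4 * x c ^ 4) * h1 - t ^ 4 * x c ^ 9 * two
  · rw [Ml_a, Ph_b, e2, ph_diag]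
    ring
  · rw [Ml_b, Ph_a, e1, ph_diag]
    ring

theorem cr_smul (s t : k) (x y : Fin 3 → k) :
    cr (fun i => s * x i) (fun i => t * y i) = fun i => (s * t) * cr x y i := by
  funext i
  unfold cr
  ring

theorem par_of_cr (h : cr x y = 0) : ∀ i j, y i * x j = y j * x i := by
  have h0 : ∀ c, cr x y c = 0 := fun c => congrFun h c
  have key : ∀ c, y (c + 1) * x (c + 2) = y (c + 2) * x (c + 1) := by
    intro c
    have := h0 c
    unfold cr at this
    linear_combination -this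
  have key0 := key 0
  have key1 := key 1
  have key2 := key 2
  change y 1 * x 2 = y 2 * x 1 at key0
  change y 2 * x 0 = y 0 * x 2 at key1
  change y 0 * x 1 = y 1 * x 0 at key2
  intro i j
  fin_cases i <;> fin_cases j <;>
    first
      | rfl
      | exact key0
      | exact key1
      | exact key2
      | exact key0.symm
      | exact key1.symm
      | exact key2.symm

end algebra

/-- A vector of homogeneous coordinates of a point of the curve has two consecutive nonzero
coordinates. -/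
theorem exists_two {x : Fin 3 → k} (h0 : x ≠ 0) (hx : x 0 ^ 5 + x 1 ^ 5 + x 2 ^ 5 = 0) :
    ∃ c, x c ≠ 0 ∧ x (c + 1) ≠ 0 := by
  by_contra hcon
  push Not at hcon
  apply h0
  have e0 := hcon 0
  have e1 := hcon 1
  have e2 := hcon 2
  change x 0 ≠ 0 → x 1 = 0 at e0
  change x 1 ≠ 0 → x 2 = 0 at e1
  change x 2 ≠ 0 → x 0 = 0 at e2
  have key : x 0 = 0 ∧ x 1 = 0 ∧ x 2 = 0 := by
    have h5 : ∀ a : k, a ^ 5 = 0 → a = 0 := fun a h => (pow_eq_zero_iff (by norm_num)).1 h
    by_cases a0 : x 0 = 0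
    · by_cases a1 : x 1 = 0
      · refine ⟨a0, a1, h5 _ ?_⟩
        rw [a0, a1] at hx
        linear_combination hx
      · have a2 := e1 a1
        refine ⟨a0, h5 _ ?_, a2⟩
        rw [a0, a2] at hx
        linear_combination hx
    · have a1 := e0 a0
      by_cases a2 : x 2 = 0
      · refine ⟨h5 _ ?_, a1, a2⟩
        rw [a1, a2] at hx
        linear_combination hx
      · exact absurd (e2 a2) a0
  funext i
  fin_cases i
  · exact key.1
  · exact key.2.1
  · exact key.2.2

variable (k) in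
/-- The square of the curve. -/
noncomputable def sq : Set (Pt k (.prod P2 P2)) := pset (fset k) (fset k)

theorem sq_eqn {p : sq k} {x y : Fin 3 → k} (hx : Over P2 x p.1.1) (hy : Over P2 y p.1.2) :
    (x ≠ 0 ∧ x 0 ^ 5 + x 1 ^ 5 + x 2 ^ 5 = 0) ∧ (y ≠ 0 ∧ y 0 ^ 5 + y 1 ^ 5 + y 2 ^ 5 = 0) :=
  ⟨ceq (p := ⟨p.1.1, p.2.1⟩) hx, ceq (p := ⟨p.1.2, p.2.2⟩) hy⟩

/-- The point of the plane with coordinates the fourth powers. -/
theorem pow4_ne {x : Fin 3 → k} (hx : x ≠ 0) : (fun i => x i ^ 4) ≠ 0 := by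
  intro h
  apply hx
  funext i
  exact (pow_eq_zero_iff (by norm_num)).1 (congrFun h i)

theorem exists_over3 (p : Pt k P2) : ∃ x : Fin 3 → k, Over P2 x p := exists_over P2 p

theorem exists_smul3 {u w : Fin 3 → k} {p : Pt k P2} (hu : Over P2 u p) (hw : Over P2 w p) :
    ∃ t : k, t ≠ 0 ∧ w = fun i : Fin 3 => t * u i := exists_smul hu hw

theorem exists_sec (p : sq k) : ∃ r : Pt k P2, ∀ x y : Fin 3 → k, Over P2 x p.1.1 →
    Over P2 y p.1.2 → (cr x y ≠ 0 → Over P2 (cr x y) r) ∧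
      (cr x y = 0 → Over P2 (fun i : Fin 3 => x i ^ 4) r) := by
  obtain ⟨x₀, hx₀⟩ := exists_over3 p.1.1
  obtain ⟨y₀, hy₀⟩ := exists_over3 p.1.2
  have hcr : ∀ x y : Fin 3 → k, Over P2 x p.1.1 → Over P2 y p.1.2 →
      ∃ s t : k, s ≠ 0 ∧ t ≠ 0 ∧ x = (fun i => s * x₀ i) ∧ y = fun i => t * y₀ i := by
    intro x y hx hy
    obtain ⟨s, hs, h1⟩ := exists_smul3 hx₀ hx
    obtain ⟨t, ht, h2⟩ := exists_smul3 hy₀ hy
    exact ⟨s, t, hs, ht, h1, h2⟩
  by_cases h0 : cr x₀ y₀ = 0
  · refine ⟨Projectivization.mk k _ (pow4_ne (x := x₀) hx₀.1), ?_⟩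
    intro x y hx hy
    obtain ⟨s, t, hs, ht, rfl, rfl⟩ := hcr x y hx hy
    constructor
    · intro h
      exfalso
      apply h
      rw [cr_smul, h0]
      funext i
      simp
    · intro _
      have e : (fun i : Fin 3 => (s * x₀ i) ^ 4) =
          fun i : Fin 3 => s ^ 4 * x₀ i ^ 4 := by
        funext i
        ring
      rw [e]
      exact over_smul (hκ := inferInstance) ⟨pow4_ne (x := x₀) hx₀.1, rfl⟩ (pow_ne_zero _ hs)
  · refine ⟨Projectivization.mk k _ h0, ?_⟩
    intro x y hx hy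
    obtain ⟨s, t, hs, ht, rfl, rfl⟩ := hcr x y hx hy
    constructor
    · intro _
      rw [cr_smul]
      exact over_smul (hκ := inferInstance) ⟨h0, rfl⟩ (mul_ne_zero hs ht)
    · intro h
      exfalso
      apply h0
      funext i
      have h1 := congrFun h i
      rw [cr_smul] at h1
      exact (mul_eq_zero.1 h1).resolve_left (mul_ne_zero hs ht)

/-- The secant map, sending a pair of points to the line joining them, and a point of the diagonal
to the tangent line. -/
noncomputable def sec (p : sq k) : Pt k P2 := (exists_sec p).choose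

theorem over_sec {p : sq k} {x y : Fin 3 → k} (hx : Over P2 x p.1.1) (hy : Over P2 y p.1.2)
    (h : cr x y ≠ 0) : Over P2 (cr x y) (sec p) := ((exists_sec p).choose_spec x y hx hy).1 h

theorem over_sec' {p : sq k} {x y : Fin 3 → k} (hx : Over P2 x p.1.1) (hy : Over P2 y p.1.2)
    (h : cr x y = 0) : Over P2 (fun i : Fin 3 => x i ^ 4) (sec p) :=
  ((exists_sec p).choose_spec x y hx hy).2 h

theorem over_Ml {p : sq k} {x y : Fin 3 → k} (hx : Over P2 x p.1.1) (hy : Over P2 y p.1.2)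
    {c : Fin 3} (h : x c * Ph x y (c + 2) ≠ 0) : Over P2 (Ml c x y) (sec p) := by
  obtain ⟨⟨hx0, hx1⟩, ⟨hy0, hy1⟩⟩ := sq_eqn hx hy
  have hM : Ml c x y ≠ 0 := by
    intro h1
    have := congrFun h1 (c + 1)
    rw [Ml_a] at this
    exact h this
  by_cases h0 : cr x y = 0
  · obtain ⟨t, rfl⟩ := eq_smul_of_par hx0 (par_of_cr h0)
    have e : Ml c x (t • x) = fun i => (t ^ 4 * x c ^ 5) * x i ^ 4 := Ml_diag hx1 t c
    have h2 : t ^ 4 * x c ^ 5 ≠ 0 := by
      intro h2
      apply hM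
      rw [e, h2]
      funext i
      simp
    rw [e]
    exact over_smul (hκ := inferInstance) (over_sec' hx hy h0) h2
  · exact over_of_par (hκ := inferInstance) (over_sec hx hy h0) hM (Ml_par hx1 hy1 c)

section polynomials

/-- The ring of polynomials in the two blocks of coordinates. -/
abbrev RR (k : Type u) [Field k] := MvPolynomial (Amb.prod P2 P2).Idx k

/-- The first block of coordinates. -/
noncomputable def XI (k : Type u) [Field k] (i : Fin 3) : RR k :=
  X (Amb.inl (A := P2) (B := P2) i)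

/-- The second block of coordinates. -/
noncomputable def YI (k : Type u) [Field k] (i : Fin 3) : RR k :=
  X (Amb.inr (A := P2) (B := P2) i)

/-- The first block. -/
def bl (w : (Amb.prod P2 P2).Idx → k) : Fin 3 → k := fun i => w (Amb.inl (A := P2) (B := P2) i)

/-- The second block. -/
def br (w : (Amb.prod P2 P2).Idx → k) : Fin 3 → k := fun i => w (Amb.inr (A := P2) (B := P2) i)

/-- A vector from its two blocks. -/
def mkw (x y : Fin 3 → k) : (Amb.prod P2 P2).Idx → k := Amb.elim (A := P2) (B := P2) x y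

@[simp] theorem bl_mkw (x y : Fin 3 → k) : bl (mkw x y) = x := rfl

@[simp] theorem br_mkw (x y : Fin 3 → k) : br (mkw x y) = y := rfl

@[simp] theorem eval_XI (w : (Amb.prod P2 P2).Idx → k) (i : Fin 3) : eval w (XI k i) = bl w i :=
  eval_X _

@[simp] theorem eval_YI (w : (Amb.prod P2 P2).Idx → k) (i : Fin 3) : eval w (YI k i) = br w i :=
  eval_X _

@[simp] theorem dd_XI (w a : (Amb.prod P2 P2).Idx → k) (i : Fin 3) : dd (XI k i) w a = bl a i :=
  dd_X _ _ _

@[simp] theorem dd_YI (w a : (Amb.prod P2 P2).Idx → k) (i : Fin 3) : dd (YI k i) w a = br a i :=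
  dd_X _ _ _

variable (k) in
/-- The polynomials of the cross product. -/
noncomputable def crP (c : Fin 3) : RR k :=
  XI k (c + 1) * YI k (c + 2) - XI k (c + 2) * YI k (c + 1)

theorem eval_crP (w : (Amb.prod P2 P2).Idx → k) (c : Fin 3) :
    eval w (crP k c) = cr (bl w) (br w) c := by
  simp [crP, cr]

theorem dd_crP (w a : (Amb.prod P2 P2).Idx → k) (c : Fin 3) :
    dd (crP k c) w a = bl w (c + 1) * br a (c + 2) + br w (c + 2) * bl a (c + 1) -
      (bl w (c + 2) * br a (c + 1) + br w (c + 1) * bl a (c + 2)) := by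
  simp [crP]

/-- The polynomial `ph`. -/
noncomputable def phP (s t : RR k) : RR k := s ^ 4 + s ^ 3 * t + s ^ 2 * t ^ 2 + s * t ^ 3 + t ^ 4

theorem eval_phP (w : (Amb.prod P2 P2).Idx → k) (s t : RR k) :
    eval w (phP s t) = ph (eval w s) (eval w t) := by
  simp [phP, ph]

variable (k) in
/-- The polynomials `Φ_c`. -/
noncomputable def PhP (c : Fin 3) : RR k :=
  phP (XI k (c + 1) * YI k (c + 2)) (XI k (c + 2) * YI k (c + 1))

theorem eval_PhP (w : (Amb.prod P2 P2).Idx → k) (c : Fin 3) :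
    eval w (PhP k c) = Ph (bl w) (br w) c := by
  simp [PhP, Ph, eval_phP]

variable (k) in
/-- The polynomials of the line. -/
noncomputable def MlP (c : Fin 3) (i : Fin 3) : RR k :=
  if i = c then XI k (c + 1) * PhP k (c + 2) + XI k (c + 2) * PhP k (c + 1)
  else if i = c + 1 then XI k c * PhP k (c + 2) else XI k c * PhP k (c + 1)

theorem eval_MlP (w : (Amb.prod P2 P2).Idx → k) (c i : Fin 3) :
    eval w (MlP k c i) = Ml c (bl w) (br w) i := by
  unfold MlP Ml
  split_ifs <;> simp [eval_PhP]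

/-- The local representation of the secant map away from the diagonal. -/
theorem locRep_crP (c : Fin 3) :
    LocRep (A := .prod P2 P2) (B := P2) (sq k) sec (crP k c) (fun i : Fin 3 => crP k i) := by
  intro q w hw h0
  rw [eval_crP] at h0
  have h1 : cr (bl w) (br w) ≠ 0 := fun h => h0 (congrFun h c)
  have h2 := over_sec (p := q) hw.1 hw.2 h1
  have e : (fun i : Fin 3 => eval w (crP k i)) = cr (bl w) (br w) := by
    funext i
    exact eval_crP w i
  exact (congrArg (fun f => Over P2 f (sec q)) e).mpr h2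

/-- The local representation of the secant map near the diagonal. -/
theorem locRep_MlP (c : Fin 3) :
    LocRep (A := .prod P2 P2) (B := P2) (sq k) sec (XI k c * PhP k (c + 2))
      (fun i : Fin 3 => MlP k c i) := by
  intro q w hw h0
  rw [map_mul, eval_PhP, eval_XI] at h0
  have h2 := over_Ml (p := q) hw.1 hw.2 h0
  have e : (fun i : Fin 3 => eval w (MlP k c i)) = Ml c (bl w) (br w) := by
    funext i
    exact eval_MlP w c i
  exact (congrArg (fun f => Over P2 f (sec q)) e).mpr h2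

theorem isReg_sec : IsReg (A := .prod P2 P2) (B := P2) (sq k) sec := by
  intro p
  obtain ⟨x, hx⟩ := exists_over3 p.1.1
  obtain ⟨y, hy⟩ := exists_over3 p.1.2
  obtain ⟨⟨hx0, hx1⟩, ⟨hy0, hy1⟩⟩ := sq_eqn hx hy
  by_cases h0 : cr x y = 0
  · obtain ⟨c, hc1, hc2⟩ := exists_two hx0 hx1
    refine ⟨_, _, ?_, locRep_MlP c⟩
    intro w hw
    obtain ⟨s, hs, h1⟩ := exists_smul3 hx hw.1
    obtain ⟨t, ht, h2⟩ := exists_smul3 hy hw.2
    obtain ⟨r, rfl⟩ := eq_smul_of_par hx0 (par_of_cr h0)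
    have hr : r ≠ 0 := by
      rintro rfl
      apply hy0
      funext i
      simp
    have e1 : bl w = fun i => s * x i := h1
    have e2 : br w = fun i => t * (r * x i) := h2
    rw [map_mul, eval_PhP, eval_XI, e1, e2, Ph_b]
    have e3 : (s * x (c + 1)) * (t * (r * x c)) = (s * x c) * (t * (r * x (c + 1))) := by ring
    rw [e3, ph_diag]
    exact mul_ne_zero (mul_ne_zero hs hc1)
      (pow_ne_zero _ (mul_ne_zero (mul_ne_zero hs hc1) (mul_ne_zero ht (mul_ne_zero hr hc2))))
  · obtain ⟨c, hc⟩ := Function.ne_iff.1 h0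
    refine ⟨_, _, ?_, locRep_crP c⟩
    intro w hw
    obtain ⟨s, hs, h1⟩ := exists_smul3 hx hw.1
    obtain ⟨t, ht, h2⟩ := exists_smul3 hy hw.2
    have e1 : bl w = fun i => s * x i := h1
    have e2 : br w = fun i => t * y i := h2
    rw [eval_crP, e1, e2, cr_smul]
    exact mul_ne_zero (mul_ne_zero hs ht) hc

end polynomials

end Pool.Agent.Lib.MP_77d3c1_ag
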