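import Pool.Agent.Lib.MP_77d3c1_ag.Secant

/-!
# The hyperplane sections
-/

set_option autoImplicit false
set_option linter.unusedSectionVars false

open MvPolynomial

namespace Pool.Agent.Lib.MP_77d3c1_ag

universe u v w

variable {k : Type u} [Field k] [CharP k 2] [IsAlgClosed k]

variable (k) in
/-- The square of the curve, as a variety. -/
noncomputable abbrev XX : SPV k := (curve k).prod (curve k)

/-- The first projection. -/
def pr1 (p : sq k) : Pt k P2 := p.1.1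

/-- The second projection. -/
def pr2 (p : sq k) : Pt k P2 := p.1.2

theorem locRep_pr1 : LocRep (A := .prod P2 P2) (B := P2) (sq k) pr1 1 (fun i : Fin 3 => XI k i) := by
  intro q w hw _
  have e : (fun i : Fin 3 => eval w (XI k i)) = bl w := by
    funext i
    exact eval_XI w i
  exact (congrArg (fun f => Over P2 f (pr1 q)) e).mpr hw.1

theorem locRep_pr2 : LocRep (A := .prod P2 P2) (B := P2) (sq k) pr2 1 (fun i : Fin 3 => YI k i) := by
  intro q w hw _
  have e : (fun i : Fin 3 => eval w (YI k i)) = br w := by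
    funext i
    exact eval_YI w i
  exact (congrArg (fun f => Over P2 f (pr2 q)) e).mpr hw.2

theorem isReg_pr1 : IsReg (A := .prod P2 P2) (B := P2) (sq k) pr1 := fun p =>
  ⟨1, _, fun v _ => by simp, locRep_pr1⟩

theorem isReg_pr2 : IsReg (A := .prod P2 P2) (B := P2) (sq k) pr2 := fun p =>
  ⟨1, _, fun v _ => by simp, locRep_pr2⟩

/-- The Segre map. -/
noncomputable def seg (p : sq k) : Pt k (.proj (Fin 3 × Fin 3) inferInstance) :=
  tens (pr1 p) (pr2 p)

theorem seg_e1 (v w : (Amb.prod P2 P2).Idx → k) :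
    (fun ij : Fin 3 × Fin 3 => dd (XI k ij.1 * YI k ij.2) v w) =
      fun ij : Fin 3 × Fin 3 => bl v ij.1 * br w ij.2 + br v ij.2 * bl w ij.1 := by
  funext ij
  simp

theorem seg_e2 (v : (Amb.prod P2 P2).Idx → k) :
    (fun ij : Fin 3 × Fin 3 => eval v (XI k ij.1 * YI k ij.2)) =
      fun ij : Fin 3 × Fin 3 => bl v ij.1 * br v ij.2 := by
  funext ij
  simp

theorem seg_mem (v w : (Amb.prod P2 P2).Idx → k) (h1 : bl v ≠ 0) (h2 : br v ≠ 0)
    (h : (fun ij : Fin 3 × Fin 3 => dd (XI k ij.1 * YI k ij.2) v w) ∈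
          Submodule.span k {(fun ij : Fin 3 × Fin 3 => eval v (XI k ij.1 * YI k ij.2))}) :
    w ∈ Vert (Amb.prod P2 P2) v := by
  rw [seg_e1, seg_e2] at h
  exact vert_tens (u := bl v) (a := bl w) (w := br v) (b := br w) h1 h2 h

theorem isEmb_seg : IsEmb (XX k) (B := .proj (Fin 3 × Fin 3) inferInstance) seg where
  inj := fun p q h => Subtype.ext (Prod.ext (tens_inj h).1 (tens_inj h).2)
  imm := by
    intro p
    refine ⟨1 * 1, fun ij : Fin 3 × Fin 3 => XI k ij.1 * YI k ij.2, ?_,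
      LocRep.tens (A := .prod P2 P2) locRep_pr1 locRep_pr2, ?_⟩
    · intro v _
      simp
    · intro v hv w hw hmem
      exact (mem_vert _ _ _).1 (seg_mem v w hv.1.1 hv.2.1
        ((mem_vert (.proj (Fin 3 × Fin 3) inferInstance) _ _).2 hmem))

theorem isReg_seg : IsReg (A := .prod P2 P2) (sq k) seg := IsReg.tens isReg_pr1 isReg_pr2

/-- The map `P ⊗ Q ⊗ L ⊗ L ⊗ L`. -/
noncomputable def phi2 (p : sq k) : Pt k (.proj ((Fin 3 × Fin 3) × Fin 3) inferInstance) :=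
  tens (seg p) (sec p)

/-- The map `P ⊗ Q ⊗ L ⊗ L ⊗ L`. -/
noncomputable def phi3 (p : sq k) :
    Pt k (.proj (((Fin 3 × Fin 3) × Fin 3) × Fin 3) inferInstance) :=
  tens (phi2 p) (sec p)

/-- The map `P ⊗ Q ⊗ L ⊗ L ⊗ L`. -/
noncomputable def phi (p : sq k) :
    Pt k (.proj ((((Fin 3 × Fin 3) × Fin 3) × Fin 3) × Fin 3) inferInstance) :=
  tens (phi3 p) (sec p)

theorem isEmb_phi : IsEmb (XX k)
    (B := .proj ((((Fin 3 × Fin 3) × Fin 3) × Fin 3) × Fin 3) inferInstance) phi :=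
  IsEmb.tens (IsEmb.tens (IsEmb.tens isEmb_seg isReg_sec) isReg_sec) isReg_sec

/-- Points of the graph of a diagonal automorphism. -/
theorem mem_gr_iff {D : HomData k} {p : sq k} {x y : Fin 3 → k} (hx : Over P2 x p.1.1)
    (hy : Over P2 y p.1.2) :
    p.1 ∈ D.gr ↔ ∃ s : k, s ≠ 0 ∧ y = fun i : Fin 3 => s * D.T x i := by
  constructor
  · rintro ⟨hp, h⟩
    have h1 := D.over_fn (p := ⟨p.1.1, hp⟩) hx
    have h' : p.1.2 = (D.mor.fn ⟨p.1.1, hp⟩).1 := h
    have h2 : Over P2 y (D.mor.fn ⟨p.1.1, hp⟩).1 := (congrArg (Over P2 y) h').mp hy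
    exact exists_smul3 h1 h2
  · rintro ⟨s, hs, h⟩
    refine ⟨p.2.1, ?_⟩
    have h1 := over_smul (hκ := inferInstance) (D.over_fn (p := ⟨p.1.1, p.2.1⟩) hx) hs
    exact over_unique P2 y _ _ hy (by rw [h]; exact h1)

/-- The equation of the union of the graphs of the diagonal automorphisms. -/
theorem cr_zero_iff (R : Roots k) {x y : Fin 3 → k} (hx0 : x ≠ 0)
    (hx : x 0 ^ 5 + x 1 ^ 5 + x 2 ^ 5 = 0) (hy0 : y ≠ 0)
    (hy : y 0 ^ 5 + y 1 ^ 5 + y 2 ^ 5 = 0) (c : Fin 3) :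
    cr x y c = 0 ↔ ∃ i : Fin 5, ∃ s : k, s ≠ 0 ∧
      y = fun j : Fin 3 => s * (diagData c (R.z ^ (i : ℕ)) (R.z5 i)).T x j := by
  have hT : ∀ (i : ℕ) (j : Fin 3), (diagData c (R.z ^ i) (R.z5 i)).T x j =
      if j = c then R.z ^ i * x j else x j := fun i j => rfl
  have h5 : ∀ a : k, a ^ 5 = 0 → a = 0 := fun a h => (pow_eq_zero_iff (by norm_num)).1 h
  constructor
  · intro h
    unfold cr at h
    have ex := cyc hx c
    have ey := cyc hy c
    obtain ⟨s, hsa, hsb⟩ : ∃ s : k, y (c + 1) = s * x (c + 1) ∧ y (c + 2) = s * x (c + 2) := by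
      by_cases ha : x (c + 1) = 0
      · have hb : x (c + 2) ≠ 0 := by
          intro hb
          apply hx0
          rw [ha, hb] at ex
          have hc := h5 (x c) (by linear_combination ex)
          funext i
          exact forall_fin3 (P := fun i => x i = 0) c hc ha hb i
        refine ⟨y (c + 2) / x (c + 2), ?_, by field_simp⟩
        rw [ha, zero_mul, zero_sub, neg_eq_zero] at h
        rw [ha, mul_zero]
        exact (mul_eq_zero.1 h).resolve_left hb
      · refine ⟨y (c + 1) / x (c + 1), by field_simp, ?_⟩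
        field_simp
        linear_combination h
    have hs : s ≠ 0 := by
      rintro rfl
      apply hy0
      rw [zero_mul] at hsa hsb
      rw [hsa, hsb] at ey
      have hc := h5 (y c) (by linear_combination ey)
      funext i
      exact forall_fin3 (P := fun i => y i = 0) c hc hsa hsb i
    have hc5 : y c ^ 5 = (s * x c) ^ 5 := by
      rw [hsa, hsb] at ey
      linear_combination ey - s ^ 5 * ex
    obtain ⟨i, hi⟩ : ∃ i : Fin 5, y c = s * (R.z ^ (i : ℕ) * x c) := by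
      by_cases hc : x c = 0
      · refine ⟨0, ?_⟩
        rw [hc, mul_zero, mul_zero]
        apply h5
        rw [hc5, hc]
        ring
      · obtain ⟨i, hi⟩ := R.exists_z (η := y c / (s * x c)) (by
          rw [div_pow, hc5, div_self (pow_ne_zero _ (mul_ne_zero hs hc))])
        refine ⟨i, ?_⟩
        rw [← hi]
        field_simp
    refine ⟨i, s, hs, ?_⟩
    funext j
    refine forall_fin3 (P := fun j => y j = s * (diagData c (R.z ^ (i : ℕ)) (R.z5 i)).T x j)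
      c ?_ ?_ ?_ j
    · rw [hT, if_pos rfl]
      exact hi
    · rw [hT, if_neg (fin3_ne1 c)]
      exact hsa
    · rw [hT, if_neg (fin3_ne2 c)]
      exact hsb
  · rintro ⟨i, s, hs, h⟩
    have h1 : y (c + 1) = s * x (c + 1) := by
      rw [h]
      show s * (diagData c (R.z ^ (i : ℕ)) (R.z5 i)).T x (c + 1) = _
      rw [hT, if_neg (fin3_ne1 c)]
    have h2 : y (c + 2) = s * x (c + 2) := by
      rw [h]
      show s * (diagData c (R.z ^ (i : ℕ)) (R.z5 i)).T x (c + 2) = _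
      rw [hT, if_neg (fin3_ne2 c)]
    unfold cr
    rw [h1, h2]
    ring

theorem vz_pr1 (R : Roots k) (p : sq k) :
    VZ (A := .prod P2 P2) pr1 (0 : Fin 3) p ↔ ∃ i : Fin 5, p.1.1 = (zpt R 0 i).1 := by
  obtain ⟨x, hx⟩ := exists_over3 p.1.1
  rw [vz_iff (A := .prod P2 P2) (φ := pr1) (i := (0 : Fin 3)) (p := p) (u := x) hx]
  constructor
  · intro h
    obtain ⟨i, hi⟩ := exists_zpt R (p := ⟨p.1.1, p.2.1⟩) hx h
    exact ⟨i, congrArg Subtype.val hi⟩
  · rintro ⟨i, hi⟩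
    have h1 : Over P2 x (zpt R 0 i).1 := (congrArg (Over P2 x) hi).mp hx
    obtain ⟨t, ht, h⟩ := exists_smul3 (over_zpt R 0 i) h1
    rw [h]
    simp [zvec]

theorem vz_pr2 (R : Roots k) (p : sq k) :
    VZ (A := .prod P2 P2) pr2 (0 : Fin 3) p ↔ ∃ i : Fin 5, p.1.2 = (zpt R 0 i).1 := by
  obtain ⟨x, hx⟩ := exists_over3 p.1.2
  rw [vz_iff (A := .prod P2 P2) (φ := pr2) (i := (0 : Fin 3)) (p := p) (u := x) hx]
  constructor
  · intro h
    obtain ⟨i, hi⟩ := exists_zpt R (p := ⟨p.1.2, p.2.2⟩) hx h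
    exact ⟨i, congrArg Subtype.val hi⟩
  · rintro ⟨i, hi⟩
    have h1 : Over P2 x (zpt R 0 i).1 := (congrArg (Over P2 x) hi).mp hx
    obtain ⟨t, ht, h⟩ := exists_smul3 (over_zpt R 0 i) h1
    rw [h]
    simp [zvec]

theorem z_succ_ne (R : Roots k) (i : Fin 4) : R.z ^ ((i : ℕ) + 1) ≠ 1 := by
  intro h
  have h1 := R.hz.dvd_of_pow_eq_one _ h
  have := i.2
  have := Nat.le_of_dvd (by omega) h1
  omega

theorem vz_sec (R : Roots k) (c : Fin 3) (p : sq k) :
    VZ (A := .prod P2 P2) sec c p ↔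
      ∃ i : Fin 4, p.1 ∈ (diagData c (R.z ^ ((i : ℕ) + 1)) (R.z5 _)).gr := by
  obtain ⟨x, hx⟩ := exists_over3 p.1.1
  obtain ⟨y, hy⟩ := exists_over3 p.1.2
  obtain ⟨⟨hx0, hx1⟩, ⟨hy0, hy1⟩⟩ := sq_eqn hx hy
  have hT : ∀ (i : ℕ) (j : Fin 3), (diagData c (R.z ^ i) (R.z5 i)).T x j =
      if j = c then R.z ^ i * x j else x j := fun i j => rfl
  by_cases h0 : cr x y = 0
  · have hs := over_sec' (p := p) hx hy h0
    rw [vz_iff (A := .prod P2 P2) (φ := sec) (i := c) (p := p)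
      (u := fun i : Fin 3 => x i ^ 4) hs]
    obtain ⟨t, rfl⟩ := eq_smul_of_par hx0 (par_of_cr h0)
    have ht : t ≠ 0 := by
      rintro rfl
      apply hy0
      funext i
      simp
    constructor
    · intro h
      have hc : x c = 0 := (pow_eq_zero_iff (by norm_num)).1 h
      refine ⟨0, (mem_gr_iff hx hy).2 ⟨t, ht, ?_⟩⟩
      funext j
      rw [hT]
      split_ifs with hj
      · rw [hj, hc]
        simp [hc]
      · rfl
    · rintro ⟨i, hi⟩
      obtain ⟨s, hs, h⟩ := (mem_gr_iff hx hy).1 hi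
      have h1 : ∀ j, t * x j = s * (diagData c (R.z ^ ((i : ℕ) + 1)) (R.z5 _)).T x j :=
        fun j => congrFun h j
      obtain ⟨d, hd⟩ : ∃ d, d ≠ c ∧ x d ≠ 0 := by
        obtain ⟨d, hd1, hd2⟩ := exists_two hx0 hx1
        by_cases hdc : d = c
        · exact ⟨d + 1, by rw [← hdc]; exact fin3_ne1 d, hd2⟩
        · exact ⟨d, hdc, hd1⟩
      have h2 := h1 d
      rw [hT, if_neg hd.1] at h2
      have h3 := mul_right_cancel₀ hd.2 h2
      subst h3
      have h4 := h1 c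
      rw [hT, if_pos rfl] at h4
      have h5 := mul_left_cancel₀ ht h4
      have h6 : x c = 0 := by
        by_contra hc
        exact z_succ_ne R i (mul_right_cancel₀ hc (by rw [one_mul]; exact h5.symm))
      show x c ^ 4 = 0
      rw [h6]
      norm_num
  · have hs := over_sec (p := p) hx hy h0
    rw [vz_iff (A := .prod P2 P2) (φ := sec) (i := c) (p := p) (u := cr x y) hs,
      cr_zero_iff R hx0 hx1 hy0 hy1 c]
    constructor
    · rintro ⟨i, s, hs, h⟩
      by_cases hi : (i : ℕ) = 0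
      · exfalso
        apply h0
        have h1 : y = fun j => s * x j := by
          rw [h]
          funext j
          rw [hT, hi]
          split_ifs
          · rw [pow_zero, one_mul]
          · rfl
        funext j
        rw [h1]
        show x (j + 1) * (s * x (j + 2)) - x (j + 2) * (s * x (j + 1)) = 0
        ring
      · refine ⟨⟨(i : ℕ) - 1, by omega⟩, (mem_gr_iff hx hy).2 ⟨s, hs, ?_⟩⟩
        rw [h]
        funext j
        have hi' : (i : ℕ) - 1 + 1 = i := by omega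
        rw [hT, hT]
        simp only [hi']
    · rintro ⟨i, hi⟩
      obtain ⟨s, hs, h⟩ := (mem_gr_iff hx hy).1 hi
      exact ⟨⟨(i : ℕ) + 1, by omega⟩, s, hs, h⟩

/-- A tangent vector. -/
def tv (c : Fin 3) (x : Fin 3 → k) : Fin 3 → k := fun i =>
  if i = c then x (c + 1) ^ 4 else if i = c + 1 then x c ^ 4 else 0

theorem tv_eqn (c : Fin 3) (x : Fin 3 → k) :
    x 0 ^ 4 * tv c x 0 + x 1 ^ 4 * tv c x 1 + x 2 ^ 4 * tv c x 2 = 0 := by
  have two : (2 : k) = 0 := CharTwo.two_eq_zero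
  fin_cases c
  · show x 0 ^ 4 * x 1 ^ 4 + x 1 ^ 4 * x 0 ^ 4 + x 2 ^ 4 * 0 = 0
    linear_combination x 0 ^ 4 * x 1 ^ 4 * two
  · show x 0 ^ 4 * 0 + x 1 ^ 4 * x 2 ^ 4 + x 2 ^ 4 * x 1 ^ 4 = 0
    linear_combination x 1 ^ 4 * x 2 ^ 4 * two
  · show x 0 ^ 4 * x 2 ^ 4 + x 1 ^ 4 * 0 + x 2 ^ 4 * x 0 ^ 4 = 0
    linear_combination x 0 ^ 4 * x 2 ^ 4 * two

theorem tv_a (c : Fin 3) (x : Fin 3 → k) : tv c x (c + 1) = x c ^ 4 := by
  unfold tv
  rw [if_neg (fin3_ne1 c), if_pos rfl]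

theorem tv_b (c : Fin 3) (x : Fin 3 → k) : tv c x (c + 2) = 0 := by
  unfold tv
  rw [if_neg (fin3_ne2 c), if_neg (fin3_ne12 c)]

theorem cone_sq {p : sq k} {x y : Fin 3 → k} (hx : Over P2 x p.1.1) (hy : Over P2 y p.1.2) :
    mkw x y ∈ cone (sq k) := ⟨p.1, p.2, hx, hy⟩

/-- Tangent vectors in the first direction. -/
theorem mem_tang_sq {p : sq k} {x y : Fin 3 → k} (hx : Over P2 x p.1.1) (hy : Over P2 y p.1.2)
    {a b : Fin 3 → k} (ha : x 0 ^ 4 * a 0 + x 1 ^ 4 * a 1 + x 2 ^ 4 * a 2 = 0)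
    (hb : y 0 ^ 4 * b 0 + y 1 ^ 4 * b 1 + y 2 ^ 4 * b 2 = 0) :
    mkw a b ∈ tang (sq k) (mkw x y) :=
  (tang_pset (cone_sq hx hy) (mkw a b)).2
    ⟨(mem_tang_fset (v := x) ⟨p.1.1, p.2.1, hx⟩ a).2 ha,
      (mem_tang_fset (v := y) ⟨p.1.2, p.2.2, hy⟩ b).2 hb⟩

/-- The section `L_c` vanishes with multiplicity one. -/
theorem sz_sec {c : Fin 3} {p : sq k} {x y : Fin 3 → k} (hx : Over P2 x p.1.1)
    (hy : Over P2 y p.1.2) (h0 : cr x y c = 0) (h1 : cr x y (c + 1) ≠ 0) (hxc : x c ≠ 0)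
    (hyb : y (c + 2) ≠ 0) : SZ (A := .prod P2 P2) sec c p := by
  refine ⟨crP k (c + 1), fun i : Fin 3 => crP k i, mkw x y, ⟨hx, hy⟩, ?_, locRep_crP (c + 1), ?_,
    mkw (tv c x) 0, mem_tang_sq hx hy (tv_eqn c x) (by simp), ?_⟩
  · rw [eval_crP]
    exact h1
  · rw [eval_crP]
    exact h0
  · rw [dd_crP]
    simp only [bl_mkw, br_mkw, Pi.zero_apply, mul_zero, zero_add, tv_a, tv_b, sub_zero]
    exact mul_ne_zero hyb (pow_ne_zero _ hxc)

/-- The section `x_0` vanishes with multiplicity one. -/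
theorem sz_pr1 {p : sq k} {x y : Fin 3 → k} (hx : Over P2 x p.1.1) (hy : Over P2 y p.1.2)
    (h0 : x 0 = 0) : SZ (A := .prod P2 P2) pr1 (0 : Fin 3) p := by
  refine ⟨1, fun i : Fin 3 => XI k i, mkw x y, ⟨hx, hy⟩, by simp, locRep_pr1, ?_,
    mkw (Pi.single 0 1) 0, mem_tang_sq hx hy ?_ (by simp), ?_⟩
  · rw [eval_XI]
    exact h0
  · simp [h0]
  · simp

/-- The section `y_0` vanishes with multiplicity one. -/
theorem sz_pr2 {p : sq k} {x y : Fin 3 → k} (hx : Over P2 x p.1.1) (hy : Over P2 y p.1.2)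
    (h0 : y 0 = 0) : SZ (A := .prod P2 P2) pr2 (0 : Fin 3) p := by
  refine ⟨1, fun i : Fin 3 => YI k i, mkw x y, ⟨hx, hy⟩, by simp, locRep_pr2, ?_,
    mkw 0 (Pi.single 0 1), mem_tang_sq hx hy (by simp) ?_, ?_⟩
  · rw [eval_YI]
    exact h0
  · simp [h0]
  · simp

end Pool.Agent.Lib.MP_77d3c1_ag
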