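import Pool.Agent.Lib.MP_77d3c1_ag.CompGr
import Pool.Agent.Lib.MP_77d3c1_ag.Recur

/-!
# The sequence of the powers of Frobenius applied to a class
-/

set_option autoImplicit false

open Polynomial

namespace Pool.Agent.Lib.MP_77d3c1_ag

universe u v w

variable {k : Type u} [Field k] {K : Type v} [Field K] {X : SPV k}

namespace Weil

variable {W : Weil.{u, v, w} k K} {F : Mor X X} {Q : K} (hF : W.Deg F Q)

/-- `(id × F)^*` as an automorphism. -/
noncomputable def TE : W.H (X.prod X) ≃ₗ[K] W.H (X.prod X) :=
  LinearEquiv.ofBijective (W.T F) (bij_R hF)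

/-- The classes `((id × F)^*)^m E`, for integers `m`. -/
noncomputable def em (E : W.H (X.prod X)) (m : ℤ) : W.H (X.prod X) := (TE hF ^ m) E

theorem em_zero (E : W.H (X.prod X)) : em hF E 0 = E := by
  unfold em
  rw [zpow_zero]
  rfl

theorem T_em (E : W.H (X.prod X)) (m : ℤ) : W.T F (em hF E m) = em hF E (m + 1) := by
  unfold em
  rw [add_comm, zpow_add, zpow_one]
  rfl

include hF in
theorem T_injective : Function.Injective (W.T F) := (bij_R hF).1

include hF in
theorem gr_of_T {e : ℕ} {y : W.H (X.prod X)} (hy : W.T F y ∈ W.gr _ e) : y ∈ W.gr _ e := by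
  have := W.finite (X.prod X)
  have h1 : ∀ x ∈ W.gr (X.prod X) e, W.T F x ∈ W.gr (X.prod X) e := fun x hx => phiR_gr hx
  have h2 : Function.Injective ((W.T F).restrict h1) := by
    intro a b hab
    apply Subtype.ext
    apply T_injective hF
    exact congrArg Subtype.val hab
  obtain ⟨x, hx⟩ := (LinearMap.injective_iff_surjective.1 h2) ⟨_, hy⟩
  have h3 : W.T F x.1 = W.T F y := congrArg Subtype.val hx
  rw [← T_injective hF h3]
  exact x.2

/-- Induction on integers for the sequence `em`. -/
theorem em_induction {P : W.H (X.prod X) → Prop} {E : W.H (X.prod X)} (h0 : P E)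
    (h1 : ∀ y, P y → P (W.T F y)) (h2 : ∀ y, P (W.T F y) → P y) (m : ℤ) : P (em hF E m) := by
  induction m using Int.induction_on with
  | zero => rw [em_zero]; exact h0
  | succ i ih => rw [← T_em]; exact h1 _ ih
  | pred i ih =>
    apply h2
    rw [T_em, sub_add_cancel]
    exact ih

theorem em_gr {e : ℕ} {E : W.H (X.prod X)} (hE : E ∈ W.gr _ e) (m : ℤ) :
    em hF E m ∈ W.gr _ e :=
  em_induction hF (P := fun y => y ∈ W.gr _ e) hE (fun _ h => phiR_gr h)
    (fun _ h => gr_of_T hF h) m

theorem em_commute {e : ℕ} (he : Even e) {E : W.H (X.prod X)} (hE : E ∈ W.gr _ e)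
    (hs : W.Stable F Q E) (m : ℤ) : Commute (W.FS F) (W.op X (em hF E m)) := by
  refine em_induction hF (P := fun y => Commute (W.FS F) (W.op X y)) (commute_op hF he hE hs)
    ?_ ?_ m
  · intro y hy
    have e1 : W.op X (W.T F y) = W.FS F * W.op X y := op_phiR W F y
    rw [e1]
    exact (Commute.refl _).mul_right hy
  · intro y hy
    have e1 : W.op X (W.T F y) = W.FS F * W.op X y := op_phiR W F y
    rw [e1] at hy
    apply LinearMap.ext
    intro w
    apply (bij_F hF).1
    exact LinearMap.congr_fun hy.eq w

include hF in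
theorem phiLR_self {E : W.H (X.prod X)} (hs : W.Stable F Q E) :
    W.pull (phiLR F) E = Q • E := by
  apply W.ext_tr
  intro y
  obtain ⟨y, rfl⟩ := (bij_L hF).2 y
  obtain ⟨y, rfl⟩ := (bij_R hF).2 y
  rw [← phiLR_eq, ← map_mul, phiLR_eq, tr_phiL hF, tr_phiR hF, smul_mul_assoc, map_smul, hs,
    smul_eq_mul]

theorem phiL_em {E : W.H (X.prod X)} (hs : W.Stable F Q E) (m : ℤ) :
    W.pull (phiL F) (em hF E m) = Q • em hF E (m - 1) := by
  have key : ∀ m, W.T F (W.pull (phiL F) (em hF E m)) = Q • em hF E m := by
    intro m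
    have h : ∀ y, W.T F (W.pull (phiL F) y) = W.pull (phiLR F) y := fun y =>
      (W.phiLR_eq' F y).symm
    rw [h]
    refine em_induction hF (P := fun y => W.pull (phiLR F) y = Q • y) (phiLR_self hF hs) ?_ ?_ m
    · intro y hy
      have : W.pull (phiLR F) (W.T F y) = W.T F (W.pull (phiLR F) y) := by
        rw [phiLR_eq, phiLR_eq']
        show W.pull (phiL F) (W.pull (phiR F) (W.pull (phiR F) y)) =
          W.pull (phiR F) (W.pull (phiR F) (W.pull (phiL F) y))
        rw [← phiLR_eq, phiLR_eq', ← phiLR_eq, phiLR_eq']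
      rw [this, hy, map_smul]
    · intro y hy
      have : W.pull (phiLR F) (W.T F y) = W.T F (W.pull (phiLR F) y) := by
        rw [phiLR_eq, phiLR_eq']
        show W.pull (phiL F) (W.pull (phiR F) (W.pull (phiR F) y)) =
          W.pull (phiR F) (W.pull (phiR F) (W.pull (phiL F) y))
        rw [← phiLR_eq, phiLR_eq', ← phiLR_eq, phiLR_eq']
      apply T_injective hF
      rw [← this, hy, map_smul]
  apply T_injective hF
  rw [key, map_smul, T_em, sub_add_cancel]

theorem phiR_iter (E : W.H (X.prod X)) (t : ℕ) :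
    (W.pull (phiR F))^[t] E = em hF E t := by
  induction t with
  | zero => exact (em_zero hF E).symm
  | succ t ih =>
    rw [Function.iterate_succ_apply', ih]
    have := T_em hF E t
    push_cast
    exact this

theorem phiL_iter {E : W.H (X.prod X)} (hs : W.Stable F Q E) (t : ℕ) :
    (W.pull (phiL F))^[t] E = Q ^ t • em hF E (-t) := by
  induction t with
  | zero => rw [pow_zero, one_smul]; exact (em_zero hF E).symm
  | succ t ih =>
    rw [Function.iterate_succ_apply', ih, map_smul, phiL_em hF hs, smul_smul, ← pow_succ]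
    congr 2
    push_cast
    ring

variable [CharZero K]

theorem tr_aeval_em {E f : W.H (X.prod X)} {c : ℤ → ℚ}
    (hc : ∀ m, (c m : K) = W.tr _ (f * em hF E m)) (g : ℚ[X]) (m : ℤ) :
    W.tr _ (f * aeval (W.T F) (g.map (Rat.castHom K)) (em hF E m)) =
      ((g.sum fun s a => a * c (m + s) : ℚ) : K) := by
  induction g using Polynomial.induction_on' with
  | add p q hp hq =>
    rw [Polynomial.map_add, map_add (aeval _), LinearMap.add_apply, mul_add, map_add, hp, hq,
      ← Rat.cast_add, Polynomial.sum_add_index]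
    · intro i; rw [zero_mul]
    · intro i a b; rw [add_mul]
  | monomial n a =>
    rw [Polynomial.sum_monomial_index a (fun s a => a * c (m + s)) (zero_mul _)]
    induction n generalizing m with
    | zero =>
      rw [Polynomial.map_monomial, monomial_zero_left, aeval_C,
        Algebra.algebraMap_eq_smul_one, LinearMap.smul_apply, mul_smul_comm, map_smul,
        smul_eq_mul, Rat.cast_mul, Nat.cast_zero, add_zero, hc]
      rfl
    | succ n ih =>
      have e : (monomial (n + 1) (Rat.castHom K a) : K[X]) =
          monomial n (Rat.castHom K a) * Polynomial.X := by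
        rw [monomial_mul_X]
      have ih' := ih (m + 1)
      rw [Polynomial.map_monomial] at ih' ⊢
      rw [e, map_mul (aeval (W.T F)), aeval_X]
      show W.tr _ (f * aeval (W.T F) _ (W.T F (em hF E m))) = _
      rw [T_em, ih']
      congr 3
      push_cast
      ring

end Weil

end Pool.Agent.Lib.MP_77d3c1_ag
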