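import Mathlib

/-!
# Projective sets in classical terms

A projective variety is an irreducible Zariski closed subset of a product of projective spaces
(by the Segre embedding these are exactly the projective varieties).  The base field `k` is meant
to be algebraically closed.
-/

set_option autoImplicit false

open MvPolynomial

namespace Pool.Agent.Lib.MP_77d3c1_ag

universe u

/-- An ambient space: a projective space with homogeneous coordinates indexed by a finite type `κ`,
or a product of two ambient spaces. -/
inductive Amb : Type 1
  | proj (κ : Type) (h : Finite κ) : Amb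
  | prod (A B : Amb) : Amb

namespace Amb

/-- The index set of all the homogeneous coordinates. -/
def Idx : Amb → Type
  | proj κ _ => κ
  | prod A B => A.Idx ⊕ B.Idx

/-- A coordinate of the first factor. -/
def inl {A B : Amb} (i : A.Idx) : (Amb.prod A B).Idx := (Sum.inl i : A.Idx ⊕ B.Idx)

/-- A coordinate of the second factor. -/
def inr {A B : Amb} (i : B.Idx) : (Amb.prod A B).Idx := (Sum.inr i : A.Idx ⊕ B.Idx)

/-- The number of factors of the ambient space, that is, the dimension of the torus by which the
homogeneous coordinates may be rescaled. -/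
def rk : Amb → ℕ
  | proj _ _ => 1
  | prod A B => A.rk + B.rk

end Amb

variable {k : Type u} [Field k]

/-- The points of the ambient space: a product of projective spaces. -/
def Pt (k : Type u) [Field k] : Amb → Type u
  | .proj κ _ => Projectivization k (κ → k)
  | .prod A B => Pt k A × Pt k B

/-- `Over A v p`: the vector `v` is a vector of homogeneous coordinates of the point `p`. -/
def Over : (A : Amb) → (A.Idx → k) → Pt k A → Prop
  | .proj κ _, v, p => ∃ h : (v : κ → k) ≠ 0, Projectivization.mk k (v : κ → k) h = p
  | .prod A B, v, p => Over A (fun i => v (Amb.inl i)) p.1 ∧ Over B (fun i => v (Amb.inr i)) p.2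

/-- `Radial A v w`: the vector `v` moves in the direction `w` when its homogeneous coordinates are
rescaled. -/
def Radial : (A : Amb) → (A.Idx → k) → (A.Idx → k) → Prop
  | .proj κ _, v, w => ∃ c : k, ∀ i : κ, w i = c * v i
  | .prod A B, v, w => Radial A (fun i => v (Amb.inl i)) (fun i => w (Amb.inl i)) ∧
      Radial B (fun i => v (Amb.inr i)) (fun i => w (Amb.inr i))

/-- The directional derivative of the polynomial `f` at `v` in the direction `w`. -/
noncomputable def dd {τ : Type} (f : MvPolynomial τ k) (v w : τ → k) : k :=
  eval v (mkDerivation k (fun s => C (w s)) f)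

/-- The cone over a set of points: all the vectors of homogeneous coordinates of its points. -/
def cone {A : Amb} (S : Set (Pt k A)) : Set (A.Idx → k) := {v | ∃ p ∈ S, Over A v p}

/-- The common zeros of a set of polynomials. -/
def zset {A : Amb} (T : Set (MvPolynomial A.Idx k)) : Set (Pt k A) :=
  {p | ∀ f ∈ T, ∀ v, Over A v p → eval v f = 0}

/-- Zariski closed sets. -/
def IsCl {A : Amb} (S : Set (Pt k A)) : Prop := ∃ T : Set (MvPolynomial A.Idx k), S = zset T

/-- Irreducible sets (for the Zariski topology). -/
def IsIrr {A : Amb} (S : Set (Pt k A)) : Prop :=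
  S.Nonempty ∧ ∀ S₁ S₂ : Set (Pt k A), IsCl S₁ → IsCl S₂ → S ⊆ S₁ ∪ S₂ → S ⊆ S₁ ∨ S ⊆ S₂

/-- `w` is tangent at `v` to the cone over `S`. -/
def IsTang {A : Amb} (S : Set (Pt k A)) (v w : A.Idx → k) : Prop :=
  ∀ f : MvPolynomial A.Idx k, (∀ u ∈ cone S, eval u f = 0) → dd f v w = 0

theorem dd_C {τ : Type} (a : k) (v w : τ → k) : dd (C a) v w = 0 := by simp [dd]

theorem dd_X {τ : Type} (s : τ) (v w : τ → k) : dd (X s) v w = w s := by
  simp [dd, mkDerivation_X]

theorem dd_add {τ : Type} (f g : MvPolynomial τ k) (v w : τ → k) :
    dd (f + g) v w = dd f v w + dd g v w := by simp [dd]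

theorem dd_mul {τ : Type} (f g : MvPolynomial τ k) (v w : τ → k) :
    dd (f * g) v w = eval v f * dd g v w + eval v g * dd f v w := by
  simp [dd, Derivation.leibniz]

theorem dd_add_right {τ : Type} (f : MvPolynomial τ k) (v w w' : τ → k) :
    dd f v (w + w') = dd f v w + dd f v w' := by
  induction f using MvPolynomial.induction_on with
  | C a => simp [dd_C]
  | add p q hp hq => simp only [dd_add, hp, hq]; ring
  | mul_X p s hp => simp only [dd_mul, hp, dd_X, Pi.add_apply]; ring

theorem dd_smul_right {τ : Type} (f : MvPolynomial τ k) (v w : τ → k) (c : k) :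
    dd f v (c • w) = c * dd f v w := by
  induction f using MvPolynomial.induction_on with
  | C a => simp [dd_C]
  | add p q hp hq => simp only [dd_add, hp, hq]; ring
  | mul_X p s hp => simp only [dd_mul, hp, dd_X, Pi.smul_apply, smul_eq_mul]; ring

theorem isTang_add {A : Amb} {S : Set (Pt k A)} {v a b : A.Idx → k} (ha : IsTang S v a)
    (hb : IsTang S v b) : IsTang S v (a + b) := fun f hf => by
  rw [dd_add_right, ha f hf, hb f hf, add_zero]

theorem isTang_smul {A : Amb} {S : Set (Pt k A)} {v : A.Idx → k} (c : k) {a : A.Idx → k}
    (ha : IsTang S v a) : IsTang S v (c • a) := fun f hf => by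
  rw [dd_smul_right, ha f hf, mul_zero]

theorem isTang_zero {A : Amb} {S : Set (Pt k A)} {v : A.Idx → k} : IsTang S v 0 := fun f _ => by
  have := dd_smul_right f v 0 0
  simpa using this

/-- The tangent space, at a vector `v` of homogeneous coordinates, of the cone over `S`. -/
def tang {A : Amb} (S : Set (Pt k A)) (v : A.Idx → k) : Submodule k (A.Idx → k) where
  carrier := {w | IsTang S v w}
  add_mem' := isTang_add
  zero_mem' := isTang_zero
  smul_mem' := isTang_smul

/-- The dimension of the tangent space, at a vector `v` of homogeneous coordinates, of the cone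
over `S`. -/
noncomputable def tdim {A : Amb} (S : Set (Pt k A)) (v : A.Idx → k) : ℕ :=
  Module.finrank k (tang S v)

/-- `S` has dimension `d`: the tangent spaces of the cone over `S` have dimension at least `d`
plus the dimension of the torus of rescalings, with equality at some point. (For an irreducible
closed set over an algebraically closed field the generic point is smooth, so this is the usual
dimension.) -/
def HasDim {A : Amb} (S : Set (Pt k A)) (d : ℕ) : Prop :=
  (∀ v ∈ cone S, d + A.rk ≤ tdim S v) ∧ ∃ v ∈ cone S, tdim S v = d + A.rk

/-- The product of two sets of points. -/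
def pset {A B : Amb} (S : Set (Pt k A)) (S' : Set (Pt k B)) : Set (Pt k (.prod A B)) :=
  {p | p.1 ∈ S ∧ p.2 ∈ S'}

/-- The polynomials `Ψ` represent the map `φ : S → Pt k B` on the open set where `h` does not
vanish: if `v` is a vector of homogeneous coordinates of `q ∈ S` and `h(v) ≠ 0`, then
`(Ψ_i(v))_i` is a vector of homogeneous coordinates of `φ q`. -/
def LocRep {A B : Amb} (S : Set (Pt k A)) (φ : S → Pt k B) (h : MvPolynomial A.Idx k)
    (Ψ : B.Idx → MvPolynomial A.Idx k) : Prop :=
  ∀ (q : S) (v : A.Idx → k), Over A v q.1 → eval v h ≠ 0 → Over B (fun i => eval v (Ψ i)) (φ q)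

/-- Regular maps: in a neighbourhood of every point, `φ` is given by polynomials. -/
def IsReg {A B : Amb} (S : Set (Pt k A)) (φ : S → Pt k B) : Prop :=
  ∀ p : S, ∃ (h : MvPolynomial A.Idx k) (Ψ : B.Idx → MvPolynomial A.Idx k),
    (∀ v, Over A v p.1 → eval v h ≠ 0) ∧ LocRep S φ h Ψ

variable (k) in
/-- Smooth projective varieties (for `k` algebraically closed): irreducible closed subsets of
products of projective spaces, all of whose tangent spaces have the same dimension.  (The tangent
space at a point is the tangent space of the cone modulo the directions of rescaling, which form a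
space of dimension `amb.rk`.) -/
structure SPV where
  /-- the ambient product of projective spaces -/
  amb : Amb
  /-- the set of points -/
  carrier : Set (Pt k amb)
  closed : IsCl carrier
  irred : IsIrr carrier
  /-- the dimension -/
  dim : ℕ
  smooth : ∀ v ∈ cone carrier, tdim carrier v = dim + amb.rk

/-- Closed irreducible subvarieties of `V`, with their dimension. -/
structure Sub (V : SPV k) where
  /-- the set of points -/
  carrier : Set (Pt k V.amb)
  le : carrier ⊆ V.carrier
  closed : IsCl carrier
  irred : IsIrr carrier
  /-- the dimension -/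
  dim : ℕ
  hasDim : HasDim carrier dim

/-- Morphisms of varieties. -/
structure Mor (V W : SPV k) where
  /-- the map on points -/
  fn : V.carrier → W.carrier
  reg : IsReg V.carrier (fun p => (fn p).1)

end Pool.Agent.Lib.MP_77d3c1_ag
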