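import Pool.Agent.Lib.MP_77d3c1_ag.Growth

/-!
# The inequality for split polarizations
-/

set_option autoImplicit false

open Polynomial

namespace Pool.Agent.Lib.MP_77d3c1_ag

universe u v w

variable {k : Type u} [Field k] {K : Type v} [Field K] {X : SPV k}

/-- The polynomial which computes the degree of `G_r ∘ f`. -/
noncomputable def big (n : ℕ) (cov : Bool) (r : ℚ) (d : ℕ → ℕ) : ℚ :=
  ∑ i ∈ Finset.range (n + 1), ((n.choose i : ℚ) * d i) * lam n cov r (2 * i)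

theorem lam_pos (n : ℕ) (cov : Bool) {r : ℚ} (hr : 0 < r) (j : ℕ) : 0 < lam n cov r j := by
  unfold lam
  split_ifs
  · exact pow_pos hr _
  · exact pow_pos hr _

theorem lam_true {n : ℕ} {r : ℚ} (hr : 0 < r) {j : ℕ} (hj : j ≤ 2 * n) :
    lam n true r j = r ^ (2 * n) * (r⁻¹) ^ j := by
  have h0 : r ≠ 0 := hr.ne'
  unfold lam
  rw [if_pos rfl, inv_pow, ← div_eq_mul_inv, eq_div_iff (pow_ne_zero _ h0), ← pow_add,
    Nat.sub_add_cancel hj]

theorem big_false (n : ℕ) (r : ℚ) (d : ℕ → ℕ) :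
    ((big n false r d : ℚ) : ℝ) = dpoly n d ((r : ℝ) ^ 2) := by
  unfold big dpoly
  push_cast
  refine Finset.sum_congr rfl fun i _ => ?_
  unfold lam
  simp only [Bool.false_eq_true, if_false]
  push_cast
  rw [pow_mul]

theorem big_true {n : ℕ} {r : ℚ} (hr : 0 < r) (d : ℕ → ℕ) :
    ((big n true r d : ℚ) : ℝ) = (r : ℝ) ^ (2 * n) * dpoly n d (((r⁻¹ : ℚ) : ℝ) ^ 2) := by
  unfold big dpoly
  push_cast
  rw [Finset.mul_sum]
  refine Finset.sum_congr rfl fun i hi => ?_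
  rw [lam_true hr (by have := Finset.mem_range.1 hi; omega)]
  push_cast
  rw [pow_mul (r : ℝ)⁻¹]
  ring

namespace Weil

variable {W : Weil.{u, v, w} k K} {ξ ξ' : W.H X}

theorem pow_gr {V : SPV k} {x : W.H V} (hx : x ∈ W.gr V 2) (i : ℕ) : x ^ i ∈ W.gr V (2 * i) := by
  induction i with
  | zero => rw [pow_zero]; exact W.one_mem V
  | succ i ih =>
    rw [pow_succ]
    exact W.mul_mem V (2 * i) 2 _ _ ih hx

theorem eff_gr {φ : W.H (X.prod X)} (hφ : W.Eff X.dim φ) : φ ∈ W.gr _ (2 * X.dim) := by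
  refine eff_induction (P := fun x => x ∈ W.gr _ (2 * X.dim)) hφ (Submodule.zero_mem _)
    (fun x y hx hy => Submodule.add_mem _ hx hy) ?_
  intro Z hZ
  have h := W.cl_gr Z
  have e : 2 * ((X.prod X).dim - Z.dim) = 2 * X.dim := by
    have : (X.prod X).dim = X.dim + X.dim := rfl
    omega
  rwa [e] at h

theorem stable_eff {F : Mor X X} {Q : K} {J : Finset (Sub (X.prod X))}
    (hJ : ∀ E ∈ J, W.Stable F Q (W.cl E))
    (hJ' : ∀ Y : Sub (X.prod X), Y.dim = X.dim → ∃ c : Sub (X.prod X) → K,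
      ∑ E ∈ J, c E • W.cl E = W.cl Y) {φ : W.H (X.prod X)} (hφ : W.Eff X.dim φ) :
    W.Stable F Q φ := by
  refine eff_induction (P := fun x => W.Stable F Q x) hφ ?_ ?_ ?_
  · intro y
    rw [zero_mul, zero_mul, map_zero, mul_zero]
  · intro x y hx hy u
    rw [add_mul, add_mul, map_add, map_add, hx, hy, mul_add]
  · intro Y hY u
    obtain ⟨c, hc⟩ := hJ' Y hY
    rw [← hc, Finset.sum_mul, Finset.sum_mul, map_sum, map_sum, Finset.mul_sum]
    refine Finset.sum_congr rfl fun E hE => ?_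
    rw [smul_mul_assoc, smul_mul_assoc, map_smul, map_smul, hJ E hE u, smul_eq_mul, smul_eq_mul]
    ring

/-- The mixed degrees of `G_r ∘ f`. -/
theorem tr_mixed (hξ' : ξ' ∈ W.gr X 2) {cov : Bool} {r : ℚ}
    {g φ z : W.H (X.prod X)} (hg : W.IsGr X cov r g) (hz : W.IsComp X g φ z) {d : ℕ → ℕ}
    (hd : W.Degs ξ ξ' φ d) {i : ℕ} (hi : i ≤ X.dim) :
    W.tr _ (z * (W.dL ξ ^ (X.dim - i) * W.dR ξ' ^ i)) = (lam X.dim cov r (2 * i) : K) * d i := by
  rw [hd i hi]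
  unfold dL dR
  rw [← map_pow, ← map_pow]
  exact W.tr_comp hg hz _ (pow_gr hξ' i)

variable [CharZero K]

theorem tr_poly (H : W.SplitPos ξ ξ') {cov : Bool} {r : ℚ} {g φ z : W.H (X.prod X)} (hg : W.IsGr X cov r g)
    (hz : W.IsComp X g φ z) {d : ℕ → ℕ} (hd : W.Degs ξ ξ' φ d) (α β : ℚ) :
    W.tr _ (z * ((α : K) • W.dL ξ + (β : K) • W.dR ξ') ^ X.dim) =
      ((∑ i ∈ Finset.range (X.dim + 1), ((X.dim.choose i : ℚ) * d i) * lam X.dim cov r (2 * i) *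
        (α ^ (X.dim - i) * β ^ i) : ℚ) : K) := by
  rw [W.tr_add_pow (W.dL_comm H.gr _)]
  push_cast
  refine Finset.sum_congr rfl fun i hi => ?_
  rw [tr_mixed H.gr' hg hz hd (by have := Finset.mem_range.1 hi; omega)]
  ring

/-- The estimate for the intersection number with one prime cycle. -/
theorem key_bound (hP : W.HasPositivity) (H : W.SplitPos ξ ξ') {q : ℕ} (hq : 1 < q)
    {F : Mor X X} (hF : W.Deg F ((q : K) ^ X.dim)) (hη : W.pull F ξ = (q : K) • ξ)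
    (hη' : W.pull F ξ' = (q : K) • ξ') {R : ℚ[X]} {wt : ℂ → ℕ}
    {π : ℕ → ℚ[X]} (hR : R.Separable)
    (hwt : ∀ α : ℂ, aeval α R = 0 → ‖α‖ = Real.sqrt q ^ wt α ∧ wt α ≤ 2 * X.dim)
    (hπ : ∀ α : ℂ, aeval α R = 0 → ∀ j ≤ 2 * X.dim, aeval α (π j) = if j = wt α then 1 else 0)
    (hnil : IsNilpotent (aeval (W.FS F) (R.map (Rat.castHom K))))
    (hproj : W.Proj F (fun j => (π j).map (Rat.castHom K))) {E : Sub (X.prod X)}
    (hE : E.dim = X.dim) (hs : W.Stable F ((q : K) ^ X.dim) (W.cl E)) :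
    ∃ C : ℝ, 0 ≤ C ∧ ∀ (cov : Bool) (r : ℚ), 0 < r → ∀ g φ z : W.H (X.prod X),
      W.Eff X.dim φ → W.Stable F ((q : K) ^ X.dim) φ → W.IsGr X cov r g → W.IsComp X g φ z →
        ∀ d, W.Degs ξ ξ' φ d → ∃ e : ℚ, (e : K) = W.tr _ (z * W.cl E) ∧
          |(e : ℝ)| ≤ C * (big X.dim cov r d : ℚ) := by
  obtain ⟨C₁, hC₁, h1⟩ := em_bound hP H (by omega : q ≠ 0) hF hη hη' hE hs
  obtain ⟨C₂, hC₂, h2⟩ := recur_bound hq X.dim hR wt hwt π hπ
  refine ⟨C₂ * C₁, mul_nonneg hC₂.le (by exact_mod_cast hC₁), ?_⟩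
  intro cov r hr g φ z hφ hφs hg hz d hd
  choose c hc hc' using h1 φ hφ d hd
  have hev : Even (2 * X.dim) := ⟨X.dim, by ring⟩
  have hEgr : W.cl E ∈ W.gr _ (2 * X.dim) := by
    have h := eff_gr (W := W) (φ := W.cl E) (by rw [← hE]; exact eff_cl E)
    exact h
  have hrec : ∀ m : ℤ, (R.sum fun s a => a * c (m + s)) = 0 := by
    intro m
    have h3 := tr_aeval_em hF hc R m
    rw [tr_vanish hF hev hev (eff_gr hφ) hφs (em_gr hF hEgr m) (em_commute hF hev hEgr hs m)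
      hnil] at h3
    exact_mod_cast h3.symm
  have h4 := h2 c (fun x => C₁ * dpoly X.dim d x) hrec
    (tame_dpoly X.dim d (by exact_mod_cast hC₁)) hc'
  refine ⟨∑ j ∈ Finset.range (2 * X.dim + 1), lam X.dim cov r j * ((π j).sum fun s a => a * c s),
    ?_, ?_⟩
  · rw [tr_comp_proj hproj hg hz]
    push_cast
    refine Finset.sum_congr rfl fun j _ => ?_
    have h5 := tr_aeval_em hF hc (π j) 0
    rw [em_zero] at h5
    rw [h5]
    simp only [zero_add]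
  · have hr' : (0 : ℝ) < r := by exact_mod_cast hr
    cases cov
    · rw [big_false]
      have h5 := h4 r hr'
      rw [mul_assoc]
      refine le_trans (le_of_eq ?_) h5
      congr 1
      push_cast
      refine Finset.sum_congr rfl fun j _ => ?_
      unfold lam
      simp only [Bool.false_eq_true, if_false]
      push_cast
      rfl
    · rw [big_true hr]
      have h5 := h4 ((r⁻¹ : ℚ) : ℝ) (by exact_mod_cast inv_pos.2 hr)
      have e1 : ((∑ j ∈ Finset.range (2 * X.dim + 1), lam X.dim true r j *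
          ((π j).sum fun s a => a * c s) : ℚ) : ℝ) = (r : ℝ) ^ (2 * X.dim) *
          ∑ j ∈ Finset.range (2 * X.dim + 1), ((r⁻¹ : ℚ) : ℝ) ^ j *
            (((π j).sum fun s a => a * c s : ℚ) : ℝ) := by
        rw [Finset.mul_sum]
        push_cast
        refine Finset.sum_congr rfl fun j hj => ?_
        rw [lam_true hr (by have := Finset.mem_range.1 hj; omega)]
        push_cast
        ring
      rw [e1, abs_mul, abs_of_pos (pow_pos hr' _)]
      refine (mul_le_mul_of_nonneg_left h5 (pow_pos hr' _).le).trans (le_of_eq ?_)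
      ring

/-! ### Rational cycles -/

theorem cast_inter (hP : W.HasPositivity) {V : SPV k} {d : ℕ} (D : PCyc V d →₀ ℚ) (E : Sub V) :
    ((D.sum fun Z c => c * W.inter Z.1 E : ℚ) : K) = W.tr V (W.clQ D * W.cl E) := by
  unfold CohData.clQ
  rw [Finsupp.sum, Finsupp.sum, Finset.sum_mul, map_sum, Rat.cast_sum]
  refine Finset.sum_congr rfl fun Z _ => ?_
  rw [Rat.cast_mul, inter_cast hP]
  show _ = W.tr V ((D Z : K) • W.cl Z.1 * W.cl E)
  rw [smul_mul_assoc, map_smul, smul_eq_mul]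

omit [CharZero K] in
theorem ev_mapRange {V : SPV k} {d : ℕ} (D : PCyc V d →₀ ℚ) (E : Sub V) :
    W.ev d E (D.mapRange (fun q : ℚ => (q : ℝ)) Rat.cast_zero) =
      ((D.sum fun Z c => c * W.inter Z.1 E : ℚ) : ℝ) := by
  unfold ev
  rw [Finsupp.linearCombination_apply, Finsupp.sum_mapRange_index]
  · rw [Finsupp.sum, Finsupp.sum, Rat.cast_sum]
    refine Finset.sum_congr rfl fun Z _ => ?_
    rw [smul_eq_mul, Rat.cast_mul]
  · intro Z
    rw [zero_smul]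

theorem cast_deg {V : SPV k} {d : ℕ} (D : PCyc V d →₀ ℚ) {η : W.H V}
    (h : ∀ Z : Sub V, Z.dim = d → ∃ b : ℚ, (b : K) = W.tr V (W.cl Z * η ^ d)) :
    ((W.deg η D : ℚ) : K) = W.tr V (W.clQ D * η ^ d) := by
  unfold CohData.deg CohData.clQ
  rw [Finsupp.sum, Finsupp.sum, Finset.sum_mul, map_sum, Rat.cast_sum]
  refine Finset.sum_congr rfl fun Z _ => ?_
  obtain ⟨b, hb⟩ := h Z.1 Z.2
  have e : toRat (W.pair (W.cl Z.1) (W.power η d)) = b := toRat_eq hb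
  rw [e, Rat.cast_mul, hb]
  show _ = W.tr V ((D Z : K) • W.cl Z.1 * η ^ d)
  rw [smul_mul_assoc, map_smul, smul_eq_mul]

theorem big_le (n : ℕ) {α β : ℚ} (hα : 0 < α) (hβ : 0 < β) :
    ∃ C : ℚ, 0 < C ∧ ∀ (cov : Bool) (r : ℚ), 0 < r → ∀ d : ℕ → ℕ,
      big n cov r d ≤ C * ∑ i ∈ Finset.range (n + 1),
        ((n.choose i : ℚ) * d i) * lam n cov r (2 * i) * (α ^ (n - i) * β ^ i) := by
  have h0 : ∀ i, 0 < α ^ (n - i) * β ^ i := fun i => mul_pos (pow_pos hα _) (pow_pos hβ _)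
  refine ⟨∑ i ∈ Finset.range (n + 1), (α ^ (n - i) * β ^ i)⁻¹,
    Finset.sum_pos (fun i _ => inv_pos.2 (h0 i)) ⟨0, Finset.mem_range.2 (by omega)⟩, ?_⟩
  intro cov r hr d
  rw [Finset.mul_sum]
  refine Finset.sum_le_sum fun i hi => ?_
  have h1 : (α ^ (n - i) * β ^ i)⁻¹ ≤ ∑ i ∈ Finset.range (n + 1), (α ^ (n - i) * β ^ i)⁻¹ :=
    Finset.single_le_sum (f := fun i => (α ^ (n - i) * β ^ i)⁻¹)
      (fun i _ => (inv_pos.2 (h0 i)).le) hi
  have h2 : 0 ≤ ((n.choose i : ℚ) * d i) * lam n cov r (2 * i) :=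
    mul_nonneg (by positivity) (lam_pos n cov hr _).le
  calc ((n.choose i : ℚ) * d i) * lam n cov r (2 * i)
      = (α ^ (n - i) * β ^ i)⁻¹ * (((n.choose i : ℚ) * d i) * lam n cov r (2 * i) *
          (α ^ (n - i) * β ^ i)) := by
        field_simp [(h0 i).ne']
    _ ≤ _ := mul_le_mul_of_nonneg_right h1 (mul_nonneg h2 (h0 i).le)

/-- `F` multiplies `ξ` and `ξ'` by `q`, if it is the Frobenius endomorphism relative to a
sufficiently divisible power of `p`. -/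
def Fixed (p : ℕ) (ξ ξ' : W.H X) : Prop :=
  ∃ a, 0 < a ∧ ∀ (b : ℕ) (F : Mor X X), IsFrob (p ^ (a * b)) F →
    W.pull F ξ = ((p ^ (a * b) : ℕ) : K) • ξ ∧ W.pull F ξ' = ((p ^ (a * b) : ℕ) : K) • ξ'

/-- The uniform norm-degree bound for the combinations of `p₁^* ξ` and `p₂^* ξ'`. -/
theorem bound_general {p : ℕ} [hp : Fact p.Prime] [CharP k p] [IsAlgClosed k]
    (hk : FinFields p k) (hP : W.HasPositivity) (hF : W.HasFrobenius p) {ξ ξ' : W.H X}
    (H : W.SplitPos ξ ξ') (hfix : Fixed p ξ ξ') {α β : ℚ} (hα : 0 < α) (hβ : 0 < β) (cov : Bool)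
    {N : W.Num (X.prod X) X.dim → ℝ} (hN : W.IsNorm N) :
    W.Bound X cov ((α : K) • W.dL ξ + (β : K) • W.dR ξ') N := by
  classical
  obtain ⟨J, hJ, hJ'⟩ := W.exists_spanning (X.prod X) X.dim
  obtain ⟨a₁, ha₁, hs₁⟩ := exists_stab hk X.closed
  obtain ⟨a₂, ha₂, hs₂⟩ := exists_common J (fun E a => Stab (p ^ a) E.carrier)
    (fun E _ => exists_stab hk E.closed)
  obtain ⟨a₃, ha₃, hs₃⟩ := hfix
  obtain ⟨a, ha, b₁, b₂, b₃⟩ : ∃ a, a ≠ 0 ∧ a₁ ∣ a ∧ a₂ ∣ a ∧ a₃ ∣ a :=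
    ⟨a₁ * a₂ * a₃, by positivity, ⟨a₂ * a₃, by ring⟩, ⟨a₁ * a₃, by ring⟩, ⟨a₁ * a₂, by ring⟩⟩
  have hq : 1 < p ^ a := Nat.one_lt_pow ha hp.out.one_lt
  have hqK : ((p ^ a : ℕ) : K) ≠ 0 := Nat.cast_ne_zero.2 (by omega)
  obtain ⟨F, hfrob⟩ : ∃ F : Mor X X, IsFrob (p ^ a) F := by
    obtain ⟨b, rfl⟩ := b₁
    exact exists_frob (hs₁ b)
  have hD := deg_frob hF hqK hfrob
  obtain ⟨hη, hη'⟩ : W.pull F ξ = ((p ^ a : ℕ) : K) • ξ ∧
      W.pull F ξ' = ((p ^ a : ℕ) : K) • ξ' := by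
    obtain ⟨b, rfl⟩ := b₃
    exact hs₃ b F hfrob
  have hst : ∀ E ∈ J, W.Stable F (((p ^ a : ℕ) : K) ^ X.dim) (W.cl E) := by
    intro E hE
    refine stable_cl hF hfrob (hJ E hE) ?_
    obtain ⟨b, rfl⟩ := b₂
    exact hs₂ E hE b
  obtain ⟨R, wt, π, hR, hwt, hπ, hnil, hproj⟩ := exists_proj hF X hq hfrob
  have key : ∀ E : Sub (X.prod X), ∃ C : ℝ, 0 ≤ C ∧ (E ∈ J → ∀ (cov : Bool) (r : ℚ), 0 < r →
      ∀ g φ z : W.H (X.prod X), W.Eff X.dim φ → W.Stable F (((p ^ a : ℕ) : K) ^ X.dim) φ →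
        W.IsGr X cov r g → W.IsComp X g φ z →
        ∀ d, W.Degs ξ ξ' φ d → ∃ e : ℚ, (e : K) = W.tr _ (z * W.cl E) ∧
          |(e : ℝ)| ≤ C * (big X.dim cov r d : ℚ)) := by
    intro E
    by_cases hE : E ∈ J
    · obtain ⟨C, hC, h⟩ := key_bound hP H hq hD hη hη' hR hwt hπ hnil hproj (hJ E hE)
        (hst E hE)
      exact ⟨C, hC, fun _ => h⟩
    · exact ⟨0, le_rfl, fun h => absurd h hE⟩
  choose c hc0 hc using key
  have hdim : (X.prod X).dim - X.dim = X.dim := by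
    have : (X.prod X).dim = X.dim + X.dim := rfl
    omega
  obtain ⟨C, hC, hCN⟩ := norm_bound (V := X.prod X) (d := X.dim) hP (J := J)
    (by rw [hdim]; exact hJ) (by rw [hdim]; exact hJ') hN
  obtain ⟨B, hB, hbig⟩ := big_le X.dim hα hβ
  have hcs : 0 ≤ ∑ E ∈ J, c E := Finset.sum_nonneg fun E _ => hc0 E
  have hB' : (0 : ℝ) < B := by exact_mod_cast hB
  refine ⟨C * (∑ E ∈ J, c E) * B + 1, by positivity, ?_⟩
  intro r hr f _ D hrep
  obtain ⟨g, hg, hz⟩ := hrep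
  have hφ : W.Eff X.dim (W.clN f) := ⟨f, rfl⟩
  have hφs := stable_eff hst hJ' hφ
  obtain ⟨d, hd⟩ := exists_degs hP H hφ
  -- the degree
  have hdeg : W.deg ((α : K) • W.dL ξ + (β : K) • W.dR ξ') D =
      ∑ i ∈ Finset.range (X.dim + 1), ((X.dim.choose i : ℚ) * d i) *
        lam X.dim cov r (2 * i) * (α ^ (X.dim - i) * β ^ i) := by
    refine Rat.cast_injective (α := K) ?_
    rw [← tr_poly H hg hz hd]
    refine cast_deg D ?_
    intro Z hZ
    obtain ⟨d', hd'⟩ := exists_degs hP H (φ := W.cl Z) (by rw [← hZ]; exact eff_cl Z)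
    refine ⟨∑ i ∈ Finset.range (X.dim + 1), ((X.dim.choose i : ℚ) *
      α ^ (X.dim - i) * β ^ i) * d' i, ?_⟩
    rw [W.tr_add_pow (W.dL_comm H.gr _)]
    push_cast
    refine Finset.sum_congr rfl fun i hi => ?_
    rw [hd' i (by have := Finset.mem_range.1 hi; omega)]
  have hbig1 : ((big X.dim cov r d : ℚ) : ℝ) ≤ B *
      (W.deg ((α : K) • W.dL ξ + (β : K) • W.dR ξ') D : ℚ) := by
    have h := hbig cov r hr d
    rw [← hdeg] at h
    exact_mod_cast h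
  have hbig0 : (0 : ℝ) ≤ (big X.dim cov r d : ℚ) := by
    have : 0 ≤ big X.dim cov r d := Finset.sum_nonneg fun i _ =>
      mul_nonneg (by positivity) (lam_pos _ cov hr _).le
    exact_mod_cast this
  have hdeg0 : (0 : ℝ) ≤ (W.deg ((α : K) • W.dL ξ + (β : K) • W.dR ξ') D : ℚ) := by
    by_contra h
    push Not at h
    nlinarith [mul_neg_of_pos_of_neg hB' h]
  -- the norm
  have hev : ∀ E ∈ J, |W.ev X.dim E (D.mapRange (fun q : ℚ => (q : ℝ)) Rat.cast_zero)| ≤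
      c E * (big X.dim cov r d : ℚ) := by
    intro E hE
    obtain ⟨e, he, hle⟩ := hc E hE cov r hr g _ _ hφ hφs hg hz d hd
    have h3 : e = D.sum fun Z c => c * W.inter Z.1 E := by
      refine Rat.cast_injective (α := K) ?_
      rw [he, cast_inter hP]
    rw [ev_mapRange, ← h3]
    exact hle
  refine (hCN (D.mapRange (fun q : ℚ => (q : ℝ)) Rat.cast_zero)).trans ?_
  calc C * ∑ E ∈ J, |W.ev X.dim E (D.mapRange (fun q : ℚ => (q : ℝ)) Rat.cast_zero)|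
      ≤ C * ∑ E ∈ J, c E * (big X.dim cov r d : ℚ) :=
        mul_le_mul_of_nonneg_left (Finset.sum_le_sum hev) hC
    _ = C * (∑ E ∈ J, c E) * (big X.dim cov r d : ℚ) := by
        rw [← Finset.sum_mul]; ring
    _ ≤ C * (∑ E ∈ J, c E) * (B * (W.deg ((α : K) • W.dL ξ + (β : K) • W.dR ξ') D : ℚ)) :=
        mul_le_mul_of_nonneg_left hbig1 (mul_nonneg hC hcs)
    _ ≤ _ := by
        rw [add_mul, one_mul, mul_assoc (C * ∑ E ∈ J, c E)]
        exact le_add_of_nonneg_right hdeg0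

end Weil

end Pool.Agent.Lib.MP_77d3c1_ag
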