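import Pool.Agent.Lib.MP_77d3c1_ag.Coho

/-!
# The trace formula for correspondences
-/

set_option autoImplicit false

open TensorProduct

namespace Pool.Agent.Lib.MP_77d3c1_ag

universe u v w

variable {k : Type u} [Field k] {K : Type v} [Field K]

namespace Weil

variable (W : Weil.{u, v, w} k K)

/-- Künneth induction in a given degree. -/
theorem kunneth_induction_deg {V U : SPV k} {e : ℕ} {P : W.H (V.prod U) → Prop}
    (y : W.H (V.prod U)) (hy : y ∈ W.gr (V.prod U) e)
    (hom : ∀ i j, i + j = e → ∀ a ∈ W.gr V i, ∀ b ∈ W.gr U j,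
      P (W.pull (Mor.fst V U) a * W.pull (Mor.snd V U) b))
    (zero : P 0) (add : ∀ x y, P x → P y → P (x + y)) : P y := by
  classical
  let _ : DirectSum.Decomposition (W.gr (V.prod U)) := (W.isInternal _).chooseDecomposition _
  have key : ∀ z : W.H (V.prod U), P ((DirectSum.decompose (W.gr (V.prod U)) z e : _)) := by
    intro z
    refine W.kunneth_induction
      (P := fun z => P ((DirectSum.decompose (W.gr (V.prod U)) z e : _))) z ?_ ?_ ?_
    · intro i j a ha b hb
      have hmem := W.mul_mem _ i j _ _ (W.pull_gr (Mor.fst V U) i a ha)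
        (W.pull_gr (Mor.snd V U) j b hb)
      by_cases hij : i + j = e
      · rw [DirectSum.decompose_of_mem_same _ (hij ▸ hmem)]
        exact hom i j hij a ha b hb
      · rw [DirectSum.decompose_of_mem_ne _ hmem hij]
        exact zero
    · rw [DirectSum.decompose_zero]
      exact zero
    · intro x y hx hy
      rw [DirectSum.decompose_add]
      exact add _ _ hx hy
  have := key y
  rwa [DirectSum.decompose_of_mem_same _ hy] at this

/-- The Künneth map. -/
noncomputable def kun (V U : SPV k) : W.H V ⊗[K] W.H U →ₗ[K] W.H (V.prod U) :=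
  TensorProduct.lift ((LinearMap.mul K (W.H (V.prod U))).compl₁₂
    (W.pull (Mor.fst V U)).toLinearMap (W.pull (Mor.snd V U)).toLinearMap)

theorem kun_tmul {V U : SPV k} (a : W.H V) (b : W.H U) :
    W.kun V U (a ⊗ₜ b) = W.pull (Mor.fst V U) a * W.pull (Mor.snd V U) b := rfl

theorem kun_bijective (V U : SPV k) : Function.Bijective (W.kun V U) := by
  have h1 : Function.Surjective (W.kun V U) := by
    rw [← LinearMap.range_eq_top, eq_top_iff]
    intro z _
    refine Submodule.span_le.2 ?_ (W.span V U z)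
    rintro _ ⟨⟨a, b⟩, rfl⟩
    exact ⟨a ⊗ₜ b, W.kun_tmul a b⟩
  have := W.finite V
  have := W.finite U
  have := W.finite (V.prod U)
  refine ⟨(LinearMap.injective_iff_surjective_of_finrank_eq_finrank ?_).2 h1, h1⟩
  rw [Module.finrank_tensorProduct, W.finrank_prod]

/-- The Künneth isomorphism. -/
noncomputable def kunEquiv (V U : SPV k) : W.H V ⊗[K] W.H U ≃ₗ[K] W.H (V.prod U) :=
  LinearEquiv.ofBijective (W.kun V U) (W.kun_bijective V U)

theorem kunEquiv_symm {V U : SPV k} (a : W.H V) (b : W.H U) :
    (W.kunEquiv V U).symm (W.pull (Mor.fst V U) a * W.pull (Mor.snd V U) b) = a ⊗ₜ b := by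
  rw [LinearEquiv.symm_apply_eq]
  rfl

/-- The functional `w ↦ tr (w * a)`. -/
noncomputable def dl (V : SPV k) : W.H V →ₗ[K] Module.Dual K (W.H V) :=
  ((LinearMap.mul K (W.H V)).compr₂ (W.tr V)).flip

theorem dl_apply {V : SPV k} (a w : W.H V) : W.dl V a w = W.tr V (w * a) := rfl

variable {X : SPV k}

/-- The operator `p₁^* a * p₂^* b ↦ (w ↦ tr (w * a) b)`. -/
noncomputable def op (X : SPV k) : W.H (X.prod X) →ₗ[K] Module.End K (W.H X) :=
  (dualTensorHom K (W.H X) (W.H X)) ∘ₗ (TensorProduct.map (W.dl X) LinearMap.id) ∘ₗ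
    (W.kunEquiv X X).symm.toLinearMap

/-- The operator `p₁^* a * p₂^* b ↦ (w ↦ tr (w * b) a)`. -/
noncomputable def bop (X : SPV k) : W.H (X.prod X) →ₗ[K] Module.End K (W.H X) :=
  (dualTensorHom K (W.H X) (W.H X)) ∘ₗ (TensorProduct.map (W.dl X) LinearMap.id) ∘ₗ
    (TensorProduct.comm K _ _).toLinearMap ∘ₗ (W.kunEquiv X X).symm.toLinearMap

theorem op_apply (a b w : W.H X) :
    W.op X (W.pull (Mor.fst X X) a * W.pull (Mor.snd X X) b) w = W.tr X (w * a) • b := by
  show dualTensorHom K (W.H X) (W.H X) (TensorProduct.map (W.dl X) LinearMap.id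
    ((W.kunEquiv X X).symm (W.pull (Mor.fst X X) a * W.pull (Mor.snd X X) b))) w = _
  rw [W.kunEquiv_symm, TensorProduct.map_tmul, dualTensorHom_apply, W.dl_apply]
  rfl

theorem bop_apply (a b w : W.H X) :
    W.bop X (W.pull (Mor.fst X X) a * W.pull (Mor.snd X X) b) w = W.tr X (w * b) • a := by
  show dualTensorHom K (W.H X) (W.H X) (TensorProduct.map (W.dl X) LinearMap.id
    (TensorProduct.comm K _ _
      ((W.kunEquiv X X).symm (W.pull (Mor.fst X X) a * W.pull (Mor.snd X X) b)))) w = _
  rw [W.kunEquiv_symm, TensorProduct.comm_tmul, TensorProduct.map_tmul, dualTensorHom_apply,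
    W.dl_apply]
  rfl

theorem op_eq (a b : W.H X) : W.op X (W.pull (Mor.fst X X) a * W.pull (Mor.snd X X) b) =
    (W.dl X a).smulRight b := by
  ext w
  rw [W.op_apply]
  rfl

theorem bop_eq (a b : W.H X) : W.bop X (W.pull (Mor.fst X X) a * W.pull (Mor.snd X X) b) =
    (W.dl X b).smulRight a := by
  ext w
  rw [W.bop_apply]
  rfl

/-- Signs. -/
theorem tr_four {i j s t : ℕ} (ij : Even (i + j) ∨ Even (s + t)) {x y a b : W.H X}
    (hx : x ∈ W.gr X s) (hy : y ∈ W.gr X t) (ha : a ∈ W.gr X i) (hb : b ∈ W.gr X j) :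
    W.tr _ (W.pull (Mor.fst X X) x * W.pull (Mor.snd X X) y *
      (W.pull (Mor.fst X X) a * W.pull (Mor.snd X X) b)) =
      W.tr X (x * a) * W.tr X (b * y) := by
  have e1 : W.pull (Mor.snd X X) y * W.pull (Mor.fst X X) a =
      (-1 : K) ^ (t * i) • (W.pull (Mor.fst X X) a * W.pull (Mor.snd X X) y) :=
    W.mul_comm _ t i _ _ (W.pull_gr _ _ _ hy) (W.pull_gr _ _ _ ha)
  have e2 : y * b = (-1 : K) ^ (t * j) • (b * y) := W.mul_comm _ t j _ _ hy hb
  have e3 : W.pull (Mor.fst X X) x * W.pull (Mor.snd X X) y *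
      (W.pull (Mor.fst X X) a * W.pull (Mor.snd X X) b) =
      (-1 : K) ^ (t * i) • (W.pull (Mor.fst X X) (x * a) * W.pull (Mor.snd X X) (y * b)) := by
    calc W.pull (Mor.fst X X) x * W.pull (Mor.snd X X) y *
          (W.pull (Mor.fst X X) a * W.pull (Mor.snd X X) b)
        = W.pull (Mor.fst X X) x * (W.pull (Mor.snd X X) y * W.pull (Mor.fst X X) a) *
            W.pull (Mor.snd X X) b := by simp only [mul_assoc]
      _ = _ := by
          rw [e1, map_mul, map_mul]
          simp only [mul_smul_comm, smul_mul_assoc, mul_assoc]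
  rw [e3, e2, map_smul, map_smul (W.pull (Mor.snd X X)), mul_smul_comm, map_smul, W.tr_prod,
    smul_eq_mul, smul_eq_mul, ← mul_assoc, ← pow_add, ← Nat.mul_add]
  by_cases h1 : s + i = 2 * X.dim
  · by_cases h2 : j + t = 2 * X.dim
    · have hev : Even (t * (i + j)) := by
        apply Even.mul_left
        rcases ij with h | h
        · exact h
        · have : i + j + (s + t) = 2 * (2 * X.dim) := by omega
          rw [Nat.even_iff] at h ⊢
          omega
      rw [hev.neg_one_pow, one_mul]
    · rw [W.tr_gr X _ _ h2 (W.mul_mem X _ _ _ _ hb hy)]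
      ring
  · rw [W.tr_gr X _ _ h1 (W.mul_mem X _ _ _ _ hx ha)]
    ring

/-- The trace formula. -/
theorem trace_formula {e : ℕ} (he : Even e) (z : W.H (X.prod X)) {y : W.H (X.prod X)}
    (hy : y ∈ W.gr _ e) :
    W.tr _ (z * y) = LinearMap.trace K (W.H X) (W.bop X z * W.op X y) := by
  have := W.finite X
  refine W.kunneth_induction_deg (P := fun y => W.tr _ (z * y) =
    LinearMap.trace K (W.H X) (W.bop X z * W.op X y)) y hy ?_ ?_ ?_
  · intro i j hij a ha b hb
    refine W.kunneth_induction (P := fun z =>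
      W.tr _ (z * (W.pull (Mor.fst X X) a * W.pull (Mor.snd X X) b)) =
        LinearMap.trace K (W.H X) (W.bop X z * W.op X _)) z ?_ ?_ ?_
    · intro s t x hx y hy
      rw [W.tr_four (Or.inl (hij ▸ he)) hx hy ha hb, W.bop_eq, W.op_eq]
      have e1 : ((W.dl X y).smulRight x * (W.dl X a).smulRight b : Module.End K (W.H X)) =
          (W.tr X (b * y)) • (W.dl X a).smulRight x := by
        ext w
        show W.tr X ((W.tr X (w * a) • b) * y) • x = W.tr X (b * y) • W.tr X (w * a) • x
        rw [smul_mul_assoc, map_smul, smul_eq_mul, smul_smul, _root_.mul_comm]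
      have e2 : LinearMap.trace K (W.H X) ((W.dl X a).smulRight x) = W.tr X (x * a) := by
        have h := LinearMap.trace_eq_contract_apply (R := K) (M := W.H X) (W.dl X a ⊗ₜ x)
        rw [contractLeft_apply, W.dl_apply] at h
        rw [← h]
        congr 1
      rw [e1, map_smul, e2, smul_eq_mul, _root_.mul_comm]
    · simp
    · intro x y hx hy
      rw [add_mul, map_add, hx, hy, map_add, add_mul, map_add]
  · simp
  · intro x y hx hy
    rw [mul_add, map_add, hx, hy, map_add (W.op X), mul_add, map_add]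

/-- The operator `bop z` in terms of the pairing on the product. -/
theorem tr_bop {e : ℕ} (he : Even e) {z : W.H (X.prod X)} (hz : z ∈ W.gr _ e) (w u : W.H X) :
    W.tr X (W.bop X z w * u) =
      W.tr _ (z * (W.pull (Mor.fst X X) u * W.pull (Mor.snd X X) w)) := by
  refine W.kunneth_induction_deg (P := fun z => W.tr X (W.bop X z w * u) =
      W.tr _ (z * (W.pull (Mor.fst X X) u * W.pull (Mor.snd X X) w))) z hz ?_ ?_ ?_
  · intro s t hst x hx y hy
    refine W.hom_induction (P := fun u => W.tr X (W.bop X _ w * u) =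
      W.tr _ (_ * (W.pull (Mor.fst X X) u * W.pull (Mor.snd X X) w))) u ?_ ?_ ?_
    · intro i u hu
      refine W.hom_induction (P := fun w => W.tr X (W.bop X _ w * u) =
        W.tr _ (_ * (W.pull (Mor.fst X X) u * W.pull (Mor.snd X X) w))) w ?_ ?_ ?_
      · intro j w hw
        rw [W.tr_four (Or.inr (hst ▸ he)) hx hy hu hw, W.bop_apply, smul_mul_assoc, map_smul,
          smul_eq_mul, _root_.mul_comm]
      · simp
      · intro a b ha hb
        rw [map_add, add_mul, map_add, ha, hb, map_add (W.pull _), mul_add, mul_add, map_add]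
    · simp
    · intro a b ha hb
      rw [mul_add, map_add, ha, hb, map_add (W.pull _), add_mul, mul_add, map_add]
  · simp
  · intro a b ha hb
    rw [map_add, LinearMap.add_apply, add_mul, map_add, ha, hb, add_mul, map_add]

/-- The operator `op y` in terms of the pairing on the product. -/
theorem tr_op {e : ℕ} (he : Even e) {y : W.H (X.prod X)} (hy : y ∈ W.gr _ e) (w u : W.H X) :
    W.tr X (W.op X y w * u) =
      W.tr _ (y * (W.pull (Mor.fst X X) w * W.pull (Mor.snd X X) u)) := by
  refine W.kunneth_induction_deg (P := fun y => W.tr X (W.op X y w * u) =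
      W.tr _ (y * (W.pull (Mor.fst X X) w * W.pull (Mor.snd X X) u))) y hy ?_ ?_ ?_
  · intro s t hst a ha b hb
    refine W.hom_induction (P := fun u => W.tr X (W.op X _ w * u) =
      W.tr _ (_ * (W.pull (Mor.fst X X) w * W.pull (Mor.snd X X) u))) u ?_ ?_ ?_
    · intro i u hu
      refine W.hom_induction (P := fun w => W.tr X (W.op X _ w * u) =
        W.tr _ (_ * (W.pull (Mor.fst X X) w * W.pull (Mor.snd X X) u))) w ?_ ?_ ?_
      · intro j w hw
        rw [W.tr_four (Or.inr (hst ▸ he)) ha hb hw hu, W.op_apply, smul_mul_assoc, map_smul,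
          smul_eq_mul]
        have e1 : w * a = (-1 : K) ^ (j * s) • (a * w) := W.mul_comm X j s _ _ hw ha
        have e2 : b * u = (-1 : K) ^ (t * i) • (u * b) := W.mul_comm X t i _ _ hb hu
        rw [e1, e2, map_smul, map_smul, smul_eq_mul, smul_eq_mul]
        by_cases h1 : s + j = 2 * X.dim
        · by_cases h2 : i + t = 2 * X.dim
          · have hev : Even (j * s + t * i) := by
              have e3 : Even (s + j) := ⟨X.dim, by omega⟩
              have e4 : Even (i + t) := ⟨X.dim, by omega⟩
              have e5 : Even (s + t) := hst ▸ he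
              rw [Nat.even_add, Nat.even_mul, Nat.even_mul]
              rw [Nat.even_add] at e3 e4 e5
              tauto
            have e6 : ((-1 : K) ^ (j * s)) * (-1) ^ (t * i) = 1 := by
              rw [← pow_add, hev.neg_one_pow]
            linear_combination (W.tr X (a * w)) * (W.tr X (u * b)) * e6
          · rw [W.tr_gr X _ _ h2 (W.mul_mem X _ _ _ _ hu hb)]
            ring
        · rw [W.tr_gr X _ _ h1 (W.mul_mem X _ _ _ _ ha hw)]
          ring
      · simp
      · intro x y hx hy
        rw [map_add, add_mul, map_add, hx, hy, map_add (W.pull _), add_mul, mul_add, map_add]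
    · simp
    · intro x y hx hy
      rw [mul_add, map_add, hx, hy, map_add (W.pull _), mul_add, mul_add, map_add]
  · simp
  · intro x y hx hy
    rw [map_add, LinearMap.add_apply, add_mul, map_add, hx, hy, add_mul, map_add]

end Weil

end Pool.Agent.Lib.MP_77d3c1_ag
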