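import Pool.Agent.Lib.MP_77d3c1_ag.Basic

/-!
# Products, projections, composition
-/

set_option autoImplicit false

open MvPolynomial

namespace Pool.Agent.Lib.MP_77d3c1_ag

universe u

variable {k : Type u} [Field k]

/-- The identity. -/
noncomputable def Mor.id (V : SPV k) : Mor V V where
  fn := fun p => p
  reg := isReg_id V.carrier

/-- Composition. -/
def Mor.comp {V W U : SPV k} (ψ : Mor W U) (φ : Mor V W) : Mor V U where
  fn := fun p => ψ.fn (φ.fn p)
  reg := isReg_comp φ ψ

/-- The product of two varieties. -/
def SPV.prod (V W : SPV k) : SPV k where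
  amb := .prod V.amb W.amb
  carrier := pset V.carrier W.carrier
  closed := V.closed.pset W.closed
  irred := V.irred.pset W.irred
  dim := V.dim + W.dim
  smooth := smooth_prod V W

/-- The first projection. -/
noncomputable def Mor.fst (V W : SPV k) : Mor (V.prod W) V where
  fn := fun p => ⟨p.1.1, p.2.1⟩
  reg := isReg_fst V.carrier W.carrier

/-- The second projection. -/
noncomputable def Mor.snd (V W : SPV k) : Mor (V.prod W) W where
  fn := fun p => ⟨p.1.2, p.2.2⟩
  reg := isReg_snd V.carrier W.carrier

/-- The morphism to a product given by two morphisms. -/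
noncomputable def Mor.pair {U V W : SPV k} (φ : Mor U V) (ψ : Mor U W) : Mor U (V.prod W) where
  fn := fun p => ⟨((φ.fn p).1, (ψ.fn p).1), (φ.fn p).2, (ψ.fn p).2⟩
  reg := isReg_pr φ ψ

/-- The product of two subvarieties. -/
def Sub.prod {V W : SPV k} (Z : Sub V) (Z' : Sub W) : Sub (V.prod W) where
  carrier := pset Z.carrier Z'.carrier
  le := pset_mono Z.le Z'.le
  closed := Z.closed.pset Z'.closed
  irred := Z.irred.pset Z'.irred
  dim := Z.dim + Z'.dim
  hasDim := Z.hasDim.pset Z'.hasDim

/-- The whole variety, as a subvariety of itself. -/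
def Sub.whole (V : SPV k) : Sub V where
  carrier := V.carrier
  le := le_rfl
  closed := V.closed
  irred := V.irred
  dim := V.dim
  hasDim := hasDim_whole V

end Pool.Agent.Lib.MP_77d3c1_ag
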