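import Pool.Agent.Lib.MP_77d3c1_ag.Seq
import Pool.Agent.Lib.MP_77d3c1_ag.Polys
import Pool.Agent.Lib.MP_77d3c1_ag.FrobMor

/-!
# The weights of Frobenius, and its direct images
-/

set_option autoImplicit false

open Polynomial

namespace Pool.Agent.Lib.MP_77d3c1_ag

universe u v w

variable {k : Type u} [Field k] {K : Type v} [Field K] {X : SPV k}

namespace Weil

variable (W : Weil.{u, v, w} k K)

theorem polyAct_eq (F : Mor X X) (P : ℤ[X]) (x : W.H X) :
    W.polyAct F P x = aeval (W.FS F) (P.map (Int.castRingHom K)) x := by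
  have h1 : ∀ (m : ℕ), (W.FS F ^ m) x = (W.pb F)^[m] x := by
    intro m
    rw [Module.End.pow_apply]
    rfl
  rw [aeval_def, eval₂_map, eval₂_eq_sum, Polynomial.sum_def, LinearMap.sum_apply]
  unfold CohData.polyAct
  rw [Polynomial.sum_def]
  refine Finset.sum_congr rfl fun m _ => ?_
  rw [← h1]
  rw [RingHom.comp_apply, Algebra.algebraMap_eq_smul_one, smul_mul_assoc, one_mul,
    LinearMap.smul_apply]
  rfl

variable {W}

theorem aeval_kill {F : Mor X X} {A B : K[X]} (h : A ∣ B) {x : W.H X}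
    (hx : aeval (W.FS F) A x = 0) : aeval (W.FS F) B x = 0 := by
  obtain ⟨C, rfl⟩ := h
  rw [_root_.mul_comm, map_mul]
  show aeval (W.FS F) C (aeval (W.FS F) A x) = 0
  rw [hx, map_zero]

variable [CharZero K]

theorem map_map_cast (P : ℤ[X]) :
    (P.map (Int.castRingHom ℚ)).map (Rat.castHom K) = P.map (Int.castRingHom K) := by
  rw [Polynomial.map_map]
  congr 1
  exact Subsingleton.elim _ _

/-- The projectors, and the semisimple annihilating polynomial. -/
theorem exists_proj {p : ℕ} (hF : W.HasFrobenius p) (X : SPV k) {a : ℕ} (hq : 1 < p ^ a)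
    {F : Mor X X} (hfrob : IsFrob (p ^ a) F) :
    ∃ (R : ℚ[X]) (wt : ℂ → ℕ) (π : ℕ → ℚ[X]), R.Separable ∧
      (∀ α : ℂ, aeval α R = 0 → ‖α‖ = Real.sqrt (p ^ a : ℕ) ^ wt α ∧ wt α ≤ 2 * X.dim) ∧
      (∀ α : ℂ, aeval α R = 0 → ∀ j ≤ 2 * X.dim, aeval α (π j) = if j = wt α then 1 else 0) ∧
      IsNilpotent (aeval (W.FS F) (R.map (Rat.castHom K))) ∧
      W.Proj F (fun j => (π j).map (Rat.castHom K)) := by
  choose P hmon hroot hP using hF.weights a F hfrob
  have hP' : ∀ (i : ℕ), ∀ x ∈ W.gr X i,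
      aeval (W.FS F) (((P i).map (Int.castRingHom ℚ)).map (Rat.castHom K)) x = 0 := by
    intro i x hx
    rw [map_map_cast, ← polyAct_eq]
    exact hP i x hx
  obtain ⟨R, wt, π, hR, h1, h2, ⟨e, h3⟩, h4, h5⟩ := exists_polys hq X.dim P hmon (by
    intro j z hz
    have := hroot j z hz
    rw [this]
    push_cast
    rfl)
  have hmap : ∀ {A B : ℚ[X]}, A ∣ B → A.map (Rat.castHom K) ∣ B.map (Rat.castHom K) := by
    rintro A B ⟨C, rfl⟩
    exact ⟨C.map _, Polynomial.map_mul _⟩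
  refine ⟨R, wt, π, hR, h1, h2, ⟨e, ?_⟩, ?_, ?_⟩
  · apply LinearMap.ext
    intro x
    rw [← map_pow, ← Polynomial.map_pow]
    refine W.hom_induction (P := fun x => aeval (W.FS F) ((R ^ e).map (Rat.castHom K)) x = 0) x
      ?_ ?_ ?_
    · intro i x hx
      by_cases hi : i ≤ 2 * X.dim
      · exact aeval_kill (hmap (h3 i hi)) (hP' i x hx)
      · rw [W.vanish X i (by omega)] at hx
        rw [(Submodule.mem_bot K).1 hx, map_zero]
    · rw [map_zero]
    · intro x y hx hy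
      rw [map_add, hx, hy, add_zero]
  · intro j hj b hb
    have h := aeval_kill (hmap (h4 j hj)) (hP' j b hb)
    rw [Polynomial.map_sub, Polynomial.map_one, map_sub, map_one] at h
    exact sub_eq_zero.1 h
  · intro i hi j hj hij b hb
    exact aeval_kill (hmap (h5 j hj i hi hij.symm)) (hP' j b hb)

omit [CharZero K] in
theorem deg_frob {p : ℕ} (hF : W.HasFrobenius p) {a : ℕ} (hq : ((p ^ a : ℕ) : K) ≠ 0)
    {F : Mor X X} (hfrob : IsFrob (p ^ a) F) : W.Deg F (((p ^ a : ℕ) : K) ^ X.dim) where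
  ne := pow_ne_zero _ hq
  tr := by
    intro x
    have h := hF.degree a F hfrob (Sub.whole X) (fun x _ => (F.fn x).2) x
    have h' : W.tr X (((p : K) ^ a) ^ X.dim • W.cl (Sub.whole X) * x) =
      W.tr X (W.cl (Sub.whole X) * W.pull F x) := h
    rw [W.cl_whole, one_mul, smul_mul_assoc, one_mul, map_smul] at h'
    rw [← h']
    push_cast
    rfl

omit [CharZero K] in
theorem stable_cl {p : ℕ} (hF : W.HasFrobenius p) {a : ℕ} {F : Mor X X}
    (hfrob : IsFrob (p ^ a) F) {Z : Sub (X.prod X)} (hZ : Z.dim = X.dim)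
    (hs : Stab (p ^ a) Z.carrier) : W.Stable F (((p ^ a : ℕ) : K) ^ X.dim) (W.cl Z) := by
  intro y
  have hLR : IsFrob (p ^ a) (phiLR F) := hfrob.prod hfrob
  have h := hF.degree a (phiLR F) hLR Z (fun x hx => hLR.stab hs x hx) y
  have h' : W.tr _ (((p : K) ^ a) ^ Z.dim • W.cl Z * y) =
      W.tr _ (W.cl Z * W.pull (phiLR F) y) := h
  rw [← h', smul_mul_assoc, map_smul, hZ]
  push_cast
  rfl

omit [CharZero K] in
/-- `F` multiplies the classes of divisors defined over the finite field by `q`. -/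
theorem pull_divisor {p : ℕ} (hF : W.HasFrobenius p) {a : ℕ} (hq : ((p ^ a : ℕ) : K) ≠ 0)
    {F : Mor X X} (hfrob : IsFrob (p ^ a) F) {Z : Sub X} (hZ : Z.dim + 1 = X.dim)
    (hs : Stab (p ^ a) Z.carrier) : W.pull F (W.cl Z) = ((p ^ a : ℕ) : K) • W.cl Z := by
  have hD := deg_frob hF hq hfrob
  apply W.ext_tr
  intro y
  obtain ⟨y, rfl⟩ := (bij_F hD).2 y
  have h := hF.degree a F hfrob Z (fun x hx => hfrob.stab hs x hx) y
  have h' : W.tr _ (((p : K) ^ a) ^ Z.dim • W.cl Z * y) =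
      W.tr _ (W.cl Z * W.pull F y) := h
  rw [← map_mul, hD.tr, smul_mul_assoc, map_smul, ← h', smul_mul_assoc, map_smul, ← hZ]
  simp only [smul_eq_mul]
  push_cast
  ring

end Weil

end Pool.Agent.Lib.MP_77d3c1_ag
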