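import Pool.Agent.Lib.MP_77d3c1_ag.Variety

/-!
# Hyperplane sections and Weil cohomology theories
-/

set_option autoImplicit false

open MvPolynomial

namespace Pool.Agent.Lib.MP_77d3c1_ag

universe u v w

variable {k : Type u} [Field k]

/-- The regular map `φ` from `V` to a projective space is a closed embedding: it is injective, and
its differential is injective at every point.  (The differential at `p` is computed with a
polynomial representation `Ψ` of `φ` near `p`; tangent vectors are taken modulo the directions of
rescaling.) -/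
structure IsEmb (V : SPV k) {B : Amb} (φ : V.carrier → Pt k B) : Prop where
  inj : Function.Injective φ
  imm : ∀ p : V.carrier, ∃ (h : MvPolynomial V.amb.Idx k) (Ψ : B.Idx → MvPolynomial V.amb.Idx k),
    (∀ v, Over V.amb v p.1 → eval v h ≠ 0) ∧ LocRep V.carrier φ h Ψ ∧
      ∀ v, Over V.amb v p.1 → ∀ w, IsTang V.carrier v w →
        Radial B (fun i => eval v (Ψ i)) (fun i => dd (Ψ i) v w) → Radial V.amb v w

/-- The distinct codimension-one subvarieties `S i` are the components of the inverse image, by the
regular map `φ : V → ℙ`, of the hyperplane `ℓ = 0`, and each of them occurs in it with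
multiplicity one: at some point of `S i` the differential of `ℓ ∘ φ` does not vanish on the tangent
space of `V`.  So the divisor of the section `ℓ` of the line bundle `φ^* O(1)` is the sum of the
`S i`. -/
structure IsSection (V : SPV k) {κ : Type} {h : Finite κ} (φ : V.carrier → Pt k (.proj κ h))
    (ℓ : (κ → k) →ₗ[k] k) {ι : Type} (S : ι → Sub V) : Prop where
  inj : Function.Injective S
  codim : ∀ i, (S i).dim + 1 = V.dim
  zero : ∀ p : V.carrier, (∃ i, p.1 ∈ (S i).carrier) ↔
    ∀ v : κ → k, Over (.proj κ h) v (φ p) → ℓ v = 0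
  mult : ∀ i, ∃ p : V.carrier, p.1 ∈ (S i).carrier ∧
    ∃ (h : MvPolynomial V.amb.Idx k) (Ψ : κ → MvPolynomial V.amb.Idx k) (v : V.amb.Idx → k),
      Over V.amb v p.1 ∧ eval v h ≠ 0 ∧ LocRep V.carrier φ h Ψ ∧
        ∃ w, IsTang V.carrier v w ∧ ℓ (fun i => dd (Ψ i) v w) ≠ 0

/-- The reduced divisor `∑ i, S i` is very ample: it is a hyperplane section of a closed embedding
of `V` in a projective space. -/
def VeryAmple {V : SPV k} {ι : Type} (S : ι → Sub V) : Prop :=
  ∃ (κ : Type) (h : Finite κ) (φ : V.carrier → Pt k (.proj κ h)) (ℓ : (κ → k) →ₗ[k] k),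
    IsEmb V φ ∧ IsSection V φ ℓ S

/-- The points of the intersection of `Z` and `Y` are isolated and transversal. -/
def Transversal {V : SPV k} (Z Y : Sub V) : Prop :=
  (Z.carrier ∩ Y.carrier).Finite ∧ ∀ v ∈ cone (Z.carrier ∩ Y.carrier), ∀ w,
    IsTang Z.carrier v w → IsTang Y.carrier v w → Radial V.amb v w

/-- The data of a Weil cohomology theory for smooth projective varieties over `k`, with
coefficients in `K`. -/
structure CohData (k : Type u) [Field k] (K : Type v) [Field K] where
  /-- the cohomology ring `H^*(V)` -/
  H : SPV k → Type w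
  [ring : ∀ V, Ring (H V)]
  [algebra : ∀ V, Algebra K (H V)]
  /-- the graded piece `H^i(V)` -/
  gr : ∀ V, ℕ → Submodule K (H V)
  /-- the pull-back by a morphism -/
  pull : ∀ {V U : SPV k}, Mor V U → H U →ₐ[K] H V
  /-- the trace `H^{2n}(V) → K`, extended by zero to the other degrees -/
  tr : ∀ V, H V →ₗ[K] K
  /-- the cycle class -/
  cl : ∀ {V : SPV k}, Sub V → H V

attribute [instance] CohData.ring CohData.algebra

namespace CohData

variable {K : Type v} [Field K] (W : CohData.{u, v, w} k K) {V U T : SPV k}

/-- `x` is homogeneous of degree `i`. -/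
def Hom (i : ℕ) (x : W.H V) : Prop := x ∈ W.gr V i

/-- The product of cohomology classes. -/
def cup (x y : W.H V) : W.H V := x * y

/-- The product of a scalar and a cohomology class. -/
def scale (c : K) (x : W.H V) : W.H V := c • x

/-- The unit of the cohomology ring. -/
def one (V : SPV k) : W.H V := 1

/-- The powers of a cohomology class. -/
def power (x : W.H V) (n : ℕ) : W.H V := x ^ n

/-- The pull-back of cohomology classes. -/
def pb (φ : Mor V U) (x : W.H U) : W.H V := W.pull φ x

/-- The trace of a cohomology class. -/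
def trace (x : W.H V) : K := W.tr V x

/-- The pairing `(x, y) ↦ tr (x * y)`. -/
def pair (x y : W.H V) : K := W.trace (W.cup x y)

/-- The exterior product `p₁^* x * p₂^* y`. -/
noncomputable def ext (x : W.H V) (y : W.H U) : W.H (V.prod U) :=
  W.cup (W.pb (Mor.fst V U) x) (W.pb (Mor.snd V U) y)

/-- The total dimension of the cohomology. -/
noncomputable def rank (V : SPV k) : ℕ := Module.finrank K (W.H V)

/-- The class of the reduced divisor `∑ i, S i`. -/
noncomputable def clSum {ι : Type} [Fintype ι] (S : ι → Sub V) : W.H V := ∑ i, W.cl (S i)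

/-- `x` is an integral combination of cycle classes. -/
def Integral (x : W.H V) : Prop := x ∈ AddSubgroup.closure (Set.range (W.cl (V := V)))

/-- `x` is a linear combination of exterior products. -/
def Decomposable (x : W.H (V.prod U)) : Prop :=
  x ∈ Submodule.span K (Set.range fun p : W.H V × W.H U => W.ext p.1 p.2)

/-- The cohomology rings are finite-dimensional, graded-commutative, and vanish in degrees greater
than `2 dim V`. -/
structure IsGraded : Prop where
  finite : ∀ V, Module.Finite K (W.H V)
  isInternal : ∀ V, DirectSum.IsInternal (W.gr V)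
  one_mem : ∀ V, W.Hom 0 (W.one V)
  mul_mem : ∀ {V} (i j : ℕ) (x y : W.H V), W.Hom i x → W.Hom j y → W.Hom (i + j) (W.cup x y)
  mul_comm : ∀ {V} (i j : ℕ) (x y : W.H V), W.Hom i x → W.Hom j y →
    W.cup x y = W.scale ((-1) ^ (i * j)) (W.cup y x)
  vanish : ∀ V (i : ℕ), 2 * V.dim < i → W.gr V i = ⊥

/-- The pull-backs respect degrees and are functorial. -/
structure IsFunctorial : Prop where
  pull_gr : ∀ {V U : SPV k} (φ : Mor V U) (i : ℕ) (x : W.H U), W.Hom i x → W.Hom i (W.pb φ x)
  pull_id : ∀ {V : SPV k} (x : W.H V), W.pb (Mor.id V) x = x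
  pull_comp : ∀ {V U T : SPV k} (ψ : Mor U T) (φ : Mor V U) (x : W.H T),
    W.pb (ψ.comp φ) x = W.pb φ (W.pb ψ x)

/-- Poincaré duality: the trace is an isomorphism in degree `2 dim V` (it is non-zero by
`HasCycles.cl_point`), it vanishes in the other degrees, and the pairing `(x, y) ↦ tr (x * y)` is
non-degenerate. -/
structure HasDuality : Prop where
  tr_gr : ∀ {V} (i : ℕ) (x : W.H V), i ≠ 2 * V.dim → W.Hom i x → W.trace x = 0
  tr_inj : ∀ {V} (x : W.H V), W.Hom (2 * V.dim) x → W.trace x = 0 → x = 0
  duality : ∀ {V} (x : W.H V), (∀ y, W.pair x y = 0) → x = 0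

/-- The Künneth formula: the exterior product induces an isomorphism of `H(V) ⊗ H(U)` with
`H(V × U)` (it is surjective, and both spaces have the same dimension), compatible with the
traces. -/
structure HasKunneth : Prop where
  span : ∀ {V U : SPV k} (x : W.H (V.prod U)), W.Decomposable x
  rank : ∀ V U : SPV k, W.rank (V.prod U) = W.rank V * W.rank U
  tr_ext : ∀ {V U : SPV k} (x : W.H V) (y : W.H U), W.trace (W.ext x y) = W.trace x * W.trace y

/-- The cycle classes are in the right degrees, the classes of `V` and of a point are the right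
ones, and the cycle class is compatible with exterior products, direct images by embeddings and
products of cycles. -/
structure HasCycles : Prop where
  cl_gr : ∀ {V : SPV k} (Z : Sub V), W.Hom (2 * (V.dim - Z.dim)) (W.cl Z)
  cl_whole : ∀ V : SPV k, W.cl (Sub.whole V) = W.one V
  cl_point : ∀ {V : SPV k} (Z : Sub V) (p : Pt k V.amb), Z.carrier = {p} → W.trace (W.cl Z) = 1
  cl_prod : ∀ {V U : SPV k} (Z : Sub V) (Y : Sub U), W.cl (Z.prod Y) = W.ext (W.cl Z) (W.cl Y)
  /-- If `φ` has a retraction `ρ` (so that it is a closed embedding), then `φ_* 1` is the class of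
  the image of `φ`, where `φ_*` is the transpose of `φ^*` for Poincaré duality. -/
  cl_image : ∀ {V U : SPV k} (φ : Mor V U) (ρ : Mor U V), ρ.comp φ = Mor.id V →
    ∀ Z : Sub U, Z.carrier = Set.range (fun p => (φ.fn p).1) →
      ∀ x : W.H U, W.pair (W.cl Z) x = W.trace (W.pb φ x)
  /-- A product of algebraic classes is an integral combination of algebraic classes. -/
  cl_mul : ∀ {V : SPV k} (Z Y : Sub V), W.Integral (W.cup (W.cl Z) (W.cl Y))

/-- Transversal intersections and linear equivalence. -/
structure HasIntersections : Prop where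
  /-- If `Z` and `Y` have complementary dimensions and meet in finitely many points, transversally
  at each of them, then the degree of `cl Z * cl Y` is the number of these points. -/
  cl_transversal : ∀ {V : SPV k} (Z Y : Sub V), Z.dim + Y.dim = V.dim → Transversal Z Y →
    W.pair (W.cl Z) (W.cl Y) = (Z.carrier ∩ Y.carrier).ncard
  /-- Two (reduced) hyperplane sections for the same map to a projective space have the same
  class. -/
  cl_linearEquiv : ∀ {V : SPV k} {κ : Type} {h : Finite κ} (φ : V.carrier → Pt k (.proj κ h)),
    IsReg V.carrier φ → ∀ (ℓ ℓ' : (κ → k) →ₗ[k] k) {ι ι' : Type} [Fintype ι] [Fintype ι']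
      (S : ι → Sub V) (S' : ι' → Sub V), IsSection V φ ℓ S → IsSection V φ ℓ' S' →
        W.clSum S = W.clSum S'

/-- `W` is a Weil cohomology theory for smooth projective varieties over `k`. -/
structure IsWeil : Prop where
  isGraded : W.IsGraded
  isFunctorial : W.IsFunctorial
  hasDuality : W.HasDuality
  hasKunneth : W.HasKunneth
  hasCycles : W.HasCycles
  hasIntersections : W.HasIntersections

end CohData

end Pool.Agent.Lib.MP_77d3c1_ag
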